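import Pool.Agent.Work.MP_f194bb_nt.X.Ell
import Pool.Agent.Work.MP_f194bb_nt.Divs

/-!
# MP_f194bb_nt, `X_1(11)`: the field of elliptic functions generated by the coordinates
-/

set_option autoImplicit false

open scoped ComplexConjugate PeriodPair
open MeasureTheory Filter Topology

noncomputable section

namespace Pool.Agent.F194.X

variable (L : PeriodPair)

/-- the ring of the meromorphic periodic functions -/
def ffS : Subring (ℂ → ℂ) where
  carrier := {f | Meromorphic f ∧ Per L f}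
  mul_mem' := fun {f g} hf hg => ⟨fun z => (hf.1 z).mul (hg.1 z), fun l z => by
    rw [Pi.mul_apply, Pi.mul_apply, hf.2 l z, hg.2 l z]⟩
  one_mem' := ⟨fun z => MeromorphicAt.const 1 z, fun _ _ => rfl⟩
  add_mem' := fun {f g} hf hg => ⟨fun z => (hf.1 z).add (hg.1 z), fun l z => by
    rw [Pi.add_apply, Pi.add_apply, hf.2 l z, hg.2 l z]⟩
  zero_mem' := ⟨fun z => MeromorphicAt.const 0 z, fun _ _ => rfl⟩
  neg_mem' := fun {f} hf => ⟨fun z => (hf.1 z).neg, fun l z => by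
    rw [Pi.neg_apply, Pi.neg_apply, hf.2 l z]⟩

/-- the functions which vanish outside a discrete set -/
def ffI : Ideal (ffS L) where
  carrier := {f | (f : ℂ → ℂ) =ᶠ[codiscrete ℂ] 0}
  add_mem' := fun {f g} hf hg => by
    simp only [Set.mem_ofPred_eq] at hf hg ⊢
    have h := hf.add hg
    rw [add_zero] at h
    exact h
  zero_mem' := by
    simp only [Set.mem_ofPred_eq]
    exact EventuallyEq.rfl
  smul_mem' := fun c f hf => by
    simp only [Set.mem_ofPred_eq] at hf ⊢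
    have h := (EventuallyEq.refl (codiscrete ℂ) (c : ℂ → ℂ)).mul hf
    rw [mul_zero] at h
    exact h

variable {L}

theorem ff_codiscrete {p : ℂ → Prop} (h : ∀ z, ∀ᶠ w in 𝓝[≠] z, p w) : ∀ᶠ w in codiscrete ℂ, p w := by
  rw [Filter.Eventually, mem_codiscrete]
  intro z
  rw [disjoint_principal_right, compl_compl]
  exact h z

theorem ff_inv {f : ℂ → ℂ} (hf : Meromorphic f) (h : ¬ f =ᶠ[codiscrete ℂ] 0) :
    f * f⁻¹ =ᶠ[codiscrete ℂ] 1 := by
  have h0 : ∃ z, meromorphicOrderAt f z ≠ ⊤ := by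
    by_contra! hcon
    exact h (ff_codiscrete fun z => meromorphicOrderAt_eq_top_iff.1 (hcon z))
  obtain ⟨z₀, hz₀⟩ := h0
  have h1 : ∀ z, meromorphicOrderAt f z ≠ ⊤ := fun z => by
    have h2 : MeromorphicOn f Set.univ := fun z _ => hf z
    have h3 := (h2.exists_meromorphicOrderAt_ne_top_iff_forall ⟨⟨0, Set.mem_univ _⟩,
      isPreconnected_univ⟩).1 ⟨⟨z₀, Set.mem_univ _⟩, hz₀⟩
    exact h3 ⟨z, Set.mem_univ _⟩
  refine ff_codiscrete fun z => ?_
  filter_upwards [(meromorphicOrderAt_ne_top_iff_eventually_ne_zero (hf z)).1 (h1 z)] with w hw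
  rw [Pi.mul_apply, Pi.inv_apply, mul_inv_cancel₀ hw]
  rfl

theorem ffI_isMaximal : (ffI L).IsMaximal := by
  rw [Ideal.isMaximal_iff]
  refine ⟨fun h => ?_, fun J f hJ hf hfJ => ?_⟩
  · have h1 : (1 : ℂ → ℂ) =ᶠ[codiscrete ℂ] 0 := h
    have h2 := nhdsNE_of_codiscrete h1 0
    obtain ⟨w, hw⟩ := h2.exists
    simp at hw
  · have h1 : (f : ℂ → ℂ) * (f : ℂ → ℂ)⁻¹ =ᶠ[codiscrete ℂ] 1 := ff_inv f.2.1 hf
    let g : ffS L := ⟨(f : ℂ → ℂ)⁻¹, fun z => (f.2.1 z).inv, fun l z => by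
      rw [Pi.inv_apply, Pi.inv_apply, f.2.2 l z]⟩
    have h2 : 1 - f * g ∈ ffI L := by
      have h3 := (EventuallyEq.refl (codiscrete ℂ) (1 : ℂ → ℂ)).sub h1
      rw [sub_self] at h3
      exact h3
    have h4 : (1 : ffS L) = (1 - f * g) + f * g := by ring
    rw [h4]
    exact J.add_mem (hJ h2) (J.mul_mem_right _ hfJ)

theorem ff_px : Meromorphic (px L) := U_mero 0

theorem ff_pv : Meromorphic (pv L) := U_mero 3

theorem exists_rep {L : PeriodPair} (hL : XL L) : ∃ (K : Type) (_ : Field K) (ρ : EllRep L K)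
    (x v : K), Subfield.closure ({x, v} : Set K) = ⊤ ∧ ρ.ev x =ᶠ[codiscrete ℂ] px L ∧
      ρ.ev v =ᶠ[codiscrete ℂ] pv L := by
  have _ := hL
  have hmax := ffI_isMaximal (L := L)
  let _ : Field (ffS L ⧸ ffI L) := Ideal.Quotient.field (ffI L)
  let X : ffS L := ⟨px L, ff_px, px_per⟩
  let V : ffS L := ⟨pv L, ff_pv, pv_per⟩
  let F : Subfield (ffS L ⧸ ffI L) :=
    Subfield.closure {Ideal.Quotient.mk (ffI L) X, Ideal.Quotient.mk (ffI L) V}
  let ev₀ : (ffS L ⧸ ffI L) → ffS L := Function.surjInv Ideal.Quotient.mk_surjective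
  have hev₀ : ∀ q, Ideal.Quotient.mk (ffI L) (ev₀ q) = q :=
    Function.surjInv_eq Ideal.Quotient.mk_surjective
  have hI : ∀ f g : ffS L, Ideal.Quotient.mk (ffI L) f = Ideal.Quotient.mk (ffI L) g →
      (f : ℂ → ℂ) =ᶠ[codiscrete ℂ] g := fun f g h => by
    have h1 : f - g ∈ ffI L := (Ideal.Quotient.eq).1 h
    have h2 : (f : ℂ → ℂ) - (g : ℂ → ℂ) =ᶠ[codiscrete ℂ] 0 := h1
    filter_upwards [h2] with w hw
    exact sub_eq_zero.1 hw
  let ρ : EllRep L F :=
    { ev := fun k => ev₀ (k : ffS L ⧸ ffI L)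
      mero := fun k => (ev₀ k).2.1
      per := fun k => (ev₀ k).2.2
      map_one := hI _ 1 (by rw [hev₀]; rfl)
      map_add := fun f g => hI _ (ev₀ f + ev₀ g) (by rw [hev₀, map_add, hev₀, hev₀]; rfl)
      map_mul := fun f g => hI _ (ev₀ f * ev₀ g) (by rw [hev₀, map_mul, hev₀, hev₀]; rfl) }
  let x : F := ⟨Ideal.Quotient.mk (ffI L) X, Subfield.subset_closure (Or.inl rfl)⟩
  let v : F := ⟨Ideal.Quotient.mk (ffI L) V, Subfield.subset_closure (Or.inr rfl)⟩
  refine ⟨F, inferInstance, ρ, x, v, ?_, hI _ X (hev₀ _), hI _ V (hev₀ _)⟩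
  rw [eq_top_iff]
  rintro a -
  have h1 : (Subfield.closure ({x, v} : Set F)).map F.subtype = F := by
    rw [RingHom.map_field_closure]
    congr 1
    rw [Set.image_insert_eq, Set.image_singleton]
    rfl
  have h2 : (a : ffS L ⧸ ffI L) ∈ (Subfield.closure ({x, v} : Set F)).map F.subtype := by
    rw [h1]
    exact a.2
  obtain ⟨b, hb, hba⟩ := h2
  have h3 : b = a := Subtype.ext hba
  rwa [← h3]

end Pool.Agent.F194.X

end
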