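import Pool.Agent.Work.MP_f194bb_nt.X.Fun

/-!
# MP_f194bb_nt, the curve `X_1(11)`: existence of the period lattice

There is a lattice with `g₂ = 4/3`, `g₃ = -19/27` and a basis as in `XL`: for the rhombic lattices
`ℤ + ℤ (1/2 + i t)` the invariants are real and continuous in `t ≥ √3/2`, and
`361 g₂³ - 1728 g₃²` is negative at `t = √3/2` (where `g₂ = 0`) and positive for large `t`.
-/

set_option autoImplicit false

open scoped ComplexConjugate PeriodPair
open MeasureTheory Filter Topology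

noncomputable section

namespace Pool.Agent.F194.X

/-! ### `g₂` and `g₃` do not both vanish -/

/-- `℘'` vanishes at `ω₁ / 2`. -/
theorem lat_deriv_half (L : PeriodPair) : ℘'[L] (L.ω₁ / 2) = 0 := by
  have h1 := L.derivWeierstrassP_neg (L.ω₁ / 2)
  have h2 := L.derivWeierstrassP_add_coe (-(L.ω₁ / 2)) ⟨L.ω₁, L.ω₁_mem_lattice⟩
  have h3 : -(L.ω₁ / 2) + L.ω₁ = L.ω₁ / 2 := by ring
  simp only [h3] at h2
  rw [h1] at h2
  have h4 : (2 : ℂ) * ℘'[L] (L.ω₁ / 2) = 0 := by linear_combination h2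
  simpa using h4

theorem lat_countable (L : PeriodPair) : (L.lattice : Set ℂ).Countable := by
  have : Countable L.lattice := L.latticeEquivProd.toEquiv.countable_iff.2 inferInstance
  exact Set.countable_coe_iff.1 this

/-- The two invariants of a lattice do not both vanish. -/
theorem lat_nonvanish (L : PeriodPair) (h2 : L.g₂ = 0) (h3 : L.g₃ = 0) : False := by
  set z₀ : ℂ := L.ω₁ / 2 with hz₀
  have hm : z₀ ∉ L.lattice := L.ω₁_div_two_notMem_lattice
  have hrel : ∀ z, z ∉ L.lattice → ℘'[L] z ^ 2 = 4 * ℘[L] z ^ 3 := by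
    intro z hz
    rw [L.derivWeierstrassP_sq z hz, h2, h3]; ring
  have hd : ℘'[L] z₀ = 0 := lat_deriv_half L
  have hp : ℘[L] z₀ = 0 := by
    have := hrel z₀ hm
    rw [hd] at this
    have h5 : ℘[L] z₀ ^ 3 = 0 := by linear_combination -(1 / 4) * this
    exact pow_eq_zero_iff (by norm_num) |>.1 h5
  have han : AnalyticAt ℂ ℘[L] z₀ := L.analyticOnNhd_weierstrassP _ hm
  have han' : AnalyticAt ℂ ℘'[L] z₀ := L.analyticOnNhd_derivWeierstrassP _ hm
  have hord : analyticOrderAt ℘[L] z₀ = ⊤ := by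
    have e1 : analyticOrderAt ℘'[L] z₀ + 1 = analyticOrderAt ℘[L] z₀ := by
      have := han.analyticOrderAt_deriv_add_one
      rw [L.deriv_weierstrassP] at this
      simpa [hp] using this
    have e2 : analyticOrderAt (℘'[L] ^ 2) z₀ = analyticOrderAt ((fun _ => (4 : ℂ)) * ℘[L] ^ 3) z₀ := by
      apply analyticOrderAt_congr
      filter_upwards [L.isClosed_lattice.isOpen_compl.mem_nhds hm] with z hz
      simpa using hrel z hz
    rw [analyticOrderAt_pow han', analyticOrderAt_mul analyticAt_const (han.pow 3),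
      analyticOrderAt_pow han] at e2
    have e3 : analyticOrderAt (fun _ : ℂ => (4 : ℂ)) z₀ = 0 :=
      (analyticAt_const.analyticOrderAt_eq_zero).2 (by norm_num)
    rw [e3, zero_add, ← e1] at e2
    generalize hk : analyticOrderAt ℘'[L] z₀ = k at e1 e2
    cases k with
    | top => rw [← e1]; simp
    | coe k =>
      exfalso
      simp only [nsmul_eq_mul] at e2
      norm_cast at e2
      omega
  have hz : Set.EqOn ℘[L] 0 (L.lattice : Set ℂ)ᶜ := by
    refine L.analyticOnNhd_weierstrassP.eqOn_zero_of_preconnected_of_eventuallyEq_zero ?_ hm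
      (analyticOrderAt_eq_top.1 hord)
    exact ((lat_countable L).isConnected_compl_of_one_lt_rank (by simp)).2
  have h0 : ℘[L] = fun _ => 0 := by
    funext z
    by_cases hzL : z ∈ L.lattice
    · exact L.weierstrassP_coe ⟨z, hzL⟩
    · exact hz hzL
  exact L.not_continuousAt_weierstrassP 0 L.lattice.zero_mem (by rw [h0]; exact continuousAt_const)


/-! ### Eisenstein series as sums over pairs of integers -/

/-- sum over pairs of integers -/
def latF (n : ℕ) (w₁ w₂ : ℂ) : ℂ := ∑' p : ℤ × ℤ, ((p.1 * w₁ + p.2 * w₂) ^ n)⁻¹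

theorem lat_G (L : PeriodPair) (n : ℕ) : L.G n = latF n L.ω₁ L.ω₂ := by
  unfold PeriodPair.G latF
  rw [← L.latticeEquivProd.symm.toEquiv.tsum_eq]
  refine tsum_congr fun p => ?_
  have := L.latticeEquiv_symm_apply p
  simp only [LinearEquiv.coe_toEquiv]
  rw [this]

theorem lat_smul (n : ℕ) (c w₁ w₂ : ℂ) : latF n (c * w₁) (c * w₂) = (c ^ n)⁻¹ * latF n w₁ w₂ := by
  unfold latF
  rw [← tsum_mul_left]
  refine tsum_congr fun p => ?_
  rw [← mul_inv, ← mul_pow]
  congr 2
  ring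

/-- change of basis -/
theorem lat_basis (n : ℕ) (w₁ w₂ w₁' w₂' : ℂ) (e : ℤ × ℤ ≃ ℤ × ℤ)
    (he : ∀ p : ℤ × ℤ, (p.1 * w₁' + p.2 * w₂' : ℂ) = ((e p).1 * w₁ + (e p).2 * w₂)) :
    latF n w₁' w₂' = latF n w₁ w₂ := by
  unfold latF
  conv_rhs => rw [← e.tsum_eq]
  refine tsum_congr fun p => ?_
  rw [he]

/-- the rhombic lattices -/
def latW (t : ℝ) : ℂ := ⟨1 / 2, t⟩

/-- the sums of the rhombic lattices -/
def latS (n : ℕ) (t : ℝ) : ℂ := latF n 1 (latW t)

theorem lat_conj_sum (n : ℕ) (w₁ w₂ : ℂ) : conj (latF n w₁ w₂) = latF n (conj w₁) (conj w₂) := by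
  unfold latF
  rw [Complex.conj_tsum]
  refine tsum_congr fun p => ?_
  simp

/-- the involution `(a, b) ↦ (a + b, -b)` -/
def latE1 : ℤ × ℤ ≃ ℤ × ℤ where
  toFun p := (p.1 + p.2, -p.2)
  invFun p := (p.1 + p.2, -p.2)
  left_inv p := by ext <;> simp
  right_inv p := by ext <;> simp

/-- `(a, b) ↦ (-b, a + b)` -/
def latE2 : ℤ × ℤ ≃ ℤ × ℤ where
  toFun p := (-p.2, p.1 + p.2)
  invFun p := (p.1 + p.2, -p.1)
  left_inv p := by ext <;> simp
  right_inv p := by ext <;> simp

/-- `(a, b) ↦ (-a, 2 a + b)` -/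
def latE3 : ℤ × ℤ ≃ ℤ × ℤ where
  toFun p := (-p.1, 2 * p.1 + p.2)
  invFun p := (-p.1, 2 * p.1 + p.2)
  left_inv p := by ext <;> simp
  right_inv p := by ext <;> simp

theorem latS_conj_basis (n : ℕ) (t : ℝ) : latF n 1 (conj (latW t)) = latS n t := by
  unfold latS
  refine lat_basis n _ _ _ _ latE1 fun p => ?_
  apply Complex.ext <;> simp [latW, latE1] <;> ring

theorem latS_real (n : ℕ) (t : ℝ) : (latS n t).im = 0 := by
  have h : conj (latS n t) = latS n t := by
    conv_lhs => rw [latS, lat_conj_sum, map_one]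
    exact latS_conj_basis n t
  exact Complex.conj_eq_iff_im.1 h

theorem latS_imag_basis (n : ℕ) (t : ℝ) : latF n (2 * latW t - 1) (latW t) = latS n t := by
  unfold latS
  refine lat_basis n _ _ _ _ latE3 fun p => ?_
  simp only [latE3, Equiv.coe_fn_mk]
  push_cast
  ring

/-- `G₄` vanishes at the hexagonal lattice -/
theorem latS_hex : latS 4 (√3 / 2) = 0 := by
  have h3 : (√3 : ℝ) ^ 2 = 3 := Real.sq_sqrt (by norm_num)
  set w := latW (√3 / 2) with hw
  have hw2 : w ^ 2 = w - 1 := by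
    apply Complex.ext
    · simp [hw, latW, pow_two]; nlinarith
    · simp [hw, latW, pow_two]; ring
  have h1 : latF 4 (w * 1) (w * w) = latF 4 1 w := by
    refine lat_basis 4 _ _ _ _ latE2 fun p => ?_
    simp only [latE2, Equiv.coe_fn_mk]
    push_cast
    linear_combination (p.2 : ℂ) * hw2
  rw [lat_smul] at h1
  have hw4 : w ^ 4 = -w := by linear_combination (w ^ 2 + w) * hw2
  have hw0 : w ≠ 0 := by
    intro h
    have := congrArg Complex.re h
    simp [hw, latW] at this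
  rw [hw4] at h1
  have h5 : (w + 1) * latF 4 1 w = 0 := by
    have h6 : (-w)⁻¹ * latF 4 1 w * w = latF 4 1 w * w := by rw [h1]
    have h7 : (-w)⁻¹ * latF 4 1 w * w = - latF 4 1 w := by
      field_simp
    rw [h7] at h6
    linear_combination -h6
  rcases mul_eq_zero.1 h5 with h | h
  · exfalso
    have := congrArg Complex.re h
    simp [hw, latW] at this
    norm_num at this
  · exact h

/-! ### bounds -/

theorem lat_indep {w₁ w₂ : ℂ} (h1 : w₁.im = 0) (h2 : w₁.re ≠ 0) (h3 : w₂.im ≠ 0) :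
    LinearIndependent ℝ ![w₁, w₂] := by
  rw [LinearIndependent.pair_iff]
  intro s t h
  have hi := congrArg Complex.im h
  have hr := congrArg Complex.re h
  simp [h1, h3] at hi
  subst hi
  simp [h2] at hr
  exact ⟨hr, rfl⟩

/-- the rhombic lattice -/
def latL (t : ℝ) (ht : t ≠ 0) : PeriodPair := ⟨1, latW t, lat_indep rfl (by simp) ht⟩

theorem latL_G (n : ℕ) (t : ℝ) (ht : t ≠ 0) : (latL t ht).G n = latS n t := lat_G _ _

theorem lat_normSq (t : ℝ) (p : ℤ × ℤ) :
    ‖(p.1 * 1 + p.2 * latW t : ℂ)‖ ^ 2 = (p.1 + p.2 / 2) ^ 2 + (p.2 * t) ^ 2 := by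
  rw [← Complex.normSq_eq_norm_sq, Complex.normSq_apply]
  simp [latW]
  ring

theorem lat_ne (t : ℝ) (ht : t ≠ 0) {p : ℤ × ℤ} (hp : p ≠ 0) : (p.1 * 1 + p.2 * latW t : ℂ) ≠ 0 := by
  intro h
  have h1 := congrArg Complex.im h
  have h2 := congrArg Complex.re h
  simp [latW, ht] at h1
  simp [latW, h1] at h2
  exact hp (Prod.ext h2 h1)

theorem lat_mono {t : ℝ} (ht : √3 / 2 ≤ t) (p : ℤ × ℤ) :
    ‖(p.1 * 1 + p.2 * latW (√3 / 2) : ℂ)‖ ≤ ‖(p.1 * 1 + p.2 * latW t : ℂ)‖ := by
  refine le_of_sq_le_sq ?_ (norm_nonneg _)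
  rw [lat_normSq, lat_normSq, mul_pow, mul_pow]
  have h0 : 0 ≤ √3 / 2 := by positivity
  gcongr

theorem lat_bound {n : ℕ} (hn : n ≠ 0) {t : ℝ} (ht : √3 / 2 ≤ t) (p : ℤ × ℤ) :
    ‖((p.1 * 1 + p.2 * latW t : ℂ) ^ n)⁻¹‖ ≤ ‖(p.1 * 1 + p.2 * latW (√3 / 2) : ℂ)‖⁻¹ ^ n := by
  rw [norm_inv, norm_pow, ← inv_pow]
  by_cases hp : p = 0
  · subst hp; simp
  · have h0 : √3 / 2 ≠ 0 := by positivity
    have h1 : 0 < ‖(p.1 * 1 + p.2 * latW (√3 / 2) : ℂ)‖ := norm_pos_iff.2 (lat_ne _ h0 hp)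
    have h2 := lat_mono ht p
    gcongr

theorem lat_summable {n : ℕ} (hn : 2 < n) :
    Summable fun p : ℤ × ℤ => ‖(p.1 * 1 + p.2 * latW (√3 / 2) : ℂ)‖⁻¹ ^ n := by
  have h0 : √3 / 2 ≠ 0 := by positivity
  have h := ZLattice.summable_norm_pow_inv (latL (√3 / 2) h0).lattice n (by simpa using hn)
  rw [← (latL (√3 / 2) h0).latticeEquivProd.symm.toEquiv.summable_iff] at h
  refine h.congr fun p => ?_
  have := (latL (√3 / 2) h0).latticeEquiv_symm_apply p
  simp only [Function.comp_apply, LinearEquiv.coe_toEquiv]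
  rw [Submodule.coe_norm, this]
  rfl

/-! ### continuity -/

theorem latW_cont : Continuous latW := by
  have : latW = fun t : ℝ => ((1 / 2 : ℝ) : ℂ) + t * Complex.I := by
    funext t
    apply Complex.ext <;> simp [latW]
  rw [this]
  fun_prop

theorem latS_cont {n : ℕ} (hn : 2 < n) : ContinuousOn (latS n) (Set.Ici (√3 / 2)) := by
  unfold latS latF
  refine continuousOn_tsum (fun p => ?_) (lat_summable hn) fun p t ht => lat_bound (by omega) ht p
  by_cases hp : p = 0
  · subst hp; simp [show n ≠ 0 by omega]; exact continuousOn_const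
  · have hW := latW_cont
    refine ContinuousOn.inv₀ (by fun_prop) fun t ht => pow_ne_zero _ (lat_ne t ?_ hp)
    have : (0 : ℝ) < √3 / 2 := by positivity
    exact (this.trans_le ht).ne'

/-! ### the limit -/

/-- the limit of the summand -/
def latT (n : ℕ) (p : ℤ × ℤ) : ℝ := if p.2 = 0 then ((p.1 : ℝ) ^ n)⁻¹ else 0

theorem latT_lim {n : ℕ} (hn : 0 < n) (p : ℤ × ℤ) :
    Tendsto (fun t => ((p.1 * 1 + p.2 * latW t : ℂ) ^ n)⁻¹) atTop (𝓝 (latT n p : ℂ)) := by
  unfold latT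
  split_ifs with h
  · simp [h]
  · rw [Complex.ofReal_zero, tendsto_zero_iff_norm_tendsto_zero]
    refine squeeze_zero' (.of_forall fun t => norm_nonneg _) ?_ tendsto_inv_atTop_zero
    filter_upwards [eventually_ge_atTop (1 : ℝ)] with t ht
    have h1 : t ≤ ‖(p.1 * 1 + p.2 * latW t : ℂ)‖ := by
      refine le_trans ?_ (Complex.abs_im_le_norm _)
      simp only [latW, mul_one, Complex.add_im, Complex.intCast_im, Complex.mul_im,
        Complex.intCast_re, zero_add, zero_mul, add_zero, abs_mul]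
      have h2 : (1 : ℝ) ≤ |(p.2 : ℝ)| := by exact_mod_cast Int.one_le_abs h
      rw [abs_of_nonneg (by linarith : (0 : ℝ) ≤ t)]
      nlinarith
    rw [norm_inv, norm_pow]
    have h3 : t ≤ ‖(p.1 * 1 + p.2 * latW t : ℂ)‖ ^ n :=
      h1.trans (le_self_pow₀ (ht.trans h1) (by omega))
    gcongr

theorem latS_lim {n : ℕ} (hn : 2 < n) :
    Tendsto (latS n) atTop (𝓝 ((∑' p, latT n p : ℝ) : ℂ)) := by
  rw [Complex.ofReal_tsum]
  unfold latS latF
  refine tendsto_tsum_of_dominated_convergence (lat_summable hn)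
    (fun p => latT_lim (by omega) p) ?_
  filter_upwards [eventually_ge_atTop (√3 / 2)] with t ht p using lat_bound (by omega) ht p

theorem latT_summable {n : ℕ} (hn : 2 < n) : Summable (latT n) := by
  have h : ∀ p, ‖latT n p‖ ≤ ‖(p.1 * 1 + p.2 * latW (√3 / 2) : ℂ)‖⁻¹ ^ n := by
    intro p
    unfold latT
    split_ifs with h
    · simp [h]
    · rw [norm_zero]; positivity
  exact .of_norm_bounded (lat_summable hn) h

theorem latT_four : (2 : ℝ) ≤ ∑' p, latT 4 p := by
  have h := (latT_summable (n := 4) (by norm_num)).sum_le_tsum {((1 : ℤ), (0 : ℤ)), (-1, 0)}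
    (fun p _ => by unfold latT; split_ifs <;> positivity)
  refine le_trans (le_of_eq ?_) h
  rw [Finset.sum_pair (by decide)]
  norm_num [latT]

theorem latT_six_nonneg : (0 : ℝ) ≤ ∑' p, latT 6 p :=
  tsum_nonneg fun p => by unfold latT; split_ifs <;> positivity

theorem latT_six_le : ∑' p, latT 6 p ≤ ∑' p, latT 4 p := by
  refine (latT_summable (by norm_num)).tsum_le_tsum (fun p => ?_) (latT_summable (by norm_num))
  unfold latT
  split_ifs with h
  · by_cases h1 : p.1 = 0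
    · simp [h1]
    · have h2 : (1 : ℝ) ≤ |(p.1 : ℝ)| := by exact_mod_cast Int.one_le_abs h1
      have h3 : (1 : ℝ) ≤ (p.1 : ℝ) ^ 2 := by
        rw [← sq_abs]; nlinarith
      have h4 : (p.1 : ℝ) ^ 4 ≤ (p.1 : ℝ) ^ 6 := by nlinarith [sq_nonneg ((p.1 : ℝ) ^ 2)]
      have h5 : (0 : ℝ) < (p.1 : ℝ) ^ 4 := by nlinarith [sq_nonneg ((p.1 : ℝ) ^ 2)]
      gcongr
  · exact le_rfl

/-! ### existence -/

/-- the invariant form -/
def latH (t : ℝ) : ℝ := 361 * (60 * (latS 4 t).re) ^ 3 - 1728 * (140 * (latS 6 t).re) ^ 2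

theorem latH_cont : ContinuousOn latH (Set.Ici (√3 / 2)) := by
  have h4 := latS_cont (n := 4) (by norm_num)
  have h6 := latS_cont (n := 6) (by norm_num)
  have h4' : ContinuousOn (fun t => (latS 4 t).re) (Set.Ici (√3 / 2)) :=
    Complex.continuous_re.comp_continuousOn h4
  have h6' : ContinuousOn (fun t => (latS 6 t).re) (Set.Ici (√3 / 2)) :=
    Complex.continuous_re.comp_continuousOn h6
  unfold latH
  fun_prop

theorem latH_pos : ∀ᶠ t in atTop, 0 < latH t := by
  have h4 : Tendsto (fun t => (latS 4 t).re) atTop (𝓝 (∑' p, latT 4 p)) :=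
    (Complex.continuous_re.tendsto _).comp (latS_lim (n := 4) (by norm_num))
  have h6 : Tendsto (fun t => (latS 6 t).re) atTop (𝓝 (∑' p, latT 6 p)) :=
    (Complex.continuous_re.tendsto _).comp (latS_lim (n := 6) (by norm_num))
  have h : Tendsto latH atTop
      (𝓝 (361 * (60 * ∑' p, latT 4 p) ^ 3 - 1728 * (140 * ∑' p, latT 6 p) ^ 2)) :=
    (((h4.const_mul 60).pow 3).const_mul 361).sub (((h6.const_mul 140).pow 2).const_mul 1728)
  refine h.eventually (lt_mem_nhds ?_)
  have e1 := latT_four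
  have e2 := latT_six_le
  have e3 := latT_six_nonneg
  generalize (∑' p, latT 4 p) = a at e1 e2
  generalize (∑' p, latT 6 p) = b at e2 e3
  have e4 : b ^ 2 ≤ a ^ 2 := by gcongr
  nlinarith [mul_nonneg (sq_nonneg a) (by linarith : (0 : ℝ) ≤ a - 2), sq_nonneg a]

theorem lat_re_ne {t : ℝ} (ht : t ≠ 0) (h4 : (latS 4 t).re = 0) : (latS 6 t).re ≠ 0 := by
  intro h6
  have e4 : latS 4 t = 0 := Complex.ext h4 (latS_real 4 t)
  have e6 : latS 6 t = 0 := Complex.ext h6 (latS_real 6 t)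
  refine lat_nonvanish (latL t ht) ?_ ?_
  · rw [PeriodPair.g₂, latL_G, e4, mul_zero]
  · rw [PeriodPair.g₃, latL_G, e6, mul_zero]

theorem lat_point : ∃ t : ℝ, 0 < t ∧ 0 < (latS 4 t).re ∧
    361 * (60 * (latS 4 t).re) ^ 3 = 1728 * (140 * (latS 6 t).re) ^ 2 := by
  have h0 : (0 : ℝ) < √3 / 2 := by positivity
  have hneg : latH (√3 / 2) < 0 := by
    have h4 : (latS 4 (√3 / 2)).re = 0 := by rw [latS_hex]; rfl
    have h6 := lat_re_ne h0.ne' h4
    unfold latH
    rw [h4]
    have : 0 < (latS 6 (√3 / 2)).re ^ 2 := by positivity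
    nlinarith
  obtain ⟨t₁, ht₁, hle⟩ := (latH_pos.and (eventually_ge_atTop (√3 / 2))).exists
  obtain ⟨t, ht, hz⟩ := intermediate_value_Icc hle
    (latH_cont.mono Set.Icc_subset_Ici_self) ⟨hneg.le, ht₁.le⟩
  have htp : 0 < t := h0.trans_le ht.1
  have hz' : 361 * (60 * (latS 4 t).re) ^ 3 = 1728 * (140 * (latS 6 t).re) ^ 2 := by
    unfold latH at hz; linarith
  refine ⟨t, htp, ?_, hz'⟩
  rcases lt_trichotomy (latS 4 t).re 0 with h | h | h
  · exfalso
    have h3 : (60 * (latS 4 t).re) ^ 3 < 0 := Odd.pow_neg (by decide) (by linarith)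
    nlinarith [sq_nonneg (140 * (latS 6 t).re)]
  · exfalso
    have h6 := lat_re_ne htp.ne' h
    rw [h] at hz'
    have : 0 < (latS 6 t).re ^ 2 := by positivity
    nlinarith
  · exact h

theorem exists_XL : ∃ L : PeriodPair, XL L := by
  obtain ⟨t, ht, h4, hH⟩ := lat_point
  set a := (latS 4 t).re with ha
  set b := (latS 6 t).re with hb
  have ea : latS 4 t = a := Complex.ext (by simp [ha]) (by simp [latS_real])
  have eb : latS 6 t = b := Complex.ext (by simp [hb]) (by simp [latS_real])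
  obtain ⟨l, hl, hl4⟩ : ∃ l : ℝ, 0 < l ∧ l ^ 4 = 45 * a := by
    refine ⟨√(√(45 * a)), by positivity, ?_⟩
    rw [show (4 : ℕ) = 2 * 2 by norm_num, pow_mul, Real.sq_sqrt (by positivity),
      Real.sq_sqrt (by positivity)]
  have hq : (27 * (140 * b)) ^ 2 = (19 * l ^ 6) ^ 2 := by
    have : (19 * l ^ 6) ^ 2 = 361 * (l ^ 4) ^ 3 := by ring
    rw [this, hl4]
    linear_combination (-27 / 64) * hH
  have hlc : (l : ℂ) ≠ 0 := by exact_mod_cast hl.ne'
  have hl4c : (l : ℂ) ^ 4 = 45 * a := by exact_mod_cast hl4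
  have hac : (a : ℂ) ≠ 0 := by exact_mod_cast h4.ne'
  rcases sq_eq_sq_iff_eq_or_eq_neg.1 hq with h | h
  · -- the sign is `+`: multiply by `-I`
    have hc : (27 * (140 * b) : ℂ) = 19 * l ^ 6 := by exact_mod_cast h
    have hW : (-Complex.I * l) * (2 * latW t - 1) = 2 * t * l := by
      apply Complex.ext
      · simp [latW]; ring
      · simp [latW]
    have hG : ∀ n, latF n (2 * t * l) ((-Complex.I * l) * latW t) =
        ((-Complex.I * l) ^ n)⁻¹ * latS n t := fun n => by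
      rw [← hW, lat_smul, latS_imag_basis]
    refine ⟨⟨2 * t * l, (-Complex.I * l) * latW t, lat_indep ?_ ?_ ?_⟩, ?_, ?_, ?_, ?_, ?_, ?_⟩
    · simp
    · simp [ht.ne', hl.ne']
    · simp [latW, hl.ne']
    · rw [PeriodPair.g₂, lat_G, hG, ea]
      have : (-Complex.I * l) ^ 4 = 45 * a := by
        rw [mul_pow, hl4c, neg_pow, Complex.I_pow_four]; ring
      rw [this]
      field_simp
      norm_num
    · rw [PeriodPair.g₃, lat_G, hG, eb]
      have : (-Complex.I * l) ^ 6 = -l ^ 6 := by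
        rw [mul_pow, neg_pow, Complex.I_pow_eq_pow_mod]; norm_num
      rw [this]
      have hl6 : (l : ℂ) ^ 6 ≠ 0 := pow_ne_zero _ hlc
      field_simp
      linear_combination -hc
    · simp
    · simp [ht, hl]
    · simp [latW]; ring
    · simp [latW, hl]
  · have hc : (27 * (140 * b) : ℂ) = -(19 * l ^ 6) := by exact_mod_cast h
    have hG : ∀ n, latF n l (l * conj (latW t)) = ((l : ℂ) ^ n)⁻¹ * latS n t := fun n => by
      have := lat_smul n l 1 (conj (latW t))
      rw [mul_one] at this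
      rw [this, latS_conj_basis]
    refine ⟨⟨l, l * conj (latW t), lat_indep ?_ ?_ ?_⟩, ?_, ?_, ?_, ?_, ?_, ?_⟩
    · simp
    · simp [hl.ne']
    · simp [latW, hl.ne', ht.ne']
    · rw [PeriodPair.g₂, lat_G, hG, ea, hl4c]
      field_simp
      norm_num
    · rw [PeriodPair.g₃, lat_G, hG, eb]
      have hl6 : (l : ℂ) ^ 6 ≠ 0 := pow_ne_zero _ hlc
      field_simp
      linear_combination hc
    · simp
    · simp [hl]
    · simp [latW]; ring
    · simp [latW, hl, ht]

end Pool.Agent.F194.X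

end
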