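import Pool.Agent.Work.MP_f194bb_nt.X.Comp

/-!
# MP_f194bb_nt, `X_1(11)`: integrability over the torus
-/

set_option autoImplicit false

open scoped ComplexConjugate PeriodPair
open MeasureTheory Filter Topology

noncomputable section

namespace Pool.Agent.F194.X

variable {L : PeriodPair}

/-- `1 + ∑ |log |u_k||` -/
def MM (L : PeriodPair) (z : ℂ) : ℝ := 1 + ∑ k, |lu L z k|

/-- `1 + ∑ |u_k'/u_k|` -/
def DD (L : PeriodPair) (z : ℂ) : ℝ := 1 + ∑ k, ‖du L z k‖

theorem one_le_MM (L : PeriodPair) (z : ℂ) : 1 ≤ MM L z := by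
  have : 0 ≤ ∑ k, |lu L z k| := Finset.sum_nonneg fun _ _ => abs_nonneg _
  unfold MM
  linarith

theorem one_le_DD (L : PeriodPair) (z : ℂ) : 1 ≤ DD L z := by
  have : 0 ≤ ∑ k, ‖du L z k‖ := Finset.sum_nonneg fun _ _ => norm_nonneg _
  unfold DD
  linarith

private theorem isFiniteMeasure_box : IsFiniteMeasure (volume.restrict box) := by
  refine ⟨?_⟩
  rw [Measure.restrict_apply_univ, box, Real.volume_pi_Ioc]
  exact ENNReal.prod_lt_top fun i _ => ENNReal.ofReal_lt_top

theorem memLp_MM (hL : XL L) (p : ℕ) : MemLp (fun x => MM L (E L x)) p (volume.restrict box) := by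
  have := isFiniteMeasure_box
  unfold MM
  refine (memLp_const (1 : ℝ)).add (memLp_finsetSum _ fun k _ => ?_)
  have h := (memLp_tor L _ _ (memLp_lg_ball (U L k) (U_mero k) (U_nz hL k) p _)).1.norm
  refine h.congr_norm ?_ (Eventually.of_forall fun x => ?_)
  · refine (h.aestronglyMeasurable.congr (Eventually.of_forall fun x => ?_))
    simp only [lg, lu, Complex.norm_real, Real.norm_eq_abs]
  · simp only [lg, lu, Complex.norm_real, Real.norm_eq_abs, abs_abs]

theorem memLp_DD (hL : XL L) : MemLp (fun x => DD L (E L x)) (3 / 2) (volume.restrict box) := by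
  have := isFiniteMeasure_box
  unfold DD
  refine (memLp_const (1 : ℝ)).add (memLp_finsetSum _ fun k _ => ?_)
  have h0 : NZ fun z => U L k z - 0 := by
    simpa using U_nz hL k
  have h := (memLp_tor L _ _ (memLp_qq_ball (U L k) 0 (U_mero k) h0 _)).1.norm
  refine h.congr_norm ?_ (Eventually.of_forall fun x => ?_)
  · refine (h.aestronglyMeasurable.congr (Eventually.of_forall fun x => ?_))
    simp only [qq, du, sub_zero]
  · simp only [qq, du, sub_zero]

/-- Hölder with `loc_log`/`memLp_lg` and `loc_q`/`memLp_qq` -/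
theorem int_MD (hL : XL L) (n : ℕ) : IntegrableOn (fun x => MM L (E L x) ^ n * DD L (E L x)) box := by
  have := isFiniteMeasure_box
  have h1 : MemLp (fun x => ∏ _i ∈ Finset.range n, ((MM L (E L x) : ℝ) : ℂ)) (3 : ℕ)
      (volume.restrict box) :=
    memLp_prod_all (Finset.range n) (fun _ _ p => (memLp_MM hL p).ofReal) 3
  have h2 : MemLp (fun x => ((DD L (E L x) : ℝ) : ℂ)) (3 / 2) (volume.restrict box) :=
    (memLp_DD hL).ofReal
  have := holder_three
  have h3 := (memLp_one_iff_integrable.1 (MemLp.smul (p := 3) (q := 3 / 2) (r := 1) h2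
    (by exact_mod_cast h1))).norm
  refine h3.congr (Eventually.of_forall fun x => ?_)
  have hM := one_le_MM L (E L x)
  have hD := one_le_DD L (E L x)
  simp only [Pi.smul_apply', smul_eq_mul, norm_mul, Finset.prod_const, Finset.card_range, norm_pow,
    Complex.norm_real, Real.norm_eq_abs]
  rw [abs_of_nonneg (by linarith : 0 ≤ MM L (E L x)), abs_of_nonneg (by linarith : 0 ≤ DD L (E L x))]

theorem ae_not_Cs (hL : XL L) : ∀ᵐ x ∂(volume.restrict box), E L x ∉ Cs L :=
  E_ae L (Cs_countable hL)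

/-- a measurable function which off the cusps is bounded by `C M^n D` is integrable -/
theorem int_of_le (hL : XL L) {F : ℂ → ℝ} (hF : ContinuousOn F (Cs L)ᶜ) {C : ℝ} {n : ℕ}
    (h : ∀ z, z ∉ Cs L → |F z| ≤ C * (MM L z ^ n * DD L z)) :
    IntegrableOn (fun x => F (E L x)) box := by
  refine Integrable.mono' ((int_MD hL n).const_mul C) ?_ ?_
  · have h1 : ContinuousOn (fun x => F (E L x)) (E L ⁻¹' (Cs L)ᶜ) :=
      hF.comp (continuous_E L).continuousOn fun x hx => hx
    have h2 : MeasurableSet (E L ⁻¹' (Cs L)ᶜ) :=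
      (continuous_E L).measurable (Cs_closed hL).measurableSet.compl
    have h3 := h1.aestronglyMeasurable h2 (μ := volume.restrict box)
    have h4 : ∀ᵐ x ∂(volume.restrict box), x ∈ E L ⁻¹' (Cs L)ᶜ := ae_not_Cs hL
    rwa [Measure.restrict_eq_self_of_ae_mem h4] at h3
  · filter_upwards [ae_not_Cs hL] with x hx
    rw [Real.norm_eq_abs]
    exact h _ hx

/-- The mean of a directional derivative. -/
theorem mean_dir (hL : XL L) {F : ℂ → ℝ} (hper : ∀ l : L.lattice, ∀ z, F (z + l) = F z)
    (hF : ∀ z, z ∉ Cs L → ContDiffAt ℝ 1 F z) {C : ℝ} {n : ℕ}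
    (h : ∀ z, z ∉ Cs L → ‖fderiv ℝ F z‖ ≤ C * (MM L z ^ n * DD L z)) (w : ℂ) :
    ∫ x in box, fderiv ℝ F (E L x) w = 0 := by
  set F' : ℂ → ℂ := fun z => ((F z : ℝ) : ℂ) with hF'
  have hcd : ∀ z, z ∉ Cs L → ContDiffAt ℝ 1 F' z := fun z hz =>
    Complex.ofRealCLM.contDiff.contDiffAt.comp z (hF z hz)
  have hfd : ∀ z, z ∉ Cs L → fderiv ℝ F' z = Complex.ofRealCLM.comp (fderiv ℝ F z) := fun z hz => by
    have h1 := ((hF z hz).differentiableAt one_ne_zero).hasFDerivAt
    exact (Complex.ofRealCLM.hasFDerivAt.comp z h1).fderiv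
  have hper' : Per L F' := fun l z => by
    simp only [hF', hper l z]
  have hint : IntegrableOn (fun x => ‖fderiv ℝ F' (E L x)‖) box := by
    refine Integrable.mono' ((int_MD hL n).const_mul C) ?_ ?_
    · exact ((measurable_fderiv ℝ F').comp (continuous_E L).measurable).norm.aestronglyMeasurable
    · filter_upwards [ae_not_Cs hL] with x hx
      rw [norm_norm, hfd _ hx]
      refine le_trans ?_ (h _ hx)
      refine (ContinuousLinearMap.opNorm_comp_le _ _).trans ?_
      rw [Complex.ofRealCLM_norm, one_mul]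
  have h1 := mean_fderiv L F' hper' (Cs L) (Cs_countable hL) hcd hint w
  have h2 : mean L (fun z => fderiv ℝ F' z w) = ((∫ x in box, fderiv ℝ F (E L x) w : ℝ) : ℂ) := by
    rw [mean, ← integral_complex_ofReal]
    refine integral_congr_ae ?_
    filter_upwards [ae_not_Cs hL] with x hx
    rw [hfd _ hx]
    rfl
  rw [h2] at h1
  exact_mod_cast h1

end Pool.Agent.F194.X

end
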