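import Pool.Agent.Work.MP_f194bb_nt.X.Psi
import Pool.Agent.Work.MP_f194bb_nt.X.Int

/-!
# MP_f194bb_nt, `X_1(11)`: integration by parts on the torus
-/

set_option autoImplicit false

open scoped ComplexConjugate PeriodPair
open MeasureTheory Filter Topology

noncomputable section

namespace Pool.Agent.F194.X

variable {L : PeriodPair} (P : PolyLog)

/-- `M = mean ∑ b a L2 ∂_y a` -/
def MI (L : PeriodPair) : ℝ := ∫ x in box, ∑ i, bb L i (E L x) * aa L i (E L x) *
  P.L2 (ff L i (E L x)) * lin (dy L (E L x)) (eT i)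

/-- `J = mean ∑ b L3 ∂_x a` -/
def JI (L : PeriodPair) : ℝ := ∫ x in box, ∑ i, bb L i (E L x) *
  P.L3 (ff L i (E L x)) * lin (dx L (E L x)) (eT i)

/-! ### bounds -/

private theorem Tor_eT (i : Fin 30) (k : Fin 4) : |(eT i k : ℝ)| ≤ 50 := by
  have h : ∀ i k, |eT i k| ≤ 50 := by decide +kernel
  exact_mod_cast h i k

private theorem Tor_wT (i : Fin 30) (k : Fin 4) : |(wT i k : ℝ)| ≤ 50 := by
  have h : ∀ i k, |wT i k| ≤ 50 := by decide +kernel
  exact_mod_cast h i k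

private theorem Tor_cT (i : Fin 30) (k : Fin 4) : |(cT i k : ℝ)| ≤ 50 := by
  have h : ∀ i k, |cT i k| ≤ 50 := by decide +kernel
  exact_mod_cast h i k

private theorem Tor_lin {e : Fin 4 → ℤ} (he : ∀ k, |(e k : ℝ)| ≤ 50) (φ : Fin 4 → ℝ) :
    |lin φ e| ≤ 50 * ∑ k, |φ k| := by
  rw [lin, Finset.mul_sum]
  refine (Finset.abs_sum_le_sum_abs _ _).trans (Finset.sum_le_sum fun k _ => ?_)
  rw [abs_mul]
  exact mul_le_mul_of_nonneg_right (he k) (abs_nonneg _)

private theorem Tor_cl {e : Fin 4 → ℤ} (he : ∀ k, |(e k : ℝ)| ≤ 50) (φ : Fin 4 → ℂ) :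
    ‖cl φ e‖ ≤ 50 * ∑ k, ‖φ k‖ := by
  rw [cl, Finset.mul_sum]
  refine (norm_sum_le _ _).trans (Finset.sum_le_sum fun k _ => ?_)
  rw [norm_mul]
  refine mul_le_mul_of_nonneg_right ?_ (norm_nonneg _)
  rw [Complex.norm_intCast]
  exact he k

private theorem Tor_MM (z : ℂ) : 1 ≤ MM L z :=
  le_add_of_nonneg_right (Finset.sum_nonneg fun _ _ => abs_nonneg _)

private theorem Tor_DD (z : ℂ) : 1 ≤ DD L z :=
  le_add_of_nonneg_right (Finset.sum_nonneg fun _ _ => norm_nonneg _)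

private theorem Tor_l {e : Fin 4 → ℤ} (he : ∀ k, |(e k : ℝ)| ≤ 50) (z : ℂ) :
    |lin (lu L z) e| ≤ 50 * MM L z :=
  (Tor_lin he _).trans (by rw [MM]; linarith)

private theorem Tor_d {e : Fin 4 → ℤ} (he : ∀ k, |(e k : ℝ)| ≤ 50) (z : ℂ) :
    ‖cl (du L z) e‖ ≤ 50 * DD L z :=
  (Tor_cl he _).trans (by rw [DD]; linarith)

private theorem Tor_dx {e : Fin 4 → ℤ} (he : ∀ k, |(e k : ℝ)| ≤ 50) (z : ℂ) :
    |lin (dx L z) e| ≤ 50 * DD L z := by
  have h : lin (dx L z) e = (cl (du L z) e).re := (cl_re _ _).symm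
  rw [h]
  exact (Complex.abs_re_le_norm _).trans (Tor_d he z)

private theorem Tor_dyeq (e : Fin 4 → ℤ) (z : ℂ) : lin (dy L z) e = -(cl (du L z) e).im := by
  rw [cl_im, lin, lin, ← Finset.sum_neg_distrib]
  refine Finset.sum_congr rfl fun k _ => ?_
  rw [dy]
  ring

private theorem Tor_dy {e : Fin 4 → ℤ} (he : ∀ k, |(e k : ℝ)| ≤ 50) (z : ℂ) :
    |lin (dy L z) e| ≤ 50 * DD L z := by
  rw [Tor_dyeq, abs_neg]
  exact (Complex.abs_im_le_norm _).trans (Tor_d he z)

private theorem Tor_rl (c : ℂ) : ‖rl c‖ ≤ ‖c‖ :=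
  ContinuousLinearMap.opNorm_le_bound _ (norm_nonneg _) fun h => by
    rw [rl_apply, Real.norm_eq_abs, ← norm_mul]
    exact Complex.abs_re_le_norm _

private theorem Tor_il (c : ℂ) : ‖il c‖ ≤ ‖c‖ :=
  ContinuousLinearMap.opNorm_le_bound _ (norm_nonneg _) fun h => by
    rw [il_apply, Real.norm_eq_abs, ← norm_mul]
    exact Complex.abs_im_le_norm _

/-! ### means of derivatives -/

private theorem Tor_aper (l : L.lattice) (z : ℂ) (e : Fin 4 → ℤ) :
    lin (lu L (z + l)) e = lin (lu L z) e := by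
  have h : lu L (z + l) = lu L z := by
    funext k
    rw [lu, lu, U_per k l z]
  rw [h]

private theorem Tor_ffper (i : Fin 30) (l : L.lattice) (z : ℂ) : ff L i (z + l) = ff L i z := by
  have h : (fun k => U L k (z + l)) = fun k => U L k z := by
    funext k
    exact U_per k l z
  rw [ff, ff, h]

private theorem Tor_fd (hL : XL L) (m : ℕ) {Λ : Fin 30 → ℂ → ℝ} {Λ' : Fin 30 → ℂ → ℂ →L[ℝ] ℝ}
    (hfd : ∀ i, ∀ z, z ∉ Cs L → HasFDerivAt (Λ i) (Λ' i z) z) {z : ℂ} (hz : z ∉ Cs L) :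
    HasFDerivAt (fun z => ∑ i, bb L i z * aa L i z ^ m * Λ i z)
      (∑ i, ((bb L i z * aa L i z ^ m) • Λ' i z + Λ i z • (bb L i z • ((m • aa L i z ^ (m - 1)) •
        rl (cl (du L z) (eT i))) + aa L i z ^ m • rl (cl (du L z) (cT i))))) z := by
  refine HasFDerivAt.fun_sum fun i _ => ?_
  have h1 : HasFDerivAt (fun z => bb L i z) (rl (cl (du L z) (cT i))) z := lin_fd hL hz (cT i)
  have h2 : HasFDerivAt (fun z => aa L i z) (rl (cl (du L z) (eT i))) z := lin_fd hL hz (eT i)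
  exact (h1.mul (h2.pow m)).mul (hfd i z hz)

private theorem Tor_bound (m : ℕ) {X D K b a l : ℝ} (hX : 1 ≤ X) (hD : 1 ≤ D) (hK : 0 ≤ K)
    (hb : |b| ≤ 50 * X) (ha : |a| ≤ 50 * X) (hl : |l| ≤ K) {Λ' u v : ℂ →L[ℝ] ℝ}
    (hΛ : ‖Λ'‖ ≤ K * (X ^ 2 * D)) (hu : ‖u‖ ≤ 50 * D) (hv : ‖v‖ ≤ 50 * D) :
    ‖(b * a ^ m) • Λ' + l • (b • ((m • a ^ (m - 1)) • u) + a ^ m • v)‖ ≤
      K * 50 ^ (m + 2) * (m + 2) * (X ^ (m + 3) * D) := by
  have hX0 : 0 ≤ X := by linarith
  have hD0 : 0 ≤ D := by linarith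
  have h5 : 1 ≤ 50 * X := by linarith
  have ha1 : |a| ^ m ≤ (50 * X) ^ m := pow_le_pow_left₀ (abs_nonneg _) ha m
  have ha2 : |a| ^ (m - 1) ≤ (50 * X) ^ m :=
    (pow_le_pow_left₀ (abs_nonneg _) ha (m - 1)).trans (pow_le_pow_right₀ h5 (Nat.sub_le _ _))
  have e1 : ‖(b * a ^ m) • Λ'‖ ≤ K * 50 ^ (m + 1) * (X ^ (m + 3) * D) := by
    rw [norm_smul, norm_mul, norm_pow, Real.norm_eq_abs, Real.norm_eq_abs]
    calc |b| * |a| ^ m * ‖Λ'‖ ≤ 50 * X * (50 * X) ^ m * (K * (X ^ 2 * D)) := by gcongr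
      _ = K * 50 ^ (m + 1) * (X ^ (m + 3) * D) := by ring
  have e2 : ‖b • ((m • a ^ (m - 1)) • u)‖ ≤ 50 ^ (m + 2) * m * (X ^ (m + 1) * D) := by
    rw [norm_smul, norm_smul, nsmul_eq_mul, norm_mul, norm_pow, Real.norm_eq_abs,
      Real.norm_eq_abs, Real.norm_eq_abs, Nat.abs_cast]
    calc |b| * (m * |a| ^ (m - 1) * ‖u‖) ≤ 50 * X * (m * (50 * X) ^ m * (50 * D)) := by gcongr
      _ = 50 ^ (m + 2) * m * (X ^ (m + 1) * D) := by ring
  have e3 : ‖a ^ m • v‖ ≤ 50 ^ (m + 1) * (X ^ m * D) := by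
    rw [norm_smul, norm_pow, Real.norm_eq_abs]
    calc |a| ^ m * ‖v‖ ≤ (50 * X) ^ m * (50 * D) := by gcongr
      _ = 50 ^ (m + 1) * (X ^ m * D) := by ring
  have f1 : X ^ (m + 1) * D ≤ X ^ (m + 3) * D :=
    mul_le_mul_of_nonneg_right (pow_le_pow_right₀ hX (by omega)) hD0
  have f2 : X ^ m * D ≤ X ^ (m + 3) * D :=
    mul_le_mul_of_nonneg_right (pow_le_pow_right₀ hX (by omega)) hD0
  have e4 : ‖l • (b • ((m • a ^ (m - 1)) • u) + a ^ m • v)‖ ≤
      K * (50 ^ (m + 2) * m * (X ^ (m + 3) * D) + 50 ^ (m + 1) * (X ^ (m + 3) * D)) := by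
    rw [norm_smul, Real.norm_eq_abs]
    refine mul_le_mul hl ((norm_add_le _ _).trans (add_le_add (e2.trans ?_) (e3.trans ?_)))
      (norm_nonneg _) hK
    · gcongr
    · gcongr
  refine (norm_add_le _ _).trans ((add_le_add e1 e4).trans ?_)
  have h0 : 0 ≤ K * 50 ^ (m + 1) * (X ^ (m + 3) * D) := by positivity
  have h1 : K * 50 ^ (m + 1) * (X ^ (m + 3) * D) + K * (50 ^ (m + 2) * m * (X ^ (m + 3) * D) +
      50 ^ (m + 1) * (X ^ (m + 3) * D)) =
      (50 * m + 2) * (K * 50 ^ (m + 1) * (X ^ (m + 3) * D)) := by ring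
  have h2 : K * 50 ^ (m + 2) * (m + 2) * (X ^ (m + 3) * D) =
      (50 * m + 100) * (K * 50 ^ (m + 1) * (X ^ (m + 3) * D)) := by ring
  rw [h1, h2]
  exact mul_le_mul_of_nonneg_right (by linarith) h0

private theorem Tor_mean (hL : XL L) (m : ℕ) {Λ : Fin 30 → ℂ → ℝ} {Λ' : Fin 30 → ℂ → ℂ →L[ℝ] ℝ}
    {K : ℝ} (hK : 0 ≤ K) (hper : ∀ i, ∀ l : L.lattice, ∀ z, Λ i (z + l) = Λ i z)
    (hcd : ∀ i, ∀ z, z ∉ Cs L → ContDiffAt ℝ 1 (Λ i) z)
    (hfd : ∀ i, ∀ z, z ∉ Cs L → HasFDerivAt (Λ i) (Λ' i z) z)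
    (hb : ∀ i, ∀ z, z ∉ Cs L → |Λ i z| ≤ K)
    (hb' : ∀ i, ∀ z, z ∉ Cs L → ‖Λ' i z‖ ≤ K * (MM L z ^ 2 * DD L z)) (w : ℂ) :
    ∫ x in box, ∑ i, (bb L i (E L x) * aa L i (E L x) ^ m * Λ' i (E L x) w +
      Λ i (E L x) * (bb L i (E L x) * (m * aa L i (E L x) ^ (m - 1) *
        (cl (du L (E L x)) (eT i) * w).re) +
        aa L i (E L x) ^ m * (cl (du L (E L x)) (cT i) * w).re)) = 0 := by
  have h := mean_dir hL (F := fun z => ∑ i, bb L i z * aa L i z ^ m * Λ i z)
    (C := 30 * (K * 50 ^ (m + 2) * (m + 2))) (n := m + 3) ?_ ?_ ?_ w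
  · rw [← h]
    refine integral_congr_ae ?_
    filter_upwards [ae_E L (Cs_countable hL)] with x hx
    rw [(Tor_fd hL m hfd hx).fderiv]
    simp only [sum_apply, add_apply, smul_apply, smul_eq_mul, nsmul_eq_mul, rl_apply]
  · intro l z
    refine Finset.sum_congr rfl fun i _ => ?_
    rw [bb, bb, aa, aa, Tor_aper, Tor_aper, hper]
  · intro z hz
    refine ContDiffAt.sum fun i _ => ?_
    have h1 : ContDiffAt ℝ 1 (fun z => bb L i z) z := lin_cd hL hz _
    have h2 : ContDiffAt ℝ 1 (fun z => aa L i z) z := lin_cd hL hz _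
    exact (h1.mul (h2.pow m)).mul (hcd i z hz)
  · intro z hz
    rw [(Tor_fd hL m hfd hz).fderiv]
    refine (norm_sum_le _ _).trans ?_
    have h1 := Finset.sum_le_card_nsmul (Finset.univ : Finset (Fin 30)) (fun i =>
      ‖(bb L i z * aa L i z ^ m) • Λ' i z + Λ i z • (bb L i z • ((m • aa L i z ^ (m - 1)) •
        rl (cl (du L z) (eT i))) + aa L i z ^ m • rl (cl (du L z) (cT i)))‖)
      (K * 50 ^ (m + 2) * (m + 2) * (MM L z ^ (m + 3) * DD L z)) (fun i _ =>
        Tor_bound m (Tor_MM z) (Tor_DD z) hK (Tor_l (Tor_cT i) z) (Tor_l (Tor_eT i) z) (hb i z hz)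
          (hb' i z hz) ((Tor_rl _).trans (Tor_d (Tor_eT i) z))
          ((Tor_rl _).trans (Tor_d (Tor_cT i) z)))
    refine h1.trans (le_of_eq ?_)
    rw [Finset.card_univ, Fintype.card_fin, nsmul_eq_mul]
    push_cast
    ring

/-! ### continuity and integrability -/

private theorem Tor_cl_cont (hL : XL L) {z : ℂ} (hz : z ∉ Cs L) (e : Fin 4 → ℤ) :
    ContinuousAt (fun z => cl (du L z) e) z := by
  have h : ∀ k, ContinuousAt (fun z => du L z k) z := fun k => (du_an hL hz k).continuousAt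
  unfold cl
  exact tendsto_finsetSum _ fun k _ => (h k).const_mul _

private theorem Tor_dx_cont (hL : XL L) {z : ℂ} (hz : z ∉ Cs L) (e : Fin 4 → ℤ) :
    ContinuousAt (fun z => lin (dx L z) e) z := by
  have h : (fun z => lin (dx L z) e) = fun z => (cl (du L z) e).re := by
    funext z
    exact (cl_re _ _).symm
  rw [h]
  exact Complex.continuous_re.continuousAt.comp (Tor_cl_cont hL hz e)

private theorem Tor_dy_cont (hL : XL L) {z : ℂ} (hz : z ∉ Cs L) (e : Fin 4 → ℤ) :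
    ContinuousAt (fun z => lin (dy L z) e) z := by
  have h : (fun z => lin (dy L z) e) = fun z => -(cl (du L z) e).im := by
    funext z
    exact Tor_dyeq e z
  rw [h]
  exact (Complex.continuous_im.continuousAt.comp (Tor_cl_cont hL hz e)).neg

private theorem Tor_l_cont (hL : XL L) {z : ℂ} (hz : z ∉ Cs L) (e : Fin 4 → ℤ) :
    ContinuousAt (fun z => lin (lu L z) e) z := (lin_fd hL hz e).continuousAt

private theorem Tor_int (hL : XL L) {G : Fin 30 → ℂ → ℝ} {K : ℝ} (n : ℕ)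
    (hc : ∀ i, ∀ z, z ∉ Cs L → ContinuousAt (G i) z)
    (hb : ∀ i, ∀ z, z ∉ Cs L → |G i z| ≤ K * (MM L z ^ n * DD L z)) :
    IntegrableOn (fun x => ∑ i, G i (E L x)) box := by
  refine int_of_le hL (F := fun z => ∑ i, G i z) (C := 30 * K) (n := n) ?_ ?_
  · intro z hz
    have h : ContinuousAt (fun z => ∑ i, G i z) z := tendsto_finsetSum _ fun i _ => hc i z hz
    exact h.continuousWithinAt
  · intro z hz
    refine (Finset.abs_sum_le_sum_abs _ _).trans ((Finset.sum_le_card_nsmul _ _ _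
      fun i _ => hb i z hz).trans (le_of_eq ?_))
    rw [Finset.card_univ, Fintype.card_fin, nsmul_eq_mul]
    push_cast
    ring

private theorem Tor_C (P : PolyLog) : 0 ≤ P.C := (abs_nonneg _).trans (P.b2 0)

private theorem Tor_intM (hL : XL L) : IntegrableOn (fun x => ∑ i, bb L i (E L x) *
    aa L i (E L x) * P.L2 (ff L i (E L x)) * lin (dy L (E L x)) (eT i)) box := by
  refine Tor_int hL (G := fun i z => bb L i z * aa L i z * P.L2 (ff L i z) * lin (dy L z) (eT i))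
    (K := 50 ^ 3 * P.C) 2 (fun i z hz => ?_) (fun i z hz => ?_)
  · exact (((Tor_l_cont hL hz _).mul (Tor_l_cont hL hz _)).mul (L2_fd P hL hz i).continuousAt).mul
      (Tor_dy_cont hL hz _)
  · have h1 := Tor_l (L := L) (Tor_cT i) z
    have h2 := Tor_l (L := L) (Tor_eT i) z
    have h3 := Tor_dy (L := L) (Tor_eT i) z
    have h4 := P.b2 (ff L i z)
    have h5 := Tor_MM (L := L) z
    have h6 := Tor_C P
    rw [abs_mul, abs_mul, abs_mul]
    calc |bb L i z| * |aa L i z| * |P.L2 (ff L i z)| * |lin (dy L z) (eT i)| ≤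
        50 * MM L z * (50 * MM L z) * P.C * (50 * DD L z) := by
          rw [bb, aa]
          gcongr
      _ = 50 ^ 3 * P.C * (MM L z ^ 2 * DD L z) := by ring

private theorem Tor_intJ (hL : XL L) : IntegrableOn (fun x => ∑ i, bb L i (E L x) *
    P.L3 (ff L i (E L x)) * lin (dx L (E L x)) (eT i)) box := by
  refine Tor_int hL (G := fun i z => bb L i z * P.L3 (ff L i z) * lin (dx L z) (eT i))
    (K := 50 ^ 2 * P.C) 1 (fun i z hz => ?_) (fun i z hz => ?_)
  · exact ((Tor_l_cont hL hz _).mul (L3_fd P hL hz i).continuousAt).mul (Tor_dx_cont hL hz _)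
  · have h1 := Tor_l (L := L) (Tor_cT i) z
    have h3 := Tor_dx (L := L) (Tor_eT i) z
    have h4 := P.b3 (ff L i z)
    have h5 := Tor_MM (L := L) z
    have h6 := Tor_C P
    rw [abs_mul, abs_mul]
    calc |bb L i z| * |P.L3 (ff L i z)| * |lin (dx L z) (eT i)| ≤
        50 * MM L z * P.C * (50 * DD L z) := by
          rw [bb]
          gcongr
      _ = 50 ^ 2 * P.C * (MM L z ^ 1 * DD L z) := by ring

private theorem Tor_int4 (hL : XL L) : IntegrableOn (fun x => ∑ i,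
    -(P.L4 (ff L i (E L x)) * lin (dy L (E L x)) (cT i))) box := by
  refine Tor_int hL (G := fun i z => -(P.L4 (ff L i z) * lin (dy L z) (cT i)))
    (K := 50 * P.C) 0 (fun i z hz => ?_) (fun i z hz => ?_)
  · exact ((L4_fd P hL hz i).continuousAt.mul (Tor_dy_cont hL hz _)).neg
  · have h3 := Tor_dy (L := L) (Tor_cT i) z
    have h4 := P.b4 (ff L i z)
    have h6 := Tor_C P
    rw [abs_neg, abs_mul]
    calc |P.L4 (ff L i z)| * |lin (dy L z) (cT i)| ≤ P.C * (50 * DD L z) := by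
          gcongr
      _ = 50 * P.C * (MM L z ^ 0 * DD L z) := by ring

theorem int_I0 (hL : XL L) : IntegrableOn (fun x => I0 L (E L x)) box := by
  have h := Tor_int hL (G := fun i z => lin (lu L z) (cT i) * lin (lu L z) (eT i) ^ 2 *
    (lin (lu L z) (eT i) * lin (dx L z) (wT i) - lin (lu L z) (wT i) * lin (dx L z) (eT i)))
    (K := 2 * 50 ^ 5) 4 (fun i z hz => ?_) (fun i z hz => ?_)
  · exact h
  · exact ((Tor_l_cont hL hz _).mul ((Tor_l_cont hL hz _).pow 2)).mul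
      (((Tor_l_cont hL hz _).mul (Tor_dx_cont hL hz _)).sub
        ((Tor_l_cont hL hz _).mul (Tor_dx_cont hL hz _)))
  · have h1 := Tor_l (L := L) (Tor_cT i) z
    have h2 := Tor_l (L := L) (Tor_eT i) z
    have h2' := Tor_l (L := L) (Tor_wT i) z
    have h3 := Tor_dx (L := L) (Tor_eT i) z
    have h3' := Tor_dx (L := L) (Tor_wT i) z
    have h5 := Tor_MM (L := L) z
    rw [abs_mul, abs_mul, abs_pow]
    have h7 : |lin (lu L z) (eT i) * lin (dx L z) (wT i) -
        lin (lu L z) (wT i) * lin (dx L z) (eT i)| ≤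
        50 * MM L z * (50 * DD L z) + 50 * MM L z * (50 * DD L z) := by
      refine (abs_sub _ _).trans ?_
      rw [abs_mul, abs_mul]
      gcongr
    calc |lin (lu L z) (cT i)| * |lin (lu L z) (eT i)| ^ 2 *
        |lin (lu L z) (eT i) * lin (dx L z) (wT i) -
          lin (lu L z) (wT i) * lin (dx L z) (eT i)| ≤
        50 * MM L z * (50 * MM L z) ^ 2 *
          (50 * MM L z * (50 * DD L z) + 50 * MM L z * (50 * DD L z)) := by
          gcongr
      _ = 2 * 50 ^ 5 * (MM L z ^ 4 * DD L z) := by ring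

/-! ### the three integrations by parts -/

private theorem Tor_reI (c : ℂ) : (c * Complex.I).re = -c.im := by simp

private theorem Tor_imI (c : ℂ) : (c * Complex.I).im = c.re := by simp

private theorem Tor_dxeq (e : Fin 4 → ℤ) (z : ℂ) : (cl (du L z) e).re = lin (dx L z) e :=
  cl_re _ _

private theorem Tor_imeq (e : Fin 4 → ℤ) (z : ℂ) : (cl (du L z) e).im = -lin (dy L z) e := by
  rw [Tor_dyeq, neg_neg]

private theorem Tor_split {f g h : (Fin 2 → ℝ) → ℝ} (hf : IntegrableOn f box)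
    (hg : IntegrableOn g box) (hh : IntegrableOn h box) (a b c : ℝ) :
    ∫ x in box, (a * f x + b * g x + c * h x) =
      a * (∫ x in box, f x) + b * (∫ x in box, g x) + c * (∫ x in box, h x) := by
  have h1 : IntegrableOn (fun x => a * f x) box := hf.const_mul a
  have h2 : IntegrableOn (fun x => b * g x) box := hg.const_mul b
  have h3 : IntegrableOn (fun x => c * h x) box := hh.const_mul c
  have h12 : IntegrableOn (fun x => a * f x + b * g x) box := h1.add h2
  rw [integral_add h12 h3, integral_add h1 h2, integral_const_mul, integral_const_mul,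
    integral_const_mul]

/-- from `∂_y (∑ b a² L2)` -/
theorem stepM (hL : XL L) : MI P L = -(1 / 3) * ∫ x in box, I0 L (E L x) := by
  have hC := Tor_C P
  have h := Tor_mean hL 2 (Λ := fun i z => P.L2 (ff L i z)) (K := P.C + 2 * 50 ^ 2)
    (by positivity) (fun i l z => by rw [Tor_ffper]) (fun i z hz => L2_cd P hL hz i)
    (fun i z hz => L2_fd P hL hz i) (fun i z _ => (P.b2 _).trans (by linarith))
    (fun i z hz => ?_) Complex.I
  · have key : ∀ z, z ∉ Cs L → ∑ i, (bb L i z * aa L i z ^ 2 *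
        (aa L i z • il (cl (du L z) (wT i)) - ww L i z • il (cl (du L z) (eT i))) Complex.I +
        P.L2 (ff L i z) * (bb L i z * (((2 : ℕ) : ℝ) * aa L i z ^ (2 - 1) *
          (cl (du L z) (eT i) * Complex.I).re) +
          aa L i z ^ 2 * (cl (du L z) (cT i) * Complex.I).re)) =
        I0 L z + 3 * ∑ i, bb L i z * aa L i z * P.L2 (ff L i z) * lin (dy L z) (eT i) := by
      intro z hz
      have hp := lin_three (fun i => P.L2 (ff L i z)) (psi_zero P hL hz) (lu L z) (lu L z)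
        (dy L z)
      rw [I0, Pol, Finset.mul_sum, ← Finset.sum_add_distrib, ← sub_eq_zero,
        ← Finset.sum_sub_distrib]
      refine Eq.trans (Finset.sum_congr rfl fun i _ => ?_) hp
      simp only [sub_apply, smul_apply, smul_eq_mul, il_apply, Tor_reI, Tor_imI, Tor_dxeq,
        Tor_imeq, bb, aa, ww]
      push_cast
      ring
    have h1 : ∫ x in box, (I0 L (E L x) + 3 * ∑ i, bb L i (E L x) * aa L i (E L x) *
        P.L2 (ff L i (E L x)) * lin (dy L (E L x)) (eT i)) = 0 := by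
      rw [← h]
      refine integral_congr_ae ?_
      filter_upwards [ae_E L (Cs_countable hL)] with x hx
      exact (key _ hx).symm
    rw [integral_add (int_I0 hL) ((Tor_intM P hL).const_mul 3), integral_const_mul] at h1
    rw [MI]
    linarith
  · have h1 := Tor_l (L := L) (Tor_eT i) z
    have h2 := Tor_l (L := L) (Tor_wT i) z
    have h3 : ‖il (cl (du L z) (wT i))‖ ≤ 50 * DD L z := (Tor_il _).trans (Tor_d (Tor_wT i) z)
    have h4 : ‖il (cl (du L z) (eT i))‖ ≤ 50 * DD L z := (Tor_il _).trans (Tor_d (Tor_eT i) z)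
    have h5 := Tor_MM (L := L) z
    have h6 := Tor_DD (L := L) z
    have h7 : MM L z * DD L z ≤ MM L z ^ 2 * DD L z :=
      mul_le_mul_of_nonneg_right (le_self_pow₀ h5 two_ne_zero) (by linarith)
    have h8 : 0 ≤ MM L z ^ 2 * DD L z := by positivity
    refine (norm_sub_le _ _).trans ?_
    rw [norm_smul, norm_smul, Real.norm_eq_abs, Real.norm_eq_abs]
    calc |aa L i z| * ‖il (cl (du L z) (wT i))‖ + |ww L i z| * ‖il (cl (du L z) (eT i))‖ ≤
        50 * MM L z * (50 * DD L z) + 50 * MM L z * (50 * DD L z) := by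
          rw [aa, ww]
          gcongr
      _ = 2 * 50 ^ 2 * (MM L z * DD L z) := by ring
      _ ≤ 2 * 50 ^ 2 * (MM L z ^ 2 * DD L z) := by gcongr
      _ ≤ (P.C + 2 * 50 ^ 2) * (MM L z ^ 2 * DD L z) :=
          mul_le_mul_of_nonneg_right (by linarith) h8

/-- from `∂_x (∑ b a L3)` -/
theorem stepJ (hL : XL L) : JI P L = -(1 / 2) * MI P L + 1 / 6 * ∫ x in box, I0 L (E L x) := by
  have hC := Tor_C P
  have h := Tor_mean hL 1 (Λ := fun i z => P.L3 (ff L i z)) (K := 50 * P.C + 50 ^ 3)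
    (by positivity) (fun i l z => by rw [Tor_ffper]) (fun i z hz => L3_cd P hL hz i)
    (fun i z hz => L3_fd P hL hz i) (fun i z _ => (P.b3 _).trans (by linarith))
    (fun i z hz => ?_) 1
  · have key : ∀ z, z ∉ Cs L → ∑ i, (bb L i z * aa L i z ^ 1 *
        (-(P.L2 (ff L i z)) • il (cl (du L z) (eT i)) - (1 / 3 * aa L i z) •
          (aa L i z • rl (cl (du L z) (wT i)) - ww L i z • rl (cl (du L z) (eT i)))) 1 +
        P.L3 (ff L i z) * (bb L i z * (((1 : ℕ) : ℝ) * aa L i z ^ (1 - 1) *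
          (cl (du L z) (eT i) * 1).re) + aa L i z ^ 1 * (cl (du L z) (cT i) * 1).re)) =
        2 * (∑ i, bb L i z * P.L3 (ff L i z) * lin (dx L z) (eT i)) +
        1 * (∑ i, bb L i z * aa L i z * P.L2 (ff L i z) * lin (dy L z) (eT i)) +
        -(1 / 3) * I0 L z := by
      intro z hz
      have hp := lin_two (fun i => P.L3 (ff L i z)) (phi_zero P hL hz) (lu L z) (dx L z)
      rw [I0, Pol, Finset.mul_sum, Finset.mul_sum, Finset.mul_sum, ← Finset.sum_add_distrib,
        ← Finset.sum_add_distrib, ← sub_eq_zero, ← Finset.sum_sub_distrib]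
      refine Eq.trans (Finset.sum_congr rfl fun i _ => ?_) hp
      simp only [sub_apply, smul_apply, smul_eq_mul, il_apply, rl_apply, mul_one, Tor_dxeq,
        Tor_imeq, bb, aa, ww]
      push_cast
      ring
    have h1 : ∫ x in box, (2 * (∑ i, bb L i (E L x) * P.L3 (ff L i (E L x)) *
        lin (dx L (E L x)) (eT i)) + 1 * (∑ i, bb L i (E L x) * aa L i (E L x) *
        P.L2 (ff L i (E L x)) * lin (dy L (E L x)) (eT i)) + -(1 / 3) * I0 L (E L x)) = 0 := by
      rw [← h]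
      refine integral_congr_ae ?_
      filter_upwards [ae_E L (Cs_countable hL)] with x hx
      exact (key _ hx).symm
    have h2 := (Tor_split (Tor_intJ P hL) (Tor_intM P hL) (int_I0 hL) 2 1 (-(1 / 3))).symm.trans h1
    rw [JI, MI]
    linarith
  · have h1 := Tor_l (L := L) (Tor_eT i) z
    have h2 := Tor_l (L := L) (Tor_wT i) z
    have h3 : ‖rl (cl (du L z) (wT i))‖ ≤ 50 * DD L z := (Tor_rl _).trans (Tor_d (Tor_wT i) z)
    have h4 : ‖rl (cl (du L z) (eT i))‖ ≤ 50 * DD L z := (Tor_rl _).trans (Tor_d (Tor_eT i) z)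
    have h4' : ‖il (cl (du L z) (eT i))‖ ≤ 50 * DD L z := (Tor_il _).trans (Tor_d (Tor_eT i) z)
    have h5 := Tor_MM (L := L) z
    have h6 := Tor_DD (L := L) z
    have h7 : DD L z ≤ MM L z ^ 2 * DD L z :=
      le_mul_of_one_le_left (by linarith) (one_le_pow₀ h5)
    have h9 := P.b2 (ff L i z)
    refine (norm_sub_le _ _).trans ?_
    have e1 : ‖-(P.L2 (ff L i z)) • il (cl (du L z) (eT i))‖ ≤
        50 * P.C * (MM L z ^ 2 * DD L z) := by
      rw [norm_smul, Real.norm_eq_abs, abs_neg]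
      calc |P.L2 (ff L i z)| * ‖il (cl (du L z) (eT i))‖ ≤ P.C * (50 * DD L z) := by gcongr
        _ = 50 * P.C * DD L z := by ring
        _ ≤ 50 * P.C * (MM L z ^ 2 * DD L z) := by gcongr
    have e2 : ‖aa L i z • rl (cl (du L z) (wT i)) - ww L i z • rl (cl (du L z) (eT i))‖ ≤
        2 * 50 ^ 2 * (MM L z * DD L z) := by
      refine (norm_sub_le _ _).trans ?_
      rw [norm_smul, norm_smul, Real.norm_eq_abs, Real.norm_eq_abs]
      calc |aa L i z| * ‖rl (cl (du L z) (wT i))‖ + |ww L i z| * ‖rl (cl (du L z) (eT i))‖ ≤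
          50 * MM L z * (50 * DD L z) + 50 * MM L z * (50 * DD L z) := by
            rw [aa, ww]
            gcongr
        _ = 2 * 50 ^ 2 * (MM L z * DD L z) := by ring
    have e3 : ‖(1 / 3 * aa L i z) • (aa L i z • rl (cl (du L z) (wT i)) -
        ww L i z • rl (cl (du L z) (eT i)))‖ ≤ 50 ^ 3 * (MM L z ^ 2 * DD L z) := by
      rw [norm_smul, Real.norm_eq_abs, abs_mul]
      calc |(1 / 3 : ℝ)| * |aa L i z| * ‖aa L i z • rl (cl (du L z) (wT i)) -
          ww L i z • rl (cl (du L z) (eT i))‖ ≤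
          |(1 / 3 : ℝ)| * (50 * MM L z) * (2 * 50 ^ 2 * (MM L z * DD L z)) := by
            gcongr
            exact h1
        _ = 2 / 3 * 50 ^ 3 * (MM L z ^ 2 * DD L z) := by
            rw [abs_of_pos (by norm_num : (0 : ℝ) < 1 / 3)]
            ring
        _ ≤ 50 ^ 3 * (MM L z ^ 2 * DD L z) := by
            have : 0 ≤ MM L z ^ 2 * DD L z := by positivity
            nlinarith
    calc _ ≤ 50 * P.C * (MM L z ^ 2 * DD L z) + 50 ^ 3 * (MM L z ^ 2 * DD L z) := add_le_add e1 e3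
      _ = (50 * P.C + 50 ^ 3) * (MM L z ^ 2 * DD L z) := by ring

/-- from `∂_y (∑ b L4)` -/
theorem stepL4 (hL : XL L) :
    ∫ x in box, ∑ i, -(P.L4 (ff L i (E L x)) * lin (dy L (E L x)) (cT i)) =
      JI P L - 1 / 3 * MI P L := by
  have hC := Tor_C P
  have h := Tor_mean hL 0 (Λ := fun i z => P.L4 (ff L i z)) (K := 50 * P.C + 50 ^ 2 * P.C)
    (by positivity) (fun i l z => by rw [Tor_ffper]) (fun i z hz => L4_cd P hL hz i)
    (fun i z hz => L4_fd P hL hz i) (fun i z _ => (P.b4 _).trans (by linarith))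
    (fun i z hz => ?_) Complex.I
  · have key : ∀ z, z ∉ Cs L → ∑ i, (bb L i z * aa L i z ^ 0 *
        (P.L3 (ff L i z) • il (cl (du L z) (eT i)) -
          (1 / 3 * aa L i z * P.L2 (ff L i z)) • rl (cl (du L z) (eT i))) Complex.I +
        P.L4 (ff L i z) * (bb L i z * (((0 : ℕ) : ℝ) * aa L i z ^ (0 - 1) *
          (cl (du L z) (eT i) * Complex.I).re) +
          aa L i z ^ 0 * (cl (du L z) (cT i) * Complex.I).re)) =
        1 * (∑ i, bb L i z * P.L3 (ff L i z) * lin (dx L z) (eT i)) +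
        -(1 / 3) * (∑ i, bb L i z * aa L i z * P.L2 (ff L i z) * lin (dy L z) (eT i)) +
        -1 * ∑ i, -(P.L4 (ff L i z) * lin (dy L z) (cT i)) := by
      intro z hz
      rw [Finset.mul_sum, Finset.mul_sum, Finset.mul_sum, ← Finset.sum_add_distrib, ← Finset.sum_add_distrib]
      refine Finset.sum_congr rfl fun i _ => ?_
      simp only [sub_apply, smul_apply, smul_eq_mul, il_apply, rl_apply, Tor_reI, Tor_imI,
        Tor_dxeq, Tor_imeq, bb, aa]
      push_cast
      ring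
    have h1 : ∫ x in box, (1 * (∑ i, bb L i (E L x) * P.L3 (ff L i (E L x)) *
        lin (dx L (E L x)) (eT i)) + -(1 / 3) * (∑ i, bb L i (E L x) * aa L i (E L x) *
        P.L2 (ff L i (E L x)) * lin (dy L (E L x)) (eT i)) +
        -1 * ∑ i, -(P.L4 (ff L i (E L x)) * lin (dy L (E L x)) (cT i))) = 0 := by
      rw [← h]
      refine integral_congr_ae ?_
      filter_upwards [ae_E L (Cs_countable hL)] with x hx
      exact (key _ hx).symm
    have h2 := (Tor_split (Tor_intJ P hL) (Tor_intM P hL) (Tor_int4 P hL) 1 (-(1 / 3))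
      (-1)).symm.trans h1
    rw [JI, MI]
    linarith
  · have h1 := Tor_l (L := L) (Tor_eT i) z
    have h4 : ‖rl (cl (du L z) (eT i))‖ ≤ 50 * DD L z := (Tor_rl _).trans (Tor_d (Tor_eT i) z)
    have h4' : ‖il (cl (du L z) (eT i))‖ ≤ 50 * DD L z := (Tor_il _).trans (Tor_d (Tor_eT i) z)
    have h5 := Tor_MM (L := L) z
    have h6 := Tor_DD (L := L) z
    have h7 : DD L z ≤ MM L z ^ 2 * DD L z :=
      le_mul_of_one_le_left (by linarith) (one_le_pow₀ h5)
    have h8 : MM L z * DD L z ≤ MM L z ^ 2 * DD L z :=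
      mul_le_mul_of_nonneg_right (le_self_pow₀ h5 two_ne_zero) (by linarith)
    have h9 := P.b2 (ff L i z)
    have h10 := P.b3 (ff L i z)
    refine (norm_sub_le _ _).trans ?_
    have e1 : ‖P.L3 (ff L i z) • il (cl (du L z) (eT i))‖ ≤
        50 * P.C * (MM L z ^ 2 * DD L z) := by
      rw [norm_smul, Real.norm_eq_abs]
      calc |P.L3 (ff L i z)| * ‖il (cl (du L z) (eT i))‖ ≤ P.C * (50 * DD L z) := by gcongr
        _ = 50 * P.C * DD L z := by ring
        _ ≤ 50 * P.C * (MM L z ^ 2 * DD L z) := by gcongr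
    have e3 : ‖(1 / 3 * aa L i z * P.L2 (ff L i z)) • rl (cl (du L z) (eT i))‖ ≤
        50 ^ 2 * P.C * (MM L z ^ 2 * DD L z) := by
      rw [norm_smul, Real.norm_eq_abs, abs_mul, abs_mul]
      calc |(1 / 3 : ℝ)| * |aa L i z| * |P.L2 (ff L i z)| * ‖rl (cl (du L z) (eT i))‖ ≤
          1 * (50 * MM L z) * P.C * (50 * DD L z) := by
            gcongr
            · rw [abs_of_pos (by norm_num : (0 : ℝ) < 1 / 3)]
              norm_num
            · exact h1
        _ = 50 ^ 2 * P.C * (MM L z * DD L z) := by ring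
        _ ≤ 50 ^ 2 * P.C * (MM L z ^ 2 * DD L z) := by gcongr
    calc _ ≤ 50 * P.C * (MM L z ^ 2 * DD L z) + 50 ^ 2 * P.C * (MM L z ^ 2 * DD L z) :=
          add_le_add e1 e3
      _ = (50 * P.C + 50 ^ 2 * P.C) * (MM L z ^ 2 * DD L z) := by ring

private theorem Tor_Rx (z : ℂ) : Rx P L z =
    1 * (∑ i, -(P.L4 (ff L i z) * lin (dy L z) (cT i))) +
    -(1 / 6) * (∑ i, bb L i z * aa L i z * P.L2 (ff L i z) * lin (dy L z) (eT i)) +
    1 / 30 * I0 L z := by
  rw [Rx, I0, Pol, Finset.mul_sum, Finset.mul_sum, Finset.mul_sum, ← Finset.sum_add_distrib,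
    ← Finset.sum_add_distrib]
  refine Finset.sum_congr rfl fun i _ => ?_
  rw [bb, aa, ww]
  ring

theorem int_Rx (hL : XL L) : IntegrableOn (fun x => Rx P L (E L x)) box := by
  have h : (fun x => Rx P L (E L x)) = fun x =>
      1 * (∑ i, -(P.L4 (ff L i (E L x)) * lin (dy L (E L x)) (cT i))) +
      -(1 / 6) * (∑ i, bb L i (E L x) * aa L i (E L x) * P.L2 (ff L i (E L x)) *
        lin (dy L (E L x)) (eT i)) + 1 / 30 * I0 L (E L x) := by
    funext x
    exact Tor_Rx P _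
  rw [h]
  exact (((Tor_int4 P hL).const_mul _).add ((Tor_intM P hL).const_mul _)).add
    ((int_I0 hL).const_mul _)

theorem mean_Rx (hL : XL L) :
    ∫ x in box, Rx P L (E L x) = 8 / 15 * ∫ x in box, I0 L (E L x) := by
  have h : (fun x => Rx P L (E L x)) = fun x =>
      1 * (∑ i, -(P.L4 (ff L i (E L x)) * lin (dy L (E L x)) (cT i))) +
      -(1 / 6) * (∑ i, bb L i (E L x) * aa L i (E L x) * P.L2 (ff L i (E L x)) *
        lin (dy L (E L x)) (eT i)) + 1 / 30 * I0 L (E L x) := by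
    funext x
    exact Tor_Rx P _
  have hM := stepM P hL
  have hJ := stepJ P hL
  have h4 := stepL4 P hL
  have h5 := Tor_split (Tor_int4 P hL) (Tor_intM P hL) (int_I0 hL) 1 (-(1 / 6)) (1 / 30)
  rw [h, h5, h4]
  rw [MI] at *
  linarith

end Pool.Agent.F194.X

end
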