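import Pool.Agent.Work.MP_f194bb_nt.X.Strip
import Pool.Agent.Work.MP_f194bb_nt.X.Tor

/-!
# MP_f194bb_nt, `X_1(11)`: Fubini
-/

set_option autoImplicit false

open scoped ComplexConjugate PeriodPair
open MeasureTheory Filter Topology

noncomputable section

namespace Pool.Agent.F194.X

variable {L : PeriodPair} (P : PolyLog)

private theorem box_pre : (MeasurableEquiv.finTwoArrow : (Fin 2 → ℝ) ≃ᵐ ℝ × ℝ) ⁻¹'
    (Set.Ioc (0 : ℝ) 1 ×ˢ Set.Ioc (0 : ℝ) 1) = box := by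
  ext x
  simp only [box, Set.mem_pi, Set.mem_univ, true_implies, Fin.forall_fin_two, Set.mem_preimage,
    Set.mem_prod]
  rfl

private theorem box_int (G : ℝ → ℝ → ℝ) :
    ∫ x in box, G (x 0) (x 1) =
      ∫ p in Set.Ioc (0 : ℝ) 1 ×ˢ Set.Ioc (0 : ℝ) 1, G p.1 p.2 := by
  have h := (volume_preserving_finTwoArrow ℝ).setIntegral_preimage_emb
    (MeasurableEquiv.measurableEmbedding _) (fun p : ℝ × ℝ => G p.1 p.2)
    (Set.Ioc (0 : ℝ) 1 ×ˢ Set.Ioc (0 : ℝ) 1)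
  rw [box_pre] at h
  exact h

private theorem box_itg (G : ℝ → ℝ → ℝ) (hG : IntegrableOn (fun x : Fin 2 → ℝ => G (x 0) (x 1)) box) :
    IntegrableOn (fun p : ℝ × ℝ => G p.1 p.2) (Set.Ioc (0 : ℝ) 1 ×ˢ Set.Ioc (0 : ℝ) 1) := by
  have h := (volume_preserving_finTwoArrow ℝ).integrableOn_comp_preimage
    (MeasurableEquiv.measurableEmbedding _) (f := fun p : ℝ × ℝ => G p.1 p.2)
    (s := Set.Ioc (0 : ℝ) 1 ×ˢ Set.Ioc (0 : ℝ) 1)
  rw [← h, box_pre]
  exact hG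

theorem fub (hL : XL L) {y : ℝ} (h1 : L.ω₂.im < y) (h2 : y < 0) :
    ∫ x in box, Rx P L (E L x) = (L.ω₁.re)⁻¹ * ri P L y := by
  have hr := hL.pos1
  have om : (L.ω₁.re : ℂ) = L.ω₁ :=
    Complex.ext (Complex.ofReal_re _) (by rw [Complex.ofReal_im, hL.re1])
  have e0 : ∫ x in box, Rx P L (E L x) =
      ∫ p in Set.Ioc (0 : ℝ) 1 ×ˢ Set.Ioc (0 : ℝ) 1, Rx P L (p.1 * L.ω₁ + p.2 * L.ω₂) :=
    box_int fun a b => Rx P L (a * L.ω₁ + b * L.ω₂)
  have i0 : IntegrableOn (fun p : ℝ × ℝ => Rx P L (p.1 * L.ω₁ + p.2 * L.ω₂))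
      (Set.Ioc (0 : ℝ) 1 ×ˢ Set.Ioc (0 : ℝ) 1) :=
    box_itg (fun a b => Rx P L (a * L.ω₁ + b * L.ω₂)) (int_Rx P hL)
  rw [e0]
  rw [IntegrableOn, Measure.volume_eq_prod, ← Measure.prod_restrict] at i0
  rw [Measure.volume_eq_prod, ← Measure.prod_restrict, integral_prod_symm _ i0,
    integral_Ioc_eq_integral_Ioo]
  have inner : ∀ b ∈ Set.Ioo (0 : ℝ) 1,
      (∫ a in Set.Ioc (0 : ℝ) 1, Rx P L (a * L.ω₁ + b * L.ω₂)) = (L.ω₁.re)⁻¹ * ri P L y := by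
    intro b hb
    have hneg := hL.neg2
    have hb1 : L.ω₂.im < b * L.ω₂.im := by nlinarith [hb.1, hb.2]
    have hb2 : b * L.ω₂.im < 0 := mul_neg_of_pos_of_neg hb.1 hneg
    have hri : ri P L (b * L.ω₂.im) = ri P L y := by
      rcases le_total (b * L.ω₂.im) y with h | h
      · exact ri_const P hL hb1 h h2
      · exact (ri_const P hL h1 h hb2).symm
    have hper : Function.Periodic
        (fun t : ℝ => Rx P L (t + ((b * L.ω₂.im : ℝ) : ℂ) * Complex.I)) L.ω₁.re := by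
      intro t
      have := Rx_per P (L := L) ⟨L.ω₁, L.ω₁_mem_lattice⟩
        (t + ((b * L.ω₂.im : ℝ) : ℂ) * Complex.I)
      show Rx P L (((t + L.ω₁.re : ℝ) : ℂ) + ((b * L.ω₂.im : ℝ) : ℂ) * Complex.I) =
        Rx P L (t + ((b * L.ω₂.im : ℝ) : ℂ) * Complex.I)
      rw [← this]
      congr 1
      rw [Complex.ofReal_add, om]
      ring
    have e1 : (∫ a in Set.Ioc (0 : ℝ) 1, Rx P L (a * L.ω₁ + b * L.ω₂)) =
        ∫ a in (0 : ℝ)..1, (fun t : ℝ => Rx P L (t + ((b * L.ω₂.im : ℝ) : ℂ) * Complex.I))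
          (L.ω₁.re * a + b * L.ω₂.re) := by
      rw [intervalIntegral.integral_of_le zero_le_one]
      refine setIntegral_congr_fun measurableSet_Ioc fun a _ => ?_
      show Rx P L (a * L.ω₁ + b * L.ω₂) =
        Rx P L (((L.ω₁.re * a + b * L.ω₂.re : ℝ) : ℂ) + ((b * L.ω₂.im : ℝ) : ℂ) * Complex.I)
      congr 1
      apply Complex.ext
      · simp [hL.re1]
        ring
      · simp [hL.re1]
    have e2 := intervalIntegral.integral_comp_mul_add (a := 0) (b := 1)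
      (fun t : ℝ => Rx P L (t + ((b * L.ω₂.im : ℝ) : ℂ) * Complex.I)) hr.ne' (b * L.ω₂.re)
    rw [e1, e2, smul_eq_mul, mul_zero, zero_add,
      mul_one, add_comm L.ω₁.re, hper.intervalIntegral_add_eq _ 0, zero_add, ← hri]
    rfl
  rw [setIntegral_congr_fun measurableSet_Ioo inner]
  simp

end Pool.Agent.F194.X

end
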