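import Pool.Agent.Work.MP_f194bb_nt.X.Psi

/-!
# MP_f194bb_nt, `X_1(11)`: the form is closed
-/

set_option autoImplicit false

open scoped ComplexConjugate PeriodPair
open MeasureTheory Filter Topology

noncomputable section

namespace Pool.Agent.F194.X

variable {L : PeriodPair} (P : PolyLog)

private theorem clo_im (z : ℂ) (e : Fin 4 → ℤ) : (cl (du L z) e).im = -lin (dy L z) e := by
  rw [cl_im]
  simp only [lin, dy, mul_neg, Finset.sum_neg_distrib, neg_neg]

private theorem clo_re (z : ℂ) (e : Fin 4 → ℤ) : (cl (du L z) e).re = lin (dx L z) e :=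
  cl_re _ _

private theorem clo_cl (hL : XL L) {z : ℂ} (hz : z ∉ Cs L) (e : Fin 4 → ℤ) :
    HasDerivAt (fun z => cl (du L z) e) (cl (fun k => deriv (fun z => du L z k) z) e) z := by
  unfold cl
  exact HasDerivAt.fun_sum fun k _ =>
    (du_an hL hz k).differentiableAt.hasDerivAt.const_mul _

private theorem clo_dx (hL : XL L) {z : ℂ} (hz : z ∉ Cs L) (e : Fin 4 → ℤ) :
    HasFDerivAt (fun z => lin (dx L z) e)
      (rl (cl (fun k => deriv (fun z => du L z k) z) e)) z := by
  have h := Complex.reCLM.hasFDerivAt.comp z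
    ((clo_cl hL hz e).hasFDerivAt.restrictScalars ℝ)
  have e1 : (fun z => lin (dx L z) e) = Complex.reCLM ∘ fun z => cl (du L z) e := by
    funext w
    exact (clo_re w e).symm
  rw [e1]
  refine h.congr_fderiv ?_
  ext v
  simp only [ContinuousLinearMap.comp_apply, ContinuousLinearMap.coe_restrictScalars',
    ContinuousLinearMap.toSpanSingleton_apply, smul_eq_mul, rl_apply, Complex.reCLM_apply]
  rw [mul_comm]

private theorem clo_dy (hL : XL L) {z : ℂ} (hz : z ∉ Cs L) (e : Fin 4 → ℤ) :
    HasFDerivAt (fun z => lin (dy L z) e)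
      (-il (cl (fun k => deriv (fun z => du L z k) z) e)) z := by
  have h := (Complex.imCLM.hasFDerivAt.comp z
    ((clo_cl hL hz e).hasFDerivAt.restrictScalars ℝ)).neg
  have e1 : (fun z => lin (dy L z) e) = -(Complex.imCLM ∘ fun z => cl (du L z) e) := by
    funext w
    simp only [Pi.neg_apply, Function.comp_apply, Complex.imCLM_apply, clo_im w e, neg_neg]
  rw [e1]
  refine h.congr_fderiv ?_
  ext v
  simp only [neg_apply, ContinuousLinearMap.comp_apply, ContinuousLinearMap.coe_restrictScalars',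
    ContinuousLinearMap.toSpanSingleton_apply, smul_eq_mul, il_apply, Complex.imCLM_apply]
  rw [mul_comm]

private theorem clo_dx_cd (hL : XL L) {z : ℂ} (hz : z ∉ Cs L) (e : Fin 4 → ℤ) :
    ContDiffAt ℝ 1 (fun z => lin (dx L z) e) z := by
  have e1 : (fun z => lin (dx L z) e) = fun z => Complex.reCLM (cl (du L z) e) := by
    funext w
    exact (clo_re w e).symm
  rw [e1]
  refine Complex.reCLM.contDiff.contDiffAt.comp z ?_
  unfold cl
  exact ContDiffAt.sum fun k _ =>
    contDiffAt_const.mul ((du_an hL hz k).contDiffAt.restrict_scalars ℝ)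

private theorem clo_dy_cd (hL : XL L) {z : ℂ} (hz : z ∉ Cs L) (e : Fin 4 → ℤ) :
    ContDiffAt ℝ 1 (fun z => lin (dy L z) e) z := by
  have e1 : (fun z => lin (dy L z) e) = fun z => -Complex.imCLM (cl (du L z) e) := by
    funext w
    simp only [Complex.imCLM_apply, clo_im w e, neg_neg]
  rw [e1]
  refine (Complex.imCLM.contDiff.contDiffAt.comp z ?_).neg
  unfold cl
  exact ContDiffAt.sum fun k _ =>
    contDiffAt_const.mul ((du_an hL hz k).contDiffAt.restrict_scalars ℝ)

theorem Rx_cd (hL : XL L) {z : ℂ} (hz : z ∉ Cs L) : ContDiffAt ℝ 1 (Rx P L) z := by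
  unfold Rx
  refine ContDiffAt.sum fun i _ => ?_
  have ha : ContDiffAt ℝ 1 (fun z => aa L i z) z := lin_cd hL hz (eT i)
  have hb : ContDiffAt ℝ 1 (fun z => bb L i z) z := lin_cd hL hz (cT i)
  have hw : ContDiffAt ℝ 1 (fun z => ww L i z) z := lin_cd hL hz (wT i)
  exact ((((L4_cd P hL hz i).mul (clo_dy_cd hL hz (cT i))).neg).sub
    (contDiffAt_const.mul (((hb.mul ha).mul (L2_cd P hL hz i)).mul (clo_dy_cd hL hz (eT i))))).add
    (contDiffAt_const.mul ((hb.mul (ha.pow 2)).mul
      ((ha.mul (clo_dx_cd hL hz (wT i))).sub (hw.mul (clo_dx_cd hL hz (eT i))))))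

theorem Ry_cd (hL : XL L) {z : ℂ} (hz : z ∉ Cs L) : ContDiffAt ℝ 1 (Ry P L) z := by
  unfold Ry
  refine ContDiffAt.sum fun i _ => ?_
  have ha : ContDiffAt ℝ 1 (fun z => aa L i z) z := lin_cd hL hz (eT i)
  have hb : ContDiffAt ℝ 1 (fun z => bb L i z) z := lin_cd hL hz (cT i)
  have hw : ContDiffAt ℝ 1 (fun z => ww L i z) z := lin_cd hL hz (wT i)
  exact (((L4_cd P hL hz i).mul (clo_dx_cd hL hz (cT i))).add
    (contDiffAt_const.mul (((hb.mul ha).mul (L2_cd P hL hz i)).mul (clo_dx_cd hL hz (eT i))))).add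
    (contDiffAt_const.mul ((hb.mul (ha.pow 2)).mul
      ((ha.mul (clo_dy_cd hL hz (wT i))).sub (hw.mul (clo_dy_cd hL hz (eT i))))))

/-- the `i`-th summand of `Rx`, derivative in the direction `I` -/
private theorem clo_x (hL : XL L) {z : ℂ} (hz : z ∉ Cs L) (i : Fin 30) :
    ∃ D : ℂ →L[ℝ] ℝ, HasFDerivAt (fun z =>
      (-(P.L4 (ff L i z) * lin (dy L z) (cT i)) -
        1 / 6 * (bb L i z * aa L i z * P.L2 (ff L i z) * lin (dy L z) (eT i)) +
        1 / 30 * (bb L i z * aa L i z ^ 2 *
          (aa L i z * lin (dx L z) (wT i) - ww L i z * lin (dx L z) (eT i))))) D z ∧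
      D Complex.I =
        -((P.L3 (ff L i z) * lin (dx L z) (eT i) -
            1 / 3 * aa L i z * P.L2 (ff L i z) * lin (dy L z) (eT i)) * lin (dy L z) (cT i) -
          P.L4 (ff L i z) * (cl (fun k => deriv (fun z => du L z k) z) (cT i)).re) -
        1 / 6 * ((lin (dy L z) (cT i) * aa L i z + bb L i z * lin (dy L z) (eT i)) *
            P.L2 (ff L i z) * lin (dy L z) (eT i) +
          bb L i z * aa L i z * ((aa L i z * lin (dx L z) (wT i) -
            ww L i z * lin (dx L z) (eT i)) * lin (dy L z) (eT i) -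
            P.L2 (ff L i z) * (cl (fun k => deriv (fun z => du L z k) z) (eT i)).re)) +
        1 / 30 * ((lin (dy L z) (cT i) * aa L i z ^ 2 +
            bb L i z * (2 * aa L i z * lin (dy L z) (eT i))) *
            (aa L i z * lin (dx L z) (wT i) - ww L i z * lin (dx L z) (eT i)) +
          bb L i z * aa L i z ^ 2 *
            (lin (dy L z) (eT i) * lin (dx L z) (wT i) -
              aa L i z * (cl (fun k => deriv (fun z => du L z k) z) (wT i)).im -
              (lin (dy L z) (wT i) * lin (dx L z) (eT i) -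
              ww L i z * (cl (fun k => deriv (fun z => du L z k) z) (eT i)).im))) := by
  have ha : HasFDerivAt (fun z => aa L i z) (rl (cl (du L z) (eT i))) z := lin_fd hL hz (eT i)
  have hb : HasFDerivAt (fun z => bb L i z) (rl (cl (du L z) (cT i))) z := lin_fd hL hz (cT i)
  have hw : HasFDerivAt (fun z => ww L i z) (rl (cl (du L z) (wT i))) z := lin_fd hL hz (wT i)
  refine ⟨_, ((((L4_fd P hL hz i).mul (clo_dy hL hz (cT i))).neg).sub
    ((((hb.mul ha).mul (L2_fd P hL hz i)).mul (clo_dy hL hz (eT i))).const_mul (1 / 6))).add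
    (((hb.mul (ha.pow 2)).mul
      ((ha.mul (clo_dx hL hz (wT i))).sub (hw.mul (clo_dx hL hz (eT i))))).const_mul (1 / 30)), ?_⟩
  simp only [add_apply, sub_apply, neg_apply, smul_apply, rl_apply, il_apply, smul_eq_mul,
    Complex.mul_re, Complex.mul_im, Complex.I_re, Complex.I_im, mul_zero, mul_one, zero_sub,
    add_zero, clo_im, clo_re, Pi.mul_apply, Pi.sub_apply]
  ring

/-- the `i`-th summand of `Ry`, derivative in the direction `1` -/
private theorem clo_y (hL : XL L) {z : ℂ} (hz : z ∉ Cs L) (i : Fin 30) :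
    ∃ D : ℂ →L[ℝ] ℝ, HasFDerivAt (fun z =>
      (P.L4 (ff L i z) * lin (dx L z) (cT i) +
        1 / 6 * (bb L i z * aa L i z * P.L2 (ff L i z) * lin (dx L z) (eT i)) +
        1 / 30 * (bb L i z * aa L i z ^ 2 *
          (aa L i z * lin (dy L z) (wT i) - ww L i z * lin (dy L z) (eT i))))) D z ∧
      D 1 =
        ((-P.L3 (ff L i z) * lin (dy L z) (eT i) -
            1 / 3 * aa L i z * P.L2 (ff L i z) * lin (dx L z) (eT i)) * lin (dx L z) (cT i) +
          P.L4 (ff L i z) * (cl (fun k => deriv (fun z => du L z k) z) (cT i)).re) +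
        1 / 6 * ((lin (dx L z) (cT i) * aa L i z + bb L i z * lin (dx L z) (eT i)) *
            P.L2 (ff L i z) * lin (dx L z) (eT i) +
          bb L i z * aa L i z * ((-aa L i z * lin (dy L z) (wT i) +
            ww L i z * lin (dy L z) (eT i)) * lin (dx L z) (eT i) +
            P.L2 (ff L i z) * (cl (fun k => deriv (fun z => du L z k) z) (eT i)).re)) +
        1 / 30 * ((lin (dx L z) (cT i) * aa L i z ^ 2 +
            bb L i z * (2 * aa L i z * lin (dx L z) (eT i))) *
            (aa L i z * lin (dy L z) (wT i) - ww L i z * lin (dy L z) (eT i)) +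
          bb L i z * aa L i z ^ 2 *
            (lin (dx L z) (eT i) * lin (dy L z) (wT i) -
              aa L i z * (cl (fun k => deriv (fun z => du L z k) z) (wT i)).im -
              (lin (dx L z) (wT i) * lin (dy L z) (eT i) -
              ww L i z * (cl (fun k => deriv (fun z => du L z k) z) (eT i)).im))) := by
  have ha : HasFDerivAt (fun z => aa L i z) (rl (cl (du L z) (eT i))) z := lin_fd hL hz (eT i)
  have hb : HasFDerivAt (fun z => bb L i z) (rl (cl (du L z) (cT i))) z := lin_fd hL hz (cT i)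
  have hw : HasFDerivAt (fun z => ww L i z) (rl (cl (du L z) (wT i))) z := lin_fd hL hz (wT i)
  refine ⟨_, (((L4_fd P hL hz i).mul (clo_dx hL hz (cT i))).add
    ((((hb.mul ha).mul (L2_fd P hL hz i)).mul (clo_dx hL hz (eT i))).const_mul (1 / 6))).add
    (((hb.mul (ha.pow 2)).mul
      ((ha.mul (clo_dy hL hz (wT i))).sub (hw.mul (clo_dy hL hz (eT i))))).const_mul (1 / 30)), ?_⟩
  simp only [add_apply, sub_apply, neg_apply, smul_apply, rl_apply, il_apply, smul_eq_mul,
    mul_one, clo_im, clo_re, Pi.mul_apply, Pi.sub_apply]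
  ring

/-- `∂_y Rx = ∂_x Ry` -/
theorem closed (hL : XL L) {z : ℂ} (hz : z ∉ Cs L) :
    fderiv ℝ (Rx P L) z Complex.I = fderiv ℝ (Ry P L) z 1 := by
  choose DX hX hX' using fun i => clo_x P hL hz i
  choose DY hY hY' using fun i => clo_y P hL hz i
  have h1 : HasFDerivAt (Rx P L) (∑ i, DX i) z := HasFDerivAt.fun_sum fun i _ => hX i
  have h2 : HasFDerivAt (Ry P L) (∑ i, DY i) z := HasFDerivAt.fun_sum fun i _ => hY i
  rw [h1.fderiv, h2.fderiv, sum_apply, sum_apply,
    ← sub_eq_zero, ← Finset.sum_sub_distrib]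
  have k1 := lin_two (fun i => P.L3 (ff L i z)) (fun r t => phi_zero P hL hz r t) (dx L z) (dy L z)
  have k2 := lin_three (fun i => P.L2 (ff L i z)) (fun m r t => psi_zero P hL hz m r t)
    (dx L z) (lu L z) (dx L z)
  have k3 := lin_three (fun i => P.L2 (ff L i z)) (fun m r t => psi_zero P hL hz m r t)
    (dy L z) (lu L z) (dy L z)
  have k4 := lin_five (dy L z) (lu L z) (lu L z) (lu L z) (dx L z)
  have k5 := lin_five (dx L z) (lu L z) (lu L z) (lu L z) (dy L z)
  have key : ∀ i, DX i Complex.I - DY i 1 =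
      -(P.L3 (ff L i z) * (lin (dx L z) (eT i) * lin (dy L z) (cT i) -
        lin (dy L z) (eT i) * lin (dx L z) (cT i))) +
      1 / 6 * (P.L2 (ff L i z) * lin (dx L z) (eT i) *
        (lin (lu L z) (eT i) * lin (dx L z) (cT i) - lin (dx L z) (eT i) * lin (lu L z) (cT i))) +
      1 / 6 * (P.L2 (ff L i z) * lin (dy L z) (eT i) *
        (lin (lu L z) (eT i) * lin (dy L z) (cT i) - lin (dy L z) (eT i) * lin (lu L z) (cT i))) -
      1 / 30 * ((lin (dy L z) (wT i) * lin (lu L z) (eT i) -
        lin (lu L z) (wT i) * lin (dy L z) (eT i)) * lin (lu L z) (eT i) *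
        (lin (lu L z) (eT i) * lin (dx L z) (cT i) - lin (dx L z) (eT i) * lin (lu L z) (cT i))) +
      1 / 30 * ((lin (dx L z) (wT i) * lin (lu L z) (eT i) -
        lin (lu L z) (wT i) * lin (dx L z) (eT i)) * lin (lu L z) (eT i) *
        (lin (lu L z) (eT i) * lin (dy L z) (cT i) - lin (dy L z) (eT i) * lin (lu L z) (cT i))) := by
    intro i
    rw [hX' i, hY' i]
    simp only [aa, bb, ww]
    ring
  rw [Finset.sum_congr rfl fun i _ => key i]
  simp only [Finset.sum_add_distrib, Finset.sum_sub_distrib, Finset.sum_neg_distrib,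
    ← Finset.mul_sum] at k1 k2 k3 k4 k5 ⊢
  rw [k1, k2, k3, k4, k5]
  ring

private theorem clo_du (l : L.lattice) (z : ℂ) (k : Fin 4) : du L (z + l) k = du L z k := by
  have h : ∀ w, U L k (w + l) = U L k w := U_per k l
  unfold du
  rw [h z]
  congr 1
  have h2 := deriv_comp_add_const (U L k) (l : ℂ) z
  rw [← h2]
  congr 1
  funext w
  exact h w

private theorem clo_lu (l : L.lattice) (z : ℂ) : lu L (z + l) = lu L z := by
  funext k
  unfold lu
  rw [U_per k l z]

private theorem clo_ff (l : L.lattice) (z : ℂ) (i : Fin 30) : ff L i (z + l) = ff L i z := by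
  have : (fun k => U L k (z + l)) = fun k => U L k z := funext fun k => U_per k l z
  unfold ff
  rw [this]

theorem Rx_per (l : L.lattice) (z : ℂ) : Rx P L (z + l) = Rx P L z := by
  have h1 : dx L (z + l) = dx L z := by
    funext k
    simp only [dx, clo_du]
  have h2 : dy L (z + l) = dy L z := by
    funext k
    simp only [dy, clo_du]
  simp only [Rx, aa, bb, ww, clo_lu, clo_ff, h1, h2]

theorem Ry_per (l : L.lattice) (z : ℂ) : Ry P L (z + l) = Ry P L z := by
  have h1 : dx L (z + l) = dx L z := by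
    funext k
    simp only [dx, clo_du]
  have h2 : dy L (z + l) = dy L z := by
    funext k
    simp only [dy, clo_du]
  simp only [Ry, aa, bb, ww, clo_lu, clo_ff, h1, h2]

end Pool.Agent.F194.X

end
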