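import Pool.Agent.Work.MP_f194bb_nt.X.Fun

/-!
# MP_f194bb_nt, `X_1(11)`: the table of exceptional units
-/

set_option autoImplicit false

open scoped ComplexConjugate PeriodPair
open MeasureTheory Filter Topology

noncomputable section

namespace Pool.Agent.F194.X

/-- the four units are non-zero -/
theorem uv_ne {F : Type*} [Field F] {x v : F} (h : v * (v + 1) = x * (x + 1) ^ 2) (hx : x ≠ 0)
    (hx1 : x + 1 ≠ 0) (k : Fin 4) : uv x v k ≠ 0 := by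
  have hv : v ≠ 0 := by
    rintro rfl
    rw [zero_mul] at h
    exact mul_ne_zero hx (pow_ne_zero 2 hx1) h.symm
  have hvx : v - x ≠ 0 := by
    intro h0
    have h1 : v = x := sub_eq_zero.1 h0
    rw [h1] at h
    have h2 : x ^ 2 * (x + 1) = 0 := by linear_combination -h
    exact mul_ne_zero (pow_ne_zero 2 hx) hx1 h2
  fin_cases k
  · exact hx
  · exact hx1
  · exact hvx
  · exact hv

/-- numerator exponents of `f i` -/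
private def tabA : Fin 30 → Fin 4 → ℕ := ![
  ![1, 0, 0, 0], ![0, 1, 0, 0], ![0, 1, 0, 0], ![1, 1, 0, 1], ![0, 2, 1, 0], ![0, 2, 1, 0],
  ![0, 0, 1, 1], ![1, 2, 0, 0], ![1, 2, 0, 0], ![0, 0, 1, 1], ![2, 1, 0, 0], ![2, 1, 0, 0],
  ![0, 0, 1, 0], ![0, 0, 0, 1], ![0, 0, 0, 1], ![0, 0, 0, 2], ![1, 2, 0, 0], ![1, 2, 0, 0],
  ![0, 1, 0, 2], ![2, 2, 0, 0], ![2, 2, 0, 0], ![0, 2, 1, 1], ![3, 2, 0, 0], ![3, 2, 0, 0],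
  ![0, 0, 2, 1], ![0, 3, 1, 0], ![0, 3, 1, 0], ![0, 0, 1, 2], ![0, 3, 1, 0], ![0, 3, 1, 0]]

/-- numerator exponents of `1 - f i` -/
private def tabB : Fin 30 → Fin 4 → ℕ := ![
  ![0, 1, 0, 0], ![1, 0, 0, 0], ![0, 0, 0, 0], ![0, 2, 1, 0], ![1, 1, 0, 1], ![0, 0, 1, 1],
  ![1, 2, 0, 0], ![0, 0, 1, 1], ![0, 1, 0, 1], ![2, 1, 0, 0], ![0, 0, 1, 1], ![0, 1, 1, 0],
  ![0, 0, 0, 1], ![0, 0, 1, 0], ![1, 0, 0, 0], ![1, 2, 0, 0], ![0, 0, 0, 2], ![0, 0, 0, 1],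
  ![2, 2, 0, 0], ![0, 1, 0, 2], ![0, 0, 1, 1], ![3, 2, 0, 0], ![0, 2, 1, 1], ![0, 0, 2, 1],
  ![0, 3, 1, 0], ![0, 0, 2, 1], ![2, 2, 0, 0], ![0, 3, 1, 0], ![0, 0, 1, 2], ![1, 1, 0, 1]]

/-- common denominator exponents -/
private def tabM : Fin 30 → Fin 4 → ℕ := ![
  ![0, 0, 0, 0], ![0, 0, 0, 0], ![1, 0, 0, 0], ![0, 0, 1, 1], ![0, 0, 1, 1], ![1, 1, 0, 1],
  ![0, 1, 0, 1], ![0, 1, 0, 1], ![0, 0, 1, 1], ![0, 1, 1, 0], ![0, 1, 1, 0], ![0, 0, 1, 1],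
  ![1, 0, 0, 0], ![1, 0, 0, 0], ![0, 0, 1, 0], ![0, 0, 0, 1], ![0, 0, 0, 1], ![0, 0, 0, 2],
  ![0, 0, 1, 1], ![0, 0, 1, 1], ![0, 1, 0, 2], ![0, 0, 2, 1], ![0, 0, 2, 1], ![0, 2, 1, 1],
  ![2, 2, 0, 0], ![2, 2, 0, 0], ![0, 0, 2, 1], ![1, 1, 0, 1], ![1, 1, 0, 1], ![0, 0, 1, 2]]

private theorem tabA_eq : ∀ i k, eT i k = (tabA i k : ℤ) - tabM i k := by decide +kernel

private theorem tabB_eq : ∀ i k, wT i k = (tabB i k : ℤ) - tabM i k := by decide +kernel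

private def pw {F : Type*} [Field F] (x v : F) (a : Fin 4 → ℕ) : F :=
  x ^ a 0 * (x + 1) ^ a 1 * (v - x) ^ a 2 * v ^ a 3

private theorem tab_poly {F : Type*} [Field F] {x v : F}
    (h : v * (v + 1) = x * (x + 1) ^ 2) (i : Fin 30) :
    (sT i : F) * pw x v (tabA i) + (sT' i : F) * pw x v (tabB i) = pw x v (tabM i) := by
  fin_cases i
  · show ((-1 : ℤ) : F) * (x ^ 1 * (x + 1) ^ 0 * (v - x) ^ 0 * v ^ 0) +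
      ((1 : ℤ) : F) * (x ^ 0 * (x + 1) ^ 1 * (v - x) ^ 0 * v ^ 0) =
        x ^ 0 * (x + 1) ^ 0 * (v - x) ^ 0 * v ^ 0
    push_cast
    linear_combination (0) * h
  · show ((1 : ℤ) : F) * (x ^ 0 * (x + 1) ^ 1 * (v - x) ^ 0 * v ^ 0) +
      ((-1 : ℤ) : F) * (x ^ 1 * (x + 1) ^ 0 * (v - x) ^ 0 * v ^ 0) =
        x ^ 0 * (x + 1) ^ 0 * (v - x) ^ 0 * v ^ 0
    push_cast
    linear_combination (0) * h
  · show ((1 : ℤ) : F) * (x ^ 0 * (x + 1) ^ 1 * (v - x) ^ 0 * v ^ 0) +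
      ((-1 : ℤ) : F) * (x ^ 0 * (x + 1) ^ 0 * (v - x) ^ 0 * v ^ 0) =
        x ^ 1 * (x + 1) ^ 0 * (v - x) ^ 0 * v ^ 0
    push_cast
    linear_combination (0) * h
  · show ((1 : ℤ) : F) * (x ^ 1 * (x + 1) ^ 1 * (v - x) ^ 0 * v ^ 1) +
      ((-1 : ℤ) : F) * (x ^ 0 * (x + 1) ^ 2 * (v - x) ^ 1 * v ^ 0) =
        x ^ 0 * (x + 1) ^ 0 * (v - x) ^ 1 * v ^ 1
    push_cast
    linear_combination (-1) * h
  · show ((-1 : ℤ) : F) * (x ^ 0 * (x + 1) ^ 2 * (v - x) ^ 1 * v ^ 0) +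
      ((1 : ℤ) : F) * (x ^ 1 * (x + 1) ^ 1 * (v - x) ^ 0 * v ^ 1) =
        x ^ 0 * (x + 1) ^ 0 * (v - x) ^ 1 * v ^ 1
    push_cast
    linear_combination (-1) * h
  · show ((1 : ℤ) : F) * (x ^ 0 * (x + 1) ^ 2 * (v - x) ^ 1 * v ^ 0) +
      ((1 : ℤ) : F) * (x ^ 0 * (x + 1) ^ 0 * (v - x) ^ 1 * v ^ 1) =
        x ^ 1 * (x + 1) ^ 1 * (v - x) ^ 0 * v ^ 1
    push_cast
    linear_combination (1) * h
  · show ((-1 : ℤ) : F) * (x ^ 0 * (x + 1) ^ 0 * (v - x) ^ 1 * v ^ 1) +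
      ((1 : ℤ) : F) * (x ^ 1 * (x + 1) ^ 2 * (v - x) ^ 0 * v ^ 0) =
        x ^ 0 * (x + 1) ^ 1 * (v - x) ^ 0 * v ^ 1
    push_cast
    linear_combination (-1) * h
  · show ((1 : ℤ) : F) * (x ^ 1 * (x + 1) ^ 2 * (v - x) ^ 0 * v ^ 0) +
      ((-1 : ℤ) : F) * (x ^ 0 * (x + 1) ^ 0 * (v - x) ^ 1 * v ^ 1) =
        x ^ 0 * (x + 1) ^ 1 * (v - x) ^ 0 * v ^ 1
    push_cast
    linear_combination (-1) * h
  · show ((1 : ℤ) : F) * (x ^ 1 * (x + 1) ^ 2 * (v - x) ^ 0 * v ^ 0) +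
      ((-1 : ℤ) : F) * (x ^ 0 * (x + 1) ^ 1 * (v - x) ^ 0 * v ^ 1) =
        x ^ 0 * (x + 1) ^ 0 * (v - x) ^ 1 * v ^ 1
    push_cast
    linear_combination (-1) * h
  · show ((-1 : ℤ) : F) * (x ^ 0 * (x + 1) ^ 0 * (v - x) ^ 1 * v ^ 1) +
      ((1 : ℤ) : F) * (x ^ 2 * (x + 1) ^ 1 * (v - x) ^ 0 * v ^ 0) =
        x ^ 0 * (x + 1) ^ 1 * (v - x) ^ 1 * v ^ 0
    push_cast
    linear_combination (-1) * h
  · show ((1 : ℤ) : F) * (x ^ 2 * (x + 1) ^ 1 * (v - x) ^ 0 * v ^ 0) +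
      ((-1 : ℤ) : F) * (x ^ 0 * (x + 1) ^ 0 * (v - x) ^ 1 * v ^ 1) =
        x ^ 0 * (x + 1) ^ 1 * (v - x) ^ 1 * v ^ 0
    push_cast
    linear_combination (-1) * h
  · show ((1 : ℤ) : F) * (x ^ 2 * (x + 1) ^ 1 * (v - x) ^ 0 * v ^ 0) +
      ((-1 : ℤ) : F) * (x ^ 0 * (x + 1) ^ 1 * (v - x) ^ 1 * v ^ 0) =
        x ^ 0 * (x + 1) ^ 0 * (v - x) ^ 1 * v ^ 1
    push_cast
    linear_combination (-1) * h
  · show ((-1 : ℤ) : F) * (x ^ 0 * (x + 1) ^ 0 * (v - x) ^ 1 * v ^ 0) +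
      ((1 : ℤ) : F) * (x ^ 0 * (x + 1) ^ 0 * (v - x) ^ 0 * v ^ 1) =
        x ^ 1 * (x + 1) ^ 0 * (v - x) ^ 0 * v ^ 0
    push_cast
    linear_combination (0) * h
  · show ((1 : ℤ) : F) * (x ^ 0 * (x + 1) ^ 0 * (v - x) ^ 0 * v ^ 1) +
      ((-1 : ℤ) : F) * (x ^ 0 * (x + 1) ^ 0 * (v - x) ^ 1 * v ^ 0) =
        x ^ 1 * (x + 1) ^ 0 * (v - x) ^ 0 * v ^ 0
    push_cast
    linear_combination (0) * h
  · show ((1 : ℤ) : F) * (x ^ 0 * (x + 1) ^ 0 * (v - x) ^ 0 * v ^ 1) +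
      ((-1 : ℤ) : F) * (x ^ 1 * (x + 1) ^ 0 * (v - x) ^ 0 * v ^ 0) =
        x ^ 0 * (x + 1) ^ 0 * (v - x) ^ 1 * v ^ 0
    push_cast
    linear_combination (0) * h
  · show ((-1 : ℤ) : F) * (x ^ 0 * (x + 1) ^ 0 * (v - x) ^ 0 * v ^ 2) +
      ((1 : ℤ) : F) * (x ^ 1 * (x + 1) ^ 2 * (v - x) ^ 0 * v ^ 0) =
        x ^ 0 * (x + 1) ^ 0 * (v - x) ^ 0 * v ^ 1
    push_cast
    linear_combination (-1) * h
  · show ((1 : ℤ) : F) * (x ^ 1 * (x + 1) ^ 2 * (v - x) ^ 0 * v ^ 0) +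
      ((-1 : ℤ) : F) * (x ^ 0 * (x + 1) ^ 0 * (v - x) ^ 0 * v ^ 2) =
        x ^ 0 * (x + 1) ^ 0 * (v - x) ^ 0 * v ^ 1
    push_cast
    linear_combination (-1) * h
  · show ((1 : ℤ) : F) * (x ^ 1 * (x + 1) ^ 2 * (v - x) ^ 0 * v ^ 0) +
      ((-1 : ℤ) : F) * (x ^ 0 * (x + 1) ^ 0 * (v - x) ^ 0 * v ^ 1) =
        x ^ 0 * (x + 1) ^ 0 * (v - x) ^ 0 * v ^ 2
    push_cast
    linear_combination (-1) * h
  · show ((1 : ℤ) : F) * (x ^ 0 * (x + 1) ^ 1 * (v - x) ^ 0 * v ^ 2) +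
      ((-1 : ℤ) : F) * (x ^ 2 * (x + 1) ^ 2 * (v - x) ^ 0 * v ^ 0) =
        x ^ 0 * (x + 1) ^ 0 * (v - x) ^ 1 * v ^ 1
    push_cast
    linear_combination (x) * h
  · show ((-1 : ℤ) : F) * (x ^ 2 * (x + 1) ^ 2 * (v - x) ^ 0 * v ^ 0) +
      ((1 : ℤ) : F) * (x ^ 0 * (x + 1) ^ 1 * (v - x) ^ 0 * v ^ 2) =
        x ^ 0 * (x + 1) ^ 0 * (v - x) ^ 1 * v ^ 1
    push_cast
    linear_combination (x) * h
  · show ((1 : ℤ) : F) * (x ^ 2 * (x + 1) ^ 2 * (v - x) ^ 0 * v ^ 0) +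
      ((1 : ℤ) : F) * (x ^ 0 * (x + 1) ^ 0 * (v - x) ^ 1 * v ^ 1) =
        x ^ 0 * (x + 1) ^ 1 * (v - x) ^ 0 * v ^ 2
    push_cast
    linear_combination (-x) * h
  · show ((-1 : ℤ) : F) * (x ^ 0 * (x + 1) ^ 2 * (v - x) ^ 1 * v ^ 1) +
      ((1 : ℤ) : F) * (x ^ 3 * (x + 1) ^ 2 * (v - x) ^ 0 * v ^ 0) =
        x ^ 0 * (x + 1) ^ 0 * (v - x) ^ 2 * v ^ 1
    push_cast
    linear_combination (-x^2 - v) * h
  · show ((1 : ℤ) : F) * (x ^ 3 * (x + 1) ^ 2 * (v - x) ^ 0 * v ^ 0) +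
      ((-1 : ℤ) : F) * (x ^ 0 * (x + 1) ^ 2 * (v - x) ^ 1 * v ^ 1) =
        x ^ 0 * (x + 1) ^ 0 * (v - x) ^ 2 * v ^ 1
    push_cast
    linear_combination (-x^2 - v) * h
  · show ((1 : ℤ) : F) * (x ^ 3 * (x + 1) ^ 2 * (v - x) ^ 0 * v ^ 0) +
      ((-1 : ℤ) : F) * (x ^ 0 * (x + 1) ^ 0 * (v - x) ^ 2 * v ^ 1) =
        x ^ 0 * (x + 1) ^ 2 * (v - x) ^ 1 * v ^ 1
    push_cast
    linear_combination (-x^2 - v) * h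
  · show ((-1 : ℤ) : F) * (x ^ 0 * (x + 1) ^ 0 * (v - x) ^ 2 * v ^ 1) +
      ((1 : ℤ) : F) * (x ^ 0 * (x + 1) ^ 3 * (v - x) ^ 1 * v ^ 0) =
        x ^ 2 * (x + 1) ^ 2 * (v - x) ^ 0 * v ^ 0
    push_cast
    linear_combination (2 * x - v + 1) * h
  · show ((1 : ℤ) : F) * (x ^ 0 * (x + 1) ^ 3 * (v - x) ^ 1 * v ^ 0) +
      ((-1 : ℤ) : F) * (x ^ 0 * (x + 1) ^ 0 * (v - x) ^ 2 * v ^ 1) =
        x ^ 2 * (x + 1) ^ 2 * (v - x) ^ 0 * v ^ 0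
    push_cast
    linear_combination (2 * x - v + 1) * h
  · show ((1 : ℤ) : F) * (x ^ 0 * (x + 1) ^ 3 * (v - x) ^ 1 * v ^ 0) +
      ((-1 : ℤ) : F) * (x ^ 2 * (x + 1) ^ 2 * (v - x) ^ 0 * v ^ 0) =
        x ^ 0 * (x + 1) ^ 0 * (v - x) ^ 2 * v ^ 1
    push_cast
    linear_combination (2 * x - v + 1) * h
  · show ((-1 : ℤ) : F) * (x ^ 0 * (x + 1) ^ 0 * (v - x) ^ 1 * v ^ 2) +
      ((1 : ℤ) : F) * (x ^ 0 * (x + 1) ^ 3 * (v - x) ^ 1 * v ^ 0) =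
        x ^ 1 * (x + 1) ^ 1 * (v - x) ^ 0 * v ^ 1
    push_cast
    linear_combination (x - v + 1) * h
  · show ((1 : ℤ) : F) * (x ^ 0 * (x + 1) ^ 3 * (v - x) ^ 1 * v ^ 0) +
      ((-1 : ℤ) : F) * (x ^ 0 * (x + 1) ^ 0 * (v - x) ^ 1 * v ^ 2) =
        x ^ 1 * (x + 1) ^ 1 * (v - x) ^ 0 * v ^ 1
    push_cast
    linear_combination (x - v + 1) * h
  · show ((1 : ℤ) : F) * (x ^ 0 * (x + 1) ^ 3 * (v - x) ^ 1 * v ^ 0) +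
      ((-1 : ℤ) : F) * (x ^ 1 * (x + 1) ^ 1 * (v - x) ^ 0 * v ^ 1) =
        x ^ 0 * (x + 1) ^ 0 * (v - x) ^ 1 * v ^ 2
    push_cast
    linear_combination (x - v + 1) * h

private theorem mon_pw {F : Type*} [Field F] {x v : F} (h : v * (v + 1) = x * (x + 1) ^ 2)
    (hx : x ≠ 0) (hx1 : x + 1 ≠ 0) (a m : Fin 4 → ℕ) (e : Fin 4 → ℤ)
    (he : ∀ k, e k = (a k : ℤ) - m k) : mon (uv x v) e = pw x v a / pw x v m := by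
  have hk : ∀ k, uv x v k ^ e k = uv x v k ^ a k / uv x v k ^ m k := fun k => by
    rw [he, zpow_sub₀ (uv_ne h hx hx1 k), zpow_natCast, zpow_natCast]
  have h1 : ∀ b : Fin 4 → ℕ, pw x v b = ∏ k, uv x v k ^ b k := fun b => by
    rw [Fin.prod_univ_four]
    rfl
  rw [mon, Finset.prod_congr rfl fun k _ => hk k, Finset.prod_div_distrib, h1, h1]

/-- `f i + (1 - f i) = 1` -/
theorem table {F : Type*} [Field F] {x v : F} (h : v * (v + 1) = x * (x + 1) ^ 2) (hx : x ≠ 0)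
    (hx1 : x + 1 ≠ 0) (i : Fin 30) :
    (sT i : F) * mon (uv x v) (eT i) + (sT' i : F) * mon (uv x v) (wT i) = 1 := by
  have hv : v ≠ 0 := uv_ne h hx hx1 3
  have hvx : v - x ≠ 0 := uv_ne h hx hx1 2
  have hm : pw x v (tabM i) ≠ 0 := mul_ne_zero (mul_ne_zero (mul_ne_zero (pow_ne_zero _ hx)
    (pow_ne_zero _ hx1)) (pow_ne_zero _ hvx)) (pow_ne_zero _ hv)
  rw [mon_pw h hx hx1 _ _ _ (tabA_eq i), mon_pw h hx hx1 _ _ _ (tabB_eq i), mul_div_assoc',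
    mul_div_assoc', ← add_div, tab_poly h i, div_self hm]

end Pool.Agent.F194.X

end
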