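import Pool.Agent.Work.MP_f194bb_nt.X.Ell
import Pool.Agent.Work.MP_f194bb_nt.X.Tab

/-!
# MP_f194bb_nt, `X_1(11)`: translation by the cusp
-/

set_option autoImplicit false

open scoped ComplexConjugate PeriodPair
open MeasureTheory Filter Topology

noncomputable section

namespace Pool.Agent.F194.X

variable {L : PeriodPair}

/-! ### uniqueness for the system `x' = 2v+1`, `v' = (x+1)(3x+1)` -/

private theorem ode_zero {W W' : ℂ → ℂ × ℂ} {K : ℝ} {z₀ : ℂ} (h0 : W z₀ = 0)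
    (hd : ∀ᶠ z in 𝓝 z₀, HasDerivAt W (W' z) z ∧ ‖W' z‖ ≤ K * ‖W z‖) :
    ∀ᶠ z in 𝓝 z₀, W z = 0 := by
  obtain ⟨r, hr, hb⟩ := Metric.eventually_nhds_iff_ball.1 hd
  set K' : ℝ := |K| + 1 with hK'
  have hK'0 : 0 < K' := by positivity
  set ρ : ℝ := min (r / 2) (1 / (2 * K')) with hρ
  have hρ0 : 0 < ρ := lt_min (by positivity) (by positivity)
  have hρr : ρ < r := lt_of_le_of_lt (min_le_left _ _) (by linarith)
  have hρK : K' * ρ ≤ 1 / 2 := by
    calc K' * ρ ≤ K' * (1 / (2 * K')) := mul_le_mul_of_nonneg_left (min_le_right _ _) hK'0.le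
      _ = 1 / 2 := by field_simp
  have hsub : Metric.closedBall z₀ ρ ⊆ Metric.ball z₀ r := Metric.closedBall_subset_ball hρr
  have hcont : ContinuousOn (fun z => ‖W z‖) (Metric.closedBall z₀ ρ) := fun z hz =>
    ((hb z (hsub hz)).1.continuousAt.norm).continuousWithinAt
  obtain ⟨w, hw, hmax⟩ := (isCompact_closedBall z₀ ρ).exists_isMaxOn
    ⟨z₀, Metric.mem_closedBall_self hρ0.le⟩ hcont
  have hM : ∀ z ∈ Metric.closedBall z₀ ρ, ‖W z‖ ≤ ‖W w‖ := fun z hz => hmax hz
  have hbound : ∀ z ∈ Metric.closedBall z₀ ρ, ‖W' z‖ ≤ K' * ‖W w‖ := fun z hz => by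
    have h1 := (hb z (hsub hz)).2
    have h2 : K ≤ K' := (le_abs_self K).trans (by simp [hK'])
    calc ‖W' z‖ ≤ K * ‖W z‖ := h1
      _ ≤ K' * ‖W z‖ := mul_le_mul_of_nonneg_right h2 (norm_nonneg _)
      _ ≤ K' * ‖W w‖ := mul_le_mul_of_nonneg_left (hM z hz) hK'0.le
  have hmv := (convex_closedBall z₀ ρ).norm_image_sub_le_of_norm_hasDerivWithin_le
    (f := W) (f' := W') (C := K' * ‖W w‖)
    (fun z hz => (hb z (hsub hz)).1.hasDerivWithinAt) hbound
    (Metric.mem_closedBall_self hρ0.le) hw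
  rw [h0, sub_zero] at hmv
  have hwz : ‖w - z₀‖ ≤ ρ := by
    rw [← dist_eq_norm]
    exact hw
  have hle : ‖W w‖ ≤ 1 / 2 * ‖W w‖ := by
    calc ‖W w‖ ≤ K' * ‖W w‖ * ‖w - z₀‖ := hmv
      _ ≤ K' * ‖W w‖ * ρ := mul_le_mul_of_nonneg_left hwz (by positivity)
      _ = (K' * ρ) * ‖W w‖ := by ring
      _ ≤ 1 / 2 * ‖W w‖ := mul_le_mul_of_nonneg_right hρK (norm_nonneg _)
  have hw0 : ‖W w‖ ≤ 0 := by linarith [norm_nonneg (W w)]
  filter_upwards [Metric.closedBall_mem_nhds z₀ hρ0] with z hz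
  have := (hM z hz).trans hw0
  exact norm_le_zero_iff.1 this

private theorem ode_unique {F₁ G₁ F₂ G₂ : ℂ → ℂ} {z₀ : ℂ} (hF : F₁ z₀ = F₂ z₀)
    (hG : G₁ z₀ = G₂ z₀)
    (h1 : ∀ᶠ z in 𝓝 z₀, HasDerivAt F₁ (2 * G₁ z + 1) z ∧
      HasDerivAt G₁ ((F₁ z + 1) * (3 * F₁ z + 1)) z)
    (h2 : ∀ᶠ z in 𝓝 z₀, HasDerivAt F₂ (2 * G₂ z + 1) z ∧
      HasDerivAt G₂ ((F₂ z + 1) * (3 * F₂ z + 1)) z) :
    ∀ᶠ z in 𝓝 z₀, F₁ z = F₂ z ∧ G₁ z = G₂ z := by
  have hc : ContinuousAt (fun z => 3 * (F₁ z + F₂ z) + 4) z₀ := by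
    have a := h1.self_of_nhds.1.continuousAt
    have b := h2.self_of_nhds.1.continuousAt
    fun_prop
  set C : ℝ := ‖3 * (F₁ z₀ + F₂ z₀) + 4‖ + 1 with hC
  have hb : ∀ᶠ z in 𝓝 z₀, ‖3 * (F₁ z + F₂ z) + 4‖ < C :=
    hc.norm.eventually_lt_const (by rw [hC]; linarith)
  have key := ode_zero (W := fun z => (F₁ z - F₂ z, G₁ z - G₂ z))
    (W' := fun z => (2 * (G₁ z - G₂ z), (3 * (F₁ z + F₂ z) + 4) * (F₁ z - F₂ z)))
    (K := max 2 C) (z₀ := z₀) (by simp [hF, hG]) (by
      filter_upwards [h1, h2, hb] with z a b c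
      refine ⟨?_, ?_⟩
      · have d1 := a.1.sub b.1
        have d2 := a.2.sub b.2
        have e1 : 2 * G₁ z + 1 - (2 * G₂ z + 1) = 2 * (G₁ z - G₂ z) := by ring
        have e2 : (F₁ z + 1) * (3 * F₁ z + 1) - (F₂ z + 1) * (3 * F₂ z + 1) =
          (3 * (F₁ z + F₂ z) + 4) * (F₁ z - F₂ z) := by ring
        rw [e1] at d1
        rw [e2] at d2
        exact d1.prodMk d2
      · have hn := norm_nonneg ((F₁ z - F₂ z, G₁ z - G₂ z) : ℂ × ℂ)
        have hn1 : ‖F₁ z - F₂ z‖ ≤ ‖((F₁ z - F₂ z, G₁ z - G₂ z) : ℂ × ℂ)‖ :=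
          norm_fst_le ((F₁ z - F₂ z, G₁ z - G₂ z) : ℂ × ℂ)
        have hn2 : ‖G₁ z - G₂ z‖ ≤ ‖((F₁ z - F₂ z, G₁ z - G₂ z) : ℂ × ℂ)‖ :=
          norm_snd_le ((F₁ z - F₂ z, G₁ z - G₂ z) : ℂ × ℂ)
        refine norm_prod_le_iff.2 ⟨?_, ?_⟩
        · show ‖2 * (G₁ z - G₂ z)‖ ≤ _
          rw [norm_mul, Complex.norm_ofNat]
          exact mul_le_mul (le_max_left _ _) hn2 (norm_nonneg _) (by positivity)
        · show ‖(3 * (F₁ z + F₂ z) + 4) * (F₁ z - F₂ z)‖ ≤ _
          rw [norm_mul]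
          exact mul_le_mul (c.le.trans (le_max_right _ _)) hn1 (norm_nonneg _) (by positivity))
  filter_upwards [key] with z hz
  have h3 := Prod.mk_eq_zero.1 hz
  exact ⟨sub_eq_zero.1 h3.1, sub_eq_zero.1 h3.2⟩

/-- identity theorem -/
private theorem ident {f g : ℂ → ℂ} (hf : Meromorphic f) (hg : Meromorphic g) {z₀ : ℂ}
    (h : ∀ᶠ z in 𝓝[≠] z₀, f z = g z) (z : ℂ) : ∀ᶠ w in 𝓝[≠] z, f w = g w := by
  have hm : Meromorphic (fun z => f z - g z) := by fun_prop
  have h0 : meromorphicOrderAt (fun z => f z - g z) z₀ = ⊤ := by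
    rw [meromorphicOrderAt_eq_top_iff]
    filter_upwards [h] with w hw
    rw [hw, sub_self]
  have h1 : meromorphicOrderAt (fun z => f z - g z) z = ⊤ := by
    by_contra hne
    exact (hm.exists_meromorphicOrderAt_ne_top_iff_forall.1 ⟨z, hne⟩) z₀ h0
  rw [meromorphicOrderAt_eq_top_iff] at h1
  filter_upwards [h1] with w hw
  exact sub_eq_zero.1 hw

private theorem shift_mero {f : ℂ → ℂ} (hf : Meromorphic f) (a : ℂ) :
    Meromorphic (fun z => f (z + a)) := by
  intro z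
  have h1 : AnalyticAt ℂ (fun z : ℂ => z + a) z := by fun_prop
  exact MeromorphicAt.comp_analyticAt (f := f) (g := fun z : ℂ => z + a) (hf (z + a)) h1

private theorem px_lim_lat {l : ℂ} (hl : l ∈ L.lattice) :
    Tendsto (fun z => ‖px L z‖) (𝓝[≠] l) atTop := by
  have h1 : meromorphicOrderAt ℘[L] l < 0 := by
    rw [L.order_weierstrassP l hl]
    decide
  have h2 := tendsto_norm_cobounded_atTop.comp (tendsto_cobounded_of_meromorphicOrderAt_neg h1)
  have h3 := tendsto_atTop_add_const_right _ (-‖(2 / 3 : ℂ)‖) h2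
  refine tendsto_atTop_mono (fun z => ?_) h3
  show ‖℘[L] z‖ + -‖(2 / 3 : ℂ)‖ ≤ ‖px L z‖
  have := norm_sub_norm_le (℘[L] z) (2 / 3)
  rw [px]
  linarith

private theorem shift_ne (a z : ℂ) : Tendsto (fun w => w + a) (𝓝[≠] z) (𝓝[≠] (z + a)) := by
  refine tendsto_nhdsWithin_iff.2 ⟨?_, ?_⟩
  · have h1 : ContinuousAt (fun w => w + a) z := by fun_prop
    exact h1.tendsto.mono_left nhdsWithin_le_nhds
  · filter_upwards [self_mem_nhdsWithin] with w hw h
    exact hw (add_right_cancel h)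

private theorem not_both {f g : ℂ → ℂ} {z c : ℂ} (h : ∀ᶠ w in 𝓝[≠] z, f w = g w)
    (h1 : Tendsto (fun w => ‖f w‖) (𝓝[≠] z) atTop) (h2 : Tendsto g (𝓝[≠] z) (𝓝 c)) : False := by
  have h3 : Tendsto (fun w => ‖f w‖) (𝓝[≠] z) (𝓝 ‖c‖) := by
    refine h2.norm.congr' ?_
    filter_upwards [h] with w hw
    rw [hw]
  exact not_tendsto_nhds_of_tendsto_atTop h1 _ h3

/-- if `px (w + a)` agrees near `z` with a function having a limit, `z + a` is not a lattice
point -/
private theorem notMem_of_lim {a z c : ℂ} {g : ℂ → ℂ} (h : ∀ᶠ w in 𝓝[≠] z, px L (w + a) = g w)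
    (h2 : Tendsto g (𝓝[≠] z) (𝓝 c)) : z + a ∉ L.lattice := by
  intro hm
  have h1 := (px_lim_lat hm).comp (shift_ne a z)
  exact not_both (f := fun w => px L (w + a)) h h1 h2

private theorem val_of_lim {a z c : ℂ} {f g : ℂ → ℂ} (hf : ContinuousAt f (z + a))
    (h : ∀ᶠ w in 𝓝[≠] z, f (w + a) = g w)
    (h2 : Tendsto g (𝓝[≠] z) (𝓝 c)) : f (z + a) = c := by
  have h1 : Tendsto (fun w => f (w + a)) (𝓝[≠] z) (𝓝 (f (z + a))) :=
    (hf.tendsto.mono_left nhdsWithin_le_nhds).comp (shift_ne a z)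
  exact tendsto_nhds_unique (h1.congr' h) h2

private theorem ode_shift (hL : XL L) {z₁ : ℂ} (h1 : z₁ ∉ L.lattice) : ∀ᶠ z in 𝓝 (0 : ℂ),
    HasDerivAt (fun w => px L (w + z₁)) (2 * pv L (z + z₁) + 1) z ∧
      HasDerivAt (fun w => pv L (w + z₁)) ((px L (z + z₁) + 1) * (3 * px L (z + z₁) + 1)) z := by
  have hc : ContinuousAt (fun w : ℂ => w + z₁) 0 := by fun_prop
  have h2 : ∀ᶠ w in 𝓝 (0 + z₁), w ∉ L.lattice := by
    rw [zero_add]
    exact L.isClosed_lattice.isOpen_compl.mem_nhds h1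
  filter_upwards [hc.eventually h2] with z hz
  exact ⟨(px_deriv hz).comp_add_const z z₁, (pv_deriv hL hz).comp_add_const z z₁⟩

private theorem inj_lat (hL : XL L) {z₁ z₂ : ℂ} (h1 : z₁ ∉ L.lattice) (h2 : z₂ ∉ L.lattice)
    (hx : px L z₁ = px L z₂) (hv : pv L z₁ = pv L z₂) : z₁ - z₂ ∈ L.lattice := by
  have h3 := ode_unique (z₀ := 0) (F₁ := fun w => px L (w + z₁)) (G₁ := fun w => pv L (w + z₁))
    (F₂ := fun w => px L (w + z₂)) (G₂ := fun w => pv L (w + z₂)) (by simpa using hx)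
    (by simpa using hv) (ode_shift hL h1) (ode_shift hL h2)
  have h4 : ∀ᶠ w in 𝓝[≠] (0 : ℂ), px L (w + z₁) = px L (w + z₂) :=
    (h3.mono fun w hw => hw.1).filter_mono nhdsWithin_le_nhds
  have h5 := ident (shift_mero ell_px_mero z₁) (shift_mero ell_px_mero z₂) h4 (-z₂)
  by_contra hne
  have e : -z₂ + z₁ ∉ L.lattice := by
    rwa [neg_add_eq_sub]
  have h6 : Tendsto (fun w => px L (w + z₁)) (𝓝[≠] (-z₂)) (𝓝 (px L (-z₂ + z₁))) :=
    ((ell_px_an e).continuousAt.tendsto.mono_left nhdsWithin_le_nhds).comp (shift_ne z₁ (-z₂))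
  have h7 := notMem_of_lim (L := L) (a := z₂) (z := -z₂) (h5.mono fun w hw => hw.symm) h6
  rw [neg_add_cancel] at h7
  exact h7 L.lattice.zero_mem

/-! ### the formula -/

private theorem deriv_ext {F H : ℂ → ℂ} {z₀ : ℂ} (hF : AnalyticAt ℂ F z₀)
    (hH : ContinuousAt H z₀) (h : ∀ᶠ z in 𝓝[≠] z₀, HasDerivAt F (H z) z) :
    ∀ᶠ z in 𝓝 z₀, HasDerivAt F (H z) z := by
  have h0 : deriv F z₀ = H z₀ := by
    have h1 : Tendsto (deriv F) (𝓝[≠] z₀) (𝓝 (deriv F z₀)) :=
      hF.deriv.continuousAt.tendsto.mono_left nhdsWithin_le_nhds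
    have h2 : Tendsto H (𝓝[≠] z₀) (𝓝 (H z₀)) := hH.tendsto.mono_left nhdsWithin_le_nhds
    refine tendsto_nhds_unique (h1.congr' ?_) h2
    filter_upwards [h] with z hz
    exact hz.deriv
  have h1 : HasDerivAt F (H z₀) z₀ := by
    have := hF.differentiableAt.hasDerivAt
    rwa [h0] at this
  rw [eventually_nhdsWithin_iff] at h
  filter_upwards [h] with z hz
  by_cases e : z = z₀
  · rw [e]; exact h1
  · exact hz e

/-- `x (z + s)` -/
private def XX (L : PeriodPair) (z : ℂ) : ℂ := -(pv L z - px L z) / px L z ^ 2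

/-- `v (z + s)` -/
private def VV' (L : PeriodPair) (z : ℂ) : ℂ := pv L z * (pv L z - px L z) / px L z ^ 3 - 1

private theorem XX_deriv (hL : XL L) {z : ℂ} (hz : z ∉ L.lattice) (hx : px L z ≠ 0) :
    HasDerivAt (XX L) (2 * VV' L z + 1) z ∧
      HasDerivAt (VV' L) ((XX L z + 1) * (3 * XX L z + 1)) z := by
  have h1 := px_deriv hz
  have h2 := pv_deriv hL hz
  have hc := curve hL hz
  constructor
  · have h3 := ((h2.sub h1).neg).div (h1.pow 2) (pow_ne_zero 2 hx)
    refine h3.congr_deriv ?_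
    simp only [VV', Pi.pow_apply, Pi.sub_apply, Pi.neg_apply]
    field_simp
    push_cast
    linear_combination (2 * px L z) * hc
  · have h3 := (((h2.mul (h2.sub h1))).div (h1.pow 3) (pow_ne_zero 3 hx)).sub_const 1
    refine h3.congr_deriv ?_
    simp only [XX, Pi.pow_apply, Pi.sub_apply, Pi.mul_apply]
    field_simp
    push_cast
    linear_combination (px L z ^ 2 * (4 * px L z - 6 * pv L z)) * hc

/-- `z² x` near `0` -/
private def AA (L : PeriodPair) (z : ℂ) : ℂ := z ^ 2 * L.weierstrassPExcept 0 z + 1 - 2 / 3 * z ^ 2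

/-- `z³ v` near `0` -/
private def BB (L : PeriodPair) (z : ℂ) : ℂ :=
  (z ^ 3 * L.derivWeierstrassPExcept 0 z - 2 - z ^ 3) / 2

private theorem AA_eq {z : ℂ} (hz : z ≠ 0) : AA L z = z ^ 2 * px L z := by
  have h3 := L.weierstrassPExcept_def ⟨0, L.lattice.zero_mem⟩ z
  simp only [sub_zero] at h3
  rw [AA, h3, px]
  field_simp
  ring

private theorem BB_eq {z : ℂ} (hz : z ≠ 0) : BB L z = z ^ 3 * pv L z := by
  have h3 := L.derivWeierstrassPExcept_def ⟨0, L.lattice.zero_mem⟩ z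
  simp only [sub_zero] at h3
  rw [BB, h3, pv]
  field_simp
  ring

private theorem AA_an : AnalyticAt ℂ (AA L) 0 := by
  have := L.analyticAt_weierstrassPExcept 0
  unfold AA
  fun_prop

private theorem BB_an : AnalyticAt ℂ (BB L) 0 := by
  have := L.analyticAt_derivWeierstrassPExcept 0
  unfold BB
  fun_prop

private theorem AA_zero : AA L 0 = 1 := by simp [AA]

private theorem BB_zero : BB L 0 = -1 := by simp [BB]

/-- `XX` without the singularity at `0` -/
private def XZ (L : PeriodPair) (z : ℂ) : ℂ := -(z * (BB L z - z * AA L z)) / AA L z ^ 2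

private def VZ (L : PeriodPair) (z : ℂ) : ℂ := BB L z * (BB L z - z * AA L z) / AA L z ^ 3 - 1

private theorem XZ_eq {z : ℂ} (hz : z ≠ 0) : XZ L z = XX L z := by
  rw [XZ, XX, AA_eq hz, BB_eq hz]
  by_cases h : px L z = 0
  · simp [h]
  field_simp

private theorem VZ_eq {z : ℂ} (hz : z ≠ 0) : VZ L z = VV' L z := by
  rw [VZ, VV', AA_eq hz, BB_eq hz]
  by_cases h : px L z = 0
  · simp [h]
  field_simp

private theorem XZ_an : AnalyticAt ℂ (XZ L) 0 := by
  have h1 := AA_an (L := L)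
  have h2 := BB_an (L := L)
  have h3 : AA L 0 ^ 2 ≠ 0 := by rw [AA_zero]; norm_num
  unfold XZ
  fun_prop (disch := assumption)

private theorem VZ_an : AnalyticAt ℂ (VZ L) 0 := by
  have h1 := AA_an (L := L)
  have h2 := BB_an (L := L)
  have h3 : AA L 0 ^ 3 ≠ 0 := by rw [AA_zero]; norm_num
  unfold VZ
  fun_prop (disch := assumption)

private theorem XZ_zero : XZ L 0 = 0 := by simp [XZ]

private theorem VZ_zero : VZ L 0 = 0 := by simp [VZ, AA_zero, BB_zero]

/-- near `0` -/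
private theorem add_zero' (hL : XL L) {s : ℂ} (hs : s ∉ L.lattice) (h0 : px L s = 0)
    (h1 : pv L s = 0) : ∀ᶠ w in 𝓝[≠] (0 : ℂ), px L (w + s) = XX L w ∧ pv L (w + s) = VV' L w := by
  have hne : ∀ᶠ z in 𝓝[≠] (0 : ℂ), z ∉ Cs L := Cs_isolated hL 0
  have hp : ∀ᶠ z in 𝓝[≠] (0 : ℂ), z ≠ 0 := self_mem_nhdsWithin
  have ev : ∀ᶠ z in 𝓝[≠] (0 : ℂ), ∀ᶠ w in 𝓝 z, XZ L w = XX L w ∧ VZ L w = VV' L w := by
    filter_upwards [hp] with z hz
    filter_upwards [isOpen_ne.mem_nhds hz] with w hw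
    exact ⟨XZ_eq hw, VZ_eq hw⟩
  have hd : ∀ᶠ z in 𝓝[≠] (0 : ℂ), HasDerivAt (XZ L) (2 * VZ L z + 1) z ∧
      HasDerivAt (VZ L) ((XZ L z + 1) * (3 * XZ L z + 1)) z := by
    filter_upwards [hne, ev] with z hz hev
    have hz' : z ∉ L.lattice := fun h => hz (Or.inl h)
    have hx : px L z ≠ 0 := fun h => hz (Or.inr (Or.inl h))
    obtain ⟨d1, d2⟩ := XX_deriv hL hz' hx
    have e := hev.self_of_nhds
    rw [e.1, e.2]
    exact ⟨d1.congr_of_eventuallyEq (hev.mono fun w hw => hw.1),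
      d2.congr_of_eventuallyEq (hev.mono fun w hw => hw.2)⟩
  have c1 := (XZ_an (L := L)).continuousAt
  have c2 := (VZ_an (L := L)).continuousAt
  have D1 := deriv_ext (H := fun z => 2 * VZ L z + 1) XZ_an (by fun_prop)
    (hd.mono fun z hz => hz.1)
  have D2 := deriv_ext (H := fun z => (XZ L z + 1) * (3 * XZ L z + 1)) VZ_an (by fun_prop)
    (hd.mono fun z hz => hz.2)
  have key := ode_unique (z₀ := 0) (F₁ := fun w => px L (w + s)) (G₁ := fun w => pv L (w + s))
    (F₂ := XZ L) (G₂ := VZ L) (by simp [h0, XZ_zero]) (by simp [h1, VZ_zero]) (ode_shift hL hs)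
    (D1.and D2)
  filter_upwards [key.filter_mono nhdsWithin_le_nhds, hp] with w hw hw0
  rw [← XZ_eq hw0, ← VZ_eq hw0]
  exact hw

private theorem XX_mero : Meromorphic (XX L) := by
  have h1 := ell_px_mero (L := L)
  have h2 := ell_pv_mero (L := L)
  unfold XX
  fun_prop

private theorem VV_mero : Meromorphic (VV' L) := by
  have h1 := ell_px_mero (L := L)
  have h2 := ell_pv_mero (L := L)
  unfold VV'
  fun_prop

private theorem XX_an {z : ℂ} (hz : z ∉ L.lattice) (hx : px L z ≠ 0) :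
    AnalyticAt ℂ (XX L) z := by
  have h1 := ell_px_an hz
  have h2 := ell_pv_an hz
  have h3 : px L z ^ 2 ≠ 0 := pow_ne_zero 2 hx
  unfold XX
  fun_prop (disch := assumption)

private theorem VV_an {z : ℂ} (hz : z ∉ L.lattice) (hx : px L z ≠ 0) :
    AnalyticAt ℂ (VV' L) z := by
  have h1 := ell_px_an hz
  have h2 := ell_pv_an hz
  have h3 : px L z ^ 3 ≠ 0 := pow_ne_zero 3 hx
  unfold VV'
  fun_prop (disch := assumption)

/-- the addition formula, near every point -/
private theorem add_ev (hL : XL L) {s : ℂ} (hs : s ∉ L.lattice) (h0 : px L s = 0)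
    (h1 : pv L s = 0) (z : ℂ) :
    (∀ᶠ w in 𝓝[≠] z, px L (w + s) = XX L w) ∧ ∀ᶠ w in 𝓝[≠] z, pv L (w + s) = VV' L w := by
  have h := add_zero' hL hs h0 h1
  exact ⟨ident (shift_mero ell_px_mero s) XX_mero (h.mono fun w hw => hw.1) z,
    ident (shift_mero ell_pv_mero s) VV_mero (h.mono fun w hw => hw.2) z⟩

/-- the addition formula at points off the lattice with `x ≠ 0` -/
private theorem add_val (hL : XL L) {s : ℂ} (hs : s ∉ L.lattice) (h0 : px L s = 0)
    (h1 : pv L s = 0) {z : ℂ} (hz : z ∉ L.lattice) (hx : px L z ≠ 0) :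
    z + s ∉ L.lattice ∧ px L (z + s) = XX L z ∧ pv L (z + s) = VV' L z := by
  obtain ⟨e1, e2⟩ := add_ev hL hs h0 h1 z
  have c1 : Tendsto (XX L) (𝓝[≠] z) (𝓝 (XX L z)) :=
    (XX_an hz hx).continuousAt.tendsto.mono_left nhdsWithin_le_nhds
  have c2 : Tendsto (VV' L) (𝓝[≠] z) (𝓝 (VV' L z)) :=
    (VV_an hz hx).continuousAt.tendsto.mono_left nhdsWithin_le_nhds
  have hzs := notMem_of_lim e1 c1
  exact ⟨hzs, val_of_lim (ell_px_an hzs).continuousAt e1 c1,
    val_of_lim (ell_pv_an hzs).continuousAt e2 c2⟩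

/-- doubling: at `s` itself -/
private theorem add_self (hL : XL L) {s : ℂ} (hs : s ∉ L.lattice) (h0 : px L s = 0)
    (h1 : pv L s = 0) : s + s ∉ L.lattice ∧ px L (s + s) = -1 ∧ pv L (s + s) = 0 := by
  obtain ⟨e1, e2⟩ := add_ev hL hs h0 h1 s
  have d1 := px_deriv hs
  have d2 := pv_deriv hL hs
  rw [h1, mul_zero, zero_add] at d1
  rw [h0, mul_zero, zero_add, one_mul] at d2
  have t1 := hasDerivAt_iff_tendsto_slope.1 d1
  have t2 := hasDerivAt_iff_tendsto_slope.1 d2
  have t3 : Tendsto (fun w => pv L w / px L w) (𝓝[≠] s) (𝓝 1) := by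
    have := t2.div t1 one_ne_zero
    rw [div_one] at this
    refine this.congr' ?_
    filter_upwards [self_mem_nhdsWithin] with w hw
    have hw' : w - s ≠ 0 := sub_ne_zero.2 hw
    simp only [Pi.div_apply, slope_def_field, h0, h1, sub_zero]
    rw [div_div_div_cancel_right₀ hw']
  have c1 : Tendsto (px L) (𝓝[≠] s) (𝓝 0) := by
    have := (ell_px_an hs).continuousAt.tendsto.mono_left (nhdsWithin_le_nhds (s := {s}ᶜ))
    rwa [h0] at this
  have hne : ∀ᶠ z in 𝓝[≠] s, z ∉ Cs L := Cs_isolated hL s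
  have l1 : Tendsto (XX L) (𝓝[≠] s) (𝓝 (-1)) := by
    have h := ((c1.add_const 2).neg).add (t3.pow 2)
    have e : (-(0 + 2) + 1 ^ 2 : ℂ) = -1 := by norm_num
    rw [e] at h
    refine h.congr' ?_
    filter_upwards [hne] with w hw
    have hw' : w ∉ L.lattice := fun h => hw (Or.inl h)
    have hx : px L w ≠ 0 := fun h => hw (Or.inr (Or.inl h))
    have hc := curve hL hw'
    rw [XX]
    field_simp
    linear_combination hc
  have l2 : Tendsto (VV' L) (𝓝[≠] s) (𝓝 0) := by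
    have h := ((t3.mul l1).neg).sub_const 1
    have e : (-(1 * -1) - 1 : ℂ) = 0 := by norm_num
    rw [e] at h
    refine h.congr' ?_
    filter_upwards [hne] with w hw
    have hx : px L w ≠ 0 := fun h => hw (Or.inr (Or.inl h))
    rw [XX, VV']
    field_simp
  have hzs := notMem_of_lim e1 l1
  exact ⟨hzs, val_of_lim (ell_px_an hzs).continuousAt e1 l1,
    val_of_lim (ell_pv_an hzs).continuousAt e2 l2⟩

private theorem px_real (hL : XL L) (t : ℝ) : ((px L t).re : ℂ) = px L t := by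
  have h := px_conj hL (t : ℂ)
  rw [Complex.conj_ofReal] at h
  exact Complex.conj_eq_iff_re.1 h.symm

private theorem real_lat (hL : XL L) {t : ℝ} (ht : (t : ℂ) ∈ L.lattice) :
    ∃ m : ℤ, t = m * L.ω₁.re := by
  obtain ⟨m, n, h⟩ := PeriodPair.mem_lattice.1 ht
  have h1 := congrArg Complex.im h
  simp only [Complex.add_im, Complex.mul_im, Complex.intCast_re, Complex.intCast_im, hL.re1,
    Complex.ofReal_im, mul_zero, zero_mul, add_zero, zero_add] at h1
  have h2 : (n : ℝ) = 0 := by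
    rcases mul_eq_zero.1 h1 with h3 | h3
    · exact h3
    · exact absurd h3 hL.neg2.ne
  have h4 : n = 0 := by exact_mod_cast h2
  rw [h4] at h
  have h5 := congrArg Complex.re h
  simp only [Complex.mul_re, Complex.intCast_re, Complex.intCast_im, hL.re1,
    Complex.ofReal_re, mul_zero, zero_mul, sub_zero, Int.cast_zero, add_zero] at h5
  exact ⟨m, h5.symm⟩

private theorem interval_lat (hL : XL L) {t : ℝ} (h0 : 0 < t) (h1 : t < L.ω₁.re) :
    (t : ℂ) ∉ L.lattice := by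
  intro h
  obtain ⟨m, hm⟩ := real_lat hL h
  have hp := hL.pos1
  have h2 : (0 : ℝ) < m := by
    by_contra hc
    rw [not_lt] at hc
    have := mul_nonpos_of_nonpos_of_nonneg hc hp.le
    linarith
  have h3 : (m : ℝ) < 1 := by
    by_contra hc
    rw [not_lt] at hc
    have := mul_le_mul_of_nonneg_right hc hp.le
    linarith
  have h4 : 0 < m := by exact_mod_cast h2
  have h5 : m < 1 := by exact_mod_cast h3
  omega

/-- existence of the real cusp -/
private theorem exists_s (hL : XL L) : ∃ s : ℝ, (s : ℂ) ∉ L.lattice ∧ px L s = 0 ∧ pv L s = 0 := by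
  have hp := hL.pos1
  set h : ℝ := L.ω₁.re / 2 with hh
  have hh0 : 0 < h := by positivity
  have hlt : h < L.ω₁.re := by rw [hh]; linarith
  have hω : ((L.ω₁.re : ℝ) : ℂ) = L.ω₁ := by
    apply Complex.ext
    · simp
    · simp [hL.re1]
  have hvh : pv L h = -1 / 2 := by
    have a := pv_neg (L := L) (h : ℂ)
    have b := pv_per (L := L) ⟨L.ω₁, L.ω₁_mem_lattice⟩ (-(h : ℂ))
    have c : -(h : ℂ) + L.ω₁ = h := by
      rw [← hω, hh]
      push_cast
      ring
    simp only [c] at b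
    rw [a] at b
    linear_combination b / 2
  have hxh : (px L h).re < 0 := by
    have a := curve hL (interval_lat hL hh0 hlt)
    rw [hvh, ← px_real hL h] at a
    have b := congrArg Complex.re a
    have c : ((-1 / 2 : ℂ) * (-1 / 2 + 1)) = ((-1 / 4 : ℝ) : ℂ) := by push_cast; norm_num
    have d : (((px L h).re : ℂ) * (((px L h).re : ℂ) + 1) ^ 2) =
      (((px L h).re * ((px L h).re + 1) ^ 2 : ℝ) : ℂ) := by push_cast; ring
    rw [c, d, Complex.ofReal_re, Complex.ofReal_re] at b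
    by_contra hc
    rw [not_lt] at hc
    have : 0 ≤ (px L h).re * ((px L h).re + 1) ^ 2 := by positivity
    linarith
  -- near zero
  obtain ⟨t₀, ht0, ht1, ht2⟩ : ∃ t₀ : ℝ, 0 < t₀ ∧ t₀ < h ∧ 0 < (px L t₀).re := by
    have l := (lead_zero (L := L)).1
    have emb : Tendsto (fun t : ℝ => (t : ℂ)) (𝓝[>] 0) (𝓝[≠] 0) := by
      refine tendsto_nhdsWithin_iff.2 ⟨?_, ?_⟩
      · have := Complex.continuous_ofReal.tendsto 0
        rw [Complex.ofReal_zero] at this
        exact this.mono_left nhdsWithin_le_nhds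
      · filter_upwards [self_mem_nhdsWithin] with t ht
        have : (0 : ℝ) < t := ht
        exact Complex.ofReal_ne_zero.2 this.ne'
    have l2 := (Complex.continuous_re.tendsto 1).comp (l.comp emb)
    have l3 := l2.eventually (lt_mem_nhds (show (0 : ℝ) < (1 : ℂ).re by simp))
    have l4 : ∀ᶠ t : ℝ in 𝓝[>] 0, t < h := by
      exact (gt_mem_nhds hh0).filter_mono nhdsWithin_le_nhds
    have l5 : ∀ᶠ t : ℝ in 𝓝[>] 0, 0 < t := self_mem_nhdsWithin
    obtain ⟨t, a, b, c⟩ := (l3.and (l4.and l5)).exists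
    refine ⟨t, c, b, ?_⟩
    have a' : 0 < (((t : ℂ)) ^ 2 * px L t).re := a
    rw [← px_real hL t] at a'
    have e : (((t : ℂ)) ^ 2 * ((px L t).re : ℂ)) = ((t ^ 2 * (px L t).re : ℝ) : ℂ) := by
      push_cast; ring
    rw [e, Complex.ofReal_re] at a'
    exact (mul_pos_iff_of_pos_left (by positivity)).1 a'
  have hcont : ContinuousOn (fun t : ℝ => (px L t).re) (Set.Icc t₀ h) := by
    intro t ht
    have a : (t : ℂ) ∉ L.lattice := interval_lat hL (by linarith [ht.1]) (by linarith [ht.2])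
    have b := (ell_px_an a).continuousAt
    have c : ContinuousAt (fun t : ℝ => px L t) t :=
      ContinuousAt.comp (f := fun t : ℝ => (t : ℂ)) (g := px L) b
        Complex.continuous_ofReal.continuousAt
    exact (Complex.continuous_re.continuousAt.comp c).continuousWithinAt
  obtain ⟨t, ht, htx⟩ := intermediate_value_Icc' ht1.le hcont ⟨hxh.le, ht2.le⟩
  have hx0 : px L t = 0 := by
    rw [← px_real hL t]
    have : (px L t).re = 0 := htx
    rw [this, Complex.ofReal_zero]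
  have htl : (t : ℂ) ∉ L.lattice := interval_lat hL (by linarith [ht.1]) (by linarith [ht.2])
  have hcv := curve hL htl
  rw [hx0, zero_mul] at hcv
  rcases mul_eq_zero.1 hcv with h1 | h1
  · exact ⟨t, htl, hx0, h1⟩
  · refine ⟨-t, ?_, ?_, ?_⟩
    · rw [Complex.ofReal_neg, neg_mem_iff]
      exact htl
    · rw [Complex.ofReal_neg, px_neg, hx0]
    · rw [Complex.ofReal_neg, pv_neg]
      linear_combination -h1

/-- Translation by the real cusp `s` with `x = v = 0`: `x (z + s) = -(v - x)/x²`,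
`v (z + s) = -(v/x) x (z + s) - 1`.  Existence of `s`: on `(0, ω₁)` the real function `px` goes from
`+∞` to a root `< -1` of `4x³+8x²+4x+1` at `ω₁/2`.  The formulas by uniqueness for the system
`x' = 2v+1`, `v' = (x+1)(3x+1)`. -/
theorem exists_shift (hL : XL L) : ∃ s : ℝ,
    (∀ z, z ∉ Cs L → z + s ∉ Cs L) ∧
    (∀ z, z ∉ Cs L → ∀ k, U L k (z + s) = (tauS k : ℂ) * mon (fun j => U L j z) (tauM k)) ∧
    (∀ z, z ∈ Cs L ↔ ∃ n : ℤ, z - n * s ∈ L.lattice) ∧ (5 * s : ℂ) ∈ L.lattice := by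
  obtain ⟨s, hs, h0, h1⟩ := exists_s hL
  obtain ⟨hs2, h20, h21⟩ := add_self hL hs h0 h1
  have hs3 := add_val hL hs h0 h1 hs2 (by rw [h20]; norm_num)
  have h30 : px L ((s : ℂ) + s + s) = -1 := by
    rw [hs3.2.1, XX, h20, h21]
    norm_num
  have h31 : pv L ((s : ℂ) + s + s) = -1 := by
    rw [hs3.2.2, VV', h20, h21]
    norm_num
  have h5 : (5 * s : ℂ) ∈ L.lattice := by
    have a : -((s : ℂ) + s) ∉ L.lattice := by rwa [neg_mem_iff]
    have b := inj_lat hL hs3.1 a (by rw [px_neg, h20, h30]) (by rw [pv_neg, h21, h31]; ring)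
    have e : (s : ℂ) + s + s - -((s : ℂ) + s) = 5 * s := by ring
    rwa [e] at b
  have form : ∀ z, z ∉ Cs L → ∀ k, U L k (z + s) =
      (tauS k : ℂ) * mon (fun j => U L j z) (tauM k) := by
    intro z hz k
    have hz' : z ∉ L.lattice := fun h => hz (Or.inl h)
    have hx : px L z ≠ 0 := fun h => hz (Or.inr (Or.inl h))
    have hx1 : px L z + 1 ≠ 0 := U_ne hL hz 1
    have hvx : pv L z - px L z ≠ 0 := U_ne hL hz 2
    have hv : pv L z ≠ 0 := U_ne hL hz 3
    obtain ⟨-, e1, e2⟩ := add_val hL hs h0 h1 hz' hx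
    have hc := curve hL hz'
    have m : ∀ e : Fin 4 → ℤ, mon (fun j => U L j z) e = px L z ^ e 0 * (px L z + 1) ^ e 1 *
      (pv L z - px L z) ^ e 2 * pv L z ^ e 3 := fun e => by
      rw [mon, Fin.prod_univ_four]
      rfl
    rw [m]
    fin_cases k
    · show px L (z + s) = _
      rw [e1, XX]
      simp [tauS, tauM]
      field_simp
      ring
    · show px L (z + s) + 1 = _
      rw [e1, XX]
      simp [tauS, tauM]
      field_simp
      linear_combination -hc
    · show pv L (z + s) - px L (z + s) = _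
      rw [e1, e2, XX, VV']
      simp [tauS, tauM]
      field_simp
      linear_combination (px L z) * hc
    · show pv L (z + s) = _
      rw [e2, VV']
      simp [tauS, tauM]
      field_simp
      linear_combination (pv L z + px L z ^ 2) * hc
  have mne : ∀ z, z ∉ Cs L → ∀ e : Fin 4 → ℤ, mon (fun j => U L j z) e ≠ 0 := fun z hz e =>
    Finset.prod_ne_zero_iff.2 fun k _ => zpow_ne_zero _ (U_ne hL hz k)
  have off : ∀ z, z ∉ Cs L → z + s ∉ Cs L := by
    intro z hz
    have hz' : z ∉ L.lattice := fun h => hz (Or.inl h)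
    have hx : px L z ≠ 0 := fun h => hz (Or.inr (Or.inl h))
    obtain ⟨hl, -, -⟩ := add_val hL hs h0 h1 hz' hx
    have f0 := form z hz 0
    have f1 := form z hz 1
    have g0 : px L (z + s) ≠ 0 := by
      show U L 0 (z + s) ≠ 0
      rw [f0]
      exact mul_ne_zero (by simp [tauS]) (mne z hz _)
    have g1 : px L (z + s) + 1 ≠ 0 := by
      show U L 1 (z + s) ≠ 0
      rw [f1]
      exact mul_ne_zero (by simp [tauS]) (mne z hz _)
    rintro (h | h | h)
    · exact hl h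
    · exact g0 h
    · apply g1
      rw [h]
      ring
  refine ⟨s, off, form, fun z => ⟨?_, ?_⟩, h5⟩
  · intro hz
    have hlat : px L z = 0 ∨ px L z = -1 → z ∉ L.lattice := by
      intro h hl
      have e : px L z = -2 / 3 := by
        have := L.weierstrassP_coe ⟨z, hl⟩
        rw [px]
        simp only at this
        rw [this]
        norm_num
      rw [e] at h
      rcases h with h | h <;> norm_num at h
    rcases hz with hz | hz | hz
    · exact ⟨0, by simpa using hz⟩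
    · have hl := hlat (Or.inl hz)
      have hc := curve hL hl
      rw [hz, zero_mul] at hc
      rcases mul_eq_zero.1 hc with h | h
      · have := inj_lat hL hl hs (by rw [hz, h0]) (by rw [h, h1])
        exact ⟨1, by simpa using this⟩
      · have h' : pv L z = -1 := eq_neg_of_add_eq_zero_left h
        have hn : -(s : ℂ) ∉ L.lattice := by rwa [neg_mem_iff]
        have := inj_lat hL hl hn (by rw [hz, px_neg, h0]) (by rw [h', pv_neg, h1]; ring)
        exact ⟨-1, by simpa using this⟩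
    · have hl := hlat (Or.inr hz)
      have hc := curve hL hl
      rw [hz] at hc
      have hc' : pv L z * (pv L z + 1) = 0 := by
        rw [hc]; ring
      rcases mul_eq_zero.1 hc' with h | h
      · have := inj_lat hL hl hs2 (by rw [hz, h20]) (by rw [h, h21])
        refine ⟨2, ?_⟩
        have e : z - ((2 : ℤ) : ℂ) * s = z - (s + s) := by push_cast; ring
        rwa [e]
      · have h' : pv L z = -1 := eq_neg_of_add_eq_zero_left h
        have hn : -((s : ℂ) + s) ∉ L.lattice := by rwa [neg_mem_iff]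
        have := inj_lat hL hl hn (by rw [hz, px_neg, h20]) (by rw [h', pv_neg, h21]; ring)
        refine ⟨-2, ?_⟩
        have e : z - ((-2 : ℤ) : ℂ) * s = z - -((s : ℂ) + s) := by push_cast; ring
        rwa [e]
  · rintro ⟨n, hn⟩
    have key : ∀ r : ℤ, 0 ≤ r → r < 5 → (r : ℂ) * s ∈ Cs L := by
      intro r hr0 hr5
      interval_cases r
      · refine Or.inl ?_
        simp
      · refine Or.inr (Or.inl ?_)
        simpa using h0
      · refine Or.inr (Or.inr ?_)
        have e : ((2 : ℤ) : ℂ) * s = s + s := by push_cast; ring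
        rw [e]
        exact h20
      · refine Or.inr (Or.inr ?_)
        have e : ((3 : ℤ) : ℂ) * s = s + s + s := by push_cast; ring
        rw [e]
        exact h30
      · refine Or.inr (Or.inl ?_)
        have e : ((4 : ℤ) : ℂ) * s = -s + (⟨5 * s, h5⟩ : L.lattice) := by push_cast; ring
        rw [e, px_per, px_neg]
        exact h0
    have hr := key (n % 5) (Int.emod_nonneg _ (by norm_num)) (Int.emod_lt_of_pos _ (by norm_num))
    have hl : z - n * s + ((n / 5 : ℤ) : ℂ) * (5 * s) ∈ L.lattice := by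
      refine L.lattice.add_mem hn ?_
      have := L.lattice.smul_mem (n / 5) h5
      rwa [zsmul_eq_mul] at this
    have hdm : ((n % 5 : ℤ) : ℂ) = n - 5 * ((n / 5 : ℤ) : ℂ) := by
      have := Int.emod_def n 5
      rw [this]
      push_cast
      ring
    have e : z = ((n % 5 : ℤ) : ℂ) * s + (⟨_, hl⟩ : L.lattice) := by
      show z = ((n % 5 : ℤ) : ℂ) * s + (z - n * s + ((n / 5 : ℤ) : ℂ) * (5 * s))
      rw [hdm]
      ring
    rw [e, Cs_per]
    exact hr

end Pool.Agent.F194.X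

end
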