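import Pool.Agent.Work.MP_f194bb_nt.X.Closed
import Pool.Agent.Work.MP_f194bb_nt.X.Trans

/-!
# MP_f194bb_nt, `X_1(11)`: the integral over a horizontal line
-/

set_option autoImplicit false

open scoped ComplexConjugate PeriodPair
open MeasureTheory Filter Topology

noncomputable section

namespace Pool.Agent.F194.X

variable {L : PeriodPair} (P : PolyLog)

/-- there are no cusps strictly between the lines `Im = 0` and `Im = ω₂.im` -/
theorem no_cusp (hL : XL L) {z : ℂ} (h1 : L.ω₂.im < z.im) (h2 : z.im < 0) : z ∉ Cs L := by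
  obtain ⟨s, -, -, h3, -⟩ := exists_shift hL
  intro hz
  obtain ⟨n, hn⟩ := (h3 z).1 hz
  obtain ⟨m, k, hmk⟩ := PeriodPair.mem_lattice.1 hn
  have h4 := congrArg Complex.im hmk
  simp only [Complex.add_im, Complex.mul_im, Complex.intCast_re, Complex.intCast_im, zero_mul,
    add_zero, Complex.sub_im, Complex.ofReal_re, Complex.ofReal_im, mul_zero, hL.re1,
    sub_zero, zero_add] at h4
  have hneg := hL.neg2
  rw [← h4] at h1 h2
  have h5 : (k : ℝ) < 1 := by
    by_contra hc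
    have := mul_le_mul_of_nonpos_right (not_lt.1 hc) hneg.le
    linarith
  have h6 : (0 : ℝ) < k := by
    by_contra hc
    have := mul_nonneg_of_nonpos_of_nonpos (not_lt.1 hc) hneg.le
    linarith
  have h7 : k < 1 := by exact_mod_cast h5
  have h8 : 0 < k := by exact_mod_cast h6
  omega

/-- divergence theorem on `[0, ω₁] × [y, y']` -/
theorem ri_const (hL : XL L) {y y' : ℝ} (h1 : L.ω₂.im < y) (h2 : y ≤ y') (h3 : y' < 0) :
    ri P L y = ri P L y' := by
  have hφ : ∀ p : ℝ × ℝ, Complex.equivRealProdCLM.symm p = p.1 + p.2 * Complex.I := fun p =>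
    Complex.equivRealProdCLM_symm_apply p
  have hns : ∀ p ∈ Set.uIcc 0 L.ω₁.re ×ˢ Set.uIcc y y',
      Complex.equivRealProdCLM.symm p ∉ Cs L := by
    intro p hp
    have h4 : p.2 ∈ Set.Icc y y' := by
      rw [← Set.uIcc_of_le h2]
      exact hp.2
    have h5 : (Complex.equivRealProdCLM.symm p).im = p.2 := by rw [hφ]; simp
    refine no_cusp hL ?_ ?_ <;> rw [h5]
    · exact h1.trans_le h4.1
    · exact h4.2.trans_lt h3
  have hsub : ∀ p ∈ Set.Ioo (min 0 L.ω₁.re) (max 0 L.ω₁.re) ×ˢ Set.Ioo (min y y') (max y y') \ ∅,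
      p ∈ Set.uIcc 0 L.ω₁.re ×ˢ Set.uIcc y y' := by
    intro p hp
    exact ⟨Set.Ioo_subset_Icc_self hp.1.1, Set.Ioo_subset_Icc_self hp.1.2⟩
  have hdx : ∀ p ∈ Set.uIcc 0 L.ω₁.re ×ˢ Set.uIcc y y',
      HasFDerivAt (fun p => Rx P L (Complex.equivRealProdCLM.symm p))
        ((fderiv ℝ (Rx P L) (Complex.equivRealProdCLM.symm p)).comp
          (Complex.equivRealProdCLM.symm : ℝ × ℝ →L[ℝ] ℂ)) p := fun p hp =>
    (((Rx_cd P hL (hns p hp)).differentiableAt (by norm_num)).hasFDerivAt).comp p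
      (Complex.equivRealProdCLM.symm : ℝ × ℝ →L[ℝ] ℂ).hasFDerivAt
  have hdy : ∀ p ∈ Set.uIcc 0 L.ω₁.re ×ˢ Set.uIcc y y',
      HasFDerivAt (fun p => Ry P L (Complex.equivRealProdCLM.symm p))
        ((fderiv ℝ (Ry P L) (Complex.equivRealProdCLM.symm p)).comp
          (Complex.equivRealProdCLM.symm : ℝ × ℝ →L[ℝ] ℂ)) p := fun p hp =>
    (((Ry_cd P hL (hns p hp)).differentiableAt (by norm_num)).hasFDerivAt).comp p
      (Complex.equivRealProdCLM.symm : ℝ × ℝ →L[ℝ] ℂ).hasFDerivAt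
  have hz : ∀ p ∈ Set.uIcc 0 L.ω₁.re ×ˢ Set.uIcc y y',
      (-((fderiv ℝ (Ry P L) (Complex.equivRealProdCLM.symm p)).comp
          (Complex.equivRealProdCLM.symm : ℝ × ℝ →L[ℝ] ℂ))) (1, 0) +
      ((fderiv ℝ (Rx P L) (Complex.equivRealProdCLM.symm p)).comp
          (Complex.equivRealProdCLM.symm : ℝ × ℝ →L[ℝ] ℂ)) (0, 1) = 0 := by
    intro p hp
    have h6 := closed P hL (hns p hp)
    have e1 : (Complex.equivRealProdCLM.symm : ℝ × ℝ →L[ℝ] ℂ) (1, 0) = 1 := by
      show Complex.equivRealProdCLM.symm (1, 0) = 1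
      rw [hφ]; simp
    have e2 : (Complex.equivRealProdCLM.symm : ℝ × ℝ →L[ℝ] ℂ) (0, 1) = Complex.I := by
      show Complex.equivRealProdCLM.symm (0, 1) = Complex.I
      rw [hφ]; simp
    rw [neg_apply, ContinuousLinearMap.comp_apply, ContinuousLinearMap.comp_apply, e1, e2, h6]
    ring
  have H := integral2_divergence_prod_of_hasFDerivAt_off_countable
    (fun p : ℝ × ℝ => -(Ry P L (Complex.equivRealProdCLM.symm p)))
    (fun p : ℝ × ℝ => Rx P L (Complex.equivRealProdCLM.symm p))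
    (fun p => -((fderiv ℝ (Ry P L) (Complex.equivRealProdCLM.symm p)).comp
          (Complex.equivRealProdCLM.symm : ℝ × ℝ →L[ℝ] ℂ)))
    (fun p => (fderiv ℝ (Rx P L) (Complex.equivRealProdCLM.symm p)).comp
          (Complex.equivRealProdCLM.symm : ℝ × ℝ →L[ℝ] ℂ))
    0 y L.ω₁.re y' ∅ Set.countable_empty
    (fun p hp => (hdy p hp).continuousAt.continuousWithinAt.neg)
    (fun p hp => (hdx p hp).continuousAt.continuousWithinAt)
    (fun p hp => (hdy p (hsub p hp)).neg)
    (fun p hp => hdx p (hsub p hp))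
    (by
      refine (integrableOn_zero).congr_fun (fun p hp => (hz p hp).symm) ?_
      exact measurableSet_uIcc.prod measurableSet_uIcc)
  have hL0 : ∫ x in (0 : ℝ)..L.ω₁.re, ∫ t in y..y',
      (-((fderiv ℝ (Ry P L) (Complex.equivRealProdCLM.symm (x, t))).comp
          (Complex.equivRealProdCLM.symm : ℝ × ℝ →L[ℝ] ℂ))) (1, 0) +
      ((fderiv ℝ (Rx P L) (Complex.equivRealProdCLM.symm (x, t))).comp
          (Complex.equivRealProdCLM.symm : ℝ × ℝ →L[ℝ] ℂ)) (0, 1) = 0 := by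
    refine (intervalIntegral.integral_congr (g := fun _ => (0 : ℝ)) fun x hx => ?_).trans (by simp)
    refine (intervalIntegral.integral_congr (g := fun _ => (0 : ℝ)) fun t ht => ?_).trans (by simp)
    exact hz (x, t) ⟨hx, ht⟩
  rw [hL0] at H
  have hper : ∀ t : ℝ, Ry P L (Complex.equivRealProdCLM.symm (L.ω₁.re, t)) =
      Ry P L (Complex.equivRealProdCLM.symm (0, t)) := by
    intro t
    have h7 := Ry_per P (L := L) ⟨L.ω₁, L.ω₁_mem_lattice⟩
      (Complex.equivRealProdCLM.symm (0, t))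
    rw [← h7]
    congr 1
    rw [hφ, hφ]
    have h8 : (L.ω₁ : ℂ) = (L.ω₁.re : ℂ) := by
      apply Complex.ext
      · simp
      · simp [hL.re1]
    show ((L.ω₁.re : ℝ) : ℂ) + t * Complex.I = ((0 : ℝ) : ℂ) + t * Complex.I + L.ω₁
    push_cast
    linear_combination (-1 : ℂ) * h8
  simp only [hper] at H
  unfold ri
  have e1 : ∀ (a b : ℝ), Complex.equivRealProdCLM.symm (a, b) = (a : ℂ) + b * Complex.I :=
    fun a b => hφ (a, b)
  simp only [e1] at H
  linarith

end Pool.Agent.F194.X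

end
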