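import Pool.Agent.Work.MP_f194bb_nt.X.Cusp
import Pool.Agent.Work.MP_f194bb_nt.X.Closed
import Pool.Agent.Work.MP_f194bb_nt.X.Strip

/-!
# MP_f194bb_nt, `X_1(11)`: the limit at the real line
-/

set_option autoImplicit false

open scoped ComplexConjugate PeriodPair
open MeasureTheory Filter Topology

noncomputable section

namespace Pool.Agent.F194.X

variable {L : PeriodPair} (P : PolyLog)

private theorem ff_real (hL : XL L) (i : Fin 30) (t : ℝ) : (ff L i t).im = 0 := by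
  rw [← Complex.conj_eq_iff_im]
  have hU : ∀ k, conj (U L k t) = U L k t := fun k => by
    rw [← U_conj hL, Complex.conj_ofReal]
  unfold ff mon
  rw [map_mul, map_prod, map_intCast]
  congr 1
  refine Finset.prod_congr rfl fun k _ => ?_
  rw [map_zpow₀, hU]

/-- on the real line `Rx = I0 / 30` -/
theorem Rx_real (hL : XL L) {t : ℝ} (ht : (t : ℂ) ∉ Cs L) : Rx P L t = 1 / 30 * I0 L t := by
  have e : I0 L t = ∑ i, bb L i t * aa L i t ^ 2 *
      (aa L i t * lin (dx L t) (wT i) - ww L i t * lin (dx L t) (eT i)) := rfl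
  rw [e, Finset.mul_sum]
  unfold Rx
  refine Finset.sum_congr rfl fun i _ => ?_
  rw [P.r2 _ (ff_real hL i t), P.r4 _ (ff_real hL i t)]
  ring

/-! ### domination -/

private theorem rpow_ii (s a b : ℝ) :
    IntervalIntegrable (fun t : ℝ => |t - s| ^ (-(3 / 4) : ℝ)) volume a b := by
  have h0 : ∀ a b : ℝ, IntervalIntegrable (fun t : ℝ => |t| ^ (-(3 / 4) : ℝ)) volume a b := by
    intro a b
    refine intervalIntegrable_of_even (fun x => by rw [abs_neg]) (fun x hx => ?_)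
    refine (intervalIntegral.intervalIntegrable_rpow' (by norm_num : (-1 : ℝ) < -(3 / 4))).congr
      fun t ht => ?_
    rw [Set.uIoc_of_le hx.le] at ht
    show t ^ (-(3 / 4) : ℝ) = |t| ^ (-(3 / 4) : ℝ)
    rw [abs_of_pos ht.1]
  have := (h0 (a - s) (b - s)).comp_sub_right s
  simpa using this

private theorem lim_local {F : ℂ → ℝ} (hL : XL L) (hc : ∀ z, z ∉ Cs L → ContinuousAt F z)
    (hs : ∀ s ∈ Cs L, ∃ C : ℝ, ∀ᶠ z in 𝓝[≠] s, |F z| ≤ C * ‖z - s‖ ^ (-(3 / 4) : ℝ)) (s : ℝ) :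
    ∃ r : ℝ, 0 < r ∧ ∃ C : ℝ, 0 ≤ C ∧ ∀ t y : ℝ, ‖(t : ℂ) + y * Complex.I - s‖ < r →
      (t : ℂ) ∉ Cs L → (t : ℂ) + y * Complex.I ∉ Cs L ∧
        |F (t + y * Complex.I)| ≤ C * (|t - s| ^ (-(3 / 4) : ℝ) + 1) := by
  by_cases h : (s : ℂ) ∈ Cs L
  · obtain ⟨C, hC⟩ := hs s h
    have h1 := hC.and (Cs_isolated hL (s : ℂ))
    rw [eventually_nhdsWithin_iff, Metric.eventually_nhds_iff] at h1
    obtain ⟨r, hr, h2⟩ := h1
    refine ⟨r, hr, |C|, abs_nonneg _, fun t y hty ht => ?_⟩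
    have hts : t ≠ s := by
      rintro rfl
      exact ht h
    have hre : (t : ℂ) + y * Complex.I - s = ((t - s : ℝ) : ℂ) + y * Complex.I := by
      push_cast
      ring
    have hn : |t - s| ≤ ‖(t : ℂ) + y * Complex.I - s‖ := by
      have := Complex.abs_re_le_norm ((t : ℂ) + y * Complex.I - s)
      rw [hre] at this ⊢
      simpa using this
    have hpos : 0 < |t - s| := abs_pos.2 (sub_ne_zero.2 hts)
    have hne : (t : ℂ) + y * Complex.I ∈ ({(s : ℂ)}ᶜ : Set ℂ) := by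
      intro h3
      rw [Set.mem_singleton_iff] at h3
      rw [h3, sub_self, norm_zero] at hn
      linarith
    obtain ⟨h3, h4⟩ := h2 (by rwa [dist_eq_norm]) hne
    refine ⟨h4, h3.trans ?_⟩
    calc C * ‖(t : ℂ) + y * Complex.I - s‖ ^ (-(3 / 4) : ℝ)
        ≤ |C| * |t - s| ^ (-(3 / 4) : ℝ) :=
          mul_le_mul (le_abs_self C) (Real.rpow_le_rpow_of_nonpos hpos hn (by norm_num))
            (Real.rpow_nonneg (norm_nonneg _) _) (abs_nonneg _)
      _ ≤ _ := mul_le_mul_of_nonneg_left (by linarith) (abs_nonneg _)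
  · have h0 : ∀ᶠ z in 𝓝 (s : ℂ), z ∉ Cs L := (Cs_closed hL).isOpen_compl.mem_nhds h
    have h1 : ∀ᶠ z in 𝓝 (s : ℂ), |F z| < |F s| + 1 :=
      (hc _ h).abs.eventually (gt_mem_nhds (lt_add_one _))
    have h2 := h0.and h1
    rw [Metric.eventually_nhds_iff] at h2
    obtain ⟨r, hr, h3⟩ := h2
    refine ⟨r, hr, |F s| + 1, by positivity, fun t y hty _ => ?_⟩
    obtain ⟨h4, h5⟩ := h3 (by rwa [dist_eq_norm])
    refine ⟨h4, h5.le.trans ?_⟩
    have h6 : 0 ≤ |t - s| ^ (-(3 / 4) : ℝ) := Real.rpow_nonneg (abs_nonneg _) _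
    exact le_mul_of_one_le_right (by positivity) (by linarith)

private theorem lim_dominate {F : ℂ → ℝ} (hL : XL L) (hc : ∀ z, z ∉ Cs L → ContinuousAt F z)
    (hs : ∀ s ∈ Cs L, ∃ C : ℝ, ∀ᶠ z in 𝓝[≠] s, |F z| ≤ C * ‖z - s‖ ^ (-(3 / 4) : ℝ)) :
    ∃ (G : ℝ → ℝ) (δ : ℝ), 0 < δ ∧ IntervalIntegrable G volume 0 L.ω₁.re ∧
    ∀ t y : ℝ, t ∈ Set.Icc 0 L.ω₁.re → |y| ≤ δ → (t : ℂ) ∉ Cs L →
      (t : ℂ) + y * Complex.I ∉ Cs L ∧ |F (t + y * Complex.I)| ≤ G t := by
  choose r hr C hC h using lim_local hL hc hs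
  have hK : IsCompact ((fun t : ℝ => (t : ℂ)) '' Set.Icc 0 L.ω₁.re) :=
    isCompact_Icc.image Complex.continuous_ofReal
  obtain ⟨T, -, hT⟩ := hK.elim_nhds_subcover (fun z => Metric.ball ((z.re : ℝ) : ℂ) (r z.re))
    (by
      rintro _ ⟨t, -, rfl⟩
      rw [Complex.ofReal_re]
      exact Metric.ball_mem_nhds _ (hr t))
  have hO : IsOpen (⋃ z ∈ T, Metric.ball ((z.re : ℝ) : ℂ) (r z.re)) :=
    isOpen_biUnion fun z _ => Metric.isOpen_ball
  obtain ⟨δ, hδ, hδT⟩ := hK.exists_cthickening_subset_open hO hT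
  refine ⟨fun t => ∑ z ∈ T, C z.re * (|t - z.re| ^ (-(3 / 4) : ℝ) + 1), δ, hδ, ?_, ?_⟩
  · have h1 := IntervalIntegrable.sum (μ := volume) (a := 0) (b := L.ω₁.re) T
      (f := fun (z : ℂ) (t : ℝ) => C z.re * (|t - z.re| ^ (-(3 / 4) : ℝ) + 1)) fun z _ =>
      ((rpow_ii z.re _ _).add intervalIntegrable_const).const_mul _
    refine h1.congr fun t _ => ?_
    rw [Finset.sum_apply]
  · intro t y ht hy htC
    have h1 : (t : ℂ) + y * Complex.I ∈ Metric.cthickening δ
        ((fun t : ℝ => (t : ℂ)) '' Set.Icc 0 L.ω₁.re) := by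
      refine Metric.mem_cthickening_of_dist_le _ (t : ℂ) _ _ ⟨t, ht, rfl⟩ ?_
      rw [dist_eq_norm, add_sub_cancel_left, norm_mul, Complex.norm_I, mul_one, Complex.norm_real]
      exact hy
    have h2 := hδT h1
    rw [Set.mem_iUnion₂] at h2
    obtain ⟨z, hz, h3⟩ := h2
    rw [Metric.mem_ball, dist_eq_norm] at h3
    obtain ⟨h4, h5⟩ := h z.re t y h3 htC
    refine ⟨h4, h5.trans ?_⟩
    exact Finset.single_le_sum (f := fun z : ℂ => C z.re * (|t - z.re| ^ (-(3 / 4) : ℝ) + 1))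
      (fun z _ => mul_nonneg (hC _) (by
        have : 0 ≤ |t - z.re| ^ (-(3 / 4) : ℝ) := Real.rpow_nonneg (abs_nonneg _) _
        linarith)) hz

/-- an integrable function of the real part dominates `Rx` near the real line -/
theorem dominate (hL : XL L) : ∃ (G : ℝ → ℝ) (δ : ℝ), 0 < δ ∧
    IntervalIntegrable G volume 0 L.ω₁.re ∧
    ∀ t y : ℝ, t ∈ Set.Icc 0 L.ω₁.re → |y| ≤ δ → (t : ℂ) ∉ Cs L →
      (t : ℂ) + y * Complex.I ∉ Cs L ∧ |Rx P L (t + y * Complex.I)| ≤ G t :=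
  lim_dominate hL (fun _ hz => (Rx_cd P hL hz).continuousAt) fun _ hs => cusp_Rx P hL hs

private theorem ae_real (hL : XL L) : ∀ᵐ t : ℝ, (t : ℂ) ∉ Cs L := by
  have h : {t : ℝ | (t : ℂ) ∈ Cs L}.Countable :=
    (Cs_countable hL).preimage Complex.ofReal_injective
  exact h.ae_notMem volume

private theorem lim_meas {F : ℝ → ℝ} (hL : XL L) {a b : ℝ}
    (hF : ∀ t ∈ Set.uIoc a b, (t : ℂ) ∉ Cs L → ContinuousAt F t) :
    AEStronglyMeasurable F (volume.restrict (Set.uIoc a b)) := by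
  have hA : MeasurableSet {t : ℝ | (t : ℂ) ∉ Cs L} :=
    ((Cs_closed hL).isOpen_compl.preimage Complex.continuous_ofReal).measurableSet
  have h1 : AEStronglyMeasurable F (volume.restrict (Set.uIoc a b ∩ {t : ℝ | (t : ℂ) ∉ Cs L})) := by
    refine ContinuousOn.aestronglyMeasurable ?_ (measurableSet_uIoc.inter hA)
    intro t ht
    exact (hF t ht.1 ht.2).continuousWithinAt
  have h2 : (Set.uIoc a b ∩ {t : ℝ | (t : ℂ) ∉ Cs L} : Set ℝ) =ᵐ[volume] Set.uIoc a b := by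
    filter_upwards [ae_real hL] with t ht
    refine propext ⟨fun h => h.1, fun h => ⟨h, ht⟩⟩
  rwa [Measure.restrict_congr_set h2] at h1

private theorem I0_cont (hL : XL L) {z : ℂ} (hz : z ∉ Cs L) : ContinuousAt (I0 L) z := by
  have e : I0 L = fun z => ∑ i, bb L i z * aa L i z ^ 2 *
      (aa L i z * lin (dx L z) (wT i) - ww L i z * lin (dx L z) (eT i)) := rfl
  have hl : ∀ e : Fin 4 → ℤ, ContinuousAt (fun z => lin (lu L z) e) z := fun e =>
    (lin_cd hL hz e).continuousAt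
  have hd : ∀ e : Fin 4 → ℤ, ContinuousAt (fun z => lin (dx L z) e) z := by
    intro e
    unfold lin dx
    refine tendsto_finsetSum _ fun k _ => ?_
    exact (continuousAt_const).mul (Complex.continuous_re.continuousAt.comp
      (du_an hL hz k).continuousAt)
  rw [e]
  refine tendsto_finsetSum _ fun i _ => ?_
  exact ((hl (cT i)).mul ((hl (eT i)).pow 2)).mul
    (((hl (eT i)).mul (hd (wT i))).sub ((hl (wT i)).mul (hd (eT i))))

theorem intLine (hL : XL L) : IntervalIntegrable (fun t : ℝ => I0 L t) volume 0 L.ω₁.re := by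
  obtain ⟨G, δ, hδ, hG, h⟩ := lim_dominate (F := I0 L) hL (fun _ hz => I0_cont hL hz)
    fun _ hs => cusp_I0 hL hs
  refine hG.mono_fun (lim_meas hL fun t _ ht => ?_) ?_
  · exact (I0_cont hL ht).comp Complex.continuous_ofReal.continuousAt
  · rw [Filter.EventuallyLE, ae_restrict_iff' measurableSet_uIoc]
    filter_upwards [ae_real hL] with t ht hti
    rw [Set.uIoc_of_le hL.pos1.le] at hti
    have := (h t 0 ⟨hti.1.le, hti.2⟩ (by rw [abs_zero]; exact hδ.le) ht).2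
    rw [Complex.ofReal_zero, zero_mul, add_zero] at this
    rw [Real.norm_eq_abs, Real.norm_eq_abs]
    exact this.trans (le_abs_self _)

theorem ri_lim (hL : XL L) : Tendsto (ri P L) (𝓝[<] 0)
    (𝓝 (1 / 30 * ∫ t in (0 : ℝ)..L.ω₁.re, I0 L t)) := by
  obtain ⟨G, δ, hδ, hG, h⟩ := dominate P hL
  rw [← intervalIntegral.integral_const_mul]
  have hy : ∀ᶠ y : ℝ in 𝓝[<] 0, |y| ≤ δ := by
    have : ∀ᶠ y : ℝ in 𝓝 0, |y| ≤ δ := by
      filter_upwards [Metric.ball_mem_nhds (0 : ℝ) hδ] with y hy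
      rw [Metric.mem_ball, dist_zero_right, Real.norm_eq_abs] at hy
      exact hy.le
    exact nhdsWithin_le_nhds this
  have hline : ∀ t y : ℝ, ContinuousAt (fun t : ℝ => (t : ℂ) + y * Complex.I) t := fun t y =>
    (Complex.continuous_ofReal.add continuous_const).continuousAt
  refine intervalIntegral.tendsto_integral_filter_of_dominated_convergence G ?_ ?_ hG ?_
  · filter_upwards [hy] with y hy
    refine lim_meas hL fun t hti ht => ?_
    rw [Set.uIoc_of_le hL.pos1.le] at hti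
    have h1 := (h t y ⟨hti.1.le, hti.2⟩ hy ht).1
    exact ContinuousAt.comp (f := fun t : ℝ => (t : ℂ) + y * Complex.I) (x := t)
      (Rx_cd P hL h1).continuousAt (hline t y)
  · filter_upwards [hy] with y hy
    filter_upwards [ae_real hL] with t ht hti
    rw [Set.uIoc_of_le hL.pos1.le] at hti
    rw [Real.norm_eq_abs]
    exact (h t y ⟨hti.1.le, hti.2⟩ hy ht).2
  · filter_upwards [ae_real hL] with t ht _
    rw [← Rx_real P hL ht]
    have h1 : Tendsto (fun y : ℝ => (t : ℂ) + y * Complex.I) (𝓝 0) (𝓝 (t : ℂ)) := by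
      have : Continuous fun y : ℝ => (t : ℂ) + y * Complex.I :=
        continuous_const.add (Complex.continuous_ofReal.mul continuous_const)
      have h2 := this.tendsto 0
      rwa [Complex.ofReal_zero, zero_mul, add_zero] at h2
    exact (((Rx_cd P hL ht).continuousAt.tendsto).comp h1).mono_left nhdsWithin_le_nhds

end Pool.Agent.F194.X

end
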