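import Pool.Agent.Work.MP_f194bb_nt.X.PL
import Pool.Agent.Work.MP_f194bb_nt.X.Fub
import Pool.Agent.Work.MP_f194bb_nt.X.Lim

/-!
# MP_f194bb_nt, `X_1(11)`: the mean as an integral over the real line
-/

set_option autoImplicit false

open scoped ComplexConjugate PeriodPair
open MeasureTheory Filter Topology

noncomputable section

namespace Pool.Agent.F194.X

variable {L : PeriodPair}

/-- `mean I0 = (1/16) (1/ω₁) ∫_{E(ℝ)} I0` -/
theorem mean_I0 (hL : XL L) : ∫ x in box, I0 L (E L x) =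
    1 / 16 * ((L.ω₁.re)⁻¹ * ∫ t in (0 : ℝ)..L.ω₁.re, I0 L t) := by
  obtain ⟨P⟩ := exists_polylog
  have h1 : ∀ y : ℝ, L.ω₂.im < y → y < 0 → ri P L y =
      L.ω₁.re * (8 / 15 * ∫ x in box, I0 L (E L x)) := fun y h1 h2 => by
    have h3 := fub P hL h1 h2
    rw [mean_Rx P hL] at h3
    rw [h3, mul_inv_cancel_left₀ hL.pos1.ne']
  have h2 : Tendsto (ri P L) (𝓝[<] 0) (𝓝 (L.ω₁.re * (8 / 15 * ∫ x in box, I0 L (E L x)))) := by
    refine tendsto_const_nhds.congr' ?_
    have h4 : ∀ᶠ y : ℝ in 𝓝[<] 0, L.ω₂.im < y ∧ y < 0 :=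
      (eventually_nhdsWithin_of_eventually_nhds (lt_mem_nhds hL.neg2)).and self_mem_nhdsWithin
    filter_upwards [h4] with y hy
    exact (h1 y hy.1 hy.2).symm
  have h3 := tendsto_nhds_unique h2 (ri_lim P hL)
  have hp := hL.pos1.ne'
  field_simp
  field_simp at h3
  linarith

end Pool.Agent.F194.X

end
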