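import Pool.Agent.Work.MP_f194bb_nt.Symbol

/-!
# MP_f194bb_nt, `X_1(11)`: torsion, and the rule producing relations
-/

set_option autoImplicit false

open scoped TensorProduct

noncomputable section

namespace Pool.Agent.F194.X

universe u

/-- torsion elements -/
def IsT {A : Type*} [AddCommGroup A] (a : A) : Prop := ∃ m : ℕ, m ≠ 0 ∧ m • a = 0

theorem IsT.zero {A : Type*} [AddCommGroup A] : IsT (0 : A) :=
  ⟨1, one_ne_zero, smul_zero _⟩

theorem IsT.add {A : Type*} [AddCommGroup A] {a b : A} (ha : IsT a) (hb : IsT b) :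
    IsT (a + b) := by
  obtain ⟨m, hm, h1⟩ := ha
  obtain ⟨n, hn, h2⟩ := hb
  refine ⟨m * n, mul_ne_zero hm hn, ?_⟩
  rw [smul_add, mul_smul m n b, h2, smul_zero, add_zero, mul_comm, mul_smul, h1, smul_zero]

theorem IsT.neg {A : Type*} [AddCommGroup A] {a : A} (ha : IsT a) : IsT (-a) := by
  obtain ⟨m, hm, h1⟩ := ha
  exact ⟨m, hm, by rw [smul_neg, h1, neg_zero]⟩

theorem IsT.sub {A : Type*} [AddCommGroup A] {a b : A} (ha : IsT a) (hb : IsT b) :
    IsT (a - b) := by
  rw [sub_eq_add_neg]
  exact ha.add hb.neg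

theorem IsT.zsmul {A : Type*} [AddCommGroup A] {a : A} (ha : IsT a) (n : ℤ) : IsT (n • a) := by
  obtain ⟨m, hm, h1⟩ := ha
  exact ⟨m, hm, by rw [smul_comm, h1, smul_zero]⟩

/-- `n • a` torsion, `n ≠ 0`, implies `a` torsion -/
theorem IsT.of_zsmul {A : Type*} [AddCommGroup A] {a : A} {n : ℤ} (hn : n ≠ 0)
    (ha : IsT (n • a)) : IsT a := by
  obtain ⟨m, hm, h1⟩ := ha
  refine ⟨m * n.natAbs, mul_ne_zero hm (Int.natAbs_ne_zero.2 hn), ?_⟩
  rw [mul_smul]
  rcases Int.natAbs_eq n with h | h
  · rw [h, natCast_zsmul] at h1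
    exact h1
  · rw [h, neg_smul, natCast_zsmul, smul_neg, neg_eq_zero] at h1
    exact h1

theorem IsT.sum {A : Type*} [AddCommGroup A] {ι : Type*} (s : Finset ι) {a : ι → A}
    (h : ∀ i ∈ s, IsT (a i)) : IsT (∑ i ∈ s, a i) := by
  classical
  induction s using Finset.induction_on with
  | empty => rw [Finset.sum_empty]; exact IsT.zero
  | insert i s hi ih =>
    rw [Finset.sum_insert hi]
    exact (h i (Finset.mem_insert_self i s)).add
      (ih fun j hj => h j (Finset.mem_insert_of_mem hj))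

theorem IsT.map {A B : Type*} [AddCommGroup A] [AddCommGroup B] (f : A →+ B) {a : A}
    (ha : IsT a) : IsT (f a) := by
  obtain ⟨m, hm, h1⟩ := ha
  exact ⟨m, hm, by rw [← map_nsmul, h1, map_zero]⟩

/-- `tmul` is additive in both variables -/
theorem tmul_add_left {A M : Type u} [AddCommGroup A] [AddCommGroup M] (a b : A) (m : M) :
    tmul (a + b) m = tmul a m + tmul b m := TensorProduct.add_tmul a b m

theorem tmul_add_right {A M : Type u} [AddCommGroup A] [AddCommGroup M] (a : A) (m n : M) :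
    tmul a (m + n) = tmul a m + tmul a n := TensorProduct.tmul_add a m n

/-- `a ↦ a ⊗ m` -/
def tmulL {A M : Type u} [AddCommGroup A] [AddCommGroup M] (m : M) : A →+ Tens A M :=
  AddMonoidHom.mk' (fun a => tmul a m) fun a b => tmul_add_left a b m

/-- `m ↦ a ⊗ m` -/
def tmulR {A M : Type u} [AddCommGroup A] [AddCommGroup M] (a : A) : M →+ Tens A M :=
  AddMonoidHom.mk' (fun m => tmul a m) fun m n => tmul_add_right a m n

theorem tmulL_apply {A M : Type u} [AddCommGroup A] [AddCommGroup M] (m : M) (a : A) :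
    tmulL m a = tmul a m := rfl

theorem tmulR_apply {A M : Type u} [AddCommGroup A] [AddCommGroup M] (m : M) (a : A) :
    tmulR a m = tmul a m := rfl

theorem tmul_zsmul_left {A M : Type u} [AddCommGroup A] [AddCommGroup M] (k : ℤ) (a : A)
    (m : M) : tmul (k • a) m = k • tmul a m := map_zsmul (tmulL m) k a

theorem tmul_zsmul_right {A M : Type u} [AddCommGroup A] [AddCommGroup M] (k : ℤ) (a : A)
    (m : M) : tmul a (k • m) = k • tmul a m := map_zsmul (tmulR a) k m

theorem tmul_neg_left {A M : Type u} [AddCommGroup A] [AddCommGroup M] (a : A) (m : M) :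
    tmul (-a) m = -tmul a m := map_neg (tmulL m) a

theorem tmul_neg_right {A M : Type u} [AddCommGroup A] [AddCommGroup M] (a : A) (m : M) :
    tmul a (-m) = -tmul a m := map_neg (tmulR a) m

theorem tmul_sub_left {A M : Type u} [AddCommGroup A] [AddCommGroup M] (a b : A) (m : M) :
    tmul (a - b) m = tmul a m - tmul b m := map_sub (tmulL m) a b

theorem tmul_sub_right {A M : Type u} [AddCommGroup A] [AddCommGroup M] (a : A) (m n : M) :
    tmul a (m - n) = tmul a m - tmul a n := map_sub (tmulR a) m n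

theorem IsT.tmul_left {A M : Type u} [AddCommGroup A] [AddCommGroup M] {a : A} (ha : IsT a)
    (m : M) : IsT (tmul a m) := ha.map (tmulL m)

theorem IsT.tmul_right {A M : Type u} [AddCommGroup A] [AddCommGroup M] (a : A) {m : M}
    (hm : IsT m) : IsT (tmul a m) := hm.map (tmulR a)

/-- the projection `A ⊗ A → Λ² A` -/
def wdgP (A : Type u) [AddCommGroup A] : Tens A A →+ Ext2 A := QuotientAddGroup.mk' (diag A)

theorem wdgP_tmul {A : Type u} [AddCommGroup A] (a b : A) : wdgP A (tmul a b) = wdg a b := rfl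

theorem wdg_add_left {A : Type u} [AddCommGroup A] (a b c : A) :
    wdg (a + b) c = wdg a c + wdg b c := by
  rw [← wdgP_tmul, tmul_add_left, map_add, wdgP_tmul, wdgP_tmul]

theorem wdg_add_right {A : Type u} [AddCommGroup A] (a b c : A) :
    wdg a (b + c) = wdg a b + wdg a c := by
  rw [← wdgP_tmul, tmul_add_right, map_add, wdgP_tmul, wdgP_tmul]

theorem wdg_zsmul_left {A : Type u} [AddCommGroup A] (k : ℤ) (a b : A) :
    wdg (k • a) b = k • wdg a b := by
  rw [← wdgP_tmul, tmul_zsmul_left, map_zsmul, wdgP_tmul]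

theorem wdg_zsmul_right {A : Type u} [AddCommGroup A] (k : ℤ) (a b : A) :
    wdg a (k • b) = k • wdg a b := by
  rw [← wdgP_tmul, tmul_zsmul_right, map_zsmul, wdgP_tmul]

theorem wdg_neg_left {A : Type u} [AddCommGroup A] (a b : A) : wdg (-a) b = -wdg a b := by
  rw [← wdgP_tmul, tmul_neg_left, map_neg, wdgP_tmul]

theorem wdg_neg_right {A : Type u} [AddCommGroup A] (a b : A) : wdg a (-b) = -wdg a b := by
  rw [← wdgP_tmul, tmul_neg_right, map_neg, wdgP_tmul]

theorem wdg_self {A : Type u} [AddCommGroup A] (a : A) : wdg a a = 0 :=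
  (QuotientAddGroup.eq_zero_iff _).2 (AddSubgroup.subset_closure ⟨a, rfl⟩)

theorem wdg_anti {A : Type u} [AddCommGroup A] (a b : A) : wdg a b = -wdg b a := by
  have h := wdg_self (a + b)
  rw [wdg_add_left, wdg_add_right, wdg_add_right, wdg_self, wdg_self, zero_add, add_zero] at h
  exact eq_neg_of_add_eq_zero_left h

variable {F : Type u} [Field F]

theorem unitOf_ne {x : F} (hx : x ≠ 0) : unitOf (some x) = Additive.ofMul (Units.mk0 x hx) := by
  simp only [unitOf, dif_neg hx]

theorem unitOf_mul {x y : F} (hx : x ≠ 0) (hy : y ≠ 0) :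
    unitOf (some (x * y)) = unitOf (some x) + unitOf (some y) := by
  rw [unitOf_ne hx, unitOf_ne hy, unitOf_ne (mul_ne_zero hx hy), ← ofMul_mul]
  congr 1
  apply Units.ext
  rfl

theorem unitOf_inv {x : F} : unitOf (some x⁻¹) = -unitOf (some x) := by
  by_cases hx : x = 0
  · rw [hx, inv_zero, unitOf_zero, neg_zero]
  · rw [unitOf_ne hx, unitOf_ne (inv_ne_zero hx), ← ofMul_inv]
    congr 1
    apply Units.ext
    simp

/-- `-1` is torsion -/
theorem unitOf_neg_one : IsT (unitOf (some (-1 : F))) := by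
  refine ⟨2, two_ne_zero, ?_⟩
  have h : (-1 : F) ≠ 0 := neg_ne_zero.2 one_ne_zero
  rw [two_nsmul, ← unitOf_mul h h, neg_mul_neg, one_mul, unitOf_one]

/-- `unitOf (-x)` and `unitOf x` differ by torsion -/
theorem unitOf_neg' {x : F} : IsT (unitOf (some (-x)) - unitOf (some x)) := by
  by_cases hx : x = 0
  · rw [hx, neg_zero, sub_self]
    exact IsT.zero
  · have h : (-1 : F) ≠ 0 := neg_ne_zero.2 one_ne_zero
    rw [← neg_one_mul, unitOf_mul h hx, add_sub_cancel_right]
    exact unitOf_neg_one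

open Polynomial in
theorem num_mul_eq (p q : F[X]) (hq0 : q ≠ 0) :
    (algebraMap F[X] (RatFunc F) p / algebraMap F[X] (RatFunc F) q).num * q =
      p * (algebraMap F[X] (RatFunc F) p / algebraMap F[X] (RatFunc F) q).denom := by
  have h1 := RatFunc.num_div_denom
    (algebraMap F[X] (RatFunc F) p / algebraMap F[X] (RatFunc F) q)
  have hd := (algebraMap F[X] (RatFunc F) p / algebraMap F[X] (RatFunc F) q).denom_ne_zero
  have hd' : algebraMap F[X] (RatFunc F)
      (algebraMap F[X] (RatFunc F) p / algebraMap F[X] (RatFunc F) q).denom ≠ 0 :=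
    (map_ne_zero_iff _ (RatFunc.algebraMap_injective F)).2 hd
  have hq' : algebraMap F[X] (RatFunc F) q ≠ 0 :=
    (map_ne_zero_iff _ (RatFunc.algebraMap_injective F)).2 hq0
  apply RatFunc.algebraMap_injective F
  rw [map_mul, map_mul]
  exact (div_eq_div_iff hd' hq').1 h1

open Polynomial in
/-- evaluation of a fraction, finite value -/
theorem evalAt_div (t₀ : F) (p q : F[X]) (hq : q.eval t₀ ≠ 0) :
    evalAt t₀ (some (algebraMap F[X] (RatFunc F) p / algebraMap F[X] (RatFunc F) q)) =
      some (p.eval t₀ / q.eval t₀) := by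
  have hq0 : q ≠ 0 := by
    rintro rfl
    exact hq eval_zero
  have h1 := num_mul_eq p q hq0
  have h2 : (algebraMap F[X] (RatFunc F) p / algebraMap F[X] (RatFunc F) q).denom.eval t₀ ≠ 0 := by
    intro h
    obtain ⟨r, hr⟩ := RatFunc.denom_div_dvd p q
    apply hq
    rw [hr, eval_mul, h, zero_mul]
  simp only [evalAt, if_neg h2]
  congr 1
  rw [div_eq_div_iff h2 hq]
  have h3 := congrArg (Polynomial.eval t₀) h1
  rwa [eval_mul, eval_mul] at h3

open Polynomial in
/-- evaluation of a fraction, pole -/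
theorem evalAt_div_none (t₀ : F) (p q : F[X]) (hp : p.eval t₀ ≠ 0) (hq : q.eval t₀ = 0)
    (hq0 : q ≠ 0) :
    evalAt t₀ (some (algebraMap F[X] (RatFunc F) p / algebraMap F[X] (RatFunc F) q)) =
      none := by
  have h1 := num_mul_eq p q hq0
  have h2 : (algebraMap F[X] (RatFunc F) p / algebraMap F[X] (RatFunc F) q).denom.eval t₀ = 0 := by
    have h3 := congrArg (Polynomial.eval t₀) h1
    rw [eval_mul, eval_mul, hq, mul_zero] at h3
    exact (mul_eq_zero.1 h3.symm).resolve_left hp
  simp only [evalAt, if_pos h2]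

/-- the class of `ev₀ α - ev₁ α` in `B k F` -/
def spec (k : ℕ) (α : FreeAbelianGroup (Option (RatFunc F))) : B k F :=
  QuotientAddGroup.mk (FreeAbelianGroup.map (evalAt 0) α - FreeAbelianGroup.map (evalAt 1) α)

/-- `spec` as a homomorphism -/
def specH (k : ℕ) : FreeAbelianGroup (Option (RatFunc F)) →+ B k F :=
  (QuotientAddGroup.mk' (R k F)).comp
    (FreeAbelianGroup.map (evalAt 0) - FreeAbelianGroup.map (evalAt 1))

theorem specH_apply (k : ℕ) (α : FreeAbelianGroup (Option (RatFunc F))) :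
    specH k α = spec k α := rfl

theorem spec_add (k : ℕ) (α β : FreeAbelianGroup (Option (RatFunc F))) :
    spec k (α + β) = spec k α + spec k β := map_add (specH k) α β

theorem spec_sub (k : ℕ) (α β : FreeAbelianGroup (Option (RatFunc F))) :
    spec k (α - β) = spec k α - spec k β := map_sub (specH k) α β

theorem spec_zsmul (k : ℕ) (n : ℤ) (α : FreeAbelianGroup (Option (RatFunc F))) :
    spec k (n • α) = n • spec k α := map_zsmul (specH k) n α

theorem spec_of (k : ℕ) (f : Option (RatFunc F)) :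
    spec k (FreeAbelianGroup.of f) = cls k (evalAt 0 f) - cls k (evalAt 1 f) := by
  rw [← specH_apply]
  show (QuotientAddGroup.mk' (R k F)) (FreeAbelianGroup.map (evalAt 0) (FreeAbelianGroup.of f) -
    FreeAbelianGroup.map (evalAt 1) (FreeAbelianGroup.of f)) = _
  rw [map_sub, FreeAbelianGroup.map_of_apply, FreeAbelianGroup.map_of_apply]
  rfl

theorem mem_relOf {F : Type u} [Field F] (k : ℕ) {y : FreeAbelianGroup (Option F)}
    (hy : y = FreeAbelianGroup.of (some 0) ∨ y = FreeAbelianGroup.of none) : y ∈ R k F := by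
  cases k with
  | zero =>
    show y ∈ relOf F _
    exact AddSubgroup.subset_closure (Or.inl (by
      rcases hy with h | h
      · exact Or.inl h
      · exact Or.inr h))
  | succ k =>
    show y ∈ relOf F _
    exact AddSubgroup.subset_closure (Or.inl (by
      rcases hy with h | h
      · exact Or.inl h
      · exact Or.inr h))

theorem cls_zero (k : ℕ) : cls k (some (0 : F)) = 0 :=
  (QuotientAddGroup.eq_zero_iff _).2 (mem_relOf k (Or.inl rfl))

theorem cls_none (k : ℕ) : cls k (none : Option F) = 0 :=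
  (QuotientAddGroup.eq_zero_iff _).2 (mem_relOf k (Or.inr rfl))

/-- relations in `B_2` (exact) -/
theorem rel0 {α : FreeAbelianGroup (Option (RatFunc F))} (h : delta2 (RatFunc F) α = 0) :
    spec 0 α = 0 := by
  refine (QuotientAddGroup.eq_zero_iff _).2 ?_
  show _ ∈ relOf F _
  exact AddSubgroup.subset_closure (Or.inr ⟨α, h, rfl⟩)

/-- relations in `B_2` up to torsion -/
theorem rel0T {α : FreeAbelianGroup (Option (RatFunc F))} (h : IsT (delta2 (RatFunc F) α)) :
    IsT (spec 0 α) := by
  obtain ⟨m, hm, h1⟩ := h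
  refine ⟨m, hm, ?_⟩
  rw [← map_nsmul] at h1
  have h2 := rel0 h1
  rw [← specH_apply, map_nsmul] at h2
  exact h2

/-- relations in `B_{k+3}` (exact) -/
theorem relE (k : ℕ) {α : FreeAbelianGroup (Option (RatFunc F))}
    (h : deltaN (RatFunc F) (R k (RatFunc F)) α = 0) : spec (k + 1) α = 0 := by
  refine (QuotientAddGroup.eq_zero_iff _).2 ?_
  show _ ∈ relOf F _
  exact AddSubgroup.subset_closure (Or.inr ⟨α, h, rfl⟩)

/-- relations in `B_{k+3}` up to torsion -/
theorem relT (k : ℕ) {α : FreeAbelianGroup (Option (RatFunc F))}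
    (h : IsT (deltaN (RatFunc F) (R k (RatFunc F)) α)) : IsT (spec (k + 1) α) := by
  obtain ⟨m, hm, h1⟩ := h
  refine ⟨m, hm, ?_⟩
  rw [← map_nsmul] at h1
  have h2 := relE k h1
  rw [← specH_apply, map_nsmul] at h2
  exact h2

end Pool.Agent.F194.X

end
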