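import Pool.Agent.Work.MP_f194bb_nt.X.Alg

/-!
# MP_f194bb_nt, `X_1(11)`: relations in `B_2`
-/

set_option autoImplicit false

open scoped TensorProduct

noncomputable section

namespace Pool.Agent.F194.X

universe u

theorem wdg_sub_left {A : Type u} [AddCommGroup A] (a b c : A) :
    wdg (a - b) c = wdg a c - wdg b c := by
  rw [sub_eq_add_neg, wdg_add_left, wdg_neg_left, sub_eq_add_neg]

theorem wdg_sub_right {A : Type u} [AddCommGroup A] (a b c : A) :
    wdg a (b - c) = wdg a b - wdg a c := by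
  rw [sub_eq_add_neg, wdg_add_right, wdg_neg_right, sub_eq_add_neg]

theorem wdg_zero_left {A : Type u} [AddCommGroup A] (a : A) : wdg 0 a = 0 := by
  rw [← wdgP_tmul]
  have h : tmul (0 : A) a = 0 := map_zero (tmulL a)
  rw [h, map_zero]

theorem IsT.wdg_left {A : Type u} [AddCommGroup A] {a : A} (ha : IsT a) (b : A) :
    IsT (wdg a b) := (ha.tmul_left b).map (wdgP A)

variable {F : Type u} [Field F]

theorem unitOf_div {x y : F} (hx : x ≠ 0) (hy : y ≠ 0) :
    unitOf (some (x / y)) = unitOf (some x) - unitOf (some y) := by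
  rw [div_eq_mul_inv, unitOf_mul hx (inv_ne_zero hy), unitOf_inv, sub_eq_add_neg]

theorem delta2_of (x : F) : delta2 F (FreeAbelianGroup.of (some x)) =
    wdg (unitOf (some (1 - x))) (unitOf (some x)) := by
  rw [delta2, FreeAbelianGroup.lift_apply_of]
  rfl

theorem delta2_refl (x : F) : delta2 F (FreeAbelianGroup.of (some x) +
    FreeAbelianGroup.of (some (1 - x))) = 0 := by
  rw [map_add, delta2_of, delta2_of, sub_sub_cancel, wdg_anti, neg_add_cancel]

theorem delta2_inv (x : F) : IsT (delta2 F (FreeAbelianGroup.of (some x) +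
    FreeAbelianGroup.of (some x⁻¹))) := by
  by_cases h0 : x = 0
  · subst h0
    rw [inv_zero, map_add, delta2_of, sub_zero, unitOf_one, wdg_zero_left, add_zero]
    exact IsT.zero
  by_cases h1 : x = 1
  · subst h1
    rw [inv_one, map_add, delta2_of, sub_self, unitOf_zero, wdg_zero_left, add_zero]
    exact IsT.zero
  have h2 : (1 : F) - x⁻¹ = -(1 - x) / x := by
    field_simp
    ring
  have h3 : -(1 - x) ≠ 0 := neg_ne_zero.2 (sub_ne_zero.2 (Ne.symm h1))
  rw [map_add, delta2_of, delta2_of, h2, unitOf_div h3 h0, unitOf_inv]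
  have h4 : wdg (unitOf (some (1 - x))) (unitOf (some x)) +
      wdg (unitOf (some (-(1 - x))) - unitOf (some x)) (-unitOf (some x)) =
      -wdg (unitOf (some (-(1 - x))) - unitOf (some (1 - x))) (unitOf (some x)) := by
    rw [wdg_neg_right, wdg_sub_left, wdg_sub_left, wdg_self]
    abel
  rw [h4]
  exact (unitOf_neg'.wdg_left _).neg

/-- `δ₂` of the five term relation -/
theorem delta2_five {a b : F} (ha : a ≠ 0) (ha1 : a ≠ 1) (hb : b ≠ 0) (hb1 : b ≠ 1)
    (hab : a * b ≠ 1) : delta2 F (FreeAbelianGroup.of (some a) + FreeAbelianGroup.of (some b) -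
      FreeAbelianGroup.of (some (a * b)) -
      FreeAbelianGroup.of (some (a * (1 - b) / (1 - a * b))) -
      FreeAbelianGroup.of (some (b * (1 - a) / (1 - a * b)))) = 0 := by
  have ha' : 1 - a ≠ 0 := sub_ne_zero.2 (Ne.symm ha1)
  have hb' : 1 - b ≠ 0 := sub_ne_zero.2 (Ne.symm hb1)
  have hc : 1 - a * b ≠ 0 := sub_ne_zero.2 (Ne.symm hab)
  have e1 : 1 - a * (1 - b) / (1 - a * b) = (1 - a) / (1 - a * b) := by
    field_simp
    ring
  have e2 : 1 - b * (1 - a) / (1 - a * b) = (1 - b) / (1 - a * b) := by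
    rw [eq_div_iff hc, sub_mul, div_mul_cancel₀ _ hc]
    ring
  rw [map_sub, map_sub, map_sub, map_add, delta2_of, delta2_of, delta2_of, delta2_of, delta2_of,
    e1, e2, unitOf_div ha' hc, unitOf_div hb' hc, unitOf_div (mul_ne_zero ha hb') hc,
    unitOf_div (mul_ne_zero hb ha') hc, unitOf_mul ha hb, unitOf_mul ha hb', unitOf_mul hb ha']
  generalize unitOf (some (1 - a)) = A'
  generalize unitOf (some (1 - b)) = B'
  generalize unitOf (some (1 - a * b)) = C
  generalize unitOf (some a) = A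
  generalize unitOf (some b) = B
  simp only [wdg_add_right, wdg_sub_left, wdg_sub_right, wdg_self]
  rw [wdg_anti B' A', wdg_anti C A', wdg_anti C B']
  abel

open Polynomial in
theorem evalAt_eq {f : RatFunc F} (t₀ : F) (p q : F[X]) {x : F}
    (hf : f = algebraMap F[X] (RatFunc F) p / algebraMap F[X] (RatFunc F) q)
    (hq : q.eval t₀ ≠ 0) (hx : p.eval t₀ / q.eval t₀ = x) : evalAt t₀ (some f) = some x := by
  rw [hf, evalAt_div t₀ p q hq, hx]

open Polynomial in
theorem evalAt_eq_none {f : RatFunc F} (t₀ : F) (p q : F[X])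
    (hf : f = algebraMap F[X] (RatFunc F) p / algebraMap F[X] (RatFunc F) q)
    (hp : p.eval t₀ ≠ 0) (hq : q.eval t₀ = 0) (hq0 : q ≠ 0) : evalAt t₀ (some f) = none := by
  rw [hf, evalAt_div_none t₀ p q hp hq hq0]

open Polynomial in
/-- a polynomial without denominator -/
theorem evalAt_poly {f : RatFunc F} (t₀ : F) (p : F[X]) {x : F}
    (hf : f = algebraMap F[X] (RatFunc F) p) (hx : p.eval t₀ = x) :
    evalAt t₀ (some f) = some x := by
  refine evalAt_eq t₀ p 1 ?_ ?_ ?_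
  · rw [map_one, div_one, hf]
  · rw [eval_one]
    exact one_ne_zero
  · rw [eval_one, div_one, hx]

open Polynomial in
theorem aM_ne {p : F[X]} (t₀ : F) (h : p.eval t₀ ≠ 0) : algebraMap F[X] (RatFunc F) p ≠ 0 := by
  refine (map_ne_zero_iff _ (RatFunc.algebraMap_injective F)).2 ?_
  rintro rfl
  exact h eval_zero

open Polynomial in
/-- the path `x (1 - t)` -/
def pth (x : F) : RatFunc F := algebraMap F[X] (RatFunc F) (C x * (1 - X))

open Polynomial in
theorem pth_zero (x : F) : evalAt 0 (some (pth x)) = some x :=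
  evalAt_poly 0 (C x * (1 - X)) rfl (by simp)

open Polynomial in
theorem pth_one (x : F) : evalAt 1 (some (pth x)) = some 0 :=
  evalAt_poly 1 (C x * (1 - X)) rfl (by simp)

open Polynomial in
theorem pth_inv_zero {x : F} (hx : x ≠ 0) : evalAt 0 (some (pth x)⁻¹) = some x⁻¹ :=
  evalAt_eq 0 1 (C x * (1 - X)) (by rw [map_one, one_div]; rfl) (by simpa using hx) (by simp)

open Polynomial in
theorem pth_inv_one {x : F} (hx : x ≠ 0) : evalAt 1 (some (pth x)⁻¹) = none :=
  evalAt_eq_none 1 1 (C x * (1 - X)) (by rw [map_one, one_div]; rfl) (by simp) (by simp) (by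
    intro h
    have := congrArg (Polynomial.eval 0) h
    simp at this
    exact hx this)

open Polynomial in
theorem pth_sub_zero (x : F) : evalAt 0 (some (1 - pth x)) = some (1 - x) :=
  evalAt_poly 0 (1 - C x * (1 - X)) (by rw [map_sub, map_one]; rfl) (by simp)

open Polynomial in
theorem pth_sub_one (x : F) : evalAt 1 (some (1 - pth x)) = some 1 :=
  evalAt_poly 1 (1 - C x * (1 - X)) (by rw [map_sub, map_one]; rfl) (by simp)

open Polynomial in
theorem pth_ne_zero {x : F} (hx : x ≠ 0) : pth x ≠ 0 := aM_ne 0 (by simpa using hx)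

open Polynomial in
theorem pth_ne_one (x : F) : pth x ≠ 1 := by
  intro h
  have h2 : algebraMap F[X] (RatFunc F) (1 - C x * (1 - X)) ≠ 0 := aM_ne 1 (by simp)
  apply h2
  rw [map_sub, map_one, sub_eq_zero]
  exact h.symm

theorem B2_inv (x : F) : IsT (cls 0 (some x) + cls 0 (some x⁻¹)) := by
  by_cases hx : x = 0
  · subst hx
    rw [inv_zero, cls_zero, add_zero]
    exact IsT.zero
  · have h := rel0T (delta2_inv (pth x))
    rw [spec_add, spec_of, spec_of, pth_zero, pth_one, pth_inv_zero hx, pth_inv_one hx, cls_zero,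
      cls_none, sub_zero, sub_zero] at h
    exact h

theorem B2_one : IsT (cls 0 (some (1 : F))) := by
  have h := B2_inv (1 : F)
  rw [inv_one, ← two_zsmul] at h
  exact h.of_zsmul two_ne_zero

theorem B2_refl (x : F) : IsT (cls 0 (some x) + cls 0 (some (1 - x))) := by
  have h := rel0 (delta2_refl (pth x))
  rw [spec_add, spec_of, spec_of, pth_zero, pth_one, pth_sub_zero, pth_sub_one, cls_zero,
    sub_zero] at h
  have h2 : cls 0 (some x) + cls 0 (some (1 - x)) = cls 0 (some (1 : F)) := by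
    rw [← sub_eq_zero, ← h]
    abel
  rw [h2]
  exact B2_one

open Polynomial in
/-- The five term relation; path `b ↦ b (1 - t)`, `δ₂` of the five terms is exactly `0`. -/
theorem B2_five {a b : F} (ha : a ≠ 0) (ha1 : a ≠ 1) (hb : b ≠ 0) (hb1 : b ≠ 1)
    (hab : a * b ≠ 1) : IsT (cls 0 (some a) + cls 0 (some b) - cls 0 (some (a * b)) -
      cls 0 (some (a * (1 - b) / (1 - a * b))) - cls 0 (some (b * (1 - a) / (1 - a * b)))) := by
  have hc : 1 - a * b ≠ 0 := sub_ne_zero.2 (Ne.symm hab)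
  obtain ⟨A, hA⟩ : ∃ A, A = algebraMap F[X] (RatFunc F) (C a) := ⟨_, rfl⟩
  have hA0 : A ≠ 0 := by
    rw [hA]
    exact aM_ne 0 (by simpa using ha)
  have hA1 : A ≠ 1 := by
    intro h
    have h2 : algebraMap F[X] (RatFunc F) (C a - 1) ≠ 0 :=
      aM_ne 0 (by simpa [sub_eq_zero] using ha1)
    apply h2
    rw [map_sub, map_one, ← hA, h, sub_self]
  have hp : pth b = algebraMap F[X] (RatFunc F) (C b * (1 - X)) := rfl
  have hAB : A * pth b ≠ 1 := by
    intro h
    have h2 : algebraMap F[X] (RatFunc F) (1 - C a * (C b * (1 - X))) ≠ 0 :=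
      aM_ne 1 (by simp)
    apply h2
    rw [map_sub, map_one, map_mul, ← hA, ← hp, h, sub_self]
  have h := rel0 (delta2_five hA0 hA1 (pth_ne_zero hb) (pth_ne_one b) hAB)
  have e1 : ∀ t₀ : F, evalAt t₀ (some A) = some a := fun t₀ =>
    evalAt_poly t₀ (C a) hA (by simp)
  have e2 : evalAt 0 (some (A * pth b)) = some (a * b) :=
    evalAt_poly 0 (C a * (C b * (1 - X))) (by rw [map_mul, hA, hp]) (by simp)
  have e3 : evalAt 1 (some (A * pth b)) = some 0 :=
    evalAt_poly 1 (C a * (C b * (1 - X))) (by rw [map_mul, hA, hp]) (by simp)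
  have hq : ∀ N : F[X], algebraMap F[X] (RatFunc F) N / (1 - A * pth b) =
      algebraMap F[X] (RatFunc F) N /
        algebraMap F[X] (RatFunc F) (1 - C a * (C b * (1 - X))) := by
    intro N
    rw [map_sub, map_one, map_mul, ← hA, ← hp]
  have n1 : A * (1 - pth b) = algebraMap F[X] (RatFunc F) (C a * (1 - C b * (1 - X))) := by
    rw [map_mul, map_sub, map_one, ← hA, ← hp]
  have n2 : pth b * (1 - A) = algebraMap F[X] (RatFunc F) (C b * (1 - X) * (1 - C a)) := by
    rw [map_mul, map_sub, map_one, ← hA, ← hp]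
  have q0 : (1 - C a * (C b * (1 - X)) : F[X]).eval 0 ≠ 0 := by simpa using hc
  have q1 : (1 - C a * (C b * (1 - X)) : F[X]).eval 1 ≠ 0 := by simp
  have e4 : evalAt 0 (some (A * (1 - pth b) / (1 - A * pth b))) =
      some (a * (1 - b) / (1 - a * b)) :=
    evalAt_eq 0 _ _ (by rw [n1, hq]) q0 (by simp)
  have e5 : evalAt 1 (some (A * (1 - pth b) / (1 - A * pth b))) = some a :=
    evalAt_eq 1 _ _ (by rw [n1, hq]) q1 (by simp)
  have e6 : evalAt 0 (some (pth b * (1 - A) / (1 - A * pth b))) =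
      some (b * (1 - a) / (1 - a * b)) :=
    evalAt_eq 0 _ _ (by rw [n2, hq]) q0 (by simp)
  have e7 : evalAt 1 (some (pth b * (1 - A) / (1 - A * pth b))) = some 0 :=
    evalAt_eq 1 _ _ (by rw [n2, hq]) q1 (by simp)
  rw [spec_sub, spec_sub, spec_sub, spec_add, spec_of, spec_of, spec_of, spec_of, spec_of, e1, e1,
    pth_zero, pth_one, e2, e3, e4, e5, e6, e7, cls_zero] at h
  have h2 : cls 0 (some a) + cls 0 (some b) - cls 0 (some (a * b)) -
      cls 0 (some (a * (1 - b) / (1 - a * b))) - cls 0 (some (b * (1 - a) / (1 - a * b))) = 0 := by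
    rw [← h]
    abel
  rw [h2]
  exact IsT.zero

theorem T0 {z w : F} (h : w = z) : IsT (cls 0 (some z) - cls 0 (some w)) := by
  rw [h, sub_self]
  exact IsT.zero

theorem S1 {z w : F} (h : w = 1 - z) : IsT (cls 0 (some z) + cls 0 (some w)) := by
  rw [h]
  exact B2_refl z

theorem S2 {z w : F} (h : w = z⁻¹) : IsT (cls 0 (some z) + cls 0 (some w)) := by
  rw [h]
  exact B2_inv z

theorem T1 {z w : F} (h : w = (1 - z)⁻¹) : IsT (cls 0 (some z) - cls 0 (some w)) := by
  have h1 := (B2_refl z).sub (S2 h)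
  convert h1 using 1
  abel

theorem T2 {z w : F} (h : w = 1 - z⁻¹) : IsT (cls 0 (some z) - cls 0 (some w)) := by
  have h1 := (B2_inv z).sub (S1 h)
  convert h1 using 1
  abel

theorem S3 {z w : F} (h : w = (1 - z⁻¹)⁻¹) : IsT (cls 0 (some z) + cls 0 (some w)) := by
  have h1 := (B2_inv z).sub (T1 h)
  convert h1 using 1
  abel

variable {x y : F}

/-- one five term relation, `five ((x - y) (1 - x y) / (x (1 - y)^2), (1 - y)/(x - y))`,
modulo `B2_refl`, `B2_inv` -/
theorem B2_Ra (hx : x ≠ 0) (hx1 : x ≠ 1) (hy : y ≠ 0) (hy1 : y ≠ 1) (hxy : x ≠ y)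
    (hxy1 : x * y ≠ 1) : IsT (cls 0 (some (x * (1 - y) ^ 2 / (y * (1 - x) ^ 2))) -
      cls 0 (some (x * (1 - y) / (y * (1 - x)))) - cls 0 (some (x * (1 - y) / (x - 1))) -
      cls 0 (some ((1 - y) / (1 - x))) - cls 0 (some ((1 - y) / (y * (x - 1))))) := by
  have h1 : x - 1 ≠ 0 := sub_ne_zero.2 hx1
  have h1' : 1 - x ≠ 0 := sub_ne_zero.2 (Ne.symm hx1)
  have h2' : 1 - y ≠ 0 := sub_ne_zero.2 (Ne.symm hy1)
  have h3 : x - y ≠ 0 := sub_ne_zero.2 hxy
  have h4 : 1 - x * y ≠ 0 := sub_ne_zero.2 (Ne.symm hxy1)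
  obtain ⟨a, ha⟩ : ∃ a, a = (x - y) * (1 - x * y) / (x * (1 - y) ^ 2) := ⟨_, rfl⟩
  obtain ⟨b, hb⟩ : ∃ b, b = (1 - y) / (x - y) := ⟨_, rfl⟩
  have ha' : 1 - a = y * (1 - x) ^ 2 / (x * (1 - y) ^ 2) := by
    rw [ha]
    field_simp
    ring
  have hb' : 1 - b = (x - 1) / (x - y) := by
    rw [hb]
    field_simp
    ring
  have hab : a * b = (1 - x * y) / (x * (1 - y)) := by
    rw [ha, hb]
    field_simp
  have hab' : 1 - a * b = (x - 1) / (x * (1 - y)) := by
    rw [hab]
    field_simp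
    ring
  have a0 : a ≠ 0 := by
    rw [ha]
    exact div_ne_zero (mul_ne_zero h3 h4) (mul_ne_zero hx (pow_ne_zero 2 h2'))
  have a1 : a ≠ 1 := by
    intro h
    rw [h, sub_self] at ha'
    exact div_ne_zero (mul_ne_zero hy (pow_ne_zero 2 h1')) (mul_ne_zero hx (pow_ne_zero 2 h2'))
      ha'.symm
  have b0 : b ≠ 0 := by
    rw [hb]
    exact div_ne_zero h2' h3
  have b1 : b ≠ 1 := by
    intro h
    rw [h, sub_self] at hb'
    exact div_ne_zero h1 h3 hb'.symm
  have ab1 : a * b ≠ 1 := by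
    intro h
    rw [h, sub_self] at hab'
    exact div_ne_zero h1 (mul_ne_zero hx h2') hab'.symm
  have e := B2_five a0 a1 b0 b1 ab1
  have t1 : IsT (cls 0 (some a) - cls 0 (some (x * (1 - y) ^ 2 / (y * (1 - x) ^ 2)))) :=
    T1 (by rw [ha', inv_div])
  have t2 : IsT (cls 0 (some b) + cls 0 (some ((1 - y) / (1 - x)))) :=
    S3 (by
      rw [hb, inv_div]
      have : 1 - (x - y) / (1 - y) = (1 - x) / (1 - y) := by
        field_simp
        ring
      rw [this, inv_div])
  have t3 : IsT (cls 0 (some (a * b)) - cls 0 (some (x * (1 - y) / (x - 1)))) :=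
    T1 (by rw [hab', inv_div])
  have t4 : IsT (cls 0 (some (a * (1 - b) / (1 - a * b))) -
      cls 0 (some ((1 - y) / (y * (x - 1))))) :=
    T1 (by
      rw [hb', hab', ha]
      have : 1 - (x - y) * (1 - x * y) / (x * (1 - y) ^ 2) * ((x - 1) / (x - y)) /
          ((x - 1) / (x * (1 - y))) = (y * (x - 1)) / (1 - y) := by
        field_simp
        ring
      rw [this, inv_div])
  have t5 : IsT (cls 0 (some (b * (1 - a) / (1 - a * b))) -
      cls 0 (some (x * (1 - y) / (y * (1 - x))))) :=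
    T2 (by
      rw [hab', ha', hb]
      have : (1 - y) / (x - y) * (y * (1 - x) ^ 2 / (x * (1 - y) ^ 2)) /
          ((x - 1) / (x * (1 - y))) = (y * (x - 1)) / (x - y) := by
        field_simp
        ring
      rw [this, inv_div]
      field_simp
      ring)
  have h := ((((e.sub t1).sub t2).add t3).add t4).add t5
  convert h using 1
  abel

/-- `five (1/(x y), y)` -/
theorem B2_F2 (hx : x ≠ 0) (hx1 : x ≠ 1) (hy : y ≠ 0) (hy1 : y ≠ 1)
    (hxy1 : x * y ≠ 1) : IsT (-cls 0 (some (x * y)) + cls 0 (some y) + cls 0 (some x) -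
      cls 0 (some ((1 - y) / (y * (x - 1)))) + cls 0 (some (x * (1 - y) / (x - 1)))) := by
  have h1 : x - 1 ≠ 0 := sub_ne_zero.2 hx1
  have h2' : 1 - y ≠ 0 := sub_ne_zero.2 (Ne.symm hy1)
  have h5 : (x * y)⁻¹ * y = x⁻¹ := by field_simp
  have h6 : 1 - x⁻¹ = (x - 1) / x := by field_simp
  have a0 : (x * y)⁻¹ ≠ 0 := inv_ne_zero (mul_ne_zero hx hy)
  have a1 : (x * y)⁻¹ ≠ 1 := fun h => hxy1 (inv_eq_one.1 h)
  have ab1 : (x * y)⁻¹ * y ≠ 1 := by
    rw [h5]
    exact fun h => hx1 (inv_eq_one.1 h)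
  have e := B2_five a0 a1 hy hy1 ab1
  rw [h5, h6] at e
  have t1 : IsT (cls 0 (some (x * y)) + cls 0 (some (x * y)⁻¹)) := S2 rfl
  have t2 : IsT (cls 0 (some x) + cls 0 (some x⁻¹)) := S2 rfl
  have t3 : IsT (cls 0 (some ((x * y)⁻¹ * (1 - y) / ((x - 1) / x))) -
      cls 0 (some ((1 - y) / (y * (x - 1))))) :=
    T0 (by field_simp)
  have t4 : IsT (cls 0 (some (y * (1 - (x * y)⁻¹) / ((x - 1) / x))) +
      cls 0 (some (x * (1 - y) / (x - 1)))) :=
    S1 (by
      field_simp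
      ring)
  have h := (((e.sub t1).add t2).add t3).add t4
  convert h using 1
  abel

/-- `five ((x - y)/(x (1 - y)), (1 - y)/(x - y))` -/
theorem B2_F3 (hx : x ≠ 0) (hx1 : x ≠ 1) (hy : y ≠ 0) (hy1 : y ≠ 1) (hxy : x ≠ y) :
    IsT (cls 0 (some (x * (1 - y) / (y * (1 - x)))) - cls 0 (some ((1 - y) / (1 - x))) +
      cls 0 (some x) - cls 0 (some y) - cls 0 (some (x / y))) := by
  have h1 : x - 1 ≠ 0 := sub_ne_zero.2 hx1
  have h1' : 1 - x ≠ 0 := sub_ne_zero.2 (Ne.symm hx1)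
  have h2' : 1 - y ≠ 0 := sub_ne_zero.2 (Ne.symm hy1)
  have h3 : x - y ≠ 0 := sub_ne_zero.2 hxy
  obtain ⟨a, ha⟩ : ∃ a, a = (x - y) / (x * (1 - y)) := ⟨_, rfl⟩
  obtain ⟨b, hb⟩ : ∃ b, b = (1 - y) / (x - y) := ⟨_, rfl⟩
  have ha' : 1 - a = y * (1 - x) / (x * (1 - y)) := by
    rw [ha]
    field_simp
    ring
  have hb' : 1 - b = (x - 1) / (x - y) := by
    rw [hb]
    field_simp
    ring
  have hab : a * b = x⁻¹ := by
    rw [ha, hb]
    field_simp
  have hab' : 1 - a * b = (x - 1) / x := by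
    rw [hab]
    field_simp
  have a0 : a ≠ 0 := by
    rw [ha]
    exact div_ne_zero h3 (mul_ne_zero hx h2')
  have a1 : a ≠ 1 := by
    intro h
    rw [h, sub_self] at ha'
    exact div_ne_zero (mul_ne_zero hy h1') (mul_ne_zero hx h2') ha'.symm
  have b0 : b ≠ 0 := by
    rw [hb]
    exact div_ne_zero h2' h3
  have b1 : b ≠ 1 := by
    intro h
    rw [h, sub_self] at hb'
    exact div_ne_zero h1 h3 hb'.symm
  have ab1 : a * b ≠ 1 := by
    rw [hab]
    exact fun h => hx1 (inv_eq_one.1 h)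
  have e := B2_five a0 a1 b0 b1 ab1
  have t1 : IsT (cls 0 (some a) - cls 0 (some (x * (1 - y) / (y * (1 - x))))) :=
    T1 (by rw [ha', inv_div])
  have t2 : IsT (cls 0 (some b) + cls 0 (some ((1 - y) / (1 - x)))) :=
    S3 (by
      rw [hb, inv_div]
      have : 1 - (x - y) / (1 - y) = (1 - x) / (1 - y) := by
        field_simp
        ring
      rw [this, inv_div])
  have t3 : IsT (cls 0 (some x) + cls 0 (some (a * b))) := S2 hab
  have t4 : IsT (cls 0 (some y) - cls 0 (some (a * (1 - b) / (1 - a * b)))) :=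
    T1 (by
      rw [hb', hab', ha]
      field_simp)
  have t5 : IsT (cls 0 (some (b * (1 - a) / (1 - a * b))) - cls 0 (some (x / y))) :=
    T2 (by
      rw [hab', ha', hb]
      have : (1 - y) / (x - y) * (y * (1 - x) / (x * (1 - y))) /
          ((x - 1) / x) = -y / (x - y) := by
        field_simp
        ring
      rw [this, inv_div]
      field_simp
      ring)
  have h := ((((e.sub t1).sub t2).add t3).sub t4).add t5
  convert h using 1
  abel

/-- `F1 - F2 - F3` with `F1` the relation of `B2_Ra`, `F2 = five (1/(x y), y)`,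
`F3 = five ((x - y)/(x (1 - y)), (1 - y)/(x - y))` -/
theorem B2_Rx (hx : x ≠ 0) (hx1 : x ≠ 1) (hy : y ≠ 0) (hy1 : y ≠ 1) (hxy : x ≠ y)
    (hxy1 : x * y ≠ 1) : IsT (cls 0 (some (x * (1 - y) ^ 2 / (y * (1 - x) ^ 2))) +
      cls 0 (some (x * y)) + cls 0 (some (x / y)) -
      (2 : ℤ) • cls 0 (some (x * (1 - y) / (y * (1 - x)))) -
      (2 : ℤ) • cls 0 (some (x * (1 - y) / (x - 1))) - (2 : ℤ) • cls 0 (some x)) := by
  have h := ((B2_Ra hx hx1 hy hy1 hxy hxy1).sub (B2_F2 hx hx1 hy hy1 hxy1)).sub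
    (B2_F3 hx hx1 hy hy1 hxy)
  convert h using 1
  abel

/-- `-F1 - F2 + F3` -/
theorem B2_Ry (hx : x ≠ 0) (hx1 : x ≠ 1) (hy : y ≠ 0) (hy1 : y ≠ 1) (hxy : x ≠ y)
    (hxy1 : x * y ≠ 1) : IsT (-cls 0 (some (x * (1 - y) ^ 2 / (y * (1 - x) ^ 2))) +
      cls 0 (some (x * y)) - cls 0 (some (x / y)) +
      (2 : ℤ) • cls 0 (some (x * (1 - y) / (y * (1 - x)))) +
      (2 : ℤ) • cls 0 (some ((1 - y) / (y * (x - 1)))) - (2 : ℤ) • cls 0 (some y)) := by
  have h := ((B2_Ra hx hx1 hy hy1 hxy hxy1).neg.sub (B2_F2 hx hx1 hy hy1 hxy1)).add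
    (B2_F3 hx hx1 hy hy1 hxy)
  convert h using 1
  abel

end Pool.Agent.F194.X

end
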