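import Pool.Agent.Work.MP_f194bb_nt.X.B2

/-!
# MP_f194bb_nt, `X_1(11)`: relations in `B_3` and `B_4`
-/

set_option autoImplicit false

open scoped TensorProduct

noncomputable section

namespace Pool.Agent.F194.X

universe u

variable {F : Type u} [Field F]

/-- `deltaN` with values in `B ⊗ F*` -/
def dN (k : ℕ) (F : Type u) [Field F] :
    FreeAbelianGroup (Option F) →+ Tens (B k F) (Additive Fˣ) := deltaN F (R k F)

theorem dN_of (k : ℕ) (f : F) : dN k F (FreeAbelianGroup.of (some f)) =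
    tmul (cls k (some f)) (unitOf (some f)) := FreeAbelianGroup.lift_apply_of _ _

theorem relD (k : ℕ) {α : FreeAbelianGroup (Option (RatFunc F))} (h : IsT (dN k (RatFunc F) α)) :
    IsT (spec (k + 1) α) := relT k h

/-- path `x ↦ x (1 - t)` -/
theorem B3_inv (x : F) : IsT (cls 1 (some x) - cls 1 (some x⁻¹)) := by
  by_cases hx : x = 0
  · subst hx
    rw [inv_zero, sub_self]
    exact IsT.zero
  · have h1 : IsT (dN 0 (RatFunc F) (FreeAbelianGroup.of (some (pth x)) -
        FreeAbelianGroup.of (some (pth x)⁻¹))) := by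
      rw [map_sub, dN_of, dN_of, unitOf_inv, tmul_neg_right, sub_neg_eq_add, ← tmul_add_left]
      exact (B2_inv (pth x)).tmul_left _
    have h := relD 0 h1
    rw [spec_sub, spec_of, spec_of, pth_zero, pth_one, pth_inv_zero hx, pth_inv_one hx] at h
    have h2 : cls 1 (some x) - cls 1 (some x⁻¹) =
        cls (0 + 1) (some x) - cls (0 + 1) (some (0 : F)) -
          (cls (0 + 1) (some x⁻¹) - cls (0 + 1) none) := by
      rw [cls_zero, cls_none, sub_zero, sub_zero]
    rw [h2]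
    exact h

open Polynomial in
theorem pth_sinv_zero {x : F} (hx : x ≠ 0) : evalAt 0 (some (1 - (pth x)⁻¹)) =
    some (1 - x⁻¹) := by
  have h0 : pth x ≠ 0 := pth_ne_zero hx
  refine evalAt_eq 0 (C x * (1 - X) - 1) (C x * (1 - X)) ?_ (by simpa using hx) ?_
  · have h1 : algebraMap F[X] (RatFunc F) (C x * (1 - X)) = pth x := rfl
    rw [map_sub, map_one, h1, sub_div, div_self h0, one_div]
  · simp only [eval_sub, eval_mul, eval_C, eval_one, eval_X, sub_zero, mul_one]
    rw [sub_div, div_self hx, one_div]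

open Polynomial in
theorem pth_sinv_one {x : F} (hx : x ≠ 0) : evalAt 1 (some (1 - (pth x)⁻¹)) = none := by
  have h0 : pth x ≠ 0 := pth_ne_zero hx
  refine evalAt_eq_none 1 (C x * (1 - X) - 1) (C x * (1 - X)) ?_ (by simp) (by simp) ?_
  · have h1 : algebraMap F[X] (RatFunc F) (C x * (1 - X)) = pth x := rfl
    rw [map_sub, map_one, h1, sub_div, div_self h0, one_div]
  · intro h
    have := congrArg (Polynomial.eval 0) h
    simp at this
    exact hx this

/-- path `x ↦ x (1 - t)` -/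
theorem B3_three {x : F} (hx : x ≠ 0) (hx1 : x ≠ 1) : IsT (cls 1 (some x) +
    cls 1 (some (1 - x)) + cls 1 (some (1 - x⁻¹)) - cls 1 (some 1)) := by
  obtain ⟨f, hf⟩ : ∃ f, f = pth x := ⟨_, rfl⟩
  have f0 : f ≠ 0 := hf ▸ pth_ne_zero hx
  have f1 : f ≠ 1 := hf ▸ pth_ne_one x
  have f2 : -(1 - f) ≠ 0 := neg_ne_zero.2 (sub_ne_zero.2 (Ne.symm f1))
  have e : 1 - f⁻¹ = -(1 - f) / f := by
    field_simp
    ring
  have h1 : IsT (dN 0 (RatFunc F) (FreeAbelianGroup.of (some f) +
      FreeAbelianGroup.of (some (1 - f)) + FreeAbelianGroup.of (some (1 - f⁻¹)))) := by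
    have a1 : IsT (cls 0 (some f) - cls 0 (some (1 - f⁻¹))) := T2 rfl
    have a2 : IsT (cls 0 (some (1 - f)) + cls 0 (some (1 - f⁻¹))) := by
      have := (B2_refl f).sub a1
      convert this using 1
      abel
    have a3 : IsT (unitOf (some (-(1 - f))) - unitOf (some (1 - f))) := unitOf_neg'
    have h2 : dN 0 (RatFunc F) (FreeAbelianGroup.of (some f) +
        FreeAbelianGroup.of (some (1 - f)) + FreeAbelianGroup.of (some (1 - f⁻¹))) =
        tmul (cls 0 (some f) - cls 0 (some (1 - f⁻¹))) (unitOf (some f)) +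
        tmul (cls 0 (some (1 - f)) + cls 0 (some (1 - f⁻¹))) (unitOf (some (1 - f))) +
        tmul (cls 0 (some (1 - f⁻¹))) (unitOf (some (-(1 - f))) - unitOf (some (1 - f))) := by
      have e' : unitOf (some (1 - f⁻¹)) = unitOf (some (-(1 - f))) - unitOf (some f) := by
        rw [e, unitOf_div f2 f0]
      rw [map_add, map_add, dN_of, dN_of, dN_of, e']
      simp only [tmul_add_left, tmul_sub_left, tmul_sub_right]
      abel
    rw [h2]
    exact ((a1.tmul_left _).add (a2.tmul_left _)).add (a3.tmul_right _)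
  have h := relD 0 h1
  rw [spec_add, spec_add, spec_of, spec_of, spec_of, hf, pth_zero, pth_one, pth_sub_zero,
    pth_sub_one, pth_sinv_zero hx, pth_sinv_one hx, cls_zero, cls_none] at h
  have h2 : cls 1 (some x) + cls 1 (some (1 - x)) + cls 1 (some (1 - x⁻¹)) - cls 1 (some 1) =
      cls (0 + 1) (some x) - 0 + (cls (0 + 1) (some (1 - x)) - cls (0 + 1) (some 1)) +
        (cls (0 + 1) (some (1 - x⁻¹)) - 0) := by
    abel
  rw [h2]
  exact h

/-- `δ₃` of the Kummer-Spence relation -/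
theorem KS_delta {x y : F} (hx : x ≠ 0) (hx1 : x ≠ 1) (hy : y ≠ 0) (hy1 : y ≠ 1) (hxy : x ≠ y)
    (hxy1 : x * y ≠ 1) : IsT (dN 0 F
      (FreeAbelianGroup.of (some (x * (1 - y) ^ 2 / (y * (1 - x) ^ 2))) +
      FreeAbelianGroup.of (some (x * y)) + FreeAbelianGroup.of (some (x / y)) -
      (2 : ℤ) • FreeAbelianGroup.of (some (x * (1 - y) / (y * (1 - x)))) -
      (2 : ℤ) • FreeAbelianGroup.of (some (x * (1 - y) / (x - 1))) -
      (2 : ℤ) • FreeAbelianGroup.of (some ((1 - y) / (1 - x))) -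
      (2 : ℤ) • FreeAbelianGroup.of (some ((1 - y) / (y * (x - 1)))) -
      (2 : ℤ) • FreeAbelianGroup.of (some x) - (2 : ℤ) • FreeAbelianGroup.of (some y))) := by
  have h1 : x - 1 ≠ 0 := sub_ne_zero.2 hx1
  have h1' : 1 - x ≠ 0 := sub_ne_zero.2 (Ne.symm hx1)
  have h2' : 1 - y ≠ 0 := sub_ne_zero.2 (Ne.symm hy1)
  have Ra := B2_Ra hx hx1 hy hy1 hxy hxy1
  have Rx := B2_Rx hx hx1 hy hy1 hxy hxy1
  have Ry := B2_Ry hx hx1 hy hy1 hxy hxy1
  have ε : IsT (unitOf (some (x - 1)) - unitOf (some (1 - x))) := by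
    rw [← neg_sub 1 x]
    exact unitOf_neg'
  have u1 : unitOf (some (x * (1 - y) ^ 2 / (y * (1 - x) ^ 2))) =
      (unitOf (some x) + (unitOf (some (1 - y)) + unitOf (some (1 - y)))) -
        (unitOf (some y) + (unitOf (some (1 - x)) + unitOf (some (1 - x)))) := by
    rw [unitOf_div (mul_ne_zero hx (pow_ne_zero 2 h2')) (mul_ne_zero hy (pow_ne_zero 2 h1')),
      unitOf_mul hx (pow_ne_zero 2 h2'), unitOf_mul hy (pow_ne_zero 2 h1'), pow_two, pow_two,
      unitOf_mul h2' h2', unitOf_mul h1' h1']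
  have u4 : unitOf (some (x * (1 - y) / (y * (1 - x)))) =
      (unitOf (some x) + unitOf (some (1 - y))) -
        (unitOf (some y) + unitOf (some (1 - x))) := by
    rw [unitOf_div (mul_ne_zero hx h2') (mul_ne_zero hy h1'), unitOf_mul hx h2',
      unitOf_mul hy h1']
  have u5 : unitOf (some (x * (1 - y) / (x - 1))) =
      (unitOf (some x) + unitOf (some (1 - y))) - unitOf (some (x - 1)) := by
    rw [unitOf_div (mul_ne_zero hx h2') h1, unitOf_mul hx h2']
  have u6 : unitOf (some ((1 - y) / (1 - x))) =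
      unitOf (some (1 - y)) - unitOf (some (1 - x)) := unitOf_div h2' h1'
  have u7 : unitOf (some ((1 - y) / (y * (x - 1)))) =
      unitOf (some (1 - y)) - (unitOf (some y) + unitOf (some (x - 1))) := by
    rw [unitOf_div h2' (mul_ne_zero hy h1), unitOf_mul hy h1]
  simp only [map_add, map_sub, map_zsmul, dN_of]
  rw [u1, u4, u5, u6, u7, unitOf_mul hx hy, unitOf_div hx hy]
  have t := ((((Rx.tmul_left (unitOf (some x))).add (Ry.tmul_left (unitOf (some y)))).add
    ((Ra.tmul_left (unitOf (some (1 - y)))).zsmul 2)).sub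
    ((Ra.tmul_left (unitOf (some (1 - x)))).zsmul 2)).add
    (((ε.tmul_right (cls 0 (some (x * (1 - y) / (x - 1))))).add
      (ε.tmul_right (cls 0 (some ((1 - y) / (y * (x - 1))))))).zsmul 2)
  convert t using 1
  generalize cls 0 (some (x * (1 - y) ^ 2 / (y * (1 - x) ^ 2))) = a1
  generalize cls 0 (some (x * y)) = a2
  generalize cls 0 (some (x / y)) = a3
  generalize cls 0 (some (x * (1 - y) / (y * (1 - x)))) = a4
  generalize cls 0 (some (x * (1 - y) / (x - 1))) = a5
  generalize cls 0 (some ((1 - y) / (1 - x))) = a6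
  generalize cls 0 (some ((1 - y) / (y * (x - 1)))) = a7
  generalize cls 0 (some x) = a8
  generalize cls 0 (some y) = a9
  generalize unitOf (some (x - 1)) = b1
  generalize unitOf (some (1 - x)) = b2
  generalize unitOf (some (1 - y)) = b3
  generalize unitOf (some x) = b4
  generalize unitOf (some y) = b5
  simp only [tmul_add_left, tmul_sub_left, tmul_neg_left, tmul_zsmul_left, tmul_add_right,
    tmul_sub_right]
  abel

open Polynomial in
/-- Kummer-Spence; path `y ↦ y + (1 - y) t`; the coefficient of `⊗ x`, `⊗ y`, `⊗ (1 - y)`,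
`⊗ (1 - x)` in `δ₃` are `B2_Rx`, `B2_Ry`, `2 B2_Ra`, `-2 B2_Ra`. -/
theorem B3_KS {x y : F} (hx : x ≠ 0) (hx1 : x ≠ 1) (hy : y ≠ 0) (hy1 : y ≠ 1) (hxy : x ≠ y)
    (hxy1 : x * y ≠ 1) : IsT (cls 1 (some (x * (1 - y) ^ 2 / (y * (1 - x) ^ 2))) +
      cls 1 (some (x * y)) + cls 1 (some (x / y)) -
      (2 : ℤ) • cls 1 (some (x * (1 - y) / (y * (1 - x)))) -
      (2 : ℤ) • cls 1 (some (x * (1 - y) / (x - 1))) -
      (2 : ℤ) • cls 1 (some ((1 - y) / (1 - x))) -
      (2 : ℤ) • cls 1 (some ((1 - y) / (y * (x - 1)))) -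
      (2 : ℤ) • cls 1 (some x) - (2 : ℤ) • cls 1 (some y) + (2 : ℤ) • cls 1 (some 1)) := by
  have h1 : x - 1 ≠ 0 := sub_ne_zero.2 hx1
  have h1' : 1 - x ≠ 0 := sub_ne_zero.2 (Ne.symm hx1)
  have h2' : 1 - y ≠ 0 := sub_ne_zero.2 (Ne.symm hy1)
  obtain ⟨P, hP⟩ : ∃ P : F[X], P = C y + (1 - C y) * X := ⟨_, rfl⟩
  have P0 : P.eval 0 = y := by
    rw [hP]
    simp
  have P1 : P.eval 1 = 1 := by
    rw [hP]
    simp
  obtain ⟨Y, hY⟩ : ∃ Y, Y = algebraMap F[X] (RatFunc F) P := ⟨_, rfl⟩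
  obtain ⟨A, hA⟩ : ∃ A, A = algebraMap F[X] (RatFunc F) (C x) := ⟨_, rfl⟩
  have cne : ∀ {p q : F[X]} (t₀ : F), p.eval t₀ ≠ q.eval t₀ →
      algebraMap F[X] (RatFunc F) p ≠ algebraMap F[X] (RatFunc F) q := by
    intro p q t₀ h h2
    apply h
    rw [RatFunc.algebraMap_injective F h2]
  have A0 : A ≠ 0 := by
    rw [hA]
    exact aM_ne 0 (by simpa using hx)
  have A1 : A ≠ 1 := by
    rw [hA, ← map_one (algebraMap F[X] (RatFunc F))]
    exact cne 0 (by simpa using hx1)
  have Y0 : Y ≠ 0 := by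
    rw [hY]
    exact aM_ne 0 (by rw [P0]; exact hy)
  have Y1 : Y ≠ 1 := by
    rw [hY, ← map_one (algebraMap F[X] (RatFunc F))]
    exact cne 0 (by rw [P0, eval_one]; exact hy1)
  have AY : A ≠ Y := by
    rw [hA, hY]
    exact cne 0 (by rw [P0, eval_C]; exact hxy)
  have AY1 : A * Y ≠ 1 := by
    rw [hA, hY, ← map_mul, ← map_one (algebraMap F[X] (RatFunc F))]
    exact cne 0 (by rw [eval_mul, P0, eval_C, eval_one]; exact hxy1)
  have h := relD 0 (KS_delta A0 A1 Y0 Y1 AY AY1)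
  -- the nine terms
  have m1 : A * (1 - Y) ^ 2 / (Y * (1 - A) ^ 2) =
      algebraMap F[X] (RatFunc F) (C x * (1 - P) ^ 2) /
        algebraMap F[X] (RatFunc F) (P * (1 - C x) ^ 2) := by
    simp only [map_mul, map_sub, map_pow, map_one, ← hA, ← hY]
  have m2 : A * Y = algebraMap F[X] (RatFunc F) (C x * P) := by
    simp only [map_mul, ← hA, ← hY]
  have m3 : A / Y = algebraMap F[X] (RatFunc F) (C x) / algebraMap F[X] (RatFunc F) P := by
    simp only [← hA, ← hY]
  have m4 : A * (1 - Y) / (Y * (1 - A)) =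
      algebraMap F[X] (RatFunc F) (C x * (1 - P)) /
        algebraMap F[X] (RatFunc F) (P * (1 - C x)) := by
    simp only [map_mul, map_sub, map_one, ← hA, ← hY]
  have m5 : A * (1 - Y) / (A - 1) =
      algebraMap F[X] (RatFunc F) (C x * (1 - P)) /
        algebraMap F[X] (RatFunc F) (C x - 1) := by
    simp only [map_mul, map_sub, map_one, ← hA, ← hY]
  have m6 : (1 - Y) / (1 - A) =
      algebraMap F[X] (RatFunc F) (1 - P) /
        algebraMap F[X] (RatFunc F) (1 - C x) := by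
    simp only [map_sub, map_one, ← hA, ← hY]
  have m7 : (1 - Y) / (Y * (A - 1)) =
      algebraMap F[X] (RatFunc F) (1 - P) /
        algebraMap F[X] (RatFunc F) (P * (C x - 1)) := by
    simp only [map_mul, map_sub, map_one, ← hA, ← hY]
  have a1 : evalAt 0 (some (A * (1 - Y) ^ 2 / (Y * (1 - A) ^ 2))) =
      some (x * (1 - y) ^ 2 / (y * (1 - x) ^ 2)) :=
    evalAt_eq 0 _ _ m1 (by simp [P0, hy, h1']) (by simp [P0])
  have b1 : evalAt 1 (some (A * (1 - Y) ^ 2 / (Y * (1 - A) ^ 2))) = some 0 :=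
    evalAt_eq 1 _ _ m1 (by simp [P1, h1']) (by simp [P1])
  have a2 : evalAt 0 (some (A * Y)) = some (x * y) := evalAt_poly 0 _ m2 (by simp [P0])
  have b2 : evalAt 1 (some (A * Y)) = some x := evalAt_poly 1 _ m2 (by simp [P1])
  have a3 : evalAt 0 (some (A / Y)) = some (x / y) :=
    evalAt_eq 0 _ _ m3 (by simp [P0, hy]) (by simp [P0])
  have b3 : evalAt 1 (some (A / Y)) = some x :=
    evalAt_eq 1 _ _ m3 (by simp [P1]) (by simp [P1])
  have a4 : evalAt 0 (some (A * (1 - Y) / (Y * (1 - A)))) =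
      some (x * (1 - y) / (y * (1 - x))) :=
    evalAt_eq 0 _ _ m4 (by simp [P0, hy, h1']) (by simp [P0])
  have b4 : evalAt 1 (some (A * (1 - Y) / (Y * (1 - A)))) = some 0 :=
    evalAt_eq 1 _ _ m4 (by simp [P1, h1']) (by simp [P1])
  have a5 : evalAt 0 (some (A * (1 - Y) / (A - 1))) = some (x * (1 - y) / (x - 1)) :=
    evalAt_eq 0 _ _ m5 (by simp [h1]) (by simp [P0])
  have b5 : evalAt 1 (some (A * (1 - Y) / (A - 1))) = some 0 :=
    evalAt_eq 1 _ _ m5 (by simp [h1]) (by simp [P1])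
  have a6 : evalAt 0 (some ((1 - Y) / (1 - A))) = some ((1 - y) / (1 - x)) :=
    evalAt_eq 0 _ _ m6 (by simp [h1']) (by simp [P0])
  have b6 : evalAt 1 (some ((1 - Y) / (1 - A))) = some 0 :=
    evalAt_eq 1 _ _ m6 (by simp [h1']) (by simp [P1])
  have a7 : evalAt 0 (some ((1 - Y) / (Y * (A - 1)))) = some ((1 - y) / (y * (x - 1))) :=
    evalAt_eq 0 _ _ m7 (by simp [P0, hy, h1]) (by simp [P0])
  have b7 : evalAt 1 (some ((1 - Y) / (Y * (A - 1)))) = some 0 :=
    evalAt_eq 1 _ _ m7 (by simp [P1, h1]) (by simp [P1])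
  have a8 : ∀ t₀ : F, evalAt t₀ (some A) = some x := fun t₀ =>
    evalAt_poly t₀ _ hA (by simp)
  have a9 : evalAt 0 (some Y) = some y := evalAt_poly 0 _ hY P0
  have b9 : evalAt 1 (some Y) = some 1 := evalAt_poly 1 _ hY P1
  simp only [spec_sub, spec_add, spec_zsmul, spec_of] at h
  rw [a1, b1, a2, b2, a3, b3, a4, b4, a5, b5, a6, b6, a7, b7, a8, a8, a9, b9, cls_zero] at h
  convert h using 1
  abel

/-- `{t} + {1/t}`, path `t ↦ 1 - t` -/
theorem B4_one : IsT (cls 2 (some (1 : F))) := by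
  have h1 : IsT (dN 1 (RatFunc F) (FreeAbelianGroup.of (some (pth (1 : F))) +
      FreeAbelianGroup.of (some (pth (1 : F))⁻¹))) := by
    rw [map_add, dN_of, dN_of, unitOf_inv, tmul_neg_right, ← sub_eq_add_neg, ← tmul_sub_left]
    exact (B3_inv (pth (1 : F))).tmul_left _
  have h := relD 1 h1
  rw [spec_add, spec_of, spec_of, pth_zero, pth_one, pth_inv_zero one_ne_zero,
    pth_inv_one one_ne_zero, inv_one, cls_zero, cls_none, sub_zero, ← two_zsmul] at h
  exact h.of_zsmul two_ne_zero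

end Pool.Agent.F194.X

end
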