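import Pool.Agent.Work.MP_f194bb_nt.X.Data

/-!
# MP_f194bb_nt, `X_1(11)`: the weight three relations used in the cocycle condition
-/

set_option autoImplicit false

noncomputable section

namespace Pool.Agent.F194.X

/-- The 15 relations `∑ rho j i {f i}₃ + rho1 j {1}₃ = 0`: ten three-term relations and five
Kummer-Spence relations. -/
def rho : Fin 15 → Fin 30 → ℤ := ![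
  ![1, 1, 1, 0, 0, 0, 0, 0, 0, 0, 0, 0, 0, 0, 0, 0, 0, 0, 0, 0, 0, 0, 0, 0, 0, 0, 0, 0, 0, 0],
  ![0, 0, 0, 1, 1, 1, 0, 0, 0, 0, 0, 0, 0, 0, 0, 0, 0, 0, 0, 0, 0, 0, 0, 0, 0, 0, 0, 0, 0, 0],
  ![0, 0, 0, 0, 0, 0, 1, 1, 1, 0, 0, 0, 0, 0, 0, 0, 0, 0, 0, 0, 0, 0, 0, 0, 0, 0, 0, 0, 0, 0],
  ![0, 0, 0, 0, 0, 0, 0, 0, 0, 1, 1, 1, 0, 0, 0, 0, 0, 0, 0, 0, 0, 0, 0, 0, 0, 0, 0, 0, 0, 0],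
  ![0, 0, 0, 0, 0, 0, 0, 0, 0, 0, 0, 0, 1, 1, 1, 0, 0, 0, 0, 0, 0, 0, 0, 0, 0, 0, 0, 0, 0, 0],
  ![0, 0, 0, 0, 0, 0, 0, 0, 0, 0, 0, 0, 0, 0, 0, 1, 1, 1, 0, 0, 0, 0, 0, 0, 0, 0, 0, 0, 0, 0],
  ![0, 0, 0, 0, 0, 0, 0, 0, 0, 0, 0, 0, 0, 0, 0, 0, 0, 0, 1, 1, 1, 0, 0, 0, 0, 0, 0, 0, 0, 0],
  ![0, 0, 0, 0, 0, 0, 0, 0, 0, 0, 0, 0, 0, 0, 0, 0, 0, 0, 0, 0, 0, 1, 1, 1, 0, 0, 0, 0, 0, 0],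
  ![0, 0, 0, 0, 0, 0, 0, 0, 0, 0, 0, 0, 0, 0, 0, 0, 0, 0, 0, 0, 0, 0, 0, 0, 1, 1, 1, 0, 0, 0],
  ![0, 0, 0, 0, 0, 0, 0, 0, 0, 0, 0, 0, 0, 0, 0, 0, 0, 0, 0, 0, 0, 0, 0, 0, 0, 0, 0, 1, 1, 1],
  ![0, -2, 0, -2, 0, 0, 0, -2, 0, 0, 0, -2, -2, 1, 0, 0, 1, 0, 0, -2, 0, 0, 1, 0, 0, 0, 0, 0, 0, 0],
  ![0, -2, 0, -2, 1, 0, 0, 0, -2, -2, 0, 0, -2, 0, 0, 1, 0, 0, 0, 0, 0, 0, 0, 0, 1, 0, 0, -2, 0, 0],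
  ![0, 0, -2, -2, 0, 0, 0, 0, -2, -2, 0, 1, 0, -2, 0, 0, 0, 0, 1, 0, 0, -2, 0, 0, 0, 0, 1, 0, 0, 0],
  ![0, 0, -2, 0, -2, 0, 0, -2, 1, 0, 0, -2, -2, 0, 0, 0, 0, 0, 0, 0, 0, 0, 0, 1, 0, -2, 0, 0, 1, 0],
  ![0, 1, -2, 0, -2, 0, 0, -2, 0, -2, 0, 0, 0, -2, 0, 0, 0, -2, 0, 0, 1, 0, 0, 0, 0, 0, 0, 0, 0, 1]]

/-- coefficient of `{1}₃` -/
def rho1 : Fin 15 → ℤ := ![-1, -1, -1, -1, -1, -1, -1, -1, -1, -1, 2, 2, 2, 2, 2]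

/-- the coefficients in `Λ²` -/
def VV : Fin 15 → Fin 4 → Fin 4 → ℤ := ![
  ![![0, 12, -16, -4], ![-12, 0, 0, 0], ![16, 0, 0, 0], ![4, 0, 0, 0]],
  ![![0, -20, -16, 28], ![20, 0, -4, -8], ![16, 4, 0, -12], ![-28, 8, 12, 0]],
  ![![0, 4, -4, 0], ![-4, 0, 4, -8], ![4, -4, 0, 8], ![0, 8, -8, 0]],
  ![![0, -24, -12, 16], ![24, 0, -12, 0], ![12, 12, 0, -8], ![-16, 0, 8, 0]],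
  ![![0, 0, -4, 4], ![0, 0, 20, -20], ![4, -20, 0, 12], ![-4, 20, -12, 0]],
  ![![0, 0, 0, -4], ![0, 0, -4, 0], ![0, 4, 0, 0], ![4, 0, 0, 0]],
  ![![0, -4, 4, 0], ![4, 0, 4, -8], ![-4, -4, 0, 4], ![0, 8, -4, 0]],
  ![![0, -12, 0, 4], ![12, 0, -8, 0], ![0, 8, 0, -4], ![-4, 0, 4, 0]],
  ![![0, 0, 4, -4], ![0, 0, 0, -4], ![-4, 0, 0, 4], ![4, 4, -4, 0]],
  ![![0, -12, 0, 8], ![12, 0, -4, -4], ![0, 4, 0, -4], ![-8, 4, 4, 0]],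
  ![![0, -10, -8, 10], ![10, 0, -12, 2], ![8, 12, 0, -8], ![-10, -2, 8, 0]],
  ![![0, 0, 0, -6], ![0, 0, 4, -6], ![0, -4, 0, 8], ![6, 6, -8, 0]],
  ![![0, 6, -6, 2], ![-6, 0, 6, -8], ![6, -6, 0, 2], ![-2, 8, -2, 0]],
  ![![0, -6, -8, 6], ![6, 0, 2, -6], ![8, -2, 0, -2], ![-6, 6, 2, 0]],
  ![![0, -18, 0, 12], ![18, 0, -2, -8], ![0, 2, 0, 0], ![-12, 8, 0, 0]]]

theorem rho_V : ∀ i p q, eT i p * cT i q - eT i q * cT i p = ∑ j, rho j i * VV j p q := by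
  decide +kernel

theorem rho1_V : ∀ p q, ∑ j, rho1 j * VV j p q = 0 := by decide +kernel

/-- exponents and sign of the unit `u` of the `j`-th three-term relation `{u} + {1-u} + {1-1/u} - {1}`,
`j < 10`; exponents and signs of `x, y` of the Kummer-Spence relations -/
def ttE : Fin 10 → Fin 4 → ℤ := ![
  ![1, 0, 0, 0], ![1, 1, -1, 0], ![0, -1, 1, 0], ![0, -1, 0, 1], ![-1, 0, 1, 0], ![0, 0, 0, 1],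
  ![0, 1, -1, 1], ![0, 2, -1, 0], ![-2, -2, 2, 1], ![-1, -1, 1, 1]]

def ttS : Fin 10 → ℤ := ![-1, 1, -1, -1, -1, -1, 1, -1, -1, -1]

def kxE : Fin 5 → Fin 4 → ℤ := ![![0, 1, 0, 0], ![0, 1, 0, 0], ![-1, 1, 0, 0], ![-1, 1, 0, 0], ![-1, 1, 0, 0]]

def kxS : Fin 5 → ℤ := ![1, 1, 1, 1, 1]

def kyE : Fin 5 → Fin 4 → ℤ := ![![1, 1, 0, -1], ![0, -1, 0, 1], ![1, 2, -1, -1], ![2, 1, -1, -1], ![1, 2, 0, -2]]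

def kyS : Fin 5 → ℤ := ![1, -1, 1, 1, 1]

end Pool.Agent.F194.X

end
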