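import Pool.Agent.Work.MP_f194bb_nt.X.B3
import Pool.Agent.Work.MP_f194bb_nt.X.DataB
import Pool.Agent.Work.MP_f194bb_nt.X.Tab

/-!
# MP_f194bb_nt, `X_1(11)`: the cocycle condition (i)
-/

set_option autoImplicit false

open scoped TensorProduct

noncomputable section

namespace Pool.Agent.F194.X

universe u

variable {K : Type u} [Field K] {x v : K}

/-- the units `x, x + 1, v - x, v` of `K` -/
def uK (h : v * (v + 1) = x * (x + 1) ^ 2) (hx : x ≠ 0) (hx1 : x + 1 ≠ 0) (k : Fin 4) : Kˣ :=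
  Units.mk0 (uv x v k) (uv_ne h hx hx1 k)

/-- `f i` -/
def fK (h : v * (v + 1) = x * (x + 1) ^ 2) (hx : x ≠ 0) (hx1 : x + 1 ≠ 0) (i : Fin 30) : Kˣ :=
  (if sT i = 1 then 1 else -1) * ∏ k, uK h hx hx1 k ^ eT i k

/-- `g i ^ N` -/
def gK (h : v * (v + 1) = x * (x + 1) ^ 2) (hx : x ≠ 0) (hx1 : x + 1 ≠ 0) (N : ℕ)
    (i : Fin 30) : Kˣ := (∏ k, uK h hx hx1 k ^ cT i k) ^ N

private theorem coe_prod_uK (h : v * (v + 1) = x * (x + 1) ^ 2) (hx : x ≠ 0) (hx1 : x + 1 ≠ 0)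
    (e : Fin 4 → ℤ) : ((∏ k, uK h hx hx1 k ^ e k : Kˣ) : K) = mon (uv x v) e := by
  rw [Units.coe_prod, mon]
  refine Finset.prod_congr rfl fun k _ => ?_
  rw [Units.val_zpow_eq_zpow_val]
  rfl

theorem fK_val (h : v * (v + 1) = x * (x + 1) ^ 2) (hx : x ≠ 0) (hx1 : x + 1 ≠ 0) (i : Fin 30) :
    (fK h hx hx1 i : K) = (sT i : K) * mon (uv x v) (eT i) := by
  rw [fK, Units.val_mul, coe_prod_uK]
  rcases sT_sq i with hs | hs
  · rw [if_pos hs, hs]
    simp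
  · rw [if_neg (by rw [hs]; decide), hs]
    simp

theorem one_sub_fK (h : v * (v + 1) = x * (x + 1) ^ 2) (hx : x ≠ 0) (hx1 : x + 1 ≠ 0)
    (i : Fin 30) : 1 - (fK h hx hx1 i : K) = (sT' i : K) * mon (uv x v) (wT i) := by
  rw [fK_val, ← table h hx hx1 i]
  ring

theorem gK_val (h : v * (v + 1) = x * (x + 1) ^ 2) (hx : x ≠ 0) (hx1 : x + 1 ≠ 0) (N : ℕ)
    (i : Fin 30) : (gK h hx hx1 N i : K) = mon (uv x v) (cT i) ^ N := by
  rw [gK, Units.val_pow_eq_pow_val, coe_prod_uK]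

/-! ### signed monomials -/

/-- a signed monomial -/
private def mM (x v : K) (s : ℤ) (e : Fin 4 → ℤ) : K := (s : K) * mon (uv x v) e

private theorem mon_add' (h : v * (v + 1) = x * (x + 1) ^ 2) (hx : x ≠ 0) (hx1 : x + 1 ≠ 0)
    (e e' : Fin 4 → ℤ) : mon (uv x v) (e + e') = mon (uv x v) e * mon (uv x v) e' := by
  rw [mon, mon, mon, ← Finset.prod_mul_distrib]
  exact Finset.prod_congr rfl fun k _ => zpow_add₀ (uv_ne h hx hx1 k) _ _

private theorem mon_neg' (e : Fin 4 → ℤ) : mon (uv x v) (-e) = (mon (uv x v) e)⁻¹ := by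
  rw [mon, mon, ← Finset.prod_inv_distrib]
  exact Finset.prod_congr rfl fun k _ => zpow_neg _ _

private theorem mM_mul (h : v * (v + 1) = x * (x + 1) ^ 2) (hx : x ≠ 0) (hx1 : x + 1 ≠ 0)
    (s s' : ℤ) (e e' : Fin 4 → ℤ) : mM x v s e * mM x v s' e' = mM x v (s * s') (e + e') := by
  rw [mM, mM, mM, mon_add' h hx hx1, Int.cast_mul]
  ring

private theorem mM_inv {s : ℤ} (hs : s = 1 ∨ s = -1) (e : Fin 4 → ℤ) :
    (mM x v s e)⁻¹ = mM x v s (-e) := by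
  rw [mM, mM, mon_neg', mul_inv]
  rcases hs with rfl | rfl <;> simp

private theorem mM_neg (s : ℤ) (e : Fin 4 → ℤ) : -mM x v s e = mM x v (-s) e := by
  rw [mM, mM, Int.cast_neg, neg_mul]

private theorem fK_mM (h : v * (v + 1) = x * (x + 1) ^ 2) (hx : x ≠ 0) (hx1 : x + 1 ≠ 0)
    (i : Fin 30) : (fK h hx hx1 i : K) = mM x v (sT i) (eT i) := fK_val h hx hx1 i

private theorem one_sub_mM (h : v * (v + 1) = x * (x + 1) ^ 2) (hx : x ≠ 0) (hx1 : x + 1 ≠ 0)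
    (i : Fin 30) : 1 - (fK h hx hx1 i : K) = mM x v (sT' i) (wT i) := one_sub_fK h hx hx1 i

private theorem mM_ne_one (hne : ∀ e : Fin 4 → ℤ, e ≠ 0 → mon (uv x v) e ≠ 1 ∧ mon (uv x v) e ≠ -1)
    {s : ℤ} (hs : s = 1 ∨ s = -1) {e : Fin 4 → ℤ} (he : e ≠ 0) : mM x v s e ≠ 1 := by
  rcases hs with rfl | rfl
  · rw [mM, Int.cast_one, one_mul]
    exact (hne e he).1
  · rw [mM, Int.cast_neg, Int.cast_one, neg_mul, one_mul]
    intro h1
    exact (hne e he).2 (by rw [← h1, neg_neg])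

/-! ### the three-term relations -/

private theorem tt_data : ∀ m : Fin 10,
    eT ⟨3 * m.1 + 1, by omega⟩ = wT ⟨3 * m.1, by omega⟩ ∧
    sT ⟨3 * m.1 + 1, by omega⟩ = sT' ⟨3 * m.1, by omega⟩ ∧
    eT ⟨3 * m.1 + 2, by omega⟩ = wT ⟨3 * m.1, by omega⟩ + -eT ⟨3 * m.1, by omega⟩ ∧
    sT ⟨3 * m.1 + 2, by omega⟩ = -(sT' ⟨3 * m.1, by omega⟩ * sT ⟨3 * m.1, by omega⟩) ∧
    eT ⟨3 * m.1, by omega⟩ ≠ 0 := by decide +kernel

private theorem tt_rho : ∀ (m : Fin 10) (i : Fin 30), rho ⟨m.1, by omega⟩ i =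
    (if i = ⟨3 * m.1, by omega⟩ then 1 else 0) + (if i = ⟨3 * m.1 + 1, by omega⟩ then 1 else 0) +
      (if i = ⟨3 * m.1 + 2, by omega⟩ then 1 else 0) := by decide +kernel

private theorem tt_rho1 : ∀ m : Fin 10, rho1 ⟨m.1, by omega⟩ = -1 := by decide +kernel

private theorem sum_ite_smul {G : Type*} [AddCommGroup G] (a : Fin 30) (n : ℤ) (c : Fin 30 → G) :
    ∑ i, (if i = a then n else 0) • c i = n • c a := by
  rw [Finset.sum_eq_single a]
  · rw [if_pos rfl]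
  · intro b _ hb
    rw [if_neg hb, zero_smul]
  · intro h
    exact absurd (Finset.mem_univ a) h

private theorem rel_tt (h : v * (v + 1) = x * (x + 1) ^ 2) (hx : x ≠ 0) (hx1 : x + 1 ≠ 0)
    (hne : ∀ e : Fin 4 → ℤ, e ≠ 0 → mon (uv x v) e ≠ 1 ∧ mon (uv x v) e ≠ -1) (m : Fin 10) :
    IsT (∑ i, rho ⟨m.1, by omega⟩ i • cls 1 (some (fK h hx hx1 i : K)) +
      rho1 ⟨m.1, by omega⟩ • cls 1 (some (1 : K))) := by
  obtain ⟨e1, s1, e2, s2, hne0⟩ := tt_data m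
  have hX0 : (fK h hx hx1 ⟨3 * m.1, by omega⟩ : K) ≠ 0 := Units.ne_zero _
  have hX1 : (fK h hx hx1 ⟨3 * m.1, by omega⟩ : K) ≠ 1 := by
    rw [fK_mM]
    exact mM_ne_one hne (sT_sq _) hne0
  have hY : (fK h hx hx1 ⟨3 * m.1 + 1, by omega⟩ : K) = 1 - fK h hx hx1 ⟨3 * m.1, by omega⟩ := by
    rw [one_sub_mM, fK_mM, e1, s1]
  have hZ : (fK h hx hx1 ⟨3 * m.1 + 2, by omega⟩ : K) =
      1 - (fK h hx hx1 ⟨3 * m.1, by omega⟩ : K)⁻¹ := by
    have h1 : 1 - (fK h hx hx1 ⟨3 * m.1, by omega⟩ : K)⁻¹ =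
        -((1 - fK h hx hx1 ⟨3 * m.1, by omega⟩) * (fK h hx hx1 ⟨3 * m.1, by omega⟩ : K)⁻¹) := by
      rw [sub_mul, mul_inv_cancel₀ hX0]
      ring
    rw [h1, one_sub_mM, fK_mM h hx hx1 ⟨3 * m.1, by omega⟩, mM_inv (sT_sq _),
      mM_mul h hx hx1, mM_neg, fK_mM, e2, s2]
  have h3 := B3_three hX0 hX1
  rw [← hY, ← hZ] at h3
  have h4 : ∑ i, rho ⟨m.1, by omega⟩ i • cls 1 (some (fK h hx hx1 i : K)) +
      rho1 ⟨m.1, by omega⟩ • cls 1 (some (1 : K)) =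
      cls 1 (some (fK h hx hx1 ⟨3 * m.1, by omega⟩ : K)) +
      cls 1 (some (fK h hx hx1 ⟨3 * m.1 + 1, by omega⟩ : K)) +
      cls 1 (some (fK h hx hx1 ⟨3 * m.1 + 2, by omega⟩ : K)) - cls 1 (some (1 : K)) := by
    rw [tt_rho1]
    simp only [tt_rho, add_smul, Finset.sum_add_distrib, sum_ite_smul, one_smul, neg_smul]
    abel
  rw [h4]
  exact h3

/-! ### the Kummer-Spence relations -/

/-- the pairs `(X, Y)` -/
private def kI : Fin 5 → Fin 2 → Fin 30 := ![![1, 7], ![1, 9], ![2, 8], ![2, 11], ![2, 17]]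

/-- the seven values, up to inversion -/
private def kA : Fin 5 → Fin 7 → Fin 30 := ![![22, 16, 13, 11, 12, 3, 19],
  ![24, 15, 4, 8, 3, 12, 27], ![18, 26, 11, 13, 21, 3, 9], ![28, 8, 23, 25, 4, 7, 12],
  ![1, 29, 20, 7, 9, 13, 4]]

/-- the exponents of the seven values -/
private def kS : Fin 5 → Fin 7 → ℤ := ![![-1, 1, 1, -1, 1, -1, -1], ![-1, 1, 1, 1, 1, -1, -1],
  ![1, 1, -1, 1, 1, 1, 1], ![1, 1, -1, 1, 1, 1, 1], ![-1, 1, -1, -1, -1, -1, -1]]

private def aS (i j : Fin 30) : Fin 7 → ℤ := ![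
  sT i * (sT' j * sT' j) * (sT j * (sT' i * sT' i)), sT i * sT j, sT i * sT j,
  sT i * sT' j * (sT j * sT' i), -(sT i * sT' j * sT' i), sT' j * sT' i,
  -(sT' j * (sT j * sT' i))]

private def aE (i j : Fin 30) : Fin 7 → Fin 4 → ℤ := ![
  eT i + (wT j + wT j) + -(eT j + (wT i + wT i)), eT i + eT j, eT i + -eT j,
  eT i + wT j + -(eT j + wT i), eT i + wT j + -wT i, wT j + -wT i, wT j + -(eT j + wT i)]

private theorem ks_e : ∀ (r : Fin 5) (k : Fin 7), aE (kI r 0) (kI r 1) k =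
    fun t => kS r k * eT (kA r k) t := by decide +kernel

private theorem ks_s : ∀ (r : Fin 5) (k : Fin 7), aS (kI r 0) (kI r 1) k = sT (kA r k) := by
  decide +kernel

private theorem ks_pm : ∀ (r : Fin 5) (k : Fin 7), kS r k = 1 ∨ kS r k = -1 := by decide +kernel

private theorem ks_ne : ∀ r : Fin 5, eT (kI r 0) ≠ 0 ∧ eT (kI r 1) ≠ 0 ∧
    eT (kI r 0) + -eT (kI r 1) ≠ 0 ∧ eT (kI r 0) + eT (kI r 1) ≠ 0 := by decide +kernel

private theorem ks_rho : ∀ (r : Fin 5) (i : Fin 30), rho ⟨10 + r.1, by omega⟩ i =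
    (if i = kA r 0 then 1 else 0) + (if i = kA r 1 then 1 else 0) +
      (if i = kA r 2 then 1 else 0) + (if i = kA r 3 then -2 else 0) +
      (if i = kA r 4 then -2 else 0) + (if i = kA r 5 then -2 else 0) +
      (if i = kA r 6 then -2 else 0) + (if i = kI r 0 then -2 else 0) +
      (if i = kI r 1 then -2 else 0) := by decide +kernel

private theorem ks_rho1 : ∀ r : Fin 5, rho1 ⟨10 + r.1, by omega⟩ = 2 := by decide +kernel

private theorem sgn_mul {s t : ℤ} (hs : s = 1 ∨ s = -1) (ht : t = 1 ∨ t = -1) :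
    s * t = 1 ∨ s * t = -1 := by
  rcases hs with rfl | rfl <;> rcases ht with rfl | rfl <;> simp

private theorem cls_pm (h : v * (v + 1) = x * (x + 1) ^ 2) (hx : x ≠ 0) (hx1 : x + 1 ≠ 0)
    {s : ℤ} (hs : s = 1 ∨ s = -1) (a : Fin 30) :
    IsT (cls 1 (some (mM x v (sT a) (fun t => s * eT a t))) -
      cls 1 (some (fK h hx hx1 a : K))) := by
  rcases hs with rfl | rfl
  · have h1 : (fun t => 1 * eT a t) = eT a := funext fun t => one_mul _
    rw [h1, ← fK_mM h hx hx1, sub_self]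
    exact IsT.zero
  · have h1 : (fun t => -1 * eT a t) = -eT a := funext fun t => by
      rw [Pi.neg_apply]
      ring
    rw [h1, ← mM_inv (sT_sq a), ← fK_mM h hx hx1]
    have h2 := (B3_inv (fK h hx hx1 a : K)).neg
    rwa [neg_sub] at h2

private theorem rel_ks (h : v * (v + 1) = x * (x + 1) ^ 2) (hx : x ≠ 0) (hx1 : x + 1 ≠ 0)
    (hne : ∀ e : Fin 4 → ℤ, e ≠ 0 → mon (uv x v) e ≠ 1 ∧ mon (uv x v) e ≠ -1) (r : Fin 5) :
    IsT (∑ i, rho ⟨10 + r.1, by omega⟩ i • cls 1 (some (fK h hx hx1 i : K)) +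
      rho1 ⟨10 + r.1, by omega⟩ • cls 1 (some (1 : K))) := by
  obtain ⟨hi, hj, hij, hij'⟩ := ks_ne r
  obtain ⟨i, hi0⟩ : ∃ i, i = kI r 0 := ⟨_, rfl⟩
  obtain ⟨j, hj0⟩ : ∃ j, j = kI r 1 := ⟨_, rfl⟩
  have hE := ks_e r
  have hS := ks_s r
  rw [← hi0, ← hj0] at hE hS hij hij'
  rw [← hi0] at hi
  rw [← hj0] at hj
  obtain ⟨X, hX⟩ : ∃ X : K, X = fK h hx hx1 i := ⟨_, rfl⟩
  obtain ⟨Y, hY⟩ : ∃ Y : K, Y = fK h hx hx1 j := ⟨_, rfl⟩
  have hX0 : X ≠ 0 := by rw [hX]; exact Units.ne_zero _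
  have hY0 : Y ≠ 0 := by rw [hY]; exact Units.ne_zero _
  have eX : X = mM x v (sT i) (eT i) := by rw [hX, fK_mM]
  have eY : Y = mM x v (sT j) (eT j) := by rw [hY, fK_mM]
  have eX1 : 1 - X = mM x v (sT' i) (wT i) := by rw [hX, one_sub_mM]
  have eY1 : 1 - Y = mM x v (sT' j) (wT j) := by rw [hY, one_sub_mM]
  have hX1 : X ≠ 1 := by rw [eX]; exact mM_ne_one hne (sT_sq _) hi
  have hY1 : Y ≠ 1 := by rw [eY]; exact mM_ne_one hne (sT_sq _) hj
  have hXY : X ≠ Y := by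
    intro h1
    have h2 : X * Y⁻¹ = 1 := by rw [h1, mul_inv_cancel₀ hY0]
    rw [eX, eY, mM_inv (sT_sq _), mM_mul h hx hx1] at h2
    exact mM_ne_one hne (sgn_mul (sT_sq _) (sT_sq _)) hij h2
  have hXY1 : X * Y ≠ 1 := by
    rw [eX, eY, mM_mul h hx hx1]
    exact mM_ne_one hne (sgn_mul (sT_sq _) (sT_sq _)) hij'
  have hX1' : 1 - X ≠ 0 := sub_ne_zero.2 fun h1 => hX1 h1.symm
  have hX1'' : X - 1 ≠ 0 := sub_ne_zero.2 hX1
  -- the seven values
  have a0 : X * (1 - Y) ^ 2 / (Y * (1 - X) ^ 2) =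
      mM x v (sT (kA r 0)) (fun t => kS r 0 * eT (kA r 0) t) := by
    rw [← hE 0, ← hS 0, div_eq_mul_inv, pow_two, pow_two, eX1, eY1, eX, eY]
    simp only [mM_mul h hx hx1]
    rw [mM_inv (sgn_mul (sT_sq _) (sgn_mul (sT'_sq _) (sT'_sq _))), mM_mul h hx hx1]
    rfl
  have a1 : X * Y = mM x v (sT (kA r 1)) (fun t => kS r 1 * eT (kA r 1) t) := by
    rw [← hE 1, ← hS 1, eX, eY, mM_mul h hx hx1]
    rfl
  have a2 : X / Y = mM x v (sT (kA r 2)) (fun t => kS r 2 * eT (kA r 2) t) := by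
    rw [← hE 2, ← hS 2, div_eq_mul_inv, eX, eY, mM_inv (sT_sq _), mM_mul h hx hx1]
    rfl
  have a3 : X * (1 - Y) / (Y * (1 - X)) =
      mM x v (sT (kA r 3)) (fun t => kS r 3 * eT (kA r 3) t) := by
    rw [← hE 3, ← hS 3, div_eq_mul_inv, eX1, eY1, eX, eY]
    simp only [mM_mul h hx hx1]
    rw [mM_inv (sgn_mul (sT_sq _) (sT'_sq _)), mM_mul h hx hx1]
    rfl
  have a4 : X * (1 - Y) / (X - 1) =
      mM x v (sT (kA r 4)) (fun t => kS r 4 * eT (kA r 4) t) := by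
    have h1 : X * (1 - Y) / (X - 1) = -(X * (1 - Y) * (1 - X)⁻¹) := by
      rw [← div_eq_mul_inv, ← neg_sub X 1, div_neg, neg_neg]
    rw [← hE 4, ← hS 4, h1, eX1, eY1, eX, mM_inv (sT'_sq _)]
    simp only [mM_mul h hx hx1]
    rw [mM_neg]
    rfl
  have a5 : (1 - Y) / (1 - X) =
      mM x v (sT (kA r 5)) (fun t => kS r 5 * eT (kA r 5) t) := by
    rw [← hE 5, ← hS 5, div_eq_mul_inv, eX1, eY1, mM_inv (sT'_sq _), mM_mul h hx hx1]
    rfl
  have a6 : (1 - Y) / (Y * (X - 1)) =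
      mM x v (sT (kA r 6)) (fun t => kS r 6 * eT (kA r 6) t) := by
    have h1 : (1 - Y) / (Y * (X - 1)) = -((1 - Y) * (Y * (1 - X))⁻¹) := by
      rw [← div_eq_mul_inv, ← neg_sub X 1, mul_neg, div_neg, neg_neg]
    rw [← hE 6, ← hS 6, h1, eX1, eY1, eY]
    simp only [mM_mul h hx hx1]
    rw [mM_inv (sgn_mul (sT_sq _) (sT'_sq _)), mM_mul h hx hx1, mM_neg]
    rfl
  have hKS := B3_KS hX0 hX1 hY0 hY1 hXY hXY1
  rw [a0, a1, a2, a3, a4, a5, a6] at hKS
  have b0 := cls_pm h hx hx1 (ks_pm r 0) (kA r 0)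
  have b1 := cls_pm h hx hx1 (ks_pm r 1) (kA r 1)
  have b2 := cls_pm h hx hx1 (ks_pm r 2) (kA r 2)
  have b3 := (cls_pm h hx hx1 (ks_pm r 3) (kA r 3)).zsmul 2
  have b4 := (cls_pm h hx hx1 (ks_pm r 4) (kA r 4)).zsmul 2
  have b5 := (cls_pm h hx hx1 (ks_pm r 5) (kA r 5)).zsmul 2
  have b6 := (cls_pm h hx hx1 (ks_pm r 6) (kA r 6)).zsmul 2
  have h5 := ((((((hKS.sub b0).sub b1).sub b2).add b3).add b4).add b5).add b6
  convert h5 using 1
  rw [ks_rho1]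
  simp only [ks_rho, add_smul, Finset.sum_add_distrib, sum_ite_smul]
  rw [← hi0, ← hj0, ← hX, ← hY]
  simp only [one_smul, neg_smul, smul_sub]
  abel

/-- the 15 relations in `B_3(K)`: three-term relations `f (3m), f (3m+1), f (3m+2)` and
Kummer-Spence for the pairs `(f₁,f₇), (f₁,f₉), (f₂,f₈), (f₂,f₁₁), (f₂,f₁₇)`. `hne`: none of the `f i`
is `1`, and they are pairwise different with products different from `1` where needed: this
holds as soon as `x` is not algebraic; it is enough that `mon e ≠ ±1` for `e ≠ 0`. -/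
theorem rels (h : v * (v + 1) = x * (x + 1) ^ 2) (hx : x ≠ 0) (hx1 : x + 1 ≠ 0)
    (hne : ∀ e : Fin 4 → ℤ, e ≠ 0 → mon (uv x v) e ≠ 1 ∧ mon (uv x v) e ≠ -1) (j : Fin 15) :
    IsT (∑ i, rho j i • cls 1 (some (fK h hx hx1 i : K)) + rho1 j • cls 1 (some (1 : K))) := by
  rcases lt_or_ge j.1 10 with hj | hj
  · exact rel_tt h hx hx1 hne ⟨j.1, hj⟩
  · have h1 := rel_ks h hx hx1 hne ⟨j.1 - 10, by omega⟩
    have h2 : (⟨10 + (⟨j.1 - 10, by omega⟩ : Fin 5).1, by omega⟩ : Fin 15) = j := by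
      apply Fin.ext
      show 10 + (j.1 - 10) = j.1
      omega
    rw [h2] at h1
    exact h1

/-! ### the cocycle condition -/

private theorem ofMul_mon (h : v * (v + 1) = x * (x + 1) ^ 2) (hx : x ≠ 0) (hx1 : x + 1 ≠ 0)
    (e : Fin 4 → ℤ) : Additive.ofMul (∏ k, uK h hx hx1 k ^ e k) =
      ∑ k, e k • Additive.ofMul (uK h hx hx1 k) := by
  rw [ofMul_prod]
  exact Finset.sum_congr rfl fun k _ => ofMul_zpow _ _

private theorem wdg_sum_left {A : Type u} [AddCommGroup A] (a : Fin 4 → A) (b : A) :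
    wdg (∑ k, a k) b = ∑ k, wdg (a k) b := by
  simp only [Fin.sum_univ_four, wdg_add_left]

private theorem wdg_sum_right {A : Type u} [AddCommGroup A] (a : A) (b : Fin 4 → A) :
    wdg a (∑ k, b k) = ∑ k, wdg a (b k) := by
  simp only [Fin.sum_univ_four, wdg_add_right]

private theorem isT_wdg {A : Type u} [AddCommGroup A] {a : A} (ha : (2 : ℤ) • a = 0) (b : A) :
    IsT (wdg a b) := by
  refine ⟨2, two_ne_zero, ?_⟩
  have h1 := wdg_zsmul_left 2 a b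
  have h2 := wdg_zsmul_left 0 a b
  rw [zero_smul, zero_smul] at h2
  rw [ha, h2] at h1
  rw [← natCast_zsmul]
  exact h1.symm

/-- `b ↦ b ⊗ w` -/
private def tL {A M : Type u} [AddCommGroup A] [AddCommGroup M] (w : M) : A →+ Tens A M :=
  AddMonoidHom.mk' (fun b => tmul b w) fun a b => tmul_add_left a b w

/-- `w ↦ b ⊗ w` -/
private def tR {A M : Type u} [AddCommGroup A] [AddCommGroup M] (b : A) : M →+ Tens A M :=
  AddMonoidHom.mk' (fun w => tmul b w) fun v w => tmul_add_right b v w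

private theorem double_sum {G : Type*} [AddCommGroup G] (e c : Fin 4 → ℤ)
    (w : Fin 4 → Fin 4 → G) (hw : ∀ p q, w q p = -w p q) :
    (2 : ℤ) • ∑ p, ∑ q, (e p * c q) • w p q = ∑ p, ∑ q, (e p * c q - e q * c p) • w p q := by
  have h1 : ∑ p, ∑ q, (e q * c p) • w p q = -∑ p, ∑ q, (e p * c q) • w p q := by
    rw [Finset.sum_comm, ← Finset.sum_neg_distrib]
    refine Finset.sum_congr rfl fun p _ => ?_
    rw [← Finset.sum_neg_distrib]
    refine Finset.sum_congr rfl fun q _ => ?_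
    rw [hw p q, smul_neg]
  have h2 : ∑ p, ∑ q, (e p * c q - e q * c p) • w p q =
      ∑ p, ∑ q, (e p * c q) • w p q - ∑ p, ∑ q, (e q * c p) • w p q := by
    simp only [sub_smul, Finset.sum_sub_distrib]
  rw [h2, h1, sub_neg_eq_add, two_zsmul]

private theorem rel_sum {B' G : Type*} [AddCommGroup B'] [AddCommGroup G] (c : Fin 30 → B')
    (c1 : B') (p q : Fin 4) (φ : B' →+ G) :
    ∑ j, VV j p q • φ (∑ i, rho j i • c i + rho1 j • c1) =
      ∑ i, (eT i p * cT i q - eT i q * cT i p) • φ (c i) := by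
  have h1 : ∀ j, VV j p q • φ (∑ i, rho j i • c i + rho1 j • c1) =
      ∑ i, (rho j i * VV j p q) • φ (c i) + (rho1 j * VV j p q) • φ c1 := by
    intro j
    rw [map_add, map_sum, smul_add, Finset.smul_sum, map_zsmul, smul_smul, mul_comm (rho1 j)]
    congr 1
    refine Finset.sum_congr rfl fun i _ => ?_
    rw [map_zsmul, smul_smul, mul_comm (rho j i)]
  rw [Finset.sum_congr rfl fun j _ => h1 j, Finset.sum_add_distrib, ← Finset.sum_smul, rho1_V,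
    zero_smul, add_zero, Finset.sum_comm]
  refine Finset.sum_congr rfl fun i _ => ?_
  rw [rho_V, Finset.sum_smul]

/-- condition (i) up to torsion -/
theorem cocycleT (h : v * (v + 1) = x * (x + 1) ^ 2) (hx : x ≠ 0) (hx1 : x + 1 ≠ 0)
    (hne : ∀ e : Fin 4 → ℤ, e ≠ 0 → mon (uv x v) e ≠ 1 ∧ mon (uv x v) e ≠ -1) :
    IsT (∑ i, tmul (cls 1 (some (fK h hx hx1 i : K)))
      (wdg (Additive.ofMul (fK h hx hx1 i)) (Additive.ofMul (gK h hx hx1 1 i)))) := by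
  obtain ⟨c, hc⟩ : ∃ c : Fin 30 → B 1 K, c = fun i => cls 1 (some (fK h hx hx1 i : K)) :=
    ⟨_, rfl⟩
  obtain ⟨W, hW⟩ : ∃ W : Fin 4 → Fin 4 → Ext2 (Additive Kˣ), W = fun p q =>
    wdg (Additive.ofMul (uK h hx hx1 p)) (Additive.ofMul (uK h hx hx1 q)) := ⟨_, rfl⟩
  obtain ⟨T, hT⟩ : ∃ T : Fin 30 → Tens (B 1 K) (Ext2 (Additive Kˣ)), T = fun i =>
    ∑ p, ∑ q, (eT i p * cT i q) • tL (W p q) (c i) := ⟨_, rfl⟩
  -- the torsion part
  have h1 : ∀ i, IsT (tmul (cls 1 (some (fK h hx hx1 i : K)))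
      (wdg (Additive.ofMul (fK h hx hx1 i)) (Additive.ofMul (gK h hx hx1 1 i))) - T i) := by
    intro i
    have e1 : Additive.ofMul (fK h hx hx1 i) =
        Additive.ofMul (if sT i = 1 then (1 : Kˣ) else -1) +
          ∑ k, eT i k • Additive.ofMul (uK h hx hx1 k) := by
      rw [fK, ofMul_mul, ofMul_mon]
    have e2 : Additive.ofMul (gK h hx hx1 1 i) =
        ∑ k, cT i k • Additive.ofMul (uK h hx hx1 k) := by
      rw [gK, pow_one, ofMul_mon]
    have e3 : (2 : ℤ) • Additive.ofMul (if sT i = 1 then (1 : Kˣ) else -1) = 0 := by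
      rw [← ofMul_zpow]
      split_ifs
      · rw [one_zpow, ofMul_one]
      · rw [Even.neg_one_zpow even_two, ofMul_one]
    have e4 : wdg (∑ k, eT i k • Additive.ofMul (uK h hx hx1 k))
        (∑ k, cT i k • Additive.ofMul (uK h hx hx1 k)) =
        ∑ p, ∑ q, (eT i p * cT i q) • W p q := by
      rw [wdg_sum_left]
      refine Finset.sum_congr rfl fun p _ => ?_
      rw [wdg_sum_right]
      refine Finset.sum_congr rfl fun q _ => ?_
      rw [wdg_zsmul_left, wdg_zsmul_right, smul_smul, hW]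
    have e5 : tmul (cls 1 (some (fK h hx hx1 i : K))) (∑ p, ∑ q, (eT i p * cT i q) • W p q) =
        T i := by
      show tR (cls 1 (some (fK h hx hx1 i : K))) (∑ p, ∑ q, (eT i p * cT i q) • W p q) = T i
      simp only [map_sum, map_zsmul, hT, hc]
      rfl
    rw [e1, wdg_add_left, tmul_add_right, e2, e4, e5, add_sub_cancel_right]
    exact IsT.tmul_right _ (isT_wdg e3 _)
  -- the main part
  have h2 : IsT ((2 : ℤ) • ∑ i, T i) := by
    have h3 : (2 : ℤ) • ∑ i, T i = ∑ p, ∑ q, ∑ j, VV j p q •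
        tL (W p q) (∑ i, rho j i • c i + rho1 j • cls 1 (some (1 : K))) := by
      have h4 : ∀ i, (2 : ℤ) • T i =
          ∑ p, ∑ q, (eT i p * cT i q - eT i q * cT i p) • tL (W p q) (c i) := by
        intro i
        rw [hT]
        refine double_sum (eT i) (cT i) (fun p q => tL (W p q) (c i)) fun p q => ?_
        show tmul (c i) (W q p) = -tmul (c i) (W p q)
        have e6 : W q p = (-1 : ℤ) • W p q := by
          rw [hW, neg_smul, one_smul]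
          exact wdg_anti _ _
        rw [e6, tmul_zsmul_right, neg_smul, one_smul]
      rw [Finset.smul_sum, Finset.sum_congr rfl fun i _ => h4 i, Finset.sum_comm]
      refine Finset.sum_congr rfl fun p _ => ?_
      rw [Finset.sum_comm]
      refine Finset.sum_congr rfl fun q _ => ?_
      rw [rel_sum]
    rw [h3]
    refine IsT.sum _ fun p _ => IsT.sum _ fun q _ => IsT.sum _ fun j _ => ?_
    refine IsT.zsmul ?_ _
    refine IsT.map _ ?_
    rw [hc]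
    exact rels h hx hx1 hne j
  have h5 : IsT (∑ i, T i) := h2.of_zsmul two_ne_zero
  have h6 := (IsT.sum Finset.univ fun i _ => h1 i).add h5
  rwa [Finset.sum_sub_distrib, sub_add_cancel] at h6

theorem cocycleI_of (h : v * (v + 1) = x * (x + 1) ^ 2) (hx : x ≠ 0) (hx1 : x + 1 ≠ 0)
    (hne : ∀ e : Fin 4 → ℤ, e ≠ 0 → mon (uv x v) e ≠ 1 ∧ mon (uv x v) e ≠ -1) :
    ∃ N : ℕ, N ≠ 0 ∧ ∀ M : ℕ, N ∣ M → CocycleI 1 (fK h hx hx1) (gK h hx hx1 M) := by
  obtain ⟨N, hN0, hN⟩ := cocycleT h hx hx1 hne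
  refine ⟨N, hN0, ?_⟩
  rintro M ⟨k, rfl⟩
  unfold CocycleI
  have h1 : ∀ i, tmul (cls 1 (some (fK h hx hx1 i : K)))
      (wdg (Additive.ofMul (fK h hx hx1 i)) (Additive.ofMul (gK h hx hx1 (N * k) i))) =
      ((N * k : ℕ) : ℤ) • tmul (cls 1 (some (fK h hx hx1 i : K)))
        (wdg (Additive.ofMul (fK h hx hx1 i)) (Additive.ofMul (gK h hx hx1 1 i))) := by
    intro i
    have e1 : Additive.ofMul (gK h hx hx1 (N * k) i) =
        ((N * k : ℕ) : ℤ) • Additive.ofMul (gK h hx hx1 1 i) := by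
      rw [natCast_zsmul, ← ofMul_pow, gK, gK, pow_one]
    rw [e1, wdg_zsmul_right, tmul_zsmul_right]
  rw [Finset.sum_congr rfl fun i _ => h1 i, ← Finset.smul_sum, natCast_zsmul, mul_comm, mul_smul,
    hN, smul_zero]

end Pool.Agent.F194.X

end
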