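import Pool.Agent.Work.MP_f194bb_nt.X.Ell
import Pool.Agent.Work.MP_f194bb_nt.X.Tab

/-!
# MP_f194bb_nt, `X_1(11)`: composite functions and their derivatives
-/

set_option autoImplicit false

open scoped ComplexConjugate PeriodPair
open MeasureTheory Filter Topology

noncomputable section

namespace Pool.Agent.F194.X

variable {L : PeriodPair}

private theorem cc (hL : XL L) {z : ℂ} (hz : z ∉ Cs L) :
    pv L z * (pv L z + 1) = px L z * (px L z + 1) ^ 2 ∧ px L z ≠ 0 ∧ px L z + 1 ≠ 0 :=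
  ⟨curve hL fun h => hz (Or.inl h), fun h => hz (Or.inr (Or.inl h)),
    fun h => hz (Or.inr (Or.inr (eq_neg_of_add_eq_zero_left h)))⟩

theorem table_fun (hL : XL L) {z : ℂ} (hz : z ∉ Cs L) (i : Fin 30) : ff L i z + hh L i z = 1 := by
  obtain ⟨h, h0, h1⟩ := cc hL hz
  exact table h h0 h1 i

private theorem mon_ne {u : Fin 4 → ℂ} (hu : ∀ k, u k ≠ 0) (e : Fin 4 → ℤ) : mon u e ≠ 0 :=
  Finset.prod_ne_zero_iff.2 fun k _ => zpow_ne_zero _ (hu k)

private theorem sT_ne (i : Fin 30) : (sT i : ℂ) ≠ 0 := by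
  rcases sT_sq i with h | h <;> rw [h] <;> norm_num

private theorem sT'_ne (i : Fin 30) : (sT' i : ℂ) ≠ 0 := by
  rcases sT'_sq i with h | h <;> rw [h] <;> norm_num

theorem ff_ne (hL : XL L) {z : ℂ} (hz : z ∉ Cs L) (i : Fin 30) : ff L i z ≠ 0 :=
  mul_ne_zero (sT_ne i) (mon_ne (U_ne hL hz) _)

theorem hh_ne (hL : XL L) {z : ℂ} (hz : z ∉ Cs L) (i : Fin 30) : hh L i z ≠ 0 :=
  mul_ne_zero (sT'_ne i) (mon_ne (U_ne hL hz) _)

theorem ff_ne_one (hL : XL L) {z : ℂ} (hz : z ∉ Cs L) (i : Fin 30) : ff L i z ≠ 1 := by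
  intro h
  have h1 := table_fun hL hz i
  rw [h] at h1
  exact hh_ne hL hz i (by linear_combination h1)

private theorem log_mon {u : Fin 4 → ℂ} (hu : ∀ k, u k ≠ 0) (e : Fin 4 → ℤ) :
    Real.log ‖mon u e‖ = lin (fun k => Real.log ‖u k‖) e := by
  rw [mon, norm_prod, Real.log_prod (fun k _ => norm_ne_zero_iff.2 (zpow_ne_zero _ (hu k)))]
  refine Finset.sum_congr rfl fun k _ => ?_
  rw [norm_zpow, Real.log_zpow]

theorem log_ff (hL : XL L) {z : ℂ} (hz : z ∉ Cs L) (i : Fin 30) :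
    Real.log ‖ff L i z‖ = aa L i z := by
  have h : ‖(sT i : ℂ)‖ = 1 := by
    rcases sT_sq i with h | h <;> rw [h] <;> simp
  rw [ff, norm_mul, h, one_mul, log_mon (U_ne hL hz)]
  rfl

theorem log_one_sub_ff (hL : XL L) {z : ℂ} (hz : z ∉ Cs L) (i : Fin 30) :
    Real.log ‖1 - ff L i z‖ = ww L i z := by
  have h : ‖(sT' i : ℂ)‖ = 1 := by
    rcases sT'_sq i with h | h <;> rw [h] <;> simp
  have h1 : 1 - ff L i z = hh L i z := by linear_combination -table_fun hL hz i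
  rw [h1, hh, norm_mul, h, one_mul, log_mon (U_ne hL hz)]
  rfl

theorem log_gg (hL : XL L) {z : ℂ} (hz : z ∉ Cs L) (i : Fin 30) :
    Real.log ‖gg L i z‖ = bb L i z := by
  rw [gg, log_mon (U_ne hL hz)]
  rfl

private theorem mon_deriv (hL : XL L) {z : ℂ} (hz : z ∉ Cs L) (e : Fin 4 → ℤ) :
    HasDerivAt (fun z => mon (fun k => U L k z) e) (mon (fun k => U L k z) e * cl (du L z) e) z := by
  have hk : ∀ k ∈ (Finset.univ : Finset (Fin 4)), HasDerivAt (fun z => U L k z ^ e k)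
      (U L k z ^ e k * ((e k : ℂ) * du L z k)) z := by
    intro k _
    have h1 := (U_an hz k).differentiableAt.hasDerivAt
    have h2 := (hasDerivAt_zpow (e k) (U L k z) (Or.inl (U_ne hL hz k))).comp z h1
    refine h2.congr_deriv ?_
    rw [du, zpow_sub_one₀ (U_ne hL hz k)]
    have := U_ne hL hz k
    field_simp
  have h := HasDerivAt.fun_finsetProd hk
  refine h.congr_deriv ?_
  unfold mon cl
  rw [Finset.mul_sum]
  refine Finset.sum_congr rfl fun k hk => ?_
  rw [← Finset.prod_erase_mul _ _ (Finset.mem_univ k), smul_eq_mul, mul_assoc]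

theorem ff_deriv (hL : XL L) {z : ℂ} (hz : z ∉ Cs L) (i : Fin 30) :
    HasDerivAt (ff L i) (ff L i z * cl (du L z) (eT i)) z := by
  have h := (mon_deriv hL hz (eT i)).const_mul (sT i : ℂ)
  rw [← mul_assoc] at h
  exact h

theorem hh_deriv (hL : XL L) {z : ℂ} (hz : z ∉ Cs L) (i : Fin 30) :
    HasDerivAt (hh L i) (hh L i z * cl (du L z) (wT i)) z := by
  have h := (mon_deriv hL hz (wT i)).const_mul (sT' i : ℂ)
  rw [← mul_assoc] at h
  exact h

private theorem ev_not (hL : XL L) {z : ℂ} (hz : z ∉ Cs L) : ∀ᶠ w in 𝓝 z, w ∉ Cs L :=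
  (Cs_closed hL).isOpen_compl.mem_nhds hz

/-- differentiate `1 - ff = hh` -/
theorem ff_deriv' (hL : XL L) {z : ℂ} (hz : z ∉ Cs L) (i : Fin 30) :
    ff L i z * cl (du L z) (eT i) = (ff L i z - 1) * cl (du L z) (wT i) := by
  have h1 := (ff_deriv hL hz i).add (hh_deriv hL hz i)
  have h2 : HasDerivAt (ff L i + hh L i) 0 z := by
    refine (hasDerivAt_const z (1 : ℂ)).congr_of_eventuallyEq ?_
    filter_upwards [ev_not hL hz] with w hw using table_fun hL hw i
  have h3 := h1.unique h2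
  have h4 := table_fun hL hz i
  linear_combination h3 - cl (du L z) (wT i) * h4

theorem du_an (hL : XL L) {z : ℂ} (hz : z ∉ Cs L) (k : Fin 4) :
    AnalyticAt ℂ (fun z => du L z k) z :=
  (U_an hz k).deriv.div (U_an hz k) (U_ne hL hz k)

private theorem log_norm_fd {f : ℂ → ℂ} {f' z : ℂ} (hf : HasDerivAt f f' z) (h0 : f z ≠ 0) :
    HasFDerivAt (fun z => Real.log ‖f z‖) (rl (f' / f z)) z := by
  have h1 : HasDerivAt (fun w => Complex.log (f w / f z)) (f' / f z) z := by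
    have h2 := (hf.div_const (f z)).clog (by rw [div_self h0]; exact Complex.one_mem_slitPlane)
    rwa [div_self h0, div_one] at h2
  have h3 : HasFDerivAt (fun w => Real.log ‖f z‖ + (Complex.log (f w / f z)).re)
      (rl (f' / f z)) z := by
    have h4 := ((Complex.reCLM.hasFDerivAt (x := Complex.log (f z / f z))).comp z
      h1.complexToReal_fderiv).const_add (Real.log ‖f z‖)
    refine h4.congr_fderiv ?_
    ext h
    simp
  refine h3.congr_of_eventuallyEq ?_
  have hc : ContinuousAt f z := hf.continuousAt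
  filter_upwards [hc.eventually_ne h0] with w hw
  rw [Complex.log_re, norm_div, Real.log_div (norm_ne_zero_iff.2 hw) (norm_ne_zero_iff.2 h0)]
  ring

theorem lu_fd (hL : XL L) {z : ℂ} (hz : z ∉ Cs L) (k : Fin 4) :
    HasFDerivAt (fun z => lu L z k) (rl (du L z k)) z :=
  log_norm_fd (U_an hz k).differentiableAt.hasDerivAt (U_ne hL hz k)

private theorem rl_sum (c : Fin 4 → ℂ) (e : Fin 4 → ℤ) : ∑ k, (e k : ℝ) • rl (c k) = rl (cl c e) := by
  ext h
  simp [cl, Finset.sum_mul, Complex.re_sum, mul_assoc]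

theorem lin_fd (hL : XL L) {z : ℂ} (hz : z ∉ Cs L) (e : Fin 4 → ℤ) :
    HasFDerivAt (fun z => lin (lu L z) e) (rl (cl (du L z) e)) z := by
  rw [← rl_sum]
  exact HasFDerivAt.fun_sum fun k _ => (lu_fd hL hz k).const_mul (e k : ℝ)

theorem cl_re (φ : Fin 4 → ℂ) (e : Fin 4 → ℤ) : (cl φ e).re = lin (fun k => (φ k).re) e := by
  simp [cl, lin, Complex.re_sum]

theorem cl_im (φ : Fin 4 → ℂ) (e : Fin 4 → ℤ) : (cl φ e).im = lin (fun k => (φ k).im) e := by
  simp [cl, lin, Complex.im_sum]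

private theorem il_comp (c d : ℂ) :
    (il c).comp (ContinuousLinearMap.mul ℝ ℂ d) = il (c * d) := by
  ext h
  simp [mul_assoc]

private theorem rl_comp (c d : ℂ) :
    (rl c).comp (ContinuousLinearMap.mul ℝ ℂ d) = rl (c * d) := by
  ext h
  simp [mul_assoc]

private theorem ff_fd (hL : XL L) {z : ℂ} (hz : z ∉ Cs L) (i : Fin 30) :
    HasFDerivAt (ff L i) (ContinuousLinearMap.mul ℝ ℂ (ff L i z * cl (du L z) (eT i))) z := by
  have h := (ff_deriv hL hz i).complexToReal_fderiv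
  convert h using 1
  ext h
  simp

private theorem e1 (hL : XL L) {z : ℂ} (hz : z ∉ Cs L) (i : Fin 30) :
    (ff L i z)⁻¹ * (ff L i z * cl (du L z) (eT i)) = cl (du L z) (eT i) := by
  rw [inv_mul_cancel_left₀ (ff_ne hL hz i)]

private theorem e2 (hL : XL L) {z : ℂ} (hz : z ∉ Cs L) (i : Fin 30) :
    (ff L i z - 1)⁻¹ * (ff L i z * cl (du L z) (eT i)) = cl (du L z) (wT i) := by
  rw [ff_deriv' hL hz, inv_mul_cancel_left₀ (sub_ne_zero.2 (ff_ne_one hL hz i))]

variable (P : PolyLog)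

theorem L2_fd (hL : XL L) {z : ℂ} (hz : z ∉ Cs L) (i : Fin 30) :
    HasFDerivAt (fun z => P.L2 (ff L i z))
      (aa L i z • il (cl (du L z) (wT i)) - ww L i z • il (cl (du L z) (eT i))) z := by
  have h := (P.d2 _ (ff_ne hL hz i) (ff_ne_one hL hz i)).comp z (ff_fd hL hz i)
  rwa [ContinuousLinearMap.sub_comp, ContinuousLinearMap.smul_comp, ContinuousLinearMap.smul_comp,
    il_comp, il_comp, e1 hL hz, e2 hL hz, log_ff hL hz, log_one_sub_ff hL hz] at h

theorem L3_fd (hL : XL L) {z : ℂ} (hz : z ∉ Cs L) (i : Fin 30) :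
    HasFDerivAt (fun z => P.L3 (ff L i z))
      (-(P.L2 (ff L i z)) • il (cl (du L z) (eT i)) - (1 / 3 * aa L i z) •
        (aa L i z • rl (cl (du L z) (wT i)) - ww L i z • rl (cl (du L z) (eT i)))) z := by
  have h := (P.d3 _ (ff_ne hL hz i) (ff_ne_one hL hz i)).comp z (ff_fd hL hz i)
  rwa [ContinuousLinearMap.sub_comp, ContinuousLinearMap.smul_comp, ContinuousLinearMap.smul_comp,
    ContinuousLinearMap.sub_comp, ContinuousLinearMap.smul_comp, ContinuousLinearMap.smul_comp,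
    il_comp, rl_comp, rl_comp, e1 hL hz, e2 hL hz, log_ff hL hz, log_one_sub_ff hL hz] at h

theorem L4_fd (hL : XL L) {z : ℂ} (hz : z ∉ Cs L) (i : Fin 30) :
    HasFDerivAt (fun z => P.L4 (ff L i z))
      (P.L3 (ff L i z) • il (cl (du L z) (eT i)) -
        (1 / 3 * aa L i z * P.L2 (ff L i z)) • rl (cl (du L z) (eT i))) z := by
  have h := (P.d4 _ (ff_ne hL hz i) (ff_ne_one hL hz i)).comp z (ff_fd hL hz i)
  rwa [ContinuousLinearMap.sub_comp, ContinuousLinearMap.smul_comp, ContinuousLinearMap.smul_comp,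
    il_comp, rl_comp, e1 hL hz, log_ff hL hz] at h

private theorem cd_of (hL : XL L) {F : ℂ → ℝ} {F' : ℂ → ℂ →L[ℝ] ℝ}
    (h1 : ∀ z, z ∉ Cs L → HasFDerivAt F (F' z) z) (h2 : ∀ z, z ∉ Cs L → ContinuousAt F' z)
    {z : ℂ} (hz : z ∉ Cs L) : ContDiffAt ℝ 1 F z := by
  refine contDiffAt_one_iff.2 ⟨F', (Cs L)ᶜ, ev_not hL hz, ?_, h1⟩
  exact fun w hw => (h2 w hw).continuousWithinAt

private theorem rl_cont : Continuous rl :=
  (ContinuousLinearMap.compL ℝ ℂ ℂ ℝ Complex.reCLM).continuous.comp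
    (ContinuousLinearMap.mul ℝ ℂ).continuous

private theorem il_cont : Continuous il :=
  (ContinuousLinearMap.compL ℝ ℂ ℂ ℝ Complex.imCLM).continuous.comp
    (ContinuousLinearMap.mul ℝ ℂ).continuous

private theorem cl_cont (hL : XL L) {z : ℂ} (hz : z ∉ Cs L) (e : Fin 4 → ℤ) :
    ContinuousAt (fun z => cl (du L z) e) z := by
  unfold cl
  exact tendsto_finsetSum _ fun k _ => continuousAt_const.mul (du_an hL hz k).continuousAt

private theorem lin_cont (hL : XL L) {z : ℂ} (hz : z ∉ Cs L) (e : Fin 4 → ℤ) :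
    ContinuousAt (fun z => lin (lu L z) e) z := (lin_fd hL hz e).continuousAt

private theorem rc (hL : XL L) {z : ℂ} (hz : z ∉ Cs L) (e : Fin 4 → ℤ) :
    ContinuousAt (fun z => rl (cl (du L z) e)) z :=
  rl_cont.continuousAt.comp (cl_cont hL hz e)

private theorem ic (hL : XL L) {z : ℂ} (hz : z ∉ Cs L) (e : Fin 4 → ℤ) :
    ContinuousAt (fun z => il (cl (du L z) e)) z :=
  il_cont.continuousAt.comp (cl_cont hL hz e)

theorem lin_cd (hL : XL L) {z : ℂ} (hz : z ∉ Cs L) (e : Fin 4 → ℤ) :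
    ContDiffAt ℝ 1 (fun z => lin (lu L z) e) z :=
  cd_of hL (fun _ h => lin_fd hL h e) (fun _ h => rc hL h e) hz

theorem L2_cd (hL : XL L) {z : ℂ} (hz : z ∉ Cs L) (i : Fin 30) :
    ContDiffAt ℝ 1 (fun z => P.L2 (ff L i z)) z :=
  cd_of hL (fun _ h => L2_fd P hL h i) (fun _ h => ((lin_cont hL h _).smul (ic hL h _)).sub
    ((lin_cont hL h _).smul (ic hL h _))) hz

theorem L3_cd (hL : XL L) {z : ℂ} (hz : z ∉ Cs L) (i : Fin 30) :
    ContDiffAt ℝ 1 (fun z => P.L3 (ff L i z)) z :=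
  cd_of hL (fun _ h => L3_fd P hL h i) (fun _ h =>
    ((L2_fd P hL h i).continuousAt.neg.smul (ic hL h _)).sub
      ((continuousAt_const.mul (lin_cont hL h _)).smul (((lin_cont hL h _).smul (rc hL h _)).sub
        ((lin_cont hL h _).smul (rc hL h _))))) hz

theorem L4_cd (hL : XL L) {z : ℂ} (hz : z ∉ Cs L) (i : Fin 30) :
    ContDiffAt ℝ 1 (fun z => P.L4 (ff L i z)) z :=
  cd_of hL (fun _ h => L4_fd P hL h i) (fun _ h =>
    ((L3_fd P hL h i).continuousAt.smul (ic hL h _)).sub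
      (((continuousAt_const.mul (lin_cont hL h _)).mul (L2_fd P hL h i).continuousAt).smul
        (rc hL h _))) hz

end Pool.Agent.F194.X

end
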