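import Pool.Agent.Work.MP_f194bb_nt.X.Trans
import Pool.Agent.Work.MP_f194bb_nt.X.Comp

/-!
# MP_f194bb_nt, `X_1(11)`: estimates near the cusps
-/

set_option autoImplicit false

open scoped ComplexConjugate PeriodPair
open MeasureTheory Filter Topology

noncomputable section

namespace Pool.Agent.F194.X

variable {L : PeriodPair} (P : PolyLog)

/-! ### orders of growth -/

private theorem cusp_near (s : ℂ) : ∀ᶠ z in 𝓝[≠] s, 0 < ‖z - s‖ ∧ ‖z - s‖ ≤ 1 := by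
  have h1 : ∀ᶠ z in 𝓝[≠] s, z ≠ s := eventually_mem_nhdsWithin
  have h2 : ∀ᶠ z in 𝓝[≠] s, z ∈ Metric.ball s 1 :=
    nhdsWithin_le_nhds (Metric.ball_mem_nhds s one_pos)
  filter_upwards [h1, h2] with z a b
  refine ⟨norm_pos_iff.2 (sub_ne_zero.2 a), ?_⟩
  have := Metric.mem_ball.1 b
  rw [dist_eq_norm] at this
  exact this.le

/-- `F` is `O(|z - s| ^ q)` near `s` -/
private def Oq (s : ℂ) (F : ℂ → ℝ) (q : ℝ) : Prop :=
  ∃ C : ℝ, 0 ≤ C ∧ ∀ᶠ z in 𝓝[≠] s, |F z| ≤ C * ‖z - s‖ ^ q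

private theorem Oq.mono {s : ℂ} {F : ℂ → ℝ} {p q : ℝ} (h : Oq s F q) (hpq : p ≤ q) :
    Oq s F p := by
  obtain ⟨C, hC, h⟩ := h
  refine ⟨C, hC, ?_⟩
  filter_upwards [h, cusp_near s] with z h1 h2
  exact h1.trans (mul_le_mul_of_nonneg_left (Real.rpow_le_rpow_of_exponent_ge h2.1 h2.2 hpq) hC)

private theorem Oq.mul {s : ℂ} {F G : ℂ → ℝ} {p q : ℝ} (h : Oq s F p) (h' : Oq s G q) :
    Oq s (fun z => F z * G z) (p + q) := by
  obtain ⟨C, hC, h⟩ := h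
  obtain ⟨C', hC', h'⟩ := h'
  refine ⟨C * C', mul_nonneg hC hC', ?_⟩
  filter_upwards [h, h', cusp_near s] with z h1 h2 h3
  rw [abs_mul, Real.rpow_add h3.1]
  calc |F z| * |G z| ≤ (C * ‖z - s‖ ^ p) * (C' * ‖z - s‖ ^ q) :=
        mul_le_mul h1 h2 (abs_nonneg _) ((abs_nonneg _).trans h1)
    _ = _ := by ring

private theorem Oq.add {s : ℂ} {F G : ℂ → ℝ} {p : ℝ} (h : Oq s F p) (h' : Oq s G p) :
    Oq s (fun z => F z + G z) p := by
  obtain ⟨C, hC, h⟩ := h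
  obtain ⟨C', hC', h'⟩ := h'
  refine ⟨C + C', add_nonneg hC hC', ?_⟩
  filter_upwards [h, h'] with z h1 h2
  rw [add_mul]
  exact (abs_add_le _ _).trans (add_le_add h1 h2)

private theorem Oq.neg {s : ℂ} {F : ℂ → ℝ} {p : ℝ} (h : Oq s F p) :
    Oq s (fun z => -F z) p := by
  obtain ⟨C, hC, h⟩ := h
  refine ⟨C, hC, ?_⟩
  filter_upwards [h] with z h1
  rwa [abs_neg]

private theorem Oq.const_mul {s : ℂ} {F : ℂ → ℝ} {p : ℝ} (h : Oq s F p) (c : ℝ) :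
    Oq s (fun z => c * F z) p := by
  obtain ⟨C, hC, h⟩ := h
  refine ⟨|c| * C, by positivity, ?_⟩
  filter_upwards [h] with z h1
  rw [abs_mul, mul_assoc]
  exact mul_le_mul_of_nonneg_left h1 (abs_nonneg _)

private theorem Oq.sum {ι : Type} {s : ℂ} (t : Finset ι) {F : ι → ℂ → ℝ} {p : ℝ}
    (h : ∀ i, Oq s (F i) p) : Oq s (fun z => ∑ i ∈ t, F i z) p := by
  classical
  induction t using Finset.induction_on with
  | empty => exact ⟨0, le_rfl, Eventually.of_forall fun z => by simp⟩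
  | insert a t ha ih =>
    have : (fun z => ∑ i ∈ insert a t, F i z) = fun z => F a z + ∑ i ∈ t, F i z := by
      funext z
      rw [Finset.sum_insert ha]
    rw [this]
    exact (h a).add ih

private theorem Oq.congr {s : ℂ} {F G : ℂ → ℝ} {p : ℝ} (h : Oq s F p)
    (h' : ∀ᶠ z in 𝓝[≠] s, G z = F z) : Oq s G p := by
  obtain ⟨C, hC, h⟩ := h
  refine ⟨C, hC, ?_⟩
  filter_upwards [h, h'] with z h1 h2
  rwa [h2]

/-- logarithms are small powers -/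
private theorem cusp_logpow {r : ℝ} (h0 : 0 < r) (h1 : r ≤ 1) :
    |Real.log r| ≤ 24 * r ^ (-(1 / 24) : ℝ) := by
  have h := Real.abs_log_mul_self_rpow_lt r (1 / 24) h0 h1 (by norm_num)
  have h2 := Real.rpow_pos_of_pos h0 (1 / 24 : ℝ)
  rw [abs_mul, abs_of_pos h2] at h
  rw [Real.rpow_neg h0.le, ← div_eq_mul_inv, le_div_iff₀ h2]
  have h3 : (1 : ℝ) / (1 / 24) = 24 := by norm_num
  linarith

theorem cusp_log (hL : XL L) (s : ℂ) (k : Fin 4) : ∃ C : ℝ, ∀ᶠ z in 𝓝[≠] s,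
    |lu L z k| ≤ C * ‖z - s‖ ^ (-(1 / 24) : ℝ) ∧ ‖du L z k‖ ≤ C * ‖z - s‖⁻¹ := by
  obtain ⟨ρ, hρ, -, C, hC, h⟩ := local_form (U_mero (L := L) k s) (U_nz hL k s)
  refine ⟨24 * C, ?_⟩
  have h1 : ∀ᶠ z in 𝓝[≠] s, z ≠ s := eventually_mem_nhdsWithin
  have h2 : ∀ᶠ z in 𝓝[≠] s, z ∈ Metric.ball s ρ :=
    nhdsWithin_le_nhds (Metric.ball_mem_nhds s hρ)
  filter_upwards [h1, h2, cusp_near s] with z a b c
  obtain ⟨d, e⟩ := h z b a
  constructor
  · refine d.trans ?_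
    calc C * |Real.log ‖z - s‖| ≤ C * (24 * ‖z - s‖ ^ (-(1 / 24) : ℝ)) :=
          mul_le_mul_of_nonneg_left (cusp_logpow c.1 c.2) hC
      _ = _ := by ring
  · refine e.trans (mul_le_mul_of_nonneg_right ?_ (inv_nonneg.2 c.1.le))
    linarith

private theorem cusp_lu (hL : XL L) (s : ℂ) (e : Fin 4 → ℤ) :
    Oq s (fun z => lin (lu L z) e) (-(1 / 24)) := by
  unfold lin
  refine Oq.sum _ fun k => Oq.const_mul ?_ _
  obtain ⟨C, h⟩ := cusp_log hL s k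
  refine ⟨|C|, abs_nonneg _, ?_⟩
  filter_upwards [h, cusp_near s] with z h1 h2
  exact h1.1.trans (mul_le_mul_of_nonneg_right (le_abs_self C)
    (Real.rpow_nonneg (norm_nonneg _) _))

private theorem cusp_du (hL : XL L) (s : ℂ) (e : Fin 4 → ℤ) : ∃ C : ℝ, 0 ≤ C ∧
    ∀ᶠ z in 𝓝[≠] s, ‖cl (du L z) e‖ ≤ C * ‖z - s‖⁻¹ := by
  choose C h using fun k => cusp_log hL s k
  refine ⟨∑ k, |(e k : ℝ)| * |C k|, Finset.sum_nonneg fun k _ => by positivity, ?_⟩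
  filter_upwards [eventually_all.2 h] with z h1
  unfold cl
  rw [Finset.sum_mul]
  refine (norm_sum_le _ _).trans (Finset.sum_le_sum fun k _ => ?_)
  rw [norm_mul, Complex.norm_intCast, mul_assoc]
  refine mul_le_mul_of_nonneg_left ?_ (abs_nonneg _)
  exact (h1 k).2.trans (mul_le_mul_of_nonneg_right (le_abs_self _)
    (inv_nonneg.2 (norm_nonneg _)))

private theorem cusp_lindx (z : ℂ) (e : Fin 4 → ℤ) :
    lin (dx L z) e = (cl (du L z) e).re := (cl_re _ _).symm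

private theorem cusp_lindy (z : ℂ) (e : Fin 4 → ℤ) :
    lin (dy L z) e = -(cl (du L z) e).im := by
  rw [cl_im]
  unfold lin dy
  rw [← Finset.sum_neg_distrib]
  exact Finset.sum_congr rfl fun k _ => by ring

private theorem cusp_dy (hL : XL L) (s : ℂ) (e : Fin 4 → ℤ) :
    Oq s (fun z => lin (dy L z) e) (-1) := by
  obtain ⟨C, hC, h⟩ := cusp_du hL s e
  refine ⟨C, hC, ?_⟩
  filter_upwards [h] with z h1
  rw [cusp_lindy, abs_neg, Real.rpow_neg_one]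
  exact (Complex.abs_im_le_norm _).trans h1

/-! ### small meromorphic functions -/

private theorem cusp_small {F : ℂ → ℂ} {s : ℂ} (hF : MeromorphicAt F s)
    (h : Tendsto F (𝓝[≠] s) (𝓝 0)) :
    ∃ C : ℝ, 0 ≤ C ∧ ∀ᶠ z in 𝓝[≠] s, ‖F z‖ ≤ C * ‖z - s‖ := by
  by_cases ht : meromorphicOrderAt F s = ⊤
  · refine ⟨0, le_rfl, ?_⟩
    filter_upwards [meromorphicOrderAt_eq_top_iff.1 ht] with z hz
    rw [hz, norm_zero, zero_mul]
  · obtain ⟨g, hg, hg0, hfg⟩ := (meromorphicOrderAt_ne_top_iff hF).1 ht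
    have hpos := (tendsto_zero_iff_meromorphicOrderAt_pos hF).1 h
    have hn : 0 < (meromorphicOrderAt F s).untop₀ := by
      lift meromorphicOrderAt F s to ℤ using ht with n hn
      simpa using hpos
    obtain ⟨m, hm⟩ : ∃ m : ℕ, (meromorphicOrderAt F s).untop₀ = ((m + 1 : ℕ) : ℤ) :=
      ⟨((meromorphicOrderAt F s).untop₀ - 1).toNat, by omega⟩
    have hb : ∀ᶠ z in 𝓝[≠] s, ‖g z‖ < ‖g s‖ + 1 :=
      nhdsWithin_le_nhds (hg.continuousAt.norm.eventually (gt_mem_nhds (lt_add_one _)))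
    refine ⟨‖g s‖ + 1, by positivity, ?_⟩
    filter_upwards [hfg, hb, cusp_near s] with z h1 h2 h3
    rw [h1, norm_smul, norm_zpow, hm, zpow_natCast, pow_succ, mul_comm (‖g s‖ + 1)]
    have h4 : ‖z - s‖ ^ m ≤ 1 := pow_le_one₀ (norm_nonneg _) h3.2
    have h5 : ‖z - s‖ ^ m * ‖z - s‖ ≤ ‖z - s‖ := mul_le_of_le_one_left (norm_nonneg _) h4
    exact mul_le_mul h5 h2.le (norm_nonneg _) (norm_nonneg _)

private theorem ff_mero (i : Fin 30) (s : ℂ) : MeromorphicAt (ff L i) s := by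
  have h : ff L i = fun z => (sT i : ℂ) * ∏ k, U L k z ^ eT i k := rfl
  rw [h]
  refine (MeromorphicAt.const _ _).mul ?_
  simp only [Fin.prod_univ_four]
  exact (((U_mero 0 s).zpow _).mul ((U_mero 1 s).zpow _)).mul ((U_mero 2 s).zpow _) |>.mul
    ((U_mero 3 s).zpow _)

/-! ### the values at the cusps -/

private def T3 (F : ℂ → ℂ) (s : ℂ) : Prop :=
  Tendsto F (𝓝[≠] s) (𝓝 0) ∨ Tendsto F (𝓝[≠] s) (𝓝 1) ∨
    Tendsto (fun z => ‖F z‖) (𝓝[≠] s) atTop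

private theorem T3.inv {F : ℂ → ℂ} {s : ℂ} (h : T3 F s) (h0 : ∀ᶠ z in 𝓝[≠] s, F z ≠ 0) :
    T3 (fun z => (F z)⁻¹) s := by
  rcases h with h | h | h
  · refine Or.inr (Or.inr ?_)
    have h1 : Tendsto (fun z => ‖F z‖) (𝓝[≠] s) (𝓝[>] 0) := by
      rw [tendsto_nhdsWithin_iff]
      refine ⟨by simpa using h.norm, ?_⟩
      filter_upwards [h0] with z hz
      exact norm_pos_iff.2 hz
    have h2 := tendsto_inv_nhdsGT_zero.comp h1
    refine h2.congr fun z => ?_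
    simp [Function.comp, norm_inv]
  · refine Or.inr (Or.inl ?_)
    have := h.inv₀ one_ne_zero
    rwa [inv_one] at this
  · refine Or.inl ?_
    rw [tendsto_zero_iff_norm_tendsto_zero]
    refine (tendsto_inv_atTop_zero.comp h).congr fun z => ?_
    simp [Function.comp, norm_inv]

private theorem T3.congr {F G : ℂ → ℂ} {s : ℂ} (h : T3 F s) (h' : ∀ᶠ z in 𝓝[≠] s, F z = G z) :
    T3 G s := by
  rcases h with h | h | h
  · exact Or.inl (h.congr' h')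
  · exact Or.inr (Or.inl (h.congr' h'))
  · exact Or.inr (Or.inr (h.congr' (h'.mono fun z hz => by rw [hz])))

private theorem T3.shift {F : ℂ → ℂ} {s : ℂ} (h : T3 (fun w => F (w + s)) 0) : T3 F s := by
  have h1 : Tendsto (fun z : ℂ => z - s) (𝓝[≠] s) (𝓝[≠] 0) := by
    rw [tendsto_nhdsWithin_iff]
    refine ⟨?_, ?_⟩
    · have : Tendsto (fun z : ℂ => z - s) (𝓝 s) (𝓝 (s - s)) :=
        (continuous_id.sub continuous_const).tendsto s
      rw [sub_self] at this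
      exact this.mono_left nhdsWithin_le_nhds
    · filter_upwards [eventually_mem_nhdsWithin] with z hz
      exact sub_ne_zero.2 hz
  rcases h with h | h | h
  · exact Or.inl ((h.comp h1).congr fun z => by simp)
  · exact Or.inr (Or.inl ((h.comp h1).congr fun z => by simp))
  · exact Or.inr (Or.inr ((h.comp h1).congr fun z => by simp))

private theorem mon_zero {z : ℂ} (hz : z ≠ 0) (e : Fin 4 → ℤ) :
    mon (fun k => U L k z) e = z ^ ord0 e * ((z ^ 2 * U L 0 z) ^ e 0 * (z ^ 2 * U L 1 z) ^ e 1 *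
      (z ^ 3 * U L 2 z) ^ e 2 * (z ^ 3 * U L 3 z) ^ e 3) := by
  unfold mon ord0
  rw [Fin.prod_univ_four, mul_zpow, mul_zpow, mul_zpow, mul_zpow, ← zpow_natCast z 2,
    ← zpow_natCast z 3, ← zpow_mul, ← zpow_mul, ← zpow_mul, ← zpow_mul]
  have h : z ^ (-(2 * e 0 + 2 * e 1 + 3 * e 2 + 3 * e 3)) * (z ^ (((2 : ℕ) : ℤ) * e 0) *
      z ^ (((2 : ℕ) : ℤ) * e 1) * z ^ (((3 : ℕ) : ℤ) * e 2) * z ^ (((3 : ℕ) : ℤ) * e 3)) = 1 := by
    rw [← zpow_add₀ hz, ← zpow_add₀ hz, ← zpow_add₀ hz, ← zpow_add₀ hz]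
    have : -(2 * e 0 + 2 * e 1 + 3 * e 2 + 3 * e 3) + (((2 : ℕ) : ℤ) * e 0 +
        ((2 : ℕ) : ℤ) * e 1 + ((3 : ℕ) : ℤ) * e 2 + ((3 : ℕ) : ℤ) * e 3) = 0 := by
      push_cast
      ring
    rw [this, zpow_zero]
  calc U L 0 z ^ e 0 * U L 1 z ^ e 1 * U L 2 z ^ e 2 * U L 3 z ^ e 3
      = 1 * (U L 0 z ^ e 0 * U L 1 z ^ e 1 * U L 2 z ^ e 2 * U L 3 z ^ e 3) := (one_mul _).symm
    _ = _ := by
      rw [← h]
      ring

private theorem neg_one_zpow_natAbs (n : ℤ) : (-1 : ℂ) ^ n = (-1) ^ n.natAbs := by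
  rcases Int.natAbs_eq n with h | h
  · conv_lhs => rw [h]
    rw [zpow_natCast]
  · conv_lhs => rw [h]
    rw [zpow_neg, zpow_natCast, ← inv_pow]
    norm_num

private theorem cusp_zero (i : Fin 30) : T3 (ff L i) 0 := by
  obtain ⟨l0, l1, l2, l3⟩ := lead_zero (L := L)
  have hc : Tendsto (fun z => (z ^ 2 * U L 0 z) ^ eT i 0 * (z ^ 2 * U L 1 z) ^ eT i 1 *
      (z ^ 3 * U L 2 z) ^ eT i 2 * (z ^ 3 * U L 3 z) ^ eT i 3) (𝓝[≠] 0)
      (𝓝 ((1 : ℂ) ^ eT i 0 * 1 ^ eT i 1 * (-1) ^ eT i 2 * (-1) ^ eT i 3)) :=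
    (((l0.zpow₀ _ (Or.inl one_ne_zero)).mul (l1.zpow₀ _ (Or.inl one_ne_zero))).mul
      (l2.zpow₀ _ (Or.inl (by norm_num)))).mul (l3.zpow₀ _ (Or.inl (by norm_num)))
  rw [one_zpow, one_zpow, one_mul, one_mul, ← zpow_add₀ (by norm_num : (-1 : ℂ) ≠ 0),
    neg_one_zpow_natAbs] at hc
  have hne : ∀ᶠ z : ℂ in 𝓝[≠] 0, z ≠ 0 := eventually_mem_nhdsWithin
  have hs : (sT i : ℂ) ≠ 0 := by
    rcases sT_sq i with h | h <;> rw [h] <;> norm_num
  have hcc : (sT i : ℂ) * (-1) ^ (eT i 2 + eT i 3).natAbs ≠ 0 :=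
    mul_ne_zero hs (pow_ne_zero _ (by norm_num))
  have hc2 := hc.const_mul (sT i : ℂ)
  have hff : ∀ᶠ z : ℂ in 𝓝[≠] 0, z ^ ord0 (eT i) * ((sT i : ℂ) *
      ((z ^ 2 * U L 0 z) ^ eT i 0 * (z ^ 2 * U L 1 z) ^ eT i 1 *
      (z ^ 3 * U L 2 z) ^ eT i 2 * (z ^ 3 * U L 3 z) ^ eT i 3)) = ff L i z := by
    filter_upwards [hne] with z hz
    unfold ff
    rw [mon_zero hz]
    ring
  rcases lt_trichotomy (ord0 (eT i)) 0 with h | h | h
  · refine Or.inr (Or.inr ?_)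
    obtain ⟨m, hm⟩ : ∃ m : ℕ, ord0 (eT i) = -((m + 1 : ℕ) : ℤ) :=
      ⟨(-ord0 (eT i) - 1).toNat, by omega⟩
    have h1 : Tendsto (fun z : ℂ => ‖z‖) (𝓝[≠] 0) (𝓝[>] 0) := tendsto_norm_nhdsNE_zero
    have h2 : Tendsto (fun z : ℂ => (‖z‖⁻¹) ^ (m + 1)) (𝓝[≠] 0) atTop :=
      (tendsto_pow_atTop (Nat.succ_ne_zero m)).comp (tendsto_inv_nhdsGT_zero.comp h1)
    have h3 := h2.atTop_mul_pos (norm_pos_iff.2 hcc) hc2.norm
    refine h3.congr' ?_
    filter_upwards [hff] with z hz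
    rw [← hz, norm_mul (z ^ ord0 (eT i)), norm_zpow, hm, zpow_neg, zpow_natCast, inv_pow]
  · refine Or.inr (Or.inl ?_)
    have h1 := sign0 i h
    have h2 : (sT i : ℂ) * (-1) ^ (eT i 2 + eT i 3).natAbs = 1 := by exact_mod_cast h1
    rw [h2] at hc2
    refine hc2.congr' ?_
    filter_upwards [hff] with z hz
    rw [← hz, h, zpow_zero, one_mul]
  · refine Or.inl ?_
    obtain ⟨m, hm⟩ : ∃ m : ℕ, ord0 (eT i) = ((m + 1 : ℕ) : ℤ) :=
      ⟨(ord0 (eT i) - 1).toNat, by omega⟩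
    have h1 : Tendsto (fun z : ℂ => z ^ (m + 1)) (𝓝[≠] 0) (𝓝 0) := by
      have : Tendsto (fun z : ℂ => z ^ (m + 1)) (𝓝 0) (𝓝 (0 ^ (m + 1))) :=
        (continuous_pow (m + 1)).tendsto 0
      rw [zero_pow (Nat.succ_ne_zero m)] at this
      exact this.mono_left nhdsWithin_le_nhds
    have h2 := h1.mul hc2
    rw [zero_mul] at h2
    refine h2.congr' ?_
    filter_upwards [hff] with z hz
    rw [← hz, hm, zpow_natCast]

private theorem pm_zpow {a : ℤ} (ha : a = 1 ∨ a = -1) (n : ℤ) :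
    ((a : ℂ)) ^ n = ((a ^ n.natAbs : ℤ) : ℂ) := by
  rcases ha with h | h
  · subst h
    simp
  · subst h
    push_cast
    exact neg_one_zpow_natAbs n

private theorem tauS_sq (k : Fin 4) : tauS k = 1 ∨ tauS k = -1 := by
  fin_cases k <;> simp [tauS]

private theorem ff_shift (hL : XL L) {s : ℝ}
    (h2 : ∀ z, z ∉ Cs L → ∀ k, U L k (z + s) = (tauS k : ℂ) * mon (fun j => U L j z) (tauM k))
    (i : Fin 30) {z : ℂ} (hz : z ∉ Cs L) :
    ff L i (z + s) = ff L (tauP i) z ^ tauPS i := by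
  have hU : ∀ j, U L j z ≠ 0 := U_ne hL hz
  have e1 : ff L i (z + s) = (sT i : ℂ) * (∏ k, (tauS k : ℂ) ^ eT i k) *
      ∏ k, mon (fun j => U L j z) (tauM k) ^ eT i k := by
    unfold ff
    have : mon (fun k => U L k (z + s)) (eT i) =
        ∏ k, ((tauS k : ℂ) * mon (fun j => U L j z) (tauM k)) ^ eT i k :=
      Finset.prod_congr rfl fun k _ => congrArg (fun t => t ^ eT i k) (h2 z hz k)
    rw [this, mul_assoc, ← Finset.prod_mul_distrib]
    congr 1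
    exact Finset.prod_congr rfl fun k _ => mul_zpow _ _ _
  have e2 : ∏ k, mon (fun j => U L j z) (tauM k) ^ eT i k =
      mon (fun j => U L j z) (eT (tauP i)) ^ tauPS i := by
    unfold mon
    rw [← Finset.prod_zpow]
    have h3 : ∀ k, (∏ j, U L j z ^ tauM k j) ^ eT i k = ∏ j, U L j z ^ (eT i k * tauM k j) := by
      intro k
      rw [← Finset.prod_zpow]
      exact Finset.prod_congr rfl fun j _ => by rw [← zpow_mul, mul_comm]
    rw [Finset.prod_congr rfl fun k _ => h3 k, Finset.prod_comm]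
    refine Finset.prod_congr rfl fun j _ => ?_
    have h4 : ∀ t : Finset (Fin 4), ∏ k ∈ t, U L j z ^ (eT i k * tauM k j) =
        U L j z ^ (∑ k ∈ t, eT i k * tauM k j) := by
      classical
      intro t
      induction t using Finset.induction_on with
      | empty => simp
      | insert a t ha ih => rw [Finset.prod_insert ha, Finset.sum_insert ha, zpow_add₀ (hU j), ih]
    rw [h4, tau_e, mul_comm, zpow_mul]
  have e3 : (sT i : ℂ) * (∏ k, (tauS k : ℂ) ^ eT i k) = (sT (tauP i) : ℂ) := by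
    rw [← tau_s i]
    push_cast
    congr 1
    refine Finset.prod_congr rfl fun k _ => ?_
    rw [pm_zpow (tauS_sq k)]
    push_cast
    rfl
  have e4 : (sT (tauP i) : ℂ) ^ tauPS i = (sT (tauP i) : ℂ) := by
    rcases tauPS_sq i with h | h
    · rw [h, zpow_one]
    · rw [h, zpow_neg_one]
      rcases sT_sq (tauP i) with h' | h' <;> rw [h'] <;> norm_num
  rw [e1, e2, e3]
  unfold ff
  rw [mul_zpow, e4]

private theorem ff_shift_n (hL : XL L) {s : ℝ} (h1 : ∀ z, z ∉ Cs L → z + s ∉ Cs L)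
    (h2 : ∀ z, z ∉ Cs L → ∀ k, U L k (z + s) = (tauS k : ℂ) * mon (fun j => U L j z) (tauM k))
    (n : ℕ) (i : Fin 30) : ∃ j : Fin 30, ∃ ε : ℤ, (ε = 1 ∨ ε = -1) ∧
      ∀ z, z ∉ Cs L → z + n * s ∉ Cs L ∧ ff L i (z + n * s) = ff L j z ^ ε := by
  induction n generalizing i with
  | zero =>
    refine ⟨i, 1, Or.inl rfl, fun z hz => ?_⟩
    simpa using hz
  | succ n ih =>
    obtain ⟨j, ε, hε, h⟩ := ih (tauP i)
    refine ⟨j, ε * tauPS i, ?_, fun z hz => ?_⟩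
    · rcases hε with h' | h' <;> rcases tauPS_sq i with h'' | h'' <;> rw [h', h''] <;> simp
    · obtain ⟨a, b⟩ := h z hz
      have e : z + ((n + 1 : ℕ) : ℂ) * s = (z + n * s) + s := by
        push_cast
        ring
      rw [e]
      refine ⟨h1 _ a, ?_⟩
      rw [ff_shift hL h2 i a, b, ← zpow_mul]

/-- at a cusp every `f i` tends to `0`, `1` or `∞` -/
theorem cusp_val (hL : XL L) {s : ℂ} (hs : s ∈ Cs L) (i : Fin 30) :
    Tendsto (ff L i) (𝓝[≠] s) (𝓝 0) ∨ Tendsto (ff L i) (𝓝[≠] s) (𝓝 1) ∨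
      Tendsto (fun z => ‖ff L i z‖) (𝓝[≠] s) atTop := by
  obtain ⟨t, h1, h2, h3, h4⟩ := exists_shift hL
  obtain ⟨n, hn⟩ := (h3 s).1 hs
  obtain ⟨m, q, hmq⟩ : ∃ m : ℕ, ∃ q : ℤ, n = (m : ℤ) + q * 5 :=
    ⟨(n % 5).toNat, n / 5, by
      have := Int.emod_add_mul_ediv n 5
      have h5 := Int.emod_nonneg n (by norm_num : (5 : ℤ) ≠ 0)
      rw [Int.toNat_of_nonneg h5]
      linarith⟩
  have hl : s - m * t ∈ L.lattice := by
    have e : s - m * t = (s - n * t) + q • (5 * t : ℂ) := by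
      rw [hmq]
      simp only [zsmul_eq_mul]
      push_cast
      ring
    rw [e]
    exact add_mem hn (zsmul_mem h4 q)
  obtain ⟨j, ε, hε, h⟩ := ff_shift_n hL h1 h2 m i
  have hper : ∀ w : ℂ, ff L i (w + s) = ff L i (w + m * t) := by
    intro w
    unfold ff
    congr 1
    refine Finset.prod_congr rfl fun k _ => ?_
    have : w + s = (w + m * t) + ((⟨s - m * t, hl⟩ : L.lattice) : ℂ) := by
      push_cast
      ring
    show U L k (w + s) ^ _ = U L k (w + m * t) ^ _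
    rw [this, U_per k]
  refine T3.shift (F := ff L i) (T3.congr (F := fun w => ff L j w ^ ε) ?_ ?_)
  · rcases hε with h' | h'
    · subst h'
      refine (cusp_zero (L := L) j).congr (Eventually.of_forall fun z => ?_)
      rw [zpow_one]
    · subst h'
      have h0 : ∀ᶠ z in 𝓝[≠] (0 : ℂ), ff L j z ≠ 0 :=
        (Cs_isolated hL 0).mono fun z hz => ff_ne hL hz j
      refine ((cusp_zero (L := L) j).inv h0).congr (Eventually.of_forall fun z => ?_)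
      rw [zpow_neg_one]
  · filter_upwards [Cs_isolated hL 0] with w hw
    show _ = ff L i (w + s)
    rw [hper, (h w hw).2]

private theorem ff_small (hL : XL L) {s : ℂ} (hs : s ∈ Cs L) (i : Fin 30) :
    ∃ C : ℝ, 0 ≤ C ∧ ((∀ᶠ z in 𝓝[≠] s, ‖ff L i z‖ ≤ C * ‖z - s‖ ∧ ‖ff L i z‖ ≤ 1 / 2) ∨
      (∀ᶠ z in 𝓝[≠] s, ‖1 - ff L i z‖ ≤ C * ‖z - s‖ ∧ ‖1 - ff L i z‖ ≤ 1 / 2) ∨
      (∀ᶠ z in 𝓝[≠] s, ‖(ff L i z)⁻¹‖ ≤ C * ‖z - s‖ ∧ ‖(ff L i z)⁻¹‖ ≤ 1 / 2)) := by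
  have hhalf : ∀ {F : ℂ → ℂ}, Tendsto F (𝓝[≠] s) (𝓝 0) → ∀ᶠ z in 𝓝[≠] s, ‖F z‖ ≤ 1 / 2 := by
    intro F hF
    have := hF.norm
    rw [norm_zero] at this
    exact (this.eventually (gt_mem_nhds (by norm_num : (0 : ℝ) < 1 / 2))).mono fun z hz => hz.le
  rcases cusp_val hL hs i with h | h | h
  · obtain ⟨C, hC, h1⟩ := cusp_small (ff_mero i s) h
    exact ⟨C, hC, Or.inl (h1.and (hhalf h))⟩
  · have h' : Tendsto (fun z => 1 - ff L i z) (𝓝[≠] s) (𝓝 0) := by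
      have := h.const_sub 1
      rwa [sub_self] at this
    obtain ⟨C, hC, h1⟩ := cusp_small ((MeromorphicAt.const 1 s).sub (ff_mero i s)) h'
    exact ⟨C, hC, Or.inr (Or.inl (h1.and (hhalf h')))⟩
  · have h' : Tendsto (fun z => (ff L i z)⁻¹) (𝓝[≠] s) (𝓝 0) := by
      rw [tendsto_zero_iff_norm_tendsto_zero]
      refine (tendsto_inv_atTop_zero.comp h).congr fun z => ?_
      simp [Function.comp, norm_inv]
    obtain ⟨C, hC, h1⟩ := cusp_small (ff_mero i s).inv h'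
    exact ⟨C, hC, Or.inr (Or.inr (h1.and (hhalf h')))⟩

private theorem sq_le_half {x M r : ℝ} (hM : 0 ≤ M) (h : x ^ 2 ≤ M * r) :
    |x| ≤ Real.sqrt M * r ^ (1 / 2 : ℝ) := by
  have h1 := Real.abs_le_sqrt h
  rwa [Real.sqrt_mul hM, Real.sqrt_eq_rpow r] at h1

private theorem PC_nonneg : 0 ≤ P.C := (abs_nonneg _).trans (P.b2 0)

/-- near a cusp: `|L2 (f i)|, |L4 (f i)| ≤ C |z - s|^{1/2}` -/
theorem cusp_L (hL : XL L) {s : ℂ} (hs : s ∈ Cs L) (i : Fin 30) : ∃ C : ℝ, ∀ᶠ z in 𝓝[≠] s,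
    |P.L2 (ff L i z)| ≤ C * ‖z - s‖ ^ (1 / 2 : ℝ) ∧
      |P.L4 (ff L i z)| ≤ C * ‖z - s‖ ^ (1 / 2 : ℝ) := by
  obtain ⟨C, hC, h⟩ := ff_small hL hs i
  have hPC := PC_nonneg P
  have hM : 0 ≤ P.C * C := mul_nonneg hPC hC
  refine ⟨Real.sqrt (P.C * C), ?_⟩
  rcases h with h | h | h
  · filter_upwards [h] with z hz
    have h1 : P.C * ‖ff L i z‖ ≤ P.C * C * ‖z - s‖ := by
      rw [mul_assoc]
      exact mul_le_mul_of_nonneg_left hz.1 hPC
    exact ⟨sq_le_half hM ((P.z2 _).trans h1), sq_le_half hM ((P.z4 _).trans h1)⟩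
  · filter_upwards [h] with z hz
    have h1 : P.C * ‖1 - ff L i z‖ ≤ P.C * C * ‖z - s‖ := by
      rw [mul_assoc]
      exact mul_le_mul_of_nonneg_left hz.1 hPC
    exact ⟨sq_le_half hM ((P.o2 _).trans h1), sq_le_half hM ((P.o4 _).trans h1)⟩
  · filter_upwards [h, Cs_isolated hL s] with z hz hzc
    have h0 : 0 < ‖ff L i z‖ := norm_pos_iff.2 (ff_ne hL hzc i)
    have h1 : P.C * ‖ff L i z‖⁻¹ ≤ P.C * C * ‖z - s‖ := by
      rw [mul_assoc]
      rw [norm_inv] at hz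
      exact mul_le_mul_of_nonneg_left hz.1 hPC
    have h2 : ∀ x : ℝ, x ^ 2 * ‖ff L i z‖ ≤ P.C → x ^ 2 ≤ P.C * C * ‖z - s‖ := by
      intro x hx
      refine le_trans ?_ h1
      rw [← div_eq_mul_inv, le_div_iff₀ h0]
      exact hx
    exact ⟨sq_le_half hM (h2 _ (P.i2 _)), sq_le_half hM (h2 _ (P.i4 _))⟩

private theorem cusp_log1 {w : ℂ} (h : ‖w‖ ≤ 1 / 2) : |Real.log ‖1 - w‖| ≤ 2 * ‖w‖ := by
  have h1 : 1 - ‖w‖ ≤ ‖1 - w‖ := by
    have := norm_sub_norm_le (1 : ℂ) w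
    rwa [norm_one] at this
  have h2 : ‖1 - w‖ ≤ 1 + ‖w‖ := by
    have := norm_sub_le (1 : ℂ) w
    rwa [norm_one] at this
  have h0 : 0 < ‖1 - w‖ := by linarith
  have h3 := Real.log_le_sub_one_of_pos h0
  have h4 := Real.log_le_sub_one_of_pos (inv_pos.2 h0)
  rw [Real.log_inv] at h4
  have h5 : ‖1 - w‖⁻¹ ≤ 1 + 2 * ‖w‖ := by
    rw [inv_le_iff_one_le_mul₀ h0]
    nlinarith [norm_nonneg w]
  rw [abs_le]
  constructor
  · linarith
  · linarith [norm_nonneg w]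

private theorem cusp_eta0 {f A B : ℂ} {r C₁ C₂ C₃ : ℝ} (hr : 0 < r) (hr1 : r ≤ 1)
    (hf1 : ‖f‖ ≤ 1 / 2) (hfr : ‖f‖ ≤ C₃ * r) (hC₁ : 0 ≤ C₁) (hC₂ : 0 ≤ C₂) (hC₃ : 0 ≤ C₃)
    (hAB : f * A = (f - 1) * B) (hA : ‖A‖ ≤ C₁ * r⁻¹)
    (ha : |Real.log ‖f‖| ≤ C₂ * r ^ (-(1 / 24) : ℝ)) :
    |Real.log ‖f‖ * B.re - Real.log ‖1 - f‖ * A.re| ≤
      2 * C₁ * C₃ * (C₂ + 1) * r ^ (-(1 / 4) : ℝ) := by
  have hfm : 1 / 2 ≤ ‖f - 1‖ := by
    have := norm_sub_norm_le (1 : ℂ) f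
    rw [norm_one, norm_sub_rev] at this
    linarith
  have hfA : ‖f‖ * ‖A‖ ≤ C₁ * C₃ := by
    calc ‖f‖ * ‖A‖ ≤ (C₃ * r) * (C₁ * r⁻¹) :=
          mul_le_mul hfr hA (norm_nonneg _) (mul_nonneg hC₃ hr.le)
      _ = C₁ * C₃ * (r * r⁻¹) := by ring
      _ = _ := by rw [mul_inv_cancel₀ hr.ne', mul_one]
  have hB : ‖B‖ ≤ 2 * C₁ * C₃ := by
    have h1 : ‖f‖ * ‖A‖ = ‖f - 1‖ * ‖B‖ := by rw [← norm_mul, hAB, norm_mul]
    have h2 : 1 / 2 * ‖B‖ ≤ ‖f - 1‖ * ‖B‖ := mul_le_mul_of_nonneg_right hfm (norm_nonneg _)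
    nlinarith
  have hw : |Real.log ‖1 - f‖| * ‖A‖ ≤ 2 * C₁ * C₃ := by
    have h1 := mul_le_mul_of_nonneg_right (cusp_log1 hf1) (norm_nonneg A)
    nlinarith
  have hp : (1 : ℝ) ≤ r ^ (-(1 / 4) : ℝ) := by
    have := Real.rpow_le_rpow_of_exponent_ge hr hr1 (by norm_num : (-(1 / 4) : ℝ) ≤ 0)
    rwa [Real.rpow_zero] at this
  have hq : r ^ (-(1 / 24) : ℝ) ≤ r ^ (-(1 / 4) : ℝ) :=
    Real.rpow_le_rpow_of_exponent_ge hr hr1 (by norm_num)
  have hK : 0 ≤ 2 * C₁ * C₃ := by positivity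
  calc |Real.log ‖f‖ * B.re - Real.log ‖1 - f‖ * A.re|
      ≤ |Real.log ‖f‖ * B.re| + |Real.log ‖1 - f‖ * A.re| := abs_sub _ _
    _ ≤ (C₂ * r ^ (-(1 / 24) : ℝ)) * (2 * C₁ * C₃) + 2 * C₁ * C₃ := by
        rw [abs_mul, abs_mul]
        refine add_le_add (mul_le_mul ha ((Complex.abs_re_le_norm B).trans hB) (abs_nonneg _)
          (mul_nonneg hC₂ (Real.rpow_nonneg hr.le _))) ?_
        exact (mul_le_mul_of_nonneg_left (Complex.abs_re_le_norm A) (abs_nonneg _)).trans hw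
    _ ≤ (C₂ * r ^ (-(1 / 4) : ℝ)) * (2 * C₁ * C₃) + 2 * C₁ * C₃ * r ^ (-(1 / 4) : ℝ) := by
        refine add_le_add (mul_le_mul_of_nonneg_right (mul_le_mul_of_nonneg_left hq hC₂) hK) ?_
        exact le_mul_of_one_le_right hK hp
    _ = _ := by ring

/-- near a cusp the component of `a dw - w da` is at most logarithmic -/
theorem cusp_eta (hL : XL L) {s : ℂ} (hs : s ∈ Cs L) (i : Fin 30) : ∃ C : ℝ, ∀ᶠ z in 𝓝[≠] s,
    |aa L i z * lin (dx L z) (wT i) - ww L i z * lin (dx L z) (eT i)| ≤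
      C * ‖z - s‖ ^ (-(1 / 4) : ℝ) := by
  obtain ⟨C₃, hC₃, h⟩ := ff_small hL hs i
  obtain ⟨Ca, hCa, hA⟩ := cusp_du hL s (eT i)
  obtain ⟨Cb, hCb, hB⟩ := cusp_du hL s (wT i)
  obtain ⟨Da, hDa, ha⟩ := cusp_lu hL s (eT i)
  obtain ⟨Db, hDb, hb⟩ := cusp_lu hL s (wT i)
  rcases h with h | h | h
  · refine ⟨2 * Ca * C₃ * (Da + 1), ?_⟩
    filter_upwards [h, hA, ha, cusp_near s, Cs_isolated hL s] with z z1 z2 z3 z4 hz
    have hlf : Real.log ‖ff L i z‖ = lin (lu L z) (eT i) := log_ff hL hz i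
    have := cusp_eta0 z4.1 z4.2 z1.2 z1.1 hCa hDa hC₃ (ff_deriv' hL hz i) z2 (by rw [hlf]; exact z3)
    rwa [log_ff hL hz, log_one_sub_ff hL hz, ← cusp_lindx, ← cusp_lindx] at this
  · refine ⟨2 * Cb * C₃ * (Db + 1), ?_⟩
    filter_upwards [h, hB, hb, cusp_near s, Cs_isolated hL s] with z z1 z2 z3 z4 hz
    have hlf : Real.log ‖1 - ff L i z‖ = lin (lu L z) (wT i) := log_one_sub_ff hL hz i
    have hd := ff_deriv' hL hz i
    have := cusp_eta0 (f := 1 - ff L i z) (A := cl (du L z) (wT i)) (B := cl (du L z) (eT i))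
      z4.1 z4.2 z1.2 z1.1 hCb hDb hC₃ (by linear_combination hd) z2 (by rw [hlf]; exact z3)
    rw [sub_sub_cancel, log_ff hL hz, log_one_sub_ff hL hz, ← cusp_lindx, ← cusp_lindx] at this
    rwa [abs_sub_comm]
  · refine ⟨2 * Ca * C₃ * (Da + 1), ?_⟩
    filter_upwards [h, hA, ha, cusp_near s, Cs_isolated hL s] with z z1 z2 z3 z4 hz
    have hf0 := ff_ne hL hz i
    have hf1 := ff_ne_one hL hz i
    have hlf : Real.log ‖ff L i z‖ = lin (lu L z) (eT i) := log_ff hL hz i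
    have hd := ff_deriv' hL hz i
    have hl2 : Real.log ‖1 - (ff L i z)⁻¹‖ = ww L i z - aa L i z := by
      have e : 1 - (ff L i z)⁻¹ = -((1 - ff L i z) / ff L i z) := by
        field_simp
        ring
      rw [e, norm_neg, norm_div, Real.log_div (norm_ne_zero_iff.2 (sub_ne_zero.2 hf1.symm))
        (norm_ne_zero_iff.2 hf0), log_ff hL hz, log_one_sub_ff hL hz]
    have hl1 : Real.log ‖(ff L i z)⁻¹‖ = -aa L i z := by
      rw [norm_inv, Real.log_inv, log_ff hL hz]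
    have := cusp_eta0 (f := (ff L i z)⁻¹) (A := -cl (du L z) (eT i))
      (B := cl (du L z) (wT i) - cl (du L z) (eT i)) (C₁ := Ca) (C₂ := Da)
      z4.1 z4.2 z1.2 z1.1 hCa hDa hC₃ (by
        field_simp
        linear_combination -hd) (by rw [norm_neg]; exact z2) (by
        rw [hl1, abs_neg]
        exact z3)
    rw [hl1, hl2, Complex.sub_re, Complex.neg_re, ← cusp_lindx, ← cusp_lindx] at this
    rw [← abs_neg]
    refine le_trans (le_of_eq ?_) this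
    congr 1
    ring

/-- near a cusp -/
theorem cusp_Rx (hL : XL L) {s : ℂ} (hs : s ∈ Cs L) : ∃ C : ℝ, ∀ᶠ z in 𝓝[≠] s,
    |Rx P L z| ≤ C * ‖z - s‖ ^ (-(3 / 4) : ℝ) := by
  have hL2 : ∀ i, Oq s (fun z => P.L2 (ff L i z)) (1 / 2) := by
    intro i
    obtain ⟨C, h⟩ := cusp_L P hL hs i
    refine ⟨|C|, abs_nonneg _, ?_⟩
    filter_upwards [h] with z hz
    exact hz.1.trans (mul_le_mul_of_nonneg_right (le_abs_self C)
      (Real.rpow_nonneg (norm_nonneg _) _))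
  have hL4 : ∀ i, Oq s (fun z => P.L4 (ff L i z)) (1 / 2) := by
    intro i
    obtain ⟨C, h⟩ := cusp_L P hL hs i
    refine ⟨|C|, abs_nonneg _, ?_⟩
    filter_upwards [h] with z hz
    exact hz.2.trans (mul_le_mul_of_nonneg_right (le_abs_self C)
      (Real.rpow_nonneg (norm_nonneg _) _))
  have heta : ∀ i, Oq s (fun z => aa L i z * lin (dx L z) (wT i) -
      ww L i z * lin (dx L z) (eT i)) (-(1 / 4)) := by
    intro i
    obtain ⟨C, h⟩ := cusp_eta hL hs i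
    refine ⟨|C|, abs_nonneg _, ?_⟩
    filter_upwards [h] with z hz
    exact hz.trans (mul_le_mul_of_nonneg_right (le_abs_self C)
      (Real.rpow_nonneg (norm_nonneg _) _))
  have ha : ∀ i, Oq s (fun z => aa L i z) (-(1 / 24)) := fun i => cusp_lu hL s _
  have hb : ∀ i, Oq s (fun z => bb L i z) (-(1 / 24)) := fun i => cusp_lu hL s _
  have key : Oq s (Rx P L) (-(3 / 4)) := by
    unfold Rx
    refine Oq.sum _ fun i => ?_
    have t1 : Oq s (fun z => -(P.L4 (ff L i z) * lin (dy L z) (cT i))) (-(3 / 4)) :=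
      (((hL4 i).mul (cusp_dy hL s (cT i))).mono (by norm_num)).neg
    have t2 : Oq s (fun z => 1 / 6 * (bb L i z * aa L i z * P.L2 (ff L i z) *
        lin (dy L z) (eT i))) (-(3 / 4)) :=
      (((((hb i).mul (ha i)).mul (hL2 i)).mul (cusp_dy hL s (eT i))).mono
        (by norm_num)).const_mul _
    have t3 : Oq s (fun z => 1 / 30 * (bb L i z * aa L i z ^ 2 *
        (aa L i z * lin (dx L z) (wT i) - ww L i z * lin (dx L z) (eT i)))) (-(3 / 4)) := by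
      have h2 : Oq s (fun z => aa L i z ^ 2) (-(1 / 24) + -(1 / 24)) :=
        ((ha i).mul (ha i)).congr (Eventually.of_forall fun z => pow_two _)
      exact ((((hb i).mul h2).mul (heta i)).mono (by norm_num)).const_mul _
    exact ((t1.add t2.neg).add t3).congr (Eventually.of_forall fun z => by ring)
  obtain ⟨C, -, h⟩ := key
  exact ⟨C, h⟩

/-- near a cusp, for the elementary integrand -/
theorem cusp_I0 (hL : XL L) {s : ℂ} (hs : s ∈ Cs L) : ∃ C : ℝ, ∀ᶠ z in 𝓝[≠] s,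
    |I0 L z| ≤ C * ‖z - s‖ ^ (-(3 / 4) : ℝ) := by
  have heta : ∀ i, Oq s (fun z => aa L i z * lin (dx L z) (wT i) -
      ww L i z * lin (dx L z) (eT i)) (-(1 / 4)) := by
    intro i
    obtain ⟨C, h⟩ := cusp_eta hL hs i
    refine ⟨|C|, abs_nonneg _, ?_⟩
    filter_upwards [h] with z hz
    exact hz.trans (mul_le_mul_of_nonneg_right (le_abs_self C)
      (Real.rpow_nonneg (norm_nonneg _) _))
  have ha : ∀ i, Oq s (fun z => aa L i z) (-(1 / 24)) := fun i => cusp_lu hL s _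
  have hb : ∀ i, Oq s (fun z => bb L i z) (-(1 / 24)) := fun i => cusp_lu hL s _
  have key : Oq s (I0 L) (-(3 / 4)) := by
    have e : I0 L = fun z => ∑ i, bb L i z * aa L i z ^ 2 *
        (aa L i z * lin (dx L z) (wT i) - ww L i z * lin (dx L z) (eT i)) := rfl
    rw [e]
    refine Oq.sum _ fun i => ?_
    have h2 : Oq s (fun z => aa L i z ^ 2) (-(1 / 24) + -(1 / 24)) :=
      ((ha i).mul (ha i)).congr (Eventually.of_forall fun z => pow_two _)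
    exact (((hb i).mul h2).mul (heta i)).mono (by norm_num)
  obtain ⟨C, -, h⟩ := key
  exact ⟨C, h⟩

end Pool.Agent.F194.X

end
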