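import Pool.Agent.Work.MP_f194bb_nt.X.Rep
import Pool.Agent.Work.MP_f194bb_nt.X.Cusp

/-!
# MP_f194bb_nt, `X_1(11)`: the cocycle condition (ii)
-/

set_option autoImplicit false

open scoped ComplexConjugate PeriodPair
open MeasureTheory Filter Topology

noncomputable section

namespace Pool.Agent.F194.X

universe u

/-- `h` takes the value `c ∈ P¹(ℂ)` at `z` -/
def HasVal (h : ℂ → ℂ) (z : ℂ) : Option ℂ → Prop
  | none => Tendsto (fun w => ‖h w‖) (𝓝[≠] z) atTop
  | some c => Tendsto h (𝓝[≠] z) (𝓝 c)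

/-- Condition (ii) for `n = 5`: `∑ v_z(g i) {f i (z)}₄ = 0` in `B_4(ℚ̄)` at every point `z` where the
`f i` take values in `P¹(ℚ̄)` (for every embedding of `ℚ̄` in `ℂ`). -/
def CocycleII {L : PeriodPair} {K : Type u} [Field K] (ρ : EllRep L K) {ι : Type} [Fintype ι]
    (f g : ι → Kˣ) : Prop :=
  ∀ (σ : AlgebraicClosure ℚ →+* ℂ) (z : ℂ) (t : ι → Option (AlgebraicClosure ℚ)),
    (∀ i, HasVal (ρ.ev (f i : K)) z ((t i).map σ)) →
      ∑ i, dv (ρ.ev (g i : K)) z • cls 2 (t i) = 0

theorem HasVal.congr {h h' : ℂ → ℂ} {z : ℂ} {c : Option ℂ} (hh : h =ᶠ[codiscrete ℂ] h')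
    (H : HasVal h z c) : HasVal h' z c := by
  have h1 : h =ᶠ[𝓝[≠] z] h' := by
    have h2 := mem_codiscrete.1 hh z
    rw [disjoint_principal_right, compl_compl] at h2
    exact h2
  cases c with
  | none => exact Tendsto.congr' (h1.mono fun w hw => by simp only [hw]) H
  | some c => exact Tendsto.congr' h1 H

private theorem coc_atTop_nhds {h : ℂ → ℂ} {z c : ℂ} (h1 : Tendsto (fun w => ‖h w‖) (𝓝[≠] z) atTop)
    (h2 : Tendsto h (𝓝[≠] z) (𝓝 c)) : False :=
  not_tendsto_nhds_of_tendsto_atTop h1 _ h2.norm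

/-- the value is determined -/
theorem HasVal.unique {h : ℂ → ℂ} {z : ℂ} {c c' : Option ℂ} (H : HasVal h z c)
    (H' : HasVal h z c') : c = c' := by
  cases c with
  | none =>
    cases c' with
    | none => rfl
    | some c' => exact (coc_atTop_nhds H H').elim
  | some c =>
    cases c' with
    | none => exact (coc_atTop_nhds H' H).elim
    | some c' => rw [tendsto_nhds_unique H H']

variable {L L' : PeriodPair} {K : Type u} [Field K] (ρ : EllRep L' K) {x v : K}

private theorem dv_gg_zero (hL : XL L) {z : ℂ} (hz : z ∉ Cs L) (i : Fin 30) : dv (gg L i) z = 0 := by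
  have h1 : AnalyticAt ℂ (gg L i) z := by
    unfold gg mon
    have h : AnalyticAt ℂ (∏ k, (U L k) ^ (cT i k)) z :=
      Finset.analyticAt_prod _ fun k _ => (U_an hz k).zpow (U_ne hL hz k)
    convert h using 1
    funext w
    simp
  have h2 : gg L i z ≠ 0 := by
    unfold gg mon
    exact Finset.prod_ne_zero_iff.2 fun k _ => zpow_ne_zero _ (U_ne hL hz k)
  have h3 : meromorphicOrderAt (gg L i) z = 0 := by
    rw [h1.meromorphicOrderAt_eq, (h1.analyticOrderAt_eq_zero).2 h2]
    rfl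
  rw [dv, h3]
  rfl

theorem cocycleII_of (hL : XL L) (hx : ρ.ev x =ᶠ[codiscrete ℂ] px L)
    (hv : ρ.ev v =ᶠ[codiscrete ℂ] pv L) : ∃ N : ℕ, N ≠ 0 ∧ ∀ M : ℕ, N ∣ M →
      CocycleII ρ (fK (rep_curve ρ hL hx hv) (rep_x ρ hL hx) (rep_x1 ρ hL hx))
        (gK (rep_curve ρ hL hx hv) (rep_x ρ hL hx) (rep_x1 ρ hL hx) M) := by
  obtain ⟨N, hN, hN1⟩ := B4_one (F := AlgebraicClosure ℚ)
  refine ⟨N, hN, fun M hM σ z t ht => ?_⟩
  refine Finset.sum_eq_zero fun i _ => ?_
  rw [rep_dv_g ρ hL hx hv M i]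
  have h1 := (ht i).congr (rep_dv_f ρ hL hx hv i)
  by_cases hz : z ∈ Cs L
  · have hinj : Function.Injective (Option.map σ) := Option.map_injective σ.injective
    rcases cusp_val hL hz i with h2 | h2 | h2
    · have h3 : (t i).map σ = (some 0 : Option (AlgebraicClosure ℚ)).map σ := by
        rw [Option.map_some, map_zero]
        exact h1.unique (c' := some 0) h2
      rw [hinj h3, cls_zero, smul_zero]
    · have h3 : (t i).map σ = (some 1 : Option (AlgebraicClosure ℚ)).map σ := by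
        rw [Option.map_some, map_one]
        exact h1.unique (c' := some 1) h2
      obtain ⟨q, rfl⟩ := hM
      rw [hinj h3]
      have h4 : ((N * q : ℕ) : ℤ) * dv (gg L i) z = ((q : ℤ) * dv (gg L i) z) * (N : ℤ) := by
        push_cast
        ring
      simp only [h4]
      rw [mul_smul, natCast_zsmul, hN1, smul_zero]
    · have h3 : (t i).map σ = (none : Option (AlgebraicClosure ℚ)).map σ :=
        h1.unique (c' := none) h2
      rw [hinj h3, cls_none, smul_zero]
  · simp only [dv_gg_zero hL hz i, mul_zero, zero_smul]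

end Pool.Agent.F194.X

end
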