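import Pool.Agent.Work.MP_f194bb_nt.KMul

/-!
# MP_f194bb_nt, the curve `X_1(11)`: data

`v (v + 1) = x (x + 1)^2`; the units `x, x + 1, v - x, v`; the 30 exceptional units
`f i = sT i * x^* (x+1)^* (v-x)^* v^*` with `1 - f i = sT' i * x^* (x+1)^* (v-x)^* v^*`
and the `g i`.
-/

set_option autoImplicit false

open scoped ComplexConjugate
open MeasureTheory

noncomputable section

namespace Pool.Agent.F194.X

/-- exponents of `f i` -/
def eT : Fin 30 → Fin 4 → ℤ := ![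
  ![1, 0, 0, 0], ![0, 1, 0, 0], ![-1, 1, 0, 0], ![1, 1, -1, 0], ![0, 2, 0, -1], ![-1, 1, 1, -1],
  ![0, -1, 1, 0], ![1, 1, 0, -1], ![1, 2, -1, -1], ![0, -1, 0, 1], ![2, 0, -1, 0],
  ![2, 1, -1, -1], ![-1, 0, 1, 0], ![-1, 0, 0, 1], ![0, 0, -1, 1], ![0, 0, 0, 1], ![1, 2, 0, -1],
  ![1, 2, 0, -2], ![0, 1, -1, 1], ![2, 2, -1, -1], ![2, 1, 0, -2], ![0, 2, -1, 0],
  ![3, 2, -2, -1], ![3, 0, -1, -1], ![-2, -2, 2, 1], ![-2, 1, 1, 0], ![0, 3, -1, -1],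
  ![-1, -1, 1, 1], ![-1, 2, 1, -1], ![0, 3, 0, -2]]

/-- exponents of `1 - f i` -/
def wT : Fin 30 → Fin 4 → ℤ := ![
  ![0, 1, 0, 0], ![1, 0, 0, 0], ![-1, 0, 0, 0], ![0, 2, 0, -1], ![1, 1, -1, 0], ![-1, -1, 1, 0],
  ![1, 1, 0, -1], ![0, -1, 1, 0], ![0, 1, -1, 0], ![2, 0, -1, 0], ![0, -1, 0, 1], ![0, 1, 0, -1],
  ![-1, 0, 0, 1], ![-1, 0, 1, 0], ![1, 0, -1, 0], ![1, 2, 0, -1], ![0, 0, 0, 1], ![0, 0, 0, -1],
  ![2, 2, -1, -1], ![0, 1, -1, 1], ![0, -1, 1, -1], ![3, 2, -2, -1], ![0, 2, -1, 0],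
  ![0, -2, 1, 0], ![-2, 1, 1, 0], ![-2, -2, 2, 1], ![2, 2, -2, -1], ![-1, 2, 1, -1],
  ![-1, -1, 1, 1], ![1, 1, -1, -1]]

/-- exponents of `g i` -/
def cT : Fin 30 → Fin 4 → ℤ := ![
  ![18, 12, -16, -4], ![-14, -7, 14, 0], ![-10, -38, -12, 44], ![-10, -22, 22, 16],
  ![-14, 0, 0, 7], ![18, 2, -2, -10], ![4, 2, -6, 8], ![-50, 22, 28, -6], ![7, 0, -7, 7],
  ![0, -38, 28, -6], ![0, -12, -6, 8], ![0, 7, 7, -7], ![-50, -32, 22, 16], ![7, -14, 0, 7],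
  ![-4, 20, -2, -10], ![10, 6, -8, -12], ![18, 26, -8, -12], ![-14, 8, 0, 0], ![-2, 20, -10, 4],
  ![-8, 0, 14, -6], ![-18, -20, 2, 24], ![12, -8, -6, 8], ![-28, -26, 16, 14],
  ![28, -6, -12, -6], ![-18, -18, 16, 14], ![-8, -2, -6, 8], ![-2, -30, 12, 6],
  ![-14, -2, 14, -6], ![18, -18, -10, 4], ![10, 30, -2, -24]]

/-- sign of `f i` -/
def sT : Fin 30 → ℤ := ![
  -1, 1, 1, 1, -1, 1, -1, 1, 1, -1, 1, 1, -1, 1, 1,
  -1, 1, 1, 1, -1, 1, -1, 1, 1, -1, 1, 1, -1, 1, 1]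

/-- sign of `1 - f i` -/
def sT' : Fin 30 → ℤ := ![
  1, -1, -1, -1, 1, 1, 1, -1, -1, 1, -1, -1, 1, -1, -1,
  1, -1, -1, -1, 1, 1, 1, -1, -1, 1, -1, -1, 1, -1, -1]

/-- exponents of the translated units -/
def tauM : Fin 4 → Fin 4 → ℤ := ![![-2, 0, 1, 0], ![-2, -1, 1, 1], ![-3, -1, 1, 1], ![-3, -2, 2, 1]]

/-- signs of the translated units -/
def tauS : Fin 4 → ℤ := ![-1, 1, 1, -1]

/-- exponents of the reflected units -/
def iotaM : Fin 4 → Fin 4 → ℤ := ![![1, 0, 0, 0], ![0, 1, 0, 0], ![2, 1, -1, 0], ![1, 2, 0, -1]]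

/-- signs of the reflected units -/
def iotaS : Fin 4 → ℤ := ![1, 1, -1, -1]

/-- the translate of `f i` is `f (tauP i) ^ (tauPS i)` -/
def tauP : Fin 30 → Fin 30 := ![
  10, 11, 9, 12, 13, 14, 0, 2, 1, 3, 5, 4, 7, 8, 6,
  22, 23, 21, 24, 25, 26, 27, 28, 29, 16, 17, 15, 19, 20, 18]

/-- signs for `tauP` -/
def tauPS : Fin 30 → ℤ := ![
  -1, -1, 1, 1, 1, 1, -1, 1, 1, -1, 1, 1, -1, -1, 1,
  -1, -1, 1, 1, 1, 1, 1, 1, 1, -1, -1, 1, -1, -1, 1]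

/-- the reflection of `f i` is `f (iotaP i) ^ (iotaPS i)` -/
def iotaP : Fin 30 → Fin 30 := ![
  0, 1, 2, 12, 13, 14, 10, 9, 11, 7, 6, 8, 3, 4, 5,
  16, 15, 17, 28, 27, 29, 25, 24, 26, 22, 21, 23, 19, 18, 20]

/-- signs for `iotaP` -/
def iotaPS : Fin 30 → ℤ := ![
  1, 1, 1, 1, 1, 1, 1, 1, -1, 1, 1, -1, 1, 1, 1,
  1, 1, -1, 1, 1, -1, 1, 1, -1, 1, 1, -1, 1, 1, -1]

/-- order at `0` of the unit with exponents `e` (for the four units: `-2, -2, -3, -3`) -/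
def ord0 (e : Fin 4 → ℤ) : ℤ := -(2 * e 0 + 2 * e 1 + 3 * e 2 + 3 * e 3)

/-! ### identities checked by computation -/

/-- the symbol of `∑ {f i} ⊗ g i` is a cocycle -/
theorem T5 : ∀ p q m r t : Fin 4, ∑ i, (wT i p * eT i q - wT i q * eT i p) * eT i m *
    (eT i r * cT i t - eT i t * cT i r) = 0 := by decide +kernel

/-- the constant -/
theorem kappa0 : ∀ r t : Fin 4, ∑ i, (if ord0 (eT i) = 0 then
    (eT i r * cT i t - eT i t * cT i r) else 0) = 0 := by decide +kernel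

/-- the value `1` at `0` -/
theorem sign0 : ∀ i, ord0 (eT i) = 0 → sT i * (-1) ^ (eT i 2 + eT i 3).natAbs = 1 := by
  decide +kernel

theorem tau_e : ∀ i k, ∑ j, eT i j * tauM j k = tauPS i * eT (tauP i) k := by decide +kernel

theorem tau_c : ∀ i k, ∑ j, cT i j * tauM j k = tauPS i * cT (tauP i) k := by decide +kernel

theorem tau_w : ∀ i k, ∑ j, wT i j * tauM j k =
    if tauPS i = 1 then wT (tauP i) k else wT (tauP i) k - eT (tauP i) k := by decide +kernel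

/-- signs: `f i (z + s) = f (tauP i) (z) ^ tauPS i` -/
theorem tau_s : ∀ i, sT i * ∏ k, tauS k ^ (eT i k).natAbs = sT (tauP i) := by decide +kernel

theorem iota_s : ∀ i, sT i * ∏ k, iotaS k ^ (eT i k).natAbs = sT (iotaP i) := by decide +kernel

theorem sT_sq : ∀ i, sT i = 1 ∨ sT i = -1 := by decide +kernel

theorem sT'_sq : ∀ i, sT' i = 1 ∨ sT' i = -1 := by decide +kernel

/-- the orders at the cusps determine the exponents -/
theorem ord_indep (e : Fin 4 → ℤ) (h0 : ord0 e = 0)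
    (h1 : ord0 (fun k => ∑ j, e j * tauM j k) = 0)
    (h2 : ord0 (fun k => ∑ j, (∑ m, e m * tauM m j) * tauM j k) = 0)
    (h3 : ord0 (fun k => ∑ j, (∑ m, (∑ n, e n * tauM n m) * tauM m j) * tauM j k) = 0) :
    e = 0 := by
  simp only [ord0, Fin.sum_univ_four, tauM, Matrix.cons_val_zero, Matrix.cons_val_one,
    Matrix.cons_val] at h0 h1 h2 h3
  funext k
  fin_cases k <;> simp only [Pi.zero_apply] <;> simp <;> omega

theorem tauPS_sq : ∀ i, tauPS i = 1 ∨ tauPS i = -1 := by decide +kernel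

theorem tauP_bij : Function.Bijective tauP := by decide +kernel

theorem iota_e : ∀ i k, ∑ j, eT i j * iotaM j k = iotaPS i * eT (iotaP i) k := by decide +kernel

theorem iota_c : ∀ i k, ∑ j, cT i j * iotaM j k = -(iotaPS i * cT (iotaP i) k) := by
  decide +kernel

theorem iota_w : ∀ i k, ∑ j, wT i j * iotaM j k =
    if iotaPS i = 1 then wT (iotaP i) k else wT (iotaP i) k - eT (iotaP i) k := by
  decide +kernel

theorem iotaPS_sq : ∀ i, iotaPS i = 1 ∨ iotaPS i = -1 := by decide +kernel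

theorem iotaP_bij : Function.Bijective iotaP := by decide +kernel

end Pool.Agent.F194.X

end
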