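import Pool.Agent.Work.MP_f194bb_nt.X.Fun
import Pool.Agent.Work.MP_f194bb_nt.X.Tab

/-!
# MP_f194bb_nt, `X_1(11)`: the elliptic functions
-/

set_option autoImplicit false

open scoped ComplexConjugate PeriodPair
open MeasureTheory Filter Topology

noncomputable section

namespace Pool.Agent.F194.X

variable {L : PeriodPair}

private theorem lat_nhds {z : ℂ} (hz : z ∉ L.lattice) : ∀ᶠ w in 𝓝 z, w ∉ L.lattice :=
  L.isClosed_lattice.isOpen_compl.mem_nhds hz

private theorem P_an {z : ℂ} (hz : z ∉ L.lattice) : AnalyticAt ℂ ℘[L] z :=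
  L.analyticOnNhd_weierstrassP z hz

private theorem P'_an {z : ℂ} (hz : z ∉ L.lattice) : AnalyticAt ℂ ℘'[L] z :=
  L.analyticOnNhd_derivWeierstrassP z hz

theorem ell_px_an {z : ℂ} (hz : z ∉ L.lattice) : AnalyticAt ℂ (px L) z :=
  (P_an hz).sub analyticAt_const

theorem ell_pv_an {z : ℂ} (hz : z ∉ L.lattice) : AnalyticAt ℂ (pv L) z :=
  ((P'_an hz).sub analyticAt_const).div_const

theorem px_deriv {z : ℂ} (hz : z ∉ L.lattice) : HasDerivAt (px L) (2 * pv L z + 1) z := by
  have h1 : HasDerivAt ℘[L] (℘'[L] z) z := by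
    have := (P_an hz).differentiableAt.hasDerivAt
    rwa [L.deriv_weierstrassP] at this
  have h2 : HasDerivAt (px L) (℘'[L] z) z := h1.sub_const _
  have h3 : 2 * pv L z + 1 = ℘'[L] z := by
    rw [pv]; ring
  rw [h3]
  exact h2

theorem curve (hL : XL L) {z : ℂ} (hz : z ∉ L.lattice) :
    pv L z * (pv L z + 1) = px L z * (px L z + 1) ^ 2 := by
  have h := L.derivWeierstrassP_sq z hz
  rw [hL.g2, hL.g3] at h
  rw [pv, px]
  linear_combination h / 4

theorem px_neg (z : ℂ) : px L (-z) = px L z := by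
  rw [px, px, L.weierstrassP_neg]

theorem pv_neg (z : ℂ) : pv L (-z) = -1 - pv L z := by
  rw [pv, pv, L.derivWeierstrassP_neg]
  ring

theorem px_per (l : L.lattice) (z : ℂ) : px L (z + l) = px L z := by
  rw [px, px, L.weierstrassP_add_coe]

theorem pv_per (l : L.lattice) (z : ℂ) : pv L (z + l) = pv L z := by
  rw [pv, pv, L.derivWeierstrassP_add_coe]

theorem ell_px_mero : Meromorphic (px L) := by
  have := L.meromorphic_weierstrassP
  unfold px
  fun_prop

theorem ell_pv_mero : Meromorphic (pv L) := by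
  have := L.meromorphic_derivWeierstrassP
  unfold pv
  fun_prop

/-- leading coefficients at `0` -/
theorem lead_zero : Tendsto (fun z => z ^ 2 * U L 0 z) (𝓝[≠] 0) (𝓝 1) ∧
    Tendsto (fun z => z ^ 2 * U L 1 z) (𝓝[≠] 0) (𝓝 1) ∧
    Tendsto (fun z => z ^ 3 * U L 2 z) (𝓝[≠] 0) (𝓝 (-1)) ∧
    Tendsto (fun z => z ^ 3 * U L 3 z) (𝓝[≠] 0) (𝓝 (-1)) := by
  have hP : Tendsto (fun z => z ^ 2 * ℘[L] z) (𝓝[≠] 0) (𝓝 1) := by
    have h1 : ContinuousAt (fun z : ℂ => z ^ 2 * L.weierstrassPExcept 0 z + 1) 0 := by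
      have := (L.analyticAt_weierstrassPExcept 0).continuousAt
      fun_prop
    have h2 := h1.tendsto.mono_left (nhdsWithin_le_nhds (s := {0}ᶜ))
    simp only [ne_eq, OfNat.ofNat_ne_zero, not_false_eq_true, zero_pow, zero_mul, zero_add] at h2
    refine h2.congr' ?_
    filter_upwards [self_mem_nhdsWithin] with z hz
    have h3 := L.weierstrassPExcept_def ⟨0, L.lattice.zero_mem⟩ z
    simp only [sub_zero] at h3
    rw [h3]
    have hz' : z ≠ 0 := hz
    field_simp
    ring
  have hP' : Tendsto (fun z => z ^ 3 * ℘'[L] z) (𝓝[≠] 0) (𝓝 (-2)) := by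
    have h1 : ContinuousAt (fun z : ℂ => z ^ 3 * L.derivWeierstrassPExcept 0 z - 2) 0 := by
      have := (L.analyticAt_derivWeierstrassPExcept 0).continuousAt
      fun_prop
    have h2 := h1.tendsto.mono_left (nhdsWithin_le_nhds (s := {0}ᶜ))
    simp only [ne_eq, OfNat.ofNat_ne_zero, not_false_eq_true, zero_pow, zero_mul, zero_sub] at h2
    refine h2.congr' ?_
    filter_upwards [self_mem_nhdsWithin] with z hz
    have h3 := L.derivWeierstrassPExcept_def ⟨0, L.lattice.zero_mem⟩ z
    simp only [sub_zero] at h3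
    rw [h3]
    have hz' : z ≠ 0 := hz
    field_simp
    ring
  have hz : ∀ n : ℕ, n ≠ 0 → Tendsto (fun z : ℂ => z ^ n) (𝓝[≠] 0) (𝓝 0) := fun n hn => by
    have h1 : ContinuousAt (fun z : ℂ => z ^ n) 0 := by fun_prop
    have h2 := h1.tendsto.mono_left (nhdsWithin_le_nhds (s := {0}ᶜ))
    simpa [hn] using h2
  have hz1 : Tendsto (fun z : ℂ => z) (𝓝[≠] 0) (𝓝 0) := tendsto_id.mono_left nhdsWithin_le_nhds
  refine ⟨?_, ?_, ?_, ?_⟩
  · have h := hP.sub ((hz 2 two_ne_zero).mul_const (2 / 3))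
    simp only [zero_mul, sub_zero] at h
    refine h.congr fun z => ?_
    simp only [U, uv, px, Matrix.cons_val_zero]
    ring
  · have h := hP.add ((hz 2 two_ne_zero).mul_const (1 / 3))
    simp only [zero_mul, add_zero] at h
    refine h.congr fun z => ?_
    simp only [U, uv, px, Matrix.cons_val_one, Matrix.cons_val_zero]
    ring
  · have h := ((hP'.div_const 2).sub (hz1.mul hP)).add ((hz 3 three_ne_zero).mul_const (1 / 6))
    have e : (-2 / 2 - 0 * 1 + 0 * (1 / 6) : ℂ) = -1 := by norm_num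
    rw [e] at h
    refine h.congr fun z => ?_
    simp only [U, uv, px, pv, Matrix.cons_val]
    ring
  · have h := (hP'.div_const 2).sub ((hz 3 three_ne_zero).mul_const (1 / 2))
    have e : (-2 / 2 - 0 * (1 / 2) : ℂ) = -1 := by norm_num
    rw [e] at h
    refine h.congr fun z => ?_
    simp only [U, uv, px, pv, Matrix.cons_val]
    ring

private theorem nz_of_lim {f : ℂ → ℂ} (hf : Meromorphic f) {n : ℕ} {c : ℂ} (hc : c ≠ 0)
    (h : Tendsto (fun z => z ^ n * f z) (𝓝[≠] 0) (𝓝 c)) : NZ f := by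
  intro z
  have h0 : meromorphicOrderAt f 0 ≠ ⊤ := by
    intro ht
    rw [meromorphicOrderAt_eq_top_iff] at ht
    have h1 := h.eventually_ne hc
    obtain ⟨w, hw1, hw2⟩ := (ht.and h1).exists
    rw [hw1, mul_zero] at hw2
    exact hw2 rfl
  have h1 := hf.exists_meromorphicOrderAt_ne_top_iff_forall.1 ⟨0, h0⟩
  exact h1 z

theorem U_per (k : Fin 4) : Per L (U L k) := by
  intro l z
  unfold U
  rw [px_per, pv_per]

theorem U_mero (k : Fin 4) : Meromorphic (U L k) := by
  have h1 := ell_px_mero (L := L)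
  have h2 := ell_pv_mero (L := L)
  fin_cases k
  · exact h1
  · show Meromorphic (fun z => px L z + 1)
    fun_prop
  · show Meromorphic (fun z => pv L z - px L z)
    fun_prop
  · exact h2

private theorem U_nz' (k : Fin 4) : NZ (U L k) := by
  obtain ⟨h0, h1, h2, h3⟩ := lead_zero (L := L)
  fin_cases k
  · exact nz_of_lim (U_mero 0) one_ne_zero h0
  · exact nz_of_lim (U_mero 1) one_ne_zero h1
  · exact nz_of_lim (U_mero 2) (neg_ne_zero.2 one_ne_zero) h2
  · exact nz_of_lim (U_mero 3) (neg_ne_zero.2 one_ne_zero) h3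

theorem U_nz (hL : XL L) (k : Fin 4) : NZ (U L k) := U_nz' k

theorem U_ell (hL : XL L) (k : Fin 4) : Pool.Agent.F194.Ell L (U L k) :=
  ⟨U_mero k, U_nz hL k, U_per k⟩

private theorem P'_nz : NZ ℘'[L] := by
  refine nz_of_lim (n := 3) (c := -2) L.meromorphic_derivWeierstrassP (by norm_num) ?_
  obtain ⟨-, -, -, h3⟩ := lead_zero (L := L)
  have hz : Tendsto (fun z : ℂ => z ^ 3) (𝓝[≠] 0) (𝓝 0) := by
    have h1 : ContinuousAt (fun z : ℂ => z ^ 3) 0 := by fun_prop
    have h2 := h1.tendsto.mono_left (nhdsWithin_le_nhds (s := {0}ᶜ))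
    simpa using h2
  have h := (h3.const_mul 2).add hz
  have e : (2 * -1 + 0 : ℂ) = -2 := by norm_num
  rw [e] at h
  refine h.congr fun z => ?_
  simp only [U, uv, pv, Matrix.cons_val]
  ring

/-- differentiate the equation of the curve; at the zeros of `2 pv + 1` by continuity -/
theorem pv_deriv (hL : XL L) {z : ℂ} (hz : z ∉ L.lattice) :
    HasDerivAt (pv L) ((px L z + 1) * (3 * px L z + 1)) z := by
  have hd : HasDerivAt (pv L) (deriv (pv L) z) z := (ell_pv_an hz).differentiableAt.hasDerivAt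
  -- near every non-lattice point the product with `2 pv + 1` agrees
  have key : ∀ w : ℂ, w ∉ L.lattice → (2 * pv L w + 1) *
      (deriv (pv L) w - (px L w + 1) * (3 * px L w + 1)) = 0 := fun w hw => by
    have h1 : HasDerivAt (pv L) (deriv (pv L) w) w := (ell_pv_an hw).differentiableAt.hasDerivAt
    have h2 := px_deriv hw
    have h3 := h1.mul (h1.add_const 1)
    have h4 := h2.mul ((h2.add_const 1).pow 2)
    have h5 : (fun t => pv L t * (pv L t + 1)) =ᶠ[𝓝 w] fun t => px L t * (px L t + 1) ^ 2 := by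
      filter_upwards [lat_nhds hw] with t ht
      exact curve hL ht
    have h6 := (HasDerivAt.congr_of_eventuallyEq h4 h5).unique h3
    simp only [Nat.cast_ofNat, Nat.add_one_sub_one, pow_one, Pi.pow_apply] at h6
    linear_combination -h6
  have hne : ∀ᶠ w in 𝓝[≠] z, 2 * pv L w + 1 ≠ 0 := by
    have h1 : AnalyticAt ℂ ℘'[L] z := P'_an hz
    have h2 : ∀ᶠ w in 𝓝[≠] z, ℘'[L] w ≠ 0 := by
      rcases h1.eventually_eq_zero_or_eventually_ne_zero with h | h
      · exact absurd (meromorphicOrderAt_eq_top_iff.2 (h.filter_mono nhdsWithin_le_nhds))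
          (P'_nz z)
      · exact h
    filter_upwards [h2] with w hw h3
    apply hw
    rw [← h3, pv]
    ring
  have hcont : ContinuousAt (fun w => deriv (pv L) w - (px L w + 1) * (3 * px L w + 1)) z := by
    have h1 := (ell_pv_an hz).deriv.continuousAt
    have h2 := (ell_px_an hz).continuousAt
    fun_prop
  have h0 : deriv (pv L) z - (px L z + 1) * (3 * px L z + 1) = 0 := by
    have h1 := hcont.tendsto.mono_left (nhdsWithin_le_nhds (s := {z}ᶜ))
    have h2 : Tendsto (fun w => deriv (pv L) w - (px L w + 1) * (3 * px L w + 1)) (𝓝[≠] z)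
        (𝓝 0) := by
      refine tendsto_const_nhds.congr' ?_
      filter_upwards [hne, (lat_nhds hz).filter_mono nhdsWithin_le_nhds] with w hw hw2
      exact ((mul_eq_zero.1 (key w hw2)).resolve_left hw).symm
    exact tendsto_nhds_unique h1 h2
  rw [sub_eq_zero.1 h0] at hd
  exact hd

/-- the lattice is stable under conjugation -/
theorem lattice_conj (hL : XL L) (z : ℂ) : conj z ∈ L.lattice ↔ z ∈ L.lattice := by
  have h1 : conj L.ω₁ = L.ω₁ := Complex.conj_eq_iff_im.2 hL.re1
  have h2 : conj L.ω₂ = L.ω₁ - L.ω₂ := by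
    apply Complex.ext
    · simp only [Complex.conj_re, Complex.sub_re, hL.re2]
      ring
    · simp only [Complex.conj_im, Complex.sub_im, hL.re1]
      ring
  have h3 : ∀ z : ℂ, z ∈ L.lattice → conj z ∈ L.lattice := fun z hz => by
    obtain ⟨m, n, rfl⟩ := PeriodPair.mem_lattice.1 hz
    refine PeriodPair.mem_lattice.2 ⟨m + n, -n, ?_⟩
    rw [map_add, map_mul, map_mul, h1, h2]
    simp only [map_intCast]
    push_cast
    ring
  refine ⟨fun h => ?_, h3 z⟩
  have := h3 _ h
  rwa [Complex.conj_conj] at this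

private def latConj (hL : XL L) : L.lattice ≃ L.lattice where
  toFun l := ⟨conj (l : ℂ), (lattice_conj hL _).2 l.2⟩
  invFun l := ⟨conj (l : ℂ), (lattice_conj hL _).2 l.2⟩
  left_inv l := by simp
  right_inv l := by simp

private theorem P_conj (hL : XL L) (z : ℂ) : ℘[L] (conj z) = conj (℘[L] z) := by
  have h1 := (L.hasSum_weierstrassP z).map (starRingEnd ℂ) Complex.continuous_conj
  have h2 := L.hasSum_weierstrassP (conj z)
  have h3 := ((latConj hL).hasSum_iff).2 h2
  refine h3.unique ?_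
  have e : (fun l : L.lattice => (1 / (conj z - l) ^ 2 - 1 / (l : ℂ) ^ 2)) ∘ (latConj hL) =
      (starRingEnd ℂ) ∘ fun l : L.lattice => (1 / (z - l) ^ 2 - 1 / (l : ℂ) ^ 2) := by
    funext l
    simp [latConj]
  rw [e]
  exact h1

private theorem P'_conj (hL : XL L) (z : ℂ) : ℘'[L] (conj z) = conj (℘'[L] z) := by
  have h1 := (L.hasSum_derivWeierstrassP z).map (starRingEnd ℂ) Complex.continuous_conj
  have h2 := L.hasSum_derivWeierstrassP (conj z)
  have h3 := ((latConj hL).hasSum_iff).2 h2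
  refine h3.unique ?_
  have e : (fun l : L.lattice => -2 / (conj z - l) ^ 3) ∘ (latConj hL) =
      (starRingEnd ℂ) ∘ fun l : L.lattice => -2 / (z - l) ^ 3 := by
    funext l
    simp [latConj, map_ofNat]
  rw [e]
  exact h1

theorem px_conj (hL : XL L) (z : ℂ) : px L (conj z) = conj (px L z) := by
  rw [px, px, P_conj hL, map_sub, map_div₀, map_ofNat, map_ofNat]

theorem pv_conj (hL : XL L) (z : ℂ) : pv L (conj z) = conj (pv L z) := by
  rw [pv, pv, P'_conj hL, map_div₀, map_sub, map_ofNat, map_one]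

theorem U_conj (hL : XL L) (k : Fin 4) (z : ℂ) : U L k (conj z) = conj (U L k z) := by
  unfold U
  rw [px_conj hL, pv_conj hL]
  fin_cases k <;> simp [uv]

theorem U_an {z : ℂ} (hz : z ∉ Cs L) (k : Fin 4) : AnalyticAt ℂ (U L k) z := by
  have hz' : z ∉ L.lattice := fun h => hz (Or.inl h)
  have h1 := ell_px_an hz'
  have h2 := ell_pv_an hz'
  fin_cases k
  · exact h1
  · show AnalyticAt ℂ (fun z => px L z + 1) z
    fun_prop
  · show AnalyticAt ℂ (fun z => pv L z - px L z) z
    fun_prop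
  · exact h2

theorem U_ne (hL : XL L) {z : ℂ} (hz : z ∉ Cs L) (k : Fin 4) : U L k z ≠ 0 := by
  have hz' : z ∉ L.lattice := fun h => hz (Or.inl h)
  refine uv_ne (curve hL hz') (fun h => hz (Or.inr (Or.inl h))) (fun h => ?_) k
  exact hz (Or.inr (Or.inr (eq_neg_of_add_eq_zero_left h)))

theorem Cs_closed (hL : XL L) : IsClosed (Cs L) := by
  rw [← isOpen_compl_iff, isOpen_iff_mem_nhds]
  intro z hz
  have hz' : z ∉ L.lattice := fun h => hz (Or.inl h)
  have h1 : px L z ≠ 0 := fun h => hz (Or.inr (Or.inl h))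
  have h2 : px L z ≠ -1 := fun h => hz (Or.inr (Or.inr h))
  have hc := (ell_px_an hz').continuousAt
  filter_upwards [lat_nhds hz', hc.eventually_ne h1, hc.eventually_ne h2] with w a b c
  rintro (h | h | h)
  · exact a h
  · exact b h
  · exact c h

theorem Cs_isolated (hL : XL L) (s : ℂ) : ∀ᶠ z in 𝓝[≠] s, z ∉ Cs L := by
  have hU : ∀ k : Fin 4, ∀ᶠ z in 𝓝[≠] s, U L k z ≠ 0 := fun k => by
    rcases (U_mero (L := L) k s).eventually_eq_zero_or_eventually_ne_zero with h | h
    · exact absurd (meromorphicOrderAt_eq_top_iff.2 h) (U_nz hL k s)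
    · exact h
  have hlat : ∀ᶠ z in 𝓝[≠] s, z ∉ L.lattice := by
    have h1 := (L.compl_lattice_sdiff_singleton_mem_nhds s)
    filter_upwards [mem_nhdsWithin_of_mem_nhds h1, self_mem_nhdsWithin] with z a b
    intro h
    exact a ⟨h, b⟩
  filter_upwards [hU 0, hU 1, hlat] with z a b c
  rintro (h | h | h)
  · exact c h
  · exact a h
  · apply b
    show px L z + 1 = 0
    rw [h]
    ring

theorem Cs_countable (hL : XL L) : (Cs L).Countable := by
  have h1 : (L.lattice : Set ℂ).Countable := by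
    have : Countable L.lattice := by
      have := L.latticeEquivProd
      exact this.toEquiv.countable_iff.2 inferInstance
    exact this
  have h2 := countable_zeros (U_mero (L := L) 0) (U_nz hL 0)
  have h3 := countable_zeros (U_mero (L := L) 1) (U_nz hL 1)
  refine ((h1.union h2).union h3).mono ?_
  rintro z (h | h | h)
  · exact Or.inl (Or.inl h)
  · exact Or.inl (Or.inr h)
  · refine Or.inr ?_
    show px L z + 1 = 0
    rw [h]
    ring

theorem Cs_per (l : L.lattice) (z : ℂ) : z + l ∈ Cs L ↔ z ∈ Cs L := by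
  have h : z + l ∈ L.lattice ↔ z ∈ L.lattice := by
    refine ⟨fun h => ?_, fun h => L.lattice.add_mem h l.2⟩
    have := L.lattice.sub_mem h l.2
    rwa [add_sub_cancel_right] at this
  show (z + l ∈ L.lattice ∨ px L (z + l) = 0 ∨ px L (z + l) = -1) ↔
    (z ∈ L.lattice ∨ px L z = 0 ∨ px L z = -1)
  rw [h, px_per]

theorem Cs_neg (z : ℂ) : -z ∈ Cs L ↔ z ∈ Cs L := by
  show (-z ∈ L.lattice ∨ px L (-z) = 0 ∨ px L (-z) = -1) ↔
    (z ∈ L.lattice ∨ px L z = 0 ∨ px L z = -1)
  rw [neg_mem_iff, px_neg]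

theorem Cs_conj (hL : XL L) (z : ℂ) : conj z ∈ Cs L ↔ z ∈ Cs L := by
  show (conj z ∈ L.lattice ∨ px L (conj z) = 0 ∨ px L (conj z) = -1) ↔
    (z ∈ L.lattice ∨ px L z = 0 ∨ px L z = -1)
  have h1 : conj (px L z) = 0 ↔ px L z = 0 := map_eq_zero _
  have h2 : conj (px L z) = -1 ↔ px L z = -1 := by
    refine ⟨fun h => ?_, fun h => by rw [h]; simp⟩
    have := congrArg conj h
    simpa using this
  rw [lattice_conj hL, px_conj hL, h1, h2]

/-- logarithmic derivatives of the four units -/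
theorem du_eq (hL : XL L) {z : ℂ} (hz : z ∉ Cs L) : du L z =
    ![(2 * pv L z + 1) / px L z, (2 * pv L z + 1) / (px L z + 1),
      ((px L z + 1) * (3 * px L z + 1) - (2 * pv L z + 1)) / (pv L z - px L z),
      (px L z + 1) * (3 * px L z + 1) / pv L z] := by
  have hz' : z ∉ L.lattice := fun h => hz (Or.inl h)
  have h1 := px_deriv hz'
  have h2 := pv_deriv hL hz'
  funext k
  fin_cases k
  · show deriv (px L) z / px L z = _
    rw [h1.deriv]
    rfl
  · show deriv (fun z => px L z + 1) z / (px L z + 1) = _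
    rw [(h1.add_const 1).deriv]
    rfl
  · show deriv (fun z => pv L z - px L z) z / (pv L z - px L z) = _
    have h3 := (h2.sub h1).deriv
    rw [show (fun z => pv L z - px L z) = pv L - px L from rfl, h3]
    rfl
  · show deriv (pv L) z / pv L z = _
    rw [h2.deriv]
    rfl

end Pool.Agent.F194.X

end
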