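import Pool.Agent.Work.MP_f194bb_nt.X.NumA

/-!
# MP_f194bb_nt, `X_1(11)`: the tail of the positivity check
-/

set_option autoImplicit false

noncomputable section

namespace Pool.Agent.F194.X

open Pool.Agent.Work.NumI

section

open E

/-- the normalised expression near the cusp -/
def nQ : E :=
  (add (add (mul (var 6) (q 17 1)) (mul (var 2) (mul (var 4) (q 17 1)))) (mul (var 0) (mul (var
  0) (add (add (add (add (mul (var 7) (q 1255 1)) (mul (var 3) (mul (var 4) (q 1255 1)))) (mul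
  (var 2) (add (mul (var 5) (q 752 1)) (mul (var 2) (add (mul (var 6) (q (-648) 1)) (mul (var 2)
  (mul (var 4) (q (-648) 1)))))))) (mul (var 1) (add (mul (var 6) (q (-38) 1)) (mul (var 2) (mul
  (var 4) (q 714 1)))))) (mul (var 0) (mul (var 0) (add (add (add (mul (var 3) (mul (var 5) (q
  (-1156) 1))) (mul (var 2) (add (mul (var 3) (mul (var 6) (q 840 1))) (mul (var 2) (add (add
  (mul (var 7) (q (-4320) 1)) (mul (var 3) (mul (var 4) (q (-3480) 1)))) (mul (var 2) (mul (var
  5) (q 5812 1)))))))) (mul (var 1) (add (add (add (mul (var 7) (q 2359 1)) (mul (var 3) (mul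
  (var 4) (q 1203 1)))) (mul (var 2) (add (mul (var 5) (q 2856 1)) (mul (var 2) (add (mul (var 6)
  (q (-4644) 1)) (mul (var 2) (mul (var 4) (q 1168 1)))))))) (mul (var 1) (add (mul (var 6) (q
  (-882) 1)) (mul (var 2) (mul (var 4) (q 1974 1)))))))) (mul (var 0) (mul (var 0) (add (add (add
  (mul (var 3) (mul (var 3) (mul (var 6) (q (-840) 1)))) (mul (var 2) (add (mul (var 3) (add (mul
  (var 7) (q 2460 1)) (mul (var 3) (mul (var 4) (q 1620 1))))) (mul (var 2) (add (mul (var 3)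
  (mul (var 5) (q 7884 1))) (mul (var 2) (add (mul (var 3) (mul (var 6) (q 1552 1))) (mul (var 2)
  (mul (var 7) (q (-1552) 1)))))))))) (mul (var 1) (add (add (mul (var 3) (mul (var 5) (q (-1620)
  1))) (mul (var 2) (add (mul (var 3) (mul (var 6) (q 2328 1))) (mul (var 2) (add (add (mul (var
  7) (q (-9516) 1)) (mul (var 3) (mul (var 4) (q 696 1)))) (mul (var 2) (mul (var 5) (q 336
  1)))))))) (mul (var 1) (add (add (add (mul (var 7) (q (-90) 1)) (mul (var 3) (mul (var 4) (q
  (-1710) 1)))) (mul (var 2) (add (mul (var 5) (q 3135 1)) (mul (var 2) (mul (var 6) (q (-336)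
  1)))))) (mul (var 1) (add (mul (var 6) (q (-835) 1)) (mul (var 2) (mul (var 4) (q 2300
  1)))))))))) (mul (var 0) (mul (var 0) (add (add (add (mul (var 3) (mul (var 3) (add (mul (var
  7) (q 2604 1)) (mul (var 3) (mul (var 4) (q 2604 1)))))) (mul (var 2) (add (mul (var 3) (mul
  (var 3) (mul (var 5) (q 1020 1)))) (mul (var 2) (add (mul (var 3) (mul (var 3) (mul (var 6) (q
  2064 1)))) (mul (var 2) (mul (var 3) (mul (var 7) (q (-2064) 1))))))))) (mul (var 1) (add (add
  (mul (var 3) (mul (var 3) (mul (var 6) (q (-2700) 1)))) (mul (var 2) (add (mul (var 3) (add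
  (mul (var 7) (q 7320 1)) (mul (var 3) (mul (var 4) (q 5640 1))))) (mul (var 2) (mul (var 3)
  (mul (var 5) (q (-4644) 1))))))) (mul (var 1) (add (add (mul (var 3) (mul (var 5) (q 291 1)))
  (mul (var 2) (add (mul (var 3) (mul (var 6) (q 9516 1))) (mul (var 2) (mul (var 7) (q (-4872)
  1)))))) (mul (var 1) (add (add (add (mul (var 7) (q (-1693) 1)) (mul (var 3) (mul (var 4) (q
  (-1402) 1)))) (mul (var 2) (mul (var 5) (q (-1380) 1)))) (mul (var 1) (mul (var 6) (q 1380
  1)))))))))) (mul (var 0) (mul (var 0) (add (add (add (mul (var 3) (mul (var 3) (mul (var 3)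
  (mul (var 5) (q (-2732) 1))))) (mul (var 2) (add (mul (var 3) (mul (var 3) (mul (var 3) (mul
  (var 6) (q 1296 1))))) (mul (var 2) (mul (var 3) (mul (var 3) (mul (var 7) (q (-1296) 1))))))))
  (mul (var 1) (add (add (mul (var 3) (mul (var 3) (add (mul (var 7) (q (-1896) 1)) (mul (var 3)
  (mul (var 4) (q (-4628) 1)))))) (mul (var 2) (mul (var 3) (mul (var 3) (mul (var 5) (q (-4440)
  1)))))) (mul (var 1) (add (add (mul (var 3) (mul (var 3) (mul (var 6) (q (-3660) 1)))) (mul
  (var 2) (mul (var 3) (mul (var 7) (q 8100 1))))) (mul (var 1) (add (mul (var 3) (mul (var 5) (q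
  (-19) 1))) (mul (var 1) (mul (var 7) (q 19 1)))))))))) (mul (var 0) (mul (var 0) (add (add (mul
  (var 3) (mul (var 3) (mul (var 3) (mul (var 3) (mul (var 6) (q (-2592) 1)))))) (mul (var 2)
  (mul (var 3) (mul (var 3) (mul (var 3) (mul (var 7) (q 2592 1))))))) (mul (var 1) (add (mul
  (var 3) (mul (var 3) (mul (var 3) (mul (var 5) (q 3468 1))))) (mul (var 1) (mul (var 3) (mul
  (var 3) (mul (var 7) (q (-3468) 1))))))))))))))))))))))))))

end

theorem num_chkQ : chk [nQ] 1 [V.of 20 0 1, V.of 6 0 1, V.of 3 0 1, V.of 6 0 1, V.of 1 0 3,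
    V.of 1 0 3, V.of 1 1 2, V.of 1 0 2] = true := by decide +kernel

theorem num_Qpos {t a b c d e f g : ℝ} (t0 : 0 ≤ t) (t1 : t ≤ 1 / 20) (a0 : 0 ≤ a)
    (a1 : a ≤ 1 / 6) (b0 : 0 ≤ b) (b1 : b ≤ 1 / 3) (c0 : 0 ≤ c) (c1 : c ≤ 1 / 6) (d0 : 0 ≤ d)
    (d1 : d ≤ 3) (e0 : 0 ≤ e) (e1 : e ≤ 3) (f0 : 1 ≤ f) (f1 : f ≤ 2) (g0 : 0 ≤ g)
    (g1 : g ≤ 2) : 0 < nQ.val [t, a, b, c, d, e, f, g] := by
  refine pos_of_chk (chk_sound num_chkQ ?_)
  refine List.Forall₂.cons (V.of_mem (by norm_num) ?_ ?_) (List.Forall₂.cons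
    (V.of_mem (by norm_num) ?_ ?_) (List.Forall₂.cons (V.of_mem (by norm_num) ?_ ?_)
    (List.Forall₂.cons (V.of_mem (by norm_num) ?_ ?_) (List.Forall₂.cons
    (V.of_mem (by norm_num) ?_ ?_) (List.Forall₂.cons (V.of_mem (by norm_num) ?_ ?_)
    (List.Forall₂.cons (V.of_mem (by norm_num) ?_ ?_) (List.Forall₂.cons
    (V.of_mem (by norm_num) ?_ ?_) List.Forall₂.nil))))))) <;> push_cast <;> linarith

theorem num_Qeq (X t a b c d e f g : ℝ) :
    d * nA1 X (X * (t ^ 2 * a)) (X * (t * b)) (X * (t ^ 3 * c)) -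
      t * (t * e * nA2 X (X * (t ^ 2 * a)) (X * (t * b)) (X * (t ^ 3 * c)) +
      f * nA3 X (X * (t ^ 2 * a)) (X * (t * b)) (X * (t ^ 3 * c)) +
      t ^ 2 * g * nA4 X (X * (t ^ 2 * a)) (X * (t * b)) (X * (t ^ 3 * c))) =
    t * (X ^ 4 * nQ.val [t, a, b, c, d, e, f, g]) := by
  simp only [nQ, nA1, nA2, nA3, nA4, E.val, lkR_zero, lkR_succ]
  push_cast
  ring

/-- positivity for `6 ≤ log x` -/
theorem num_tail {X r u w p H K : ℝ} (h2 : 6 ≤ X)
    (hr : r = Real.exp (-X)) (hu : u = r * (1 + r)⁻¹)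
    (hw : w = Real.exp (1 / 2 * (X + Real.log (4 + r * (8 + r * (4 + r))))))
    (hp : p = Real.log (1 + r))
    (hH : H = 1 / 2 * (Real.log (w + (2 + r)) - Real.log (w - (2 + r))))
    (hK : K = 1 / 2 * (Real.log (w + r) - Real.log (w - r))) :
    0 < w * nA1 X p H K + -(w * u) * nA2 X p H K + -(1 + r - 1 / 2 * u) * nA3 X p H K +
      -(1 / 2 * r + u) * nA4 X p H K := by
  obtain ⟨t, ht⟩ : ∃ t, t = Real.exp (-X / 2) := ⟨_, rfl⟩
  have ht0 : 0 < t := by rw [ht]; exact Real.exp_pos _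
  have hrt : r = t ^ 2 := by
    rw [hr, ht, sq, ← Real.exp_add]; congr 1; ring
  have ht1 : t ≤ 1 / 20 := by
    have h1 : t ≤ Real.exp (-3) := by
      rw [ht]; exact Real.exp_le_exp.2 (by linarith only [h2])
    have h3 : (20 : ℝ) ≤ Real.exp 3 := by
      have e1 := Real.exp_one_gt_d9
      have e2 : Real.exp 3 = Real.exp 1 ^ 3 := by rw [← Real.exp_nat_mul]; norm_num
      have e3 : (2.7182818283 : ℝ) ^ 3 ≤ Real.exp 1 ^ 3 := by gcongr
      rw [e2]
      refine le_trans ?_ e3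
      norm_num
    rw [Real.exp_neg] at h1
    refine h1.trans ?_
    rw [one_div]
    exact inv_anti₀ (by norm_num) h3
  have hr0 : 0 < r := by rw [hrt]; positivity
  have hr1 : r ≤ 1 / 400 := by rw [hrt]; nlinarith only [ht0, ht1]
  have hX : 0 < X := by linarith only [h2]
  have hG : 0 < 4 + r * (8 + r * (4 + r)) := by positivity
  have hw0 : 0 < w := by rw [hw]; exact Real.exp_pos _
  have hw2 : (w * t) ^ 2 = 4 + r * (8 + r * (4 + r)) := by
    rw [hw, ht, ← Real.exp_add, sq, ← Real.exp_add]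
    rw [show 1 / 2 * (X + Real.log (4 + r * (8 + r * (4 + r)))) + -X / 2 +
      (1 / 2 * (X + Real.log (4 + r * (8 + r * (4 + r)))) + -X / 2) =
      Real.log (4 + r * (8 + r * (4 + r))) by ring, Real.exp_log hG]
  have hs0 : 0 < w * t := by positivity
  have hs1 : 2 ≤ w * t := by
    nlinarith only [hw2, hs0, hr0, mul_pos hr0 hr0, mul_pos hr0 (mul_pos hr0 hr0)]
  have hs2 : w * t ≤ 21 / 10 := by
    have : r * (8 + r * (4 + r)) ≤ 1 / 400 * (8 + 1 / 400 * (4 + 1 / 400)) := by gcongr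
    nlinarith only [hw2, hs0, this]
  have hu0 : 0 < u := by rw [hu]; positivity
  have hur : u ≤ r := by
    rw [hu]
    have : (1 + r)⁻¹ ≤ 1 := inv_le_one_of_one_le₀ (by linarith only [hr0])
    nlinarith only [this, hr0]
  have hp0 : 0 ≤ p := by rw [hp]; exact Real.log_nonneg (by linarith only [hr0])
  have hp1 : p ≤ r := by
    rw [hp]
    have := Real.log_le_sub_one_of_pos (show 0 < 1 + r by linarith only [hr0])
    linarith only [this]
  -- a general bound
  have key : ∀ y M : ℝ, 0 ≤ y → y < w → y ≤ M * (w - y) →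
      0 ≤ 1 / 2 * (Real.log (w + y) - Real.log (w - y)) ∧
      1 / 2 * (Real.log (w + y) - Real.log (w - y)) ≤ M := by
    intro y M hy hyw hM
    have a1 : 0 < w - y := by linarith only [hyw]
    have a2 : 0 < w + y := by linarith only [hw0, hy]
    rw [← Real.log_div a2.ne' a1.ne']
    constructor
    · have : 0 ≤ Real.log ((w + y) / (w - y)) := by
        apply Real.log_nonneg
        rw [le_div_iff₀ a1]; linarith only [hy]
      linarith only [this]
    · have b1 := Real.log_le_sub_one_of_pos (div_pos a2 a1)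
      have b2 : (w + y) / (w - y) ≤ 1 + 2 * M := by
        rw [div_le_iff₀ a1]; nlinarith only [hM]
      linarith only [b1, b2]
  have hwt : 2 / t ≤ w := by rw [div_le_iff₀ ht0]; exact hs1
  have hw40 : 40 ≤ w := by nlinarith only [hs1, ht0, ht1, hw0]
  have kH := key (2 + r) (2 * t) (by linarith only [hr0]) (by linarith only [hr1, hw40]) (by
    nlinarith only [hs1, ht0, ht1, hr0, hr1, mul_pos ht0 hr0])
  have kK := key r (t ^ 3) hr0.le (by linarith only [hr1, hw40]) (by
    have : t ^ 3 * (w - r) = t ^ 2 * (w * t - t * r) := by ring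
    rw [this, ← hrt]
    nlinarith only [hs1, ht0, ht1, hr0, hr1, mul_pos ht0 hr0])
  rw [← hH] at kH
  rw [← hK] at kK
  have hq := num_Qpos (t := t) (a := p / (X * t ^ 2)) (b := H / (X * t)) (c := K / (X * t ^ 3))
    (d := w * t) (e := w * u / t) (f := 1 + r - 1 / 2 * u) (g := (1 / 2 * r + u) / t ^ 2)
    ht0.le ht1 (by positivity)
    (by rw [div_le_iff₀ (by positivity), ← hrt]; nlinarith only [hp1, h2, hr0])
    (div_nonneg kH.1 (by positivity))
    (by rw [div_le_iff₀ (by positivity)]; nlinarith only [kH.2, h2, ht0])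
    (div_nonneg kK.1 (by positivity))
    (by rw [div_le_iff₀ (by positivity)]; nlinarith only [kK.2, h2, pow_pos ht0 3])
    hs0.le (by linarith only [hs2]) (by positivity)
    (by
      rw [div_le_iff₀ ht0]
      have : w * u ≤ w * r := by gcongr
      rw [hrt] at this
      nlinarith only [this, hs2, ht0])
    (by linarith only [hur, hr0]) (by linarith only [hr1, hu0]) (by positivity)
    (by rw [div_le_iff₀ (by positivity), ← hrt]; linarith only [hur, hr0])
  have he := num_Qeq X t (p / (X * t ^ 2)) (H / (X * t)) (K / (X * t ^ 3)) (w * t) (w * u / t)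
    (1 + r - 1 / 2 * u) ((1 / 2 * r + u) / t ^ 2)
  rw [show X * (t ^ 2 * (p / (X * t ^ 2))) = p by field_simp,
    show X * (t * (H / (X * t))) = H by field_simp,
    show X * (t ^ 3 * (K / (X * t ^ 3))) = K by field_simp,
    show t * (w * u / t) = w * u by field_simp,
    show t ^ 2 * ((1 / 2 * r + u) / t ^ 2) = 1 / 2 * r + u by field_simp] at he
  have hpos : 0 < t * (X ^ 4 * nQ.val [t, p / (X * t ^ 2), H / (X * t), K / (X * t ^ 3), w * t,
    w * u / t, 1 + r - 1 / 2 * u, (1 / 2 * r + u) / t ^ 2]) := by positivity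
  rw [← he] at hpos
  refine (mul_pos_iff_of_pos_left ht0).1 (hpos.trans_eq ?_)
  ring

end Pool.Agent.F194.X

end
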