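import Pool.Agent.Work.MP_f194bb_nt.X.Fun
import Pool.Agent.Work.MP_f194bb_nt.X.NumB

/-!
# MP_f194bb_nt, `X_1(11)`: positivity on the fundamental arc
-/

set_option autoImplicit false

open scoped ComplexConjugate PeriodPair
open MeasureTheory Filter Topology

noncomputable section

namespace Pool.Agent.F194.X

/-- logarithms of the units at a real point of the curve -/
def lr (x v : ℝ) : Fin 4 → ℝ := ![Real.log x, Real.log (x + 1), Real.log (v - x), Real.log v]

/-- logarithmic derivatives of the units at a real point of the curve -/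
def dr (x v : ℝ) : Fin 4 → ℝ := ![(2 * v + 1) / x, (2 * v + 1) / (x + 1),
  ((x + 1) * (3 * x + 1) - (2 * v + 1)) / (v - x), (x + 1) * (3 * x + 1) / v]

/-- the polynomial in better conditioned variables -/
theorem num_pol (X p H K a b c d : ℝ) :
    8 * Pol ![X, X + p, 3 / 2 * X + 1 / 2 * p - H, 3 / 2 * X + p - K]
      ![a, a + b, 3 / 2 * a + 1 / 2 * b - c, 3 / 2 * a + b - d] =
      a * nA1 X p H K + b * nA2 X p H K + c * nA3 X p H K + d * nA4 X p H K := by
  unfold Pol lin eT wT cT nA1 nA2 nA3 nA4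
  simp only [Fin.sum_univ_succ, Fin.sum_univ_zero, Matrix.cons_val_zero, Matrix.cons_val_succ,
    Matrix.cons_val_fin_one, Fin.succ_zero_eq_one]
  push_cast
  ring

/-- positivity -/
theorem num_pos {x v : ℝ} (h : v * (v + 1) = x * (x + 1) ^ 2) (hx : 0 < x) (hv : 0 < v)
    (h1 : 1 ≤ x ^ 2 * (x + 1)) : 0 < Pol (lr x v) (dr x v) := by
  have hx1 : 0 < x + 1 := by linarith only [hx]
  have hv1 : 0 < v + 1 := by linarith only [hv]
  have hvx1 : 0 < v + 1 + x := by linarith only [hv1, hx]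
  have hm : (v - x) * (v + 1 + x) = x ^ 2 * (x + 1) := by linear_combination h
  have hvx : 0 < v - x := by
    by_contra hc
    have : (v - x) * (v + 1 + x) ≤ 0 := mul_nonpos_of_nonpos_of_nonneg (not_lt.1 hc) hvx1.le
    have h2 : 0 < x ^ 2 * (x + 1) := by positivity
    linarith only [this, h2, hm]
  obtain ⟨X, hX⟩ : ∃ X, X = Real.log x := ⟨_, rfl⟩
  obtain ⟨r, hr⟩ : ∃ r, r = Real.exp (-X) := ⟨_, rfl⟩
  obtain ⟨u, hu⟩ : ∃ u, u = r * (1 + r)⁻¹ := ⟨_, rfl⟩
  obtain ⟨w, hw⟩ : ∃ w, w = Real.exp (1 / 2 * (X + Real.log (4 + r * (8 + r * (4 + r))))) :=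
    ⟨_, rfl⟩
  obtain ⟨p, hp⟩ : ∃ p, p = Real.log (1 + r) := ⟨_, rfl⟩
  obtain ⟨H, hH⟩ : ∃ H, H = 1 / 2 * (Real.log (w + (2 + r)) - Real.log (w - (2 + r))) :=
    ⟨_, rfl⟩
  obtain ⟨K, hK⟩ : ∃ K, K = 1 / 2 * (Real.log (w + r) - Real.log (w - r)) := ⟨_, rfl⟩
  have hXlow : -(29 / 100) ≤ X := by
    have hx34 : 3 / 4 ≤ x := by
      by_contra hc
      have hc' := not_le.1 hc
      nlinarith only [h1, hc', hx, mul_pos hx hx]
    have e1 : Real.log (3 / 4) ≤ X := by
      rw [hX]; exact Real.log_le_log (by norm_num) hx34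
    have e2 : Real.log (4 / 3) ≤ 29 / 100 := by
      have k2 := Real.log_div_le_sum_range_add (x := 1 / 7) (by norm_num) (by norm_num) 3
      norm_num [Finset.sum_range_succ] at k2
      linarith only [k2]
    have e3 : Real.log (3 / 4) = -Real.log (4 / 3) := by
      rw [← Real.log_inv]; norm_num
    linarith only [e1, e2, e3]
  have hmain : 0 < w * nA1 X p H K + -(w * u) * nA2 X p H K + -(1 + r - 1 / 2 * u) *
      nA3 X p H K + -(1 / 2 * r + u) * nA4 X p H K := by
    rcases le_total X 6 with h6 | h6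
    · exact num_box hXlow h6 hr hu hw hp hH hK
    · exact num_tail h6 hr hu hw hp hH hK
  -- the values
  have hr' : r = x⁻¹ := by rw [hr, hX, Real.exp_neg, Real.exp_log hx]
  have hu' : u = (x + 1)⁻¹ := by
    rw [hu, hr']; field_simp
  have hw' : w = (2 * v + 1) / x := by
    have hG : x * (4 + r * (8 + r * (4 + r))) = ((2 * v + 1) / x) ^ 2 := by
      rw [hr']; field_simp
      linear_combination (-4) * h
    have hGp : 0 < 4 + r * (8 + r * (4 + r)) := by rw [hr']; positivity
    have hp2 : 0 < (2 * v + 1) / x := by positivity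
    rw [hw, hX, ← Real.log_mul hx.ne' hGp.ne', hG, Real.log_pow]
    rw [show 1 / 2 * (((2 : ℕ) : ℝ) * Real.log ((2 * v + 1) / x)) =
      Real.log ((2 * v + 1) / x) by push_cast; ring, Real.exp_log hp2]
  have hp' : Real.log (x + 1) = X + p := by
    rw [hp, hX, ← Real.log_mul hx.ne' (by rw [hr']; positivity), hr']
    congr 1; field_simp
  have hH' : H = 1 / 2 * (Real.log (v + 1 + x) - Real.log (v - x)) := by
    have a1 : w + (2 + r) = (2 / x) * (v + 1 + x) := by rw [hw', hr']; field_simp; ring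
    have a2 : w - (2 + r) = (2 / x) * (v - x) := by rw [hw', hr']; field_simp; ring
    have a3 : (2 / x : ℝ) ≠ 0 := by positivity
    rw [hH, a1, a2, Real.log_mul a3 hvx1.ne', Real.log_mul a3 hvx.ne']
    ring
  have hK' : K = 1 / 2 * (Real.log (v + 1) - Real.log v) := by
    have a1 : w + r = (2 / x) * (v + 1) := by rw [hw', hr']; field_simp; ring
    have a2 : w - r = (2 / x) * v := by rw [hw', hr']; field_simp; ring
    have a3 : (2 / x : ℝ) ≠ 0 := by positivity
    rw [hK, a1, a2, Real.log_mul a3 hv1.ne', Real.log_mul a3 hv.ne']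
    ring
  have l3 : Real.log v + Real.log (v + 1) = 3 * X + 2 * p := by
    rw [← Real.log_mul hv.ne' hv1.ne', h, Real.log_mul hx.ne' (by positivity), Real.log_pow, hp',
      ← hX]
    push_cast; ring
  have l2 : Real.log (v - x) + Real.log (v + 1 + x) = 3 * X + p := by
    rw [← Real.log_mul hvx.ne' hvx1.ne', hm, Real.log_mul (by positivity) hx1.ne', Real.log_pow,
      hp', ← hX]
    push_cast; ring
  have hl : lr x v = ![X, X + p, 3 / 2 * X + 1 / 2 * p - H, 3 / 2 * X + p - K] := by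
    unfold lr
    rw [hp', ← hX, show Real.log (v - x) = 3 / 2 * X + 1 / 2 * p - H by
      rw [hH']; linarith only [l2], show Real.log v = 3 / 2 * X + p - K by
      rw [hK']; linarith only [l3]]
  have hd : dr x v = ![w, w + -(w * u), 3 / 2 * w + 1 / 2 * -(w * u) - -(1 + r - 1 / 2 * u),
      3 / 2 * w + -(w * u) - -(1 / 2 * r + u)] := by
    unfold dr
    rw [hw', hu', hr']
    have b1 : (2 * v + 1) / (x + 1) = (2 * v + 1) / x + -((2 * v + 1) / x * (x + 1)⁻¹) := by
      field_simp; ring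
    have b2 : ((x + 1) * (3 * x + 1) - (2 * v + 1)) / (v - x) = 3 / 2 * ((2 * v + 1) / x) +
        1 / 2 * -((2 * v + 1) / x * (x + 1)⁻¹) - -(1 + x⁻¹ - 1 / 2 * (x + 1)⁻¹) := by
      rw [div_eq_iff hvx.ne']
      field_simp
      linear_combination (-(6 * x + 4)) * h
    have b3 : (x + 1) * (3 * x + 1) / v = 3 / 2 * ((2 * v + 1) / x) +
        -((2 * v + 1) / x * (x + 1)⁻¹) - -(1 / 2 * x⁻¹ + (x + 1)⁻¹) := by
      rw [div_eq_iff hv.ne']
      field_simp
      linear_combination (-(6 * x + 2)) * h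
    rw [b1, b2, b3]
  have hfin := num_pol X p H K w (-(w * u)) (-(1 + r - 1 / 2 * u)) (-(1 / 2 * r + u))
  rw [← hl, ← hd] at hfin
  linarith only [hfin, hmain]

end Pool.Agent.F194.X

end
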