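import Pool.Agent.Work.MP_f194bb_nt.X.Inv
import Pool.Agent.Work.MP_f194bb_nt.X.Num
import Pool.Agent.Work.MP_f194bb_nt.X.Lim

/-!
# MP_f194bb_nt, `X_1(11)`: positivity on the real line
-/

set_option autoImplicit false

open scoped ComplexConjugate PeriodPair
open MeasureTheory Filter Topology

noncomputable section

namespace Pool.Agent.F194.X

variable {L : PeriodPair}

private theorem Pos_px_real (hL : XL L) (t : ℝ) : ((px L t).re : ℂ) = px L t := by
  have h := px_conj hL (t : ℂ)
  rw [Complex.conj_ofReal] at h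
  exact (Complex.conj_eq_iff_re.mp h.symm)

private theorem Pos_pv_real (hL : XL L) (t : ℝ) : ((pv L t).re : ℂ) = pv L t := by
  have h := pv_conj hL (t : ℂ)
  rw [Complex.conj_ofReal] at h
  exact (Complex.conj_eq_iff_re.mp h.symm)

private theorem Pos_curve (hL : XL L) {t : ℝ} (ht : (t : ℂ) ∉ Cs L) :
    (pv L t).re * ((pv L t).re + 1) = (px L t).re * ((px L t).re + 1) ^ 2 := by
  have h := curve hL (z := (t : ℂ)) (fun h => ht (Or.inl h))
  rw [← Pos_px_real hL, ← Pos_pv_real hL] at h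
  exact_mod_cast h

private theorem Pos_lu (hL : XL L) (t : ℝ) : lu L t = lr (px L t).re (pv L t).re := by
  funext k
  have hx := Pos_px_real hL t
  have hv := Pos_pv_real hL t
  simp only [lu, lr, U, uv]
  rw [← hx, ← hv]
  fin_cases k
  · simp [Complex.norm_real, Real.log_abs]
  · have : ((px L t).re : ℂ) + 1 = (((px L t).re + 1 : ℝ) : ℂ) := by push_cast; ring
    simp [this, Complex.norm_real, Real.log_abs, -Complex.ofReal_add]
  · have : ((pv L t).re : ℂ) - ((px L t).re : ℂ) = (((pv L t).re - (px L t).re : ℝ) : ℂ) := by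
      push_cast; ring
    simp [this, Complex.norm_real, Real.log_abs, -Complex.ofReal_sub]
  · simp [Complex.norm_real, Real.log_abs]

private theorem Pos_dx (hL : XL L) {t : ℝ} (ht : (t : ℂ) ∉ Cs L) :
    dx L t = dr (px L t).re (pv L t).re := by
  funext k
  have hx := Pos_px_real hL t
  have hv := Pos_pv_real hL t
  simp only [dx]
  rw [du_eq hL ht, ← hx, ← hv]
  fin_cases k
  · have : (2 * ((pv L t).re : ℂ) + 1) / ((px L t).re : ℂ) =
        (((2 * (pv L t).re + 1) / (px L t).re : ℝ) : ℂ) := by push_cast; ring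
    simp only [dr, Fin.zero_eta, Matrix.cons_val_zero, this, Complex.ofReal_re]
  · have : (2 * ((pv L t).re : ℂ) + 1) / (((px L t).re : ℂ) + 1) =
        (((2 * (pv L t).re + 1) / ((px L t).re + 1) : ℝ) : ℂ) := by push_cast; ring
    simp only [dr, Fin.mk_one, Matrix.cons_val_one, Matrix.cons_val_zero, this, Complex.ofReal_re]
  · have : ((((px L t).re : ℂ) + 1) * (3 * ((px L t).re : ℂ) + 1) - (2 * ((pv L t).re : ℂ) + 1)) /
        (((pv L t).re : ℂ) - ((px L t).re : ℂ)) =
        (((((px L t).re + 1) * (3 * (px L t).re + 1) - (2 * (pv L t).re + 1)) /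
          ((pv L t).re - (px L t).re) : ℝ) : ℂ) := by push_cast; ring
    simp [dr, this, -Complex.ofReal_div]
  · have : (((px L t).re : ℂ) + 1) * (3 * ((px L t).re : ℂ) + 1) / ((pv L t).re : ℂ) =
        ((((px L t).re + 1) * (3 * (px L t).re + 1) / (pv L t).re : ℝ) : ℂ) := by push_cast; ring
    simp [dr, this, -Complex.ofReal_div]

theorem I0_pos (hL : XL L) {t : ℝ} (ht : (t : ℂ) ∉ Cs L) : 0 < I0 L t := by
  obtain ⟨t', ht', h1, h2, h3, h4⟩ := reduce hL ht
  rw [← h1, I0, Pos_lu hL, Pos_dx hL ht']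
  exact num_pos (Pos_curve hL ht') h3 h4 h2

theorem line_pos (hL : XL L) : 0 < ∫ t in (0 : ℝ)..L.ω₁.re, I0 L t := by
  have hae : ∀ᵐ t : ℝ, (t : ℂ) ∉ Cs L := by
    have hc : (Complex.ofReal ⁻¹' (Cs L) : Set ℝ).Countable :=
      (Cs_countable hL).preimage Complex.ofReal_injective
    have := hc.ae_notMem volume
    exact this
  rw [intervalIntegral.integral_of_le hL.pos1.le]
  have hint := (intervalIntegrable_iff_integrableOn_Ioc_of_le hL.pos1.le).mp (intLine hL)
  have hnn : 0 ≤ᵐ[volume.restrict (Set.Ioc 0 L.ω₁.re)] fun t : ℝ => I0 L t := by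
    filter_upwards [ae_restrict_of_ae hae] with t ht
    exact (I0_pos hL ht).le
  rw [setIntegral_pos_iff_support_of_nonneg_ae hnn hint]
  have hsub : (Set.Ioc 0 L.ω₁.re) ≤ᵐ[volume]
      ((Function.support fun t : ℝ => I0 L t) ∩ Set.Ioc 0 L.ω₁.re : Set ℝ) := by
    filter_upwards [hae] with t ht hmem
    exact ⟨(I0_pos hL ht).ne', hmem⟩
  refine lt_of_lt_of_le ?_ (measure_mono_ae hsub)
  rw [Real.volume_Ioc, sub_zero, ENNReal.ofReal_pos]
  exact hL.pos1

end Pool.Agent.F194.X

end
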