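import Pool.Agent.Work.MP_f194bb_nt.X.KKs
import Pool.Agent.Work.MP_f194bb_nt.X.AN

/-!
# MP_f194bb_nt, `X_1(11)`: the value of the lattice sum as an integral over `E(ℝ)`
-/

set_option autoImplicit false

open scoped ComplexConjugate PeriodPair
open MeasureTheory Filter Topology

noncomputable section

namespace Pool.Agent.F194.X

theorem ksum_val {L L' : PeriodPair} (hL : XL L) (h : L'.lattice ≤ L.lattice)
    (ho : 0 < (L'.ω₁ / L'.ω₂).im) :
    ∑ i, Ksum L' 2 (pr L' (dv (gg L i))) (pr L' (dv (ff L i))) (pr L' (dv (hh L i))) =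
      -(((areaA L') ^ 4 * (L.ω₁.re : ℂ))⁻¹ *
        ((∫ t in (0 : ℝ)..L.ω₁.re, I0 L t : ℝ) : ℂ)) := by
  have h1 : mean L (IC L) = (((1 / 16 * ((L.ω₁.re)⁻¹ * ∫ t in (0 : ℝ)..L.ω₁.re, I0 L t) : ℝ)) : ℂ) := by
    apply Complex.ext
    · rw [mean_IC_re hL, mean_I0 hL, Complex.ofReal_re]
    · rw [mean_IC_im hL, Complex.ofReal_im]
  rw [ksum_eq' hL h, kap_neg ho, h1]
  have h2 : (areaA L' ^ 4 / 16 : ℂ)⁻¹ = 16 * (areaA L' ^ 4)⁻¹ := by
    rw [inv_div, div_eq_mul_inv]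
  rw [inv_neg, h2, mul_inv]
  push_cast
  ring

end Pool.Agent.F194.X

end
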