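import Pool.Agent.Work.MP_f194bb_nt.X.CocII
import Pool.Agent.Work.MP_f194bb_nt.X.Pos
import Pool.Agent.Work.MP_f194bb_nt.X.Val
import Pool.Agent.Work.MP_f194bb_nt.Divs
import Pool.Agent.Work.MP_f194bb_nt.KsumLin

/-!
# MP_f194bb_nt, `X_1(11)`: main theorem
-/

set_option autoImplicit false

open scoped ComplexConjugate PeriodPair
open MeasureTheory Filter Topology

noncomputable section

namespace Pool.Agent.F194.X

universe u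

private theorem pr_smul (L : PeriodPair) (N : ℕ) (D : ℂ → ℤ) :
    pr L (fun z => (N : ℤ) * D z) = fun z => (N : ℂ) * pr L D z := by
  funext γ
  unfold pr
  rw [← smul_eq_mul, smul_finsum]
  refine finsum_congr fun z => ?_
  rw [smul_finsum]
  refine finsum_congr fun hz => ?_
  push_cast
  rw [smul_eq_mul, mul_assoc]

/-- **A non-degenerate 2-cocycle of weight 5 on every curve with an isogeny to `X_1(11)`.** -/
theorem main {L L' : PeriodPair} (hL : XL L) (hs : L'.lattice ≤ L.lattice)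
    (ho : 0 < (L'.ω₁ / L'.ω₂).im) {K : Type u} [Field K] (ρ : EllRep L' K) (x v : K)
    (hx : ρ.ev x =ᶠ[codiscrete ℂ] px L) (hv : ρ.ev v =ᶠ[codiscrete ℂ] pv L) :
    ∃ (N : ℕ) (f g : Fin 30 → Kˣ), N ≠ 0 ∧
      (∀ i, (f i : K) = (sT i : K) * mon (uv x v) (eT i)) ∧
      (∀ i, 1 - (f i : K) = (sT' i : K) * mon (uv x v) (wT i)) ∧
      (∀ i, (g i : K) = mon (uv x v) (cT i) ^ N) ∧
      CocycleI 1 f g ∧ CocycleII ρ f g ∧
      ∑ i, Ksum L' 2 (pr L' (dv (ρ.ev (g i : K)))) (pr L' (dv (ρ.ev (f i : K))))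
        (pr L' (dv (ρ.ev (1 - (f i : K))))) =
      -(N : ℂ) * (((areaA L') ^ 4 * (L.ω₁.re : ℂ))⁻¹ *
        ((∫ t in (0 : ℝ)..L.ω₁.re, I0 L t : ℝ) : ℂ)) ∧
      ∑ i, Ksum L' 2 (pr L' (dv (ρ.ev (g i : K)))) (pr L' (dv (ρ.ev (f i : K))))
        (pr L' (dv (ρ.ev (1 - (f i : K))))) ≠ 0 := by
  obtain ⟨N₁, hN₁, H₁⟩ := cocycleI_of (rep_curve ρ hL hx hv) (rep_x ρ hL hx) (rep_x1 ρ hL hx)
    (rep_ne ρ hL hx hv)
  obtain ⟨N₂, hN₂, H₂⟩ := cocycleII_of ρ hL hx hv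
  have hN : N₁ * N₂ ≠ 0 := mul_ne_zero hN₁ hN₂
  have h1 : ∀ i, Ksum L' 2
      (pr L' (dv (ρ.ev (gK (rep_curve ρ hL hx hv) (rep_x ρ hL hx) (rep_x1 ρ hL hx)
        (N₁ * N₂) i : K))))
      (pr L' (dv (ρ.ev (fK (rep_curve ρ hL hx hv) (rep_x ρ hL hx) (rep_x1 ρ hL hx) i : K))))
      (pr L' (dv (ρ.ev (1 - (fK (rep_curve ρ hL hx hv) (rep_x ρ hL hx) (rep_x1 ρ hL hx) i : K))))) =
      ((N₁ * N₂ : ℕ) : ℂ) * Ksum L' 2 (pr L' (dv (gg L i))) (pr L' (dv (ff L i)))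
        (pr L' (dv (hh L i))) := by
    intro i
    rw [rep_dv_g ρ hL hx hv, dv_congr (rep_dv_f ρ hL hx hv i), dv_congr (rep_dv_h ρ hL hx hv i),
      pr_smul, ksum_smul1c]
  have h2 : ∑ i, Ksum L' 2
      (pr L' (dv (ρ.ev (gK (rep_curve ρ hL hx hv) (rep_x ρ hL hx) (rep_x1 ρ hL hx)
        (N₁ * N₂) i : K))))
      (pr L' (dv (ρ.ev (fK (rep_curve ρ hL hx hv) (rep_x ρ hL hx) (rep_x1 ρ hL hx) i : K))))
      (pr L' (dv (ρ.ev (1 - (fK (rep_curve ρ hL hx hv) (rep_x ρ hL hx) (rep_x1 ρ hL hx) i : K))))) =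
      -((N₁ * N₂ : ℕ) : ℂ) * (((areaA L') ^ 4 * (L.ω₁.re : ℂ))⁻¹ *
        ((∫ t in (0 : ℝ)..L.ω₁.re, I0 L t : ℝ) : ℂ)) := by
    rw [Finset.sum_congr rfl fun i _ => h1 i, ← Finset.mul_sum, ksum_val hL hs ho]
    ring
  refine ⟨N₁ * N₂, fK (rep_curve ρ hL hx hv) (rep_x ρ hL hx) (rep_x1 ρ hL hx),
    gK (rep_curve ρ hL hx hv) (rep_x ρ hL hx) (rep_x1 ρ hL hx) (N₁ * N₂), hN,
    fK_val _ _ _, one_sub_fK _ _ _, gK_val _ _ _ _, 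
    H₁ _ (Dvd.intro _ rfl), H₂ _ (Dvd.intro_left _ rfl), h2, ?_⟩
  rw [h2]
  have hA : areaA L' ≠ 0 := areaA_ne_zero L'
  refine mul_ne_zero (neg_ne_zero.2 (Nat.cast_ne_zero.2 hN)) (mul_ne_zero (inv_ne_zero
    (mul_ne_zero (pow_ne_zero _ hA) ?_)) ?_)
  · exact_mod_cast hL.pos1.ne'
  · exact_mod_cast (line_pos hL).ne'

end Pool.Agent.F194.X

end
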