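import Pool.Agent.Work.MP_f194bb_nt.X.Data

/-!
# MP_f194bb_nt, the curve `X_1(11)`: the functions on `ℂ` and the polylogarithms (definitions)
-/

set_option autoImplicit false

open scoped ComplexConjugate PeriodPair
open MeasureTheory Filter Topology

noncomputable section

namespace Pool.Agent.F194.X

/-- The lattice `ℤ ω₁ + ℤ ω₂` is the period lattice of `X_1(11) : v (v + 1) = x (x + 1)^2` for the
differential `dx/(2v+1)`; `ω₁` is the real period, `ω₂` has real part `ω₁/2`, and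
`Im (ω₁/ω₂) > 0`. -/
structure XL (L : PeriodPair) : Prop where
  g2 : L.g₂ = 4 / 3
  g3 : L.g₃ = -19 / 27
  re1 : L.ω₁.im = 0
  pos1 : 0 < L.ω₁.re
  re2 : L.ω₂.re = L.ω₁.re / 2
  neg2 : L.ω₂.im < 0

/-- the coordinate `x = ℘ - 2/3` -/
def px (L : PeriodPair) (z : ℂ) : ℂ := ℘[L] z - 2 / 3

/-- the coordinate `v = (℘' - 1)/2` -/
def pv (L : PeriodPair) (z : ℂ) : ℂ := (℘'[L] z - 1) / 2

/-- the four units at a point of the curve -/
def uv {F : Type*} [Field F] (x v : F) : Fin 4 → F := ![x, x + 1, v - x, v]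

/-- monomials -/
def mon {F : Type*} [Field F] (u : Fin 4 → F) (e : Fin 4 → ℤ) : F := ∏ k, u k ^ e k

/-- the four units as functions on `ℂ` -/
def U (L : PeriodPair) (k : Fin 4) (z : ℂ) : ℂ := uv (px L z) (pv L z) k

/-- the cusps -/
def Cs (L : PeriodPair) : Set ℂ := {z | z ∈ L.lattice ∨ px L z = 0 ∨ px L z = -1}

/-- `f i` -/
def ff (L : PeriodPair) (i : Fin 30) (z : ℂ) : ℂ := (sT i : ℂ) * mon (fun k => U L k z) (eT i)

/-- `1 - f i` -/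
def hh (L : PeriodPair) (i : Fin 30) (z : ℂ) : ℂ := (sT' i : ℂ) * mon (fun k => U L k z) (wT i)

/-- `g i` -/
def gg (L : PeriodPair) (i : Fin 30) (z : ℂ) : ℂ := mon (fun k => U L k z) (cT i)

/-- `log |u_k|` -/
def lu (L : PeriodPair) (z : ℂ) (k : Fin 4) : ℝ := Real.log ‖U L k z‖

/-- `u_k'/u_k` -/
def du (L : PeriodPair) (z : ℂ) (k : Fin 4) : ℂ := deriv (U L k) z / U L k z

/-- linear extension to exponent vectors -/
def lin (φ : Fin 4 → ℝ) (e : Fin 4 → ℤ) : ℝ := ∑ k, (e k : ℝ) * φ k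

/-- complex linear extension to exponent vectors -/
def cl (φ : Fin 4 → ℂ) (e : Fin 4 → ℤ) : ℂ := ∑ k, (e k : ℂ) * φ k

/-- `log |f i|` -/
def aa (L : PeriodPair) (i : Fin 30) (z : ℂ) : ℝ := lin (lu L z) (eT i)

/-- `log |1 - f i|` -/
def ww (L : PeriodPair) (i : Fin 30) (z : ℂ) : ℝ := lin (lu L z) (wT i)

/-- `log |g i|` -/
def bb (L : PeriodPair) (i : Fin 30) (z : ℂ) : ℝ := lin (lu L z) (cT i)

/-- real parts of the logarithmic derivatives (derivatives of `lu` in the direction `1`) -/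
def dx (L : PeriodPair) (z : ℂ) (k : Fin 4) : ℝ := (du L z k).re

/-- derivatives of `lu` in the direction `I` -/
def dy (L : PeriodPair) (z : ℂ) (k : Fin 4) : ℝ := -(du L z k).im

/-- the elementary form `b a² (a dw - w da)` as a polynomial -/
def Pol (l d : Fin 4 → ℝ) : ℝ :=
  ∑ i, lin l (cT i) * lin l (eT i) ^ 2 * (lin l (eT i) * lin d (wT i) - lin l (wT i) * lin d (eT i))

/-- the elementary integrand -/
def I0 (L : PeriodPair) (z : ℂ) : ℝ := Pol (lu L z) (dx L z)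

/-! ### polylogarithms -/

/-- `h ↦ Re (c h)` -/
def rl (c : ℂ) : ℂ →L[ℝ] ℝ := Complex.reCLM.comp (ContinuousLinearMap.mul ℝ ℂ c)

/-- `h ↦ Im (c h)` -/
def il (c : ℂ) : ℂ →L[ℝ] ℝ := Complex.imCLM.comp (ContinuousLinearMap.mul ℝ ℂ c)

@[simp] theorem rl_apply (c h : ℂ) : rl c h = (c * h).re := rfl
@[simp] theorem il_apply (c h : ℂ) : il c h = (c * h).im := rfl

/-- The single valued polylogarithms of weights 2, 3, 4. -/
structure PolyLog where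
  L2 : ℂ → ℝ
  L3 : ℂ → ℝ
  L4 : ℂ → ℝ
  C : ℝ
  c3 : ℝ
  d2 : ∀ z, z ≠ 0 → z ≠ 1 → HasFDerivAt L2
    (Real.log ‖z‖ • il (z - 1)⁻¹ - Real.log ‖1 - z‖ • il z⁻¹) z
  d3 : ∀ z, z ≠ 0 → z ≠ 1 → HasFDerivAt L3
    (-(L2 z) • il z⁻¹ - (1 / 3 * Real.log ‖z‖) •
      (Real.log ‖z‖ • rl (z - 1)⁻¹ - Real.log ‖1 - z‖ • rl z⁻¹)) z
  d4 : ∀ z, z ≠ 0 → z ≠ 1 → HasFDerivAt L4
    (L3 z • il z⁻¹ - (1 / 3 * Real.log ‖z‖ * L2 z) • rl z⁻¹) z
  r2 : ∀ z, z.im = 0 → L2 z = 0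
  r4 : ∀ z, z.im = 0 → L4 z = 0
  b2 : ∀ z, |L2 z| ≤ C
  b3 : ∀ z, |L3 z| ≤ C
  b4 : ∀ z, |L4 z| ≤ C
  z2 : ∀ z, L2 z ^ 2 ≤ C * ‖z‖
  o2 : ∀ z, L2 z ^ 2 ≤ C * ‖1 - z‖
  i2 : ∀ z, L2 z ^ 2 * ‖z‖ ≤ C
  z4 : ∀ z, L4 z ^ 2 ≤ C * ‖z‖
  o4 : ∀ z, L4 z ^ 2 ≤ C * ‖1 - z‖
  i4 : ∀ z, L4 z ^ 2 * ‖z‖ ≤ C
  t0 : Tendsto L3 (𝓝[≠] 0) (𝓝 0)
  t1 : Tendsto L3 (𝓝[≠] 1) (𝓝 c3)
  ti : Tendsto L3 (cocompact ℂ) (𝓝 0)

/-! ### the closed form -/

variable (P : PolyLog) (L : PeriodPair)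

/-- the `dx` component of the closed form `∑ L₄(f) d arg g + (1/6) b a L₂(f) d arg f +
(1/30) b a² (a dw - w da)` -/
def Rx (z : ℂ) : ℝ :=
  ∑ i, (-(P.L4 (ff L i z) * lin (dy L z) (cT i)) -
    1 / 6 * (bb L i z * aa L i z * P.L2 (ff L i z) * lin (dy L z) (eT i)) +
    1 / 30 * (bb L i z * aa L i z ^ 2 *
      (aa L i z * lin (dx L z) (wT i) - ww L i z * lin (dx L z) (eT i))))

/-- the `dy` component -/
def Ry (z : ℂ) : ℝ :=
  ∑ i, (P.L4 (ff L i z) * lin (dx L z) (cT i) +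
    1 / 6 * (bb L i z * aa L i z * P.L2 (ff L i z) * lin (dx L z) (eT i)) +
    1 / 30 * (bb L i z * aa L i z ^ 2 *
      (aa L i z * lin (dy L z) (wT i) - ww L i z * lin (dy L z) (eT i))))

/-- the integral of the closed form over a horizontal line -/
def ri (y : ℝ) : ℝ := ∫ t in (0 : ℝ)..L.ω₁.re, Rx P L (t + y * Complex.I)

end Pool.Agent.F194.X

end
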