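import Pool.Agent.Work.MP_f194bb_nt.X.Trans
import Pool.Agent.Work.MP_f194bb_nt.X.Comp

/-!
# MP_f194bb_nt, `X_1(11)`: invariance of the integrand and reduction to `x² (x + 1) ≥ 1`
-/

set_option autoImplicit false

open scoped ComplexConjugate PeriodPair
open MeasureTheory Filter Topology

noncomputable section

namespace Pool.Agent.F194.X

variable {L : PeriodPair}

/-- exponent vectors under a linear substitution -/
private theorem inv_lin_lin (φ : Fin 4 → ℝ) (M : Fin 4 → Fin 4 → ℤ) (e : Fin 4 → ℤ) :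
    lin (fun k => lin φ (M k)) e = lin φ (fun k => ∑ j, e j * M j k) := by
  simp only [lin, Fin.sum_univ_four]
  push_cast
  ring

private theorem inv_lin_smul (φ : Fin 4 → ℝ) (c : ℤ) (e : Fin 4 → ℤ) :
    lin φ (fun k => c * e k) = c * lin φ e := by
  simp only [lin, Fin.sum_univ_four]
  push_cast
  ring

private theorem inv_lin_sub (φ : Fin 4 → ℝ) (e e' : Fin 4 → ℤ) :
    lin φ (fun k => e k - e' k) = lin φ e - lin φ e' := by
  simp only [lin, Fin.sum_univ_four]
  push_cast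
  ring

private theorem inv_lin_neg (φ : Fin 4 → ℝ) (e : Fin 4 → ℤ) :
    lin φ (fun k => -e k) = -lin φ e := by
  simp only [lin, Fin.sum_univ_four]
  push_cast
  ring

private theorem inv_lin_neg' (φ : Fin 4 → ℝ) (e : Fin 4 → ℤ) :
    lin (fun k => -φ k) e = -lin φ e := by
  simp only [lin, Fin.sum_univ_four]
  ring

/-- one term of `Pol` -/
private def inv_tm (l d : Fin 4 → ℝ) (i : Fin 30) : ℝ :=
  lin l (cT i) * lin l (eT i) ^ 2 * (lin l (eT i) * lin d (wT i) - lin l (wT i) * lin d (eT i))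

private theorem inv_tau_e (φ : Fin 4 → ℝ) (i : Fin 30) :
    lin (fun k => lin φ (tauM k)) (eT i) = tauPS i * lin φ (eT (tauP i)) := by
  rw [inv_lin_lin, ← inv_lin_smul]
  congr 1
  funext k
  exact tau_e i k

private theorem inv_tau_c (φ : Fin 4 → ℝ) (i : Fin 30) :
    lin (fun k => lin φ (tauM k)) (cT i) = tauPS i * lin φ (cT (tauP i)) := by
  rw [inv_lin_lin, ← inv_lin_smul]
  congr 1
  funext k
  exact tau_c i k

private theorem inv_tau_w (φ : Fin 4 → ℝ) (i : Fin 30) :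
    lin (fun k => lin φ (tauM k)) (wT i) =
      if tauPS i = 1 then lin φ (wT (tauP i)) else lin φ (wT (tauP i)) - lin φ (eT (tauP i)) := by
  rw [inv_lin_lin]
  by_cases h : tauPS i = 1
  · rw [if_pos h]
    congr 1
    funext k
    rw [tau_w i k, if_pos h]
  · rw [if_neg h, ← inv_lin_sub]
    congr 1
    funext k
    rw [tau_w i k, if_neg h]

private theorem inv_iota_e (φ : Fin 4 → ℝ) (i : Fin 30) :
    lin (fun k => lin φ (iotaM k)) (eT i) = iotaPS i * lin φ (eT (iotaP i)) := by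
  rw [inv_lin_lin, ← inv_lin_smul]
  congr 1
  funext k
  exact iota_e i k

private theorem inv_iota_c (φ : Fin 4 → ℝ) (i : Fin 30) :
    lin (fun k => lin φ (iotaM k)) (cT i) = -(iotaPS i * lin φ (cT (iotaP i))) := by
  rw [inv_lin_lin, ← inv_lin_smul, ← inv_lin_neg]
  congr 1
  funext k
  exact iota_c i k

private theorem inv_iota_w (φ : Fin 4 → ℝ) (i : Fin 30) :
    lin (fun k => lin φ (iotaM k)) (wT i) =
      if iotaPS i = 1 then lin φ (wT (iotaP i))
      else lin φ (wT (iotaP i)) - lin φ (eT (iotaP i)) := by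
  rw [inv_lin_lin]
  by_cases h : iotaPS i = 1
  · rw [if_pos h]
    congr 1
    funext k
    rw [iota_w i k, if_pos h]
  · rw [if_neg h, ← inv_lin_sub]
    congr 1
    funext k
    rw [iota_w i k, if_neg h]

theorem Pol_tau (l d : Fin 4 → ℝ) :
    Pol (fun k => lin l (tauM k)) (fun k => lin d (tauM k)) = Pol l d := by
  have h : ∀ i, inv_tm (fun k => lin l (tauM k)) (fun k => lin d (tauM k)) i =
      inv_tm l d (tauP i) := by
    intro i
    unfold inv_tm
    rw [inv_tau_e, inv_tau_e, inv_tau_c, inv_tau_w, inv_tau_w]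
    rcases tauPS_sq i with h | h
    · simp only [h, if_true]
      push_cast
      ring
    · have h1 : ¬ ((-1 : ℤ) = 1) := by decide
      simp only [h, if_neg h1]
      push_cast
      ring
  show ∑ i, inv_tm (fun k => lin l (tauM k)) (fun k => lin d (tauM k)) i = ∑ i, inv_tm l d i
  rw [Finset.sum_congr rfl fun i _ => h i]
  exact tauP_bij.sum_comp (inv_tm l d)

theorem Pol_iota (l d : Fin 4 → ℝ) :
    Pol (fun k => lin l (iotaM k)) (fun k => lin d (iotaM k)) = -Pol l d := by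
  have h : ∀ i, inv_tm (fun k => lin l (iotaM k)) (fun k => lin d (iotaM k)) i =
      -inv_tm l d (iotaP i) := by
    intro i
    unfold inv_tm
    rw [inv_iota_e, inv_iota_e, inv_iota_c, inv_iota_w, inv_iota_w]
    rcases iotaPS_sq i with h | h
    · simp only [h, if_true]
      push_cast
      ring
    · have h1 : ¬ ((-1 : ℤ) = 1) := by decide
      simp only [h, if_neg h1]
      push_cast
      ring
  show ∑ i, inv_tm (fun k => lin l (iotaM k)) (fun k => lin d (iotaM k)) i = -∑ i, inv_tm l d i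
  rw [Finset.sum_congr rfl fun i _ => h i, Finset.sum_neg_distrib]
  congr 1
  exact iotaP_bij.sum_comp (inv_tm l d)

theorem Pol_neg (l d : Fin 4 → ℝ) : Pol l (fun k => -d k) = -Pol l d := by
  show ∑ i, inv_tm l (fun k => -d k) i = -∑ i, inv_tm l d i
  rw [← Finset.sum_neg_distrib]
  refine Finset.sum_congr rfl fun i _ => ?_
  unfold inv_tm
  rw [inv_lin_neg', inv_lin_neg']
  ring

private theorem inv_tauS_sq : ∀ k, tauS k = 1 ∨ tauS k = -1 := by decide

private theorem inv_iotaS_sq : ∀ k, iotaS k = 1 ∨ iotaS k = -1 := by decide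

private theorem inv_log_mon {u : Fin 4 → ℂ} (hu : ∀ k, u k ≠ 0) (e : Fin 4 → ℤ) :
    Real.log ‖mon u e‖ = lin (fun k => Real.log ‖u k‖) e := by
  rw [mon, norm_prod, Real.log_prod (fun k _ => norm_ne_zero_iff.2 (zpow_ne_zero _ (hu k)))]
  refine Finset.sum_congr rfl fun k _ => ?_
  rw [norm_zpow, Real.log_zpow]

private theorem inv_log_smon {u : Fin 4 → ℂ} (hu : ∀ k, u k ≠ 0) (e : Fin 4 → ℤ) {s : ℤ}
    (hs : s = 1 ∨ s = -1) :
    Real.log ‖(s : ℂ) * mon u e‖ = lin (fun k => Real.log ‖u k‖) e := by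
  have h : ‖(s : ℂ)‖ = 1 := by
    rcases hs with h | h <;> rw [h] <;> simp
  rw [norm_mul, h, one_mul, inv_log_mon hu]

private theorem inv_mon_deriv (hL : XL L) {z : ℂ} (hz : z ∉ Cs L) (e : Fin 4 → ℤ) :
    HasDerivAt (fun z => mon (fun k => U L k z) e) (mon (fun k => U L k z) e * cl (du L z) e) z := by
  have hk : ∀ k ∈ (Finset.univ : Finset (Fin 4)), HasDerivAt (fun z => U L k z ^ e k)
      (U L k z ^ e k * ((e k : ℂ) * du L z k)) z := by
    intro k _
    have h1 := (U_an hz k).differentiableAt.hasDerivAt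
    have h2 := (hasDerivAt_zpow (e k) (U L k z) (Or.inl (U_ne hL hz k))).comp z h1
    refine h2.congr_deriv ?_
    rw [du, zpow_sub_one₀ (U_ne hL hz k)]
    have := U_ne hL hz k
    field_simp
  have h := HasDerivAt.fun_finsetProd hk
  refine h.congr_deriv ?_
  unfold mon cl
  rw [Finset.mul_sum]
  refine Finset.sum_congr rfl fun k hk => ?_
  rw [← Finset.prod_erase_mul _ _ (Finset.mem_univ k), smul_eq_mul, mul_assoc]

private theorem inv_mon_ne {u : Fin 4 → ℂ} (hu : ∀ k, u k ≠ 0) (e : Fin 4 → ℤ) : mon u e ≠ 0 :=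
  Finset.prod_ne_zero_iff.2 fun k _ => zpow_ne_zero _ (hu k)

/-- the translation acts linearly -/
theorem lu_shift (hL : XL L) {s : ℝ}
    (hU : ∀ z, z ∉ Cs L → ∀ k, U L k (z + s) = (tauS k : ℂ) * mon (fun j => U L j z) (tauM k))
    {z : ℂ} (hz : z ∉ Cs L) (k : Fin 4) : lu L (z + s) k = lin (lu L z) (tauM k) := by
  show Real.log ‖U L k (z + s)‖ = _
  rw [hU z hz k, inv_log_smon (U_ne hL hz) _ (inv_tauS_sq k)]
  rfl

private theorem inv_ev_not (hL : XL L) {z : ℂ} (hz : z ∉ Cs L) : ∀ᶠ w in 𝓝 z, w ∉ Cs L :=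
  (Cs_closed hL).isOpen_compl.mem_nhds hz

theorem dx_shift (hL : XL L) {s : ℝ} (hC : ∀ z, z ∉ Cs L → z + s ∉ Cs L)
    (hU : ∀ z, z ∉ Cs L → ∀ k, U L k (z + s) = (tauS k : ℂ) * mon (fun j => U L j z) (tauM k))
    {z : ℂ} (hz : z ∉ Cs L) (k : Fin 4) : dx L (z + s) k = lin (dx L z) (tauM k) := by
  have h1 : HasDerivAt (fun w => U L k (w + s)) (deriv (U L k) (z + s)) z :=
    ((U_an (hC z hz) k).differentiableAt.hasDerivAt).comp_add_const z (s : ℂ)
  have h2 : HasDerivAt (fun w => U L k (w + s))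
      ((tauS k : ℂ) * (mon (fun j => U L j z) (tauM k) * cl (du L z) (tauM k))) z := by
    refine ((inv_mon_deriv hL hz (tauM k)).const_mul (tauS k : ℂ)).congr_of_eventuallyEq ?_
    filter_upwards [inv_ev_not hL hz] with w hw using hU w hw k
  have h3 := h1.unique h2
  have h4 : du L (z + s) k = cl (du L z) (tauM k) := by
    show deriv (U L k) (z + s) / U L k (z + s) = _
    rw [h3, hU z hz k, ← mul_assoc]
    refine mul_div_cancel_left₀ _ (mul_ne_zero ?_ (inv_mon_ne (U_ne hL hz) _))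
    rcases inv_tauS_sq k with h | h <;> rw [h] <;> norm_num
  show (du L (z + s) k).re = _
  rw [h4, cl_re]
  rfl

/-- reflection of the units -/
private theorem inv_U_neg (hL : XL L) {z : ℂ} (hz : z ∉ Cs L) (k : Fin 4) :
    U L k (-z) = (iotaS k : ℂ) * mon (fun j => U L j z) (iotaM k) := by
  have hc := curve hL fun h => hz (Or.inl h)
  have h2 : pv L z - px L z ≠ 0 := U_ne hL hz 2
  have h3 : pv L z ≠ 0 := U_ne hL hz 3
  have e0 : U L 0 z = px L z := rfl
  have e1 : U L 1 z = px L z + 1 := rfl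
  have e2 : U L 2 z = pv L z - px L z := rfl
  have e3 : U L 3 z = pv L z := rfl
  have f0 : U L 0 (-z) = px L (-z) := rfl
  have f1 : U L 1 (-z) = px L (-z) + 1 := rfl
  have f2 : U L 2 (-z) = pv L (-z) - px L (-z) := rfl
  have f3 : U L 3 (-z) = pv L (-z) := rfl
  rw [mon, Fin.prod_univ_four, e0, e1, e2, e3]
  fin_cases k
  · show U L 0 (-z) = ((1 : ℤ) : ℂ) * (px L z ^ (1 : ℤ) * (px L z + 1) ^ (0 : ℤ) *
      (pv L z - px L z) ^ (0 : ℤ) * pv L z ^ (0 : ℤ))
    rw [f0, px_neg]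
    simp
  · show U L 1 (-z) = ((1 : ℤ) : ℂ) * (px L z ^ (0 : ℤ) * (px L z + 1) ^ (1 : ℤ) *
      (pv L z - px L z) ^ (0 : ℤ) * pv L z ^ (0 : ℤ))
    rw [f1, px_neg]
    simp
  · show U L 2 (-z) = ((-1 : ℤ) : ℂ) * (px L z ^ (2 : ℤ) * (px L z + 1) ^ (1 : ℤ) *
      (pv L z - px L z) ^ (-1 : ℤ) * pv L z ^ (0 : ℤ))
    rw [f2, px_neg, pv_neg, zpow_neg_one, zpow_zero, zpow_one,
      show (px L z ^ (2 : ℤ)) = px L z ^ 2 from rfl]
    field_simp
    push_cast
    linear_combination -hc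
  · show U L 3 (-z) = ((-1 : ℤ) : ℂ) * (px L z ^ (1 : ℤ) * (px L z + 1) ^ (2 : ℤ) *
      (pv L z - px L z) ^ (0 : ℤ) * pv L z ^ (-1 : ℤ))
    rw [f3, pv_neg, zpow_neg_one, zpow_zero, zpow_one,
      show ((px L z + 1) ^ (2 : ℤ)) = (px L z + 1) ^ 2 from rfl]
    field_simp
    push_cast
    linear_combination -hc

theorem I0_neg (hL : XL L) {z : ℂ} (hz : z ∉ Cs L) : I0 L (-z) = I0 L z := by
  have hz' : -z ∉ Cs L := fun h => hz ((Cs_neg z).1 h)
  have hl : lu L (-z) = fun k => lin (lu L z) (iotaM k) := by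
    funext k
    show Real.log ‖U L k (-z)‖ = _
    rw [inv_U_neg hL hz k, inv_log_smon (U_ne hL hz) _ (inv_iotaS_sq k)]
    rfl
  have hd : dx L (-z) = fun k => -lin (dx L z) (iotaM k) := by
    funext k
    have h1 : HasDerivAt (fun w => U L k (-w)) (-deriv (U L k) (-z)) z := by
      have h := ((U_an hz' k).differentiableAt.hasDerivAt).scomp z (hasDerivAt_neg z)
      refine h.congr_deriv ?_
      simp
    have h2 : HasDerivAt (fun w => U L k (-w))
        ((iotaS k : ℂ) * (mon (fun j => U L j z) (iotaM k) * cl (du L z) (iotaM k))) z := by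
      refine ((inv_mon_deriv hL hz (iotaM k)).const_mul (iotaS k : ℂ)).congr_of_eventuallyEq ?_
      filter_upwards [inv_ev_not hL hz] with w hw using inv_U_neg hL hw k
    have h3 := h1.unique h2
    have h4 : du L (-z) k = -cl (du L z) (iotaM k) := by
      show deriv (U L k) (-z) / U L k (-z) = _
      rw [show deriv (U L k) (-z) = -((iotaS k : ℂ) * (mon (fun j => U L j z) (iotaM k) *
        cl (du L z) (iotaM k))) by rw [← h3, neg_neg], inv_U_neg hL hz k, ← mul_assoc, neg_div]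
      congr 1
      refine mul_div_cancel_left₀ _ (mul_ne_zero ?_ (inv_mon_ne (U_ne hL hz) _))
      rcases inv_iotaS_sq k with h | h <;> rw [h] <;> norm_num
    show (du L (-z) k).re = _
    rw [h4, Complex.neg_re, cl_re]
    rfl
  show Pol (lu L (-z)) (dx L (-z)) = Pol (lu L z) (dx L z)
  rw [hl, hd, Pol_neg, Pol_iota, neg_neg]

private theorem inv_I0_shift (hL : XL L) {s : ℝ} (hC : ∀ z, z ∉ Cs L → z + s ∉ Cs L)
    (hU : ∀ z, z ∉ Cs L → ∀ k, U L k (z + s) = (tauS k : ℂ) * mon (fun j => U L j z) (tauM k))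
    {z : ℂ} (hz : z ∉ Cs L) : I0 L (z + s) = I0 L z := by
  show Pol (lu L (z + s)) (dx L (z + s)) = Pol (lu L z) (dx L z)
  rw [show lu L (z + s) = fun k => lin (lu L z) (tauM k) from
    funext fun k => lu_shift hL hU hz k, show dx L (z + s) = fun k => lin (dx L z) (tauM k) from
    funext fun k => dx_shift hL hC hU hz k, Pol_tau]

/-- the orbit sum of `2 lu 0 + lu 1` is zero -/
private theorem inv_orbit (l0 l1 l2 l3 l4 : Fin 4 → ℝ) (h1 : ∀ k, l1 k = lin l0 (tauM k))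
    (h2 : ∀ k, l2 k = lin l1 (tauM k)) (h3 : ∀ k, l3 k = lin l2 (tauM k))
    (h4 : ∀ k, l4 k = lin l3 (tauM k)) :
    (2 * l0 0 + l0 1) + (2 * l1 0 + l1 1) + (2 * l2 0 + l2 1) + (2 * l3 0 + l3 1) +
      (2 * l4 0 + l4 1) = 0 := by
  have hr : ∀ (l m : Fin 4 → ℝ), (∀ k, m k = lin l (tauM k)) →
      m 0 = -2 * l 0 + l 2 ∧ m 1 = -2 * l 0 - l 1 + l 2 + l 3 ∧
      m 2 = -3 * l 0 - l 1 + l 2 + l 3 ∧ m 3 = -3 * l 0 - 2 * l 1 + 2 * l 2 + l 3 := by
    intro l m h
    refine ⟨?_, ?_, ?_, ?_⟩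
    · rw [h 0, lin, Fin.sum_univ_four]
      simp [tauM]
    · rw [h 1, lin, Fin.sum_univ_four]
      simp [tauM]
      ring
    · rw [h 2, lin, Fin.sum_univ_four]
      simp [tauM]
      ring
    · rw [h 3, lin, Fin.sum_univ_four]
      simp [tauM]
      ring
  obtain ⟨a0, a1, a2, a3⟩ := hr _ _ h1
  obtain ⟨b0, b1, b2, b3⟩ := hr _ _ h2
  obtain ⟨c0, c1, c2, c3⟩ := hr _ _ h3
  obtain ⟨d0, d1, d2, d3⟩ := hr _ _ h4
  rw [d0, d1, c0, c1, c2, c3, b0, b1, b2, b3, a0, a1, a2, a3]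
  ring

private theorem inv_real (hL : XL L) (t : ℝ) : (px L t).im = 0 ∧ (pv L t).im = 0 := by
  have h1 := px_conj hL (t : ℂ)
  have h2 := pv_conj hL (t : ℂ)
  rw [Complex.conj_ofReal] at h1 h2
  exact ⟨Complex.conj_eq_iff_im.1 h1.symm, Complex.conj_eq_iff_im.1 h2.symm⟩

/-- the last step: a real non-cusp with `|x|² |x + 1| ≥ 1` -/
private theorem inv_last (hL : XL L) {t : ℝ} (ht : (t : ℂ) ∉ Cs L)
    (h : 0 ≤ 2 * lu L t 0 + lu L t 1) : ∃ t' : ℝ, (t' : ℂ) ∉ Cs L ∧
    I0 L t' = I0 L t ∧ 1 ≤ (px L t').re ^ 2 * ((px L t').re + 1) ∧ 0 < (px L t').re ∧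
    0 < (pv L t').re := by
  obtain ⟨hx, hv⟩ := inv_real hL t
  set x := (px L t).re with hxd
  set v := (pv L t).re with hvd
  have ex : px L t = (x : ℂ) := Complex.ext rfl (by simpa using hx)
  have ev : pv L t = (v : ℂ) := Complex.ext rfl (by simpa using hv)
  have hc := curve hL fun h => ht (Or.inl h)
  rw [ex, ev] at hc
  have hc' : v * (v + 1) = x * (x + 1) ^ 2 := by exact_mod_cast hc
  have h0 : px L t ≠ 0 := U_ne hL ht 0
  have h1 : px L t + 1 ≠ 0 := U_ne hL ht 1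
  rw [ex] at h0 h1
  have h0' : x ≠ 0 := by exact_mod_cast h0
  have h1' : x + 1 ≠ 0 := by exact_mod_cast h1
  have hl0 : lu L t 0 = Real.log |x| := by
    show Real.log ‖px L t‖ = _
    rw [ex, Complex.norm_real, Real.norm_eq_abs]
  have hl1 : lu L t 1 = Real.log |x + 1| := by
    show Real.log ‖px L t + 1‖ = _
    rw [ex, show (x : ℂ) + 1 = ((x + 1 : ℝ) : ℂ) by push_cast; rfl, Complex.norm_real,
      Real.norm_eq_abs]
  have hp0 : 0 < |x| := abs_pos.2 h0'
  have hp1 : 0 < |x + 1| := abs_pos.2 h1'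
  have h2 : 1 ≤ |x| ^ 2 * |x + 1| := by
    rw [hl0, hl1] at h
    have h3 : 0 ≤ Real.log (|x| ^ 2 * |x + 1|) := by
      rw [Real.log_mul (by positivity) hp1.ne', Real.log_pow]
      exact_mod_cast h
    exact (Real.log_nonneg_iff (by positivity)).1 h3
  rw [sq_abs] at h2
  have hpos : 0 < x := by
    by_contra hneg
    have hneg' : x < 0 := lt_of_le_of_ne (not_lt.1 hneg) h0'
    have hq : 0 ≤ 4 * (x * (x + 1) ^ 2) + 1 := by
      rw [← hc']
      nlinarith [sq_nonneg (2 * v + 1)]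
    rcases lt_or_gt_of_ne h1' with h3 | h3
    · rw [abs_of_neg h3] at h2
      have h5 : x < -1.46 := by
        by_contra h6
        have h6' : -1.46 ≤ x := not_lt.1 h6
        have h7 : x ^ 2 ≤ 1.46 ^ 2 := by nlinarith
        have h8 : -(x + 1) ≤ 0.46 := by linarith
        have h9 : x ^ 2 * -(x + 1) ≤ 1.46 ^ 2 * 0.46 :=
          mul_le_mul h7 h8 (by linarith) (by norm_num)
        norm_num at h9
        linarith
      have h6 : 0.46 ^ 2 ≤ (x + 1) ^ 2 := by nlinarith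
      nlinarith
    · rw [abs_of_pos h3] at h2
      have h4 : x ^ 2 < 1 := by nlinarith
      nlinarith
  have h3 : 1 ≤ x ^ 2 * (x + 1) := by
    rwa [abs_of_pos (by linarith)] at h2
  have h4 : 0 < v * (v + 1) := by
    rw [hc']
    positivity
  rcases lt_trichotomy v 0 with hv0 | hv0 | hv0
  · -- reflect
    have hv1 : v + 1 < 0 := by
      by_contra h5
      have h5' : 0 ≤ v + 1 := not_lt.1 h5
      nlinarith
    refine ⟨-t, ?_, ?_, ?_, ?_, ?_⟩
    · rw [Complex.ofReal_neg]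
      exact fun h => ht ((Cs_neg (t : ℂ)).1 h)
    · rw [Complex.ofReal_neg]
      exact I0_neg hL ht
    · rw [Complex.ofReal_neg, px_neg, ← hxd]
      exact h3
    · rw [Complex.ofReal_neg, px_neg, ← hxd]
      exact hpos
    · rw [Complex.ofReal_neg, pv_neg, Complex.sub_re, ← hvd]
      norm_num
      linarith
  · rw [hv0] at h4
    norm_num at h4
  · exact ⟨t, ht, rfl, h3, hpos, hv0⟩

/-- every real non-cusp has a translate or reflected translate, again real, with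
`x² (x + 1) ≥ 1`, `x > 0`, `v > 0` and the same value of `I0` -/
theorem reduce (hL : XL L) {t : ℝ} (ht : (t : ℂ) ∉ Cs L) : ∃ t' : ℝ, (t' : ℂ) ∉ Cs L ∧
    I0 L t' = I0 L t ∧ 1 ≤ (px L t').re ^ 2 * ((px L t').re + 1) ∧ 0 < (px L t').re ∧
    0 < (pv L t').re := by
  obtain ⟨s, hC, hU, -, -⟩ := exists_shift hL
  have step : ∀ {t : ℝ}, (t : ℂ) ∉ Cs L → ((t + s : ℝ) : ℂ) ∉ Cs L ∧
      I0 L ((t + s : ℝ) : ℂ) = I0 L t ∧
      ∀ k, lu L ((t + s : ℝ) : ℂ) k = lin (lu L t) (tauM k) := by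
    intro t ht
    rw [Complex.ofReal_add]
    exact ⟨hC _ ht, inv_I0_shift hL hC hU ht, lu_shift hL hU ht⟩
  obtain ⟨c1, i1, l1⟩ := step ht
  obtain ⟨c2, i2, l2⟩ := step c1
  obtain ⟨c3, i3, l3⟩ := step c2
  obtain ⟨c4, i4, l4⟩ := step c3
  have hs := inv_orbit _ _ _ _ _ l1 l2 l3 l4
  have key : ∃ t1 : ℝ, (t1 : ℂ) ∉ Cs L ∧ I0 L t1 = I0 L t ∧ 0 ≤ 2 * lu L t1 0 + lu L t1 1 := by
    by_contra hcon
    push Not at hcon
    have g0 := hcon t ht rfl
    have g1 := hcon _ c1 i1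
    have g2 := hcon _ c2 (i2.trans i1)
    have g3 := hcon _ c3 (i3.trans (i2.trans i1))
    have g4 := hcon _ c4 (i4.trans (i3.trans (i2.trans i1)))
    linarith
  obtain ⟨t1, k1, k2, k3⟩ := key
  obtain ⟨t', m1, m2, m3⟩ := inv_last hL k1 k3
  exact ⟨t', m1, m2.trans k2, m3⟩

end Pool.Agent.F194.X

end
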