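import Pool.Agent.Work.MP_f194bb_nt.X.MZ
import Pool.Agent.Work.MP_f194bb_nt.X.Int

/-!
# MP_f194bb_nt, `X_1(11)`: the lattice sums
-/

set_option autoImplicit false

open scoped ComplexConjugate PeriodPair
open MeasureTheory Filter Topology

noncomputable section

namespace Pool.Agent.F194.X

variable {L : PeriodPair}

/-- the complex integrand; its real part is `I0` -/
def IC (L : PeriodPair) (z : ℂ) : ℂ :=
  ∑ i, (bb L i z : ℂ) * (aa L i z : ℂ) ^ 2 *
    ((aa L i z : ℂ) * cl (du L z) (wT i) - (ww L i z : ℂ) * cl (du L z) (eT i))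

theorem IC_re (z : ℂ) : (IC L z).re = I0 L z := by
  unfold IC I0 Pol
  rw [Complex.re_sum]
  refine Finset.sum_congr rfl fun i _ => ?_
  have h1 : ((bb L i z : ℂ) * (aa L i z : ℂ) ^ 2) = ((bb L i z * aa L i z ^ 2 : ℝ) : ℂ) := by
    push_cast
    ring
  rw [h1, Complex.re_ofReal_mul, Complex.sub_re, Complex.re_ofReal_mul, Complex.re_ofReal_mul,
    cl_re, cl_re]
  rfl

/-! ### monomials in the units -/

theorem kk_mon_mero (e : Fin 4 → ℤ) : Meromorphic fun z => mon (fun k => U L k z) e := by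
  unfold mon
  intro z
  have h : MeromorphicAt (∏ k, (U L k) ^ (e k)) z := by
    refine MeromorphicAt.prod fun k _ => ((U_mero k) z).zpow (e k)
  convert h using 1
  funext w
  simp

theorem kk_mon_per (e : Fin 4 → ℤ) : Per L fun z => mon (fun k => U L k z) e := by
  intro l z
  have h : (fun k => U L k (z + l)) = fun k => U L k z := funext fun k => U_per k l z
  simp only [h]

theorem kk_mon_ne (hL : XL L) {z : ℂ} (hz : z ∉ Cs L) (e : Fin 4 → ℤ) :
    mon (fun k => U L k z) e ≠ 0 := by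
  unfold mon
  exact Finset.prod_ne_zero_iff.2 fun k _ => zpow_ne_zero _ (U_ne hL hz k)

theorem kk_nz (hL : XL L) {f : ℂ → ℂ} (hf : Meromorphic f) (h : ∀ z, z ∉ Cs L → f z ≠ 0) : NZ f := by
  intro z
  rw [meromorphicOrderAt_ne_top_iff_eventually_ne_zero (hf z)]
  filter_upwards [Cs_isolated hL z] with w hw
  exact h w hw

theorem kk_log_mon (hL : XL L) {z : ℂ} (hz : z ∉ Cs L) (e : Fin 4 → ℤ) :
    Real.log ‖mon (fun k => U L k z) e‖ = lin (lu L z) e := by
  unfold mon lin lu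
  rw [norm_prod, Real.log_prod fun k _ => norm_ne_zero_iff.2 (zpow_ne_zero _ (U_ne hL hz k))]
  refine Finset.sum_congr rfl fun k _ => ?_
  rw [norm_zpow, Real.log_zpow]

theorem kk_gg_ell (hL : XL L) (i : Fin 30) : Pool.Agent.F194.Ell L (gg L i) :=
  ⟨kk_mon_mero _, kk_nz hL (kk_mon_mero _) fun _ hz => kk_mon_ne hL hz _, kk_mon_per _⟩

theorem kk_ff_ell (hL : XL L) (i : Fin 30) : Pool.Agent.F194.Ell L (ff L i) := by
  have hm : Meromorphic (ff L i) := fun z => (MeromorphicAt.const _ z).mul (kk_mon_mero (eT i) z)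
  refine ⟨hm, kk_nz hL hm fun z hz => ff_ne hL hz i, fun l z => ?_⟩
  have h := kk_mon_per (L := L) (eT i) l z
  exact congrArg (fun t => (sT i : ℂ) * t) h

theorem kk_hh_ell (hL : XL L) (i : Fin 30) : Pool.Agent.F194.Ell L (hh L i) := by
  have hm : Meromorphic (hh L i) := fun z => (MeromorphicAt.const _ z).mul (kk_mon_mero (wT i) z)
  refine ⟨hm, kk_nz hL hm fun z hz => hh_ne hL hz i, fun l z => ?_⟩
  have h := kk_mon_per (L := L) (wT i) l z
  exact congrArg (fun t => (sT' i : ℂ) * t) h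

/-! ### means -/

theorem kk_lu_int (hL : XL L) (k : Fin 4) : Integrable (fun x => lg (U L k) (E L x))
    (volume.restrict box) := by
  have h := (memLp_tor L _ _ (memLp_lg_ball (U L k) (U_mero k) (U_nz hL k) 1 _)).1
  rw [Nat.cast_one] at h
  exact memLp_one_iff_integrable.1 h

theorem kk_mean_lin (hL : XL L) {f : ℂ → ℂ} {e : Fin 4 → ℤ}
    (h : ∀ z, z ∉ Cs L → Real.log ‖f z‖ = lin (lu L z) e) : mean L (lg f) = 0 := by
  have h1 : mean L (lg f) = ∑ k, (e k : ℂ) * mean L (lg (U L k)) := by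
    unfold mean
    simp only [← integral_const_mul]
    rw [← integral_finsetSum _ fun k _ => (kk_lu_int hL k).const_mul (e k : ℂ)]
    refine integral_congr_ae ?_
    filter_upwards [ae_not_Cs hL] with x hx
    rw [lg, h _ hx, lin]
    push_cast
    rfl
  rw [h1]
  exact Finset.sum_eq_zero fun k _ => by rw [mean_lg_U hL k, mul_zero]

theorem kk_tl (hL : XL L) {f : ℂ → ℂ} {e : Fin 4 → ℤ}
    (h : ∀ z, z ∉ Cs L → Real.log ‖f z‖ = lin (lu L z) e) {z : ℂ} (hz : z ∉ Cs L) :
    tl L f z = ((lin (lu L z) e : ℝ) : ℂ) := by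
  rw [tl, kk_mean_lin hL h, sub_zero, lg, h z hz]

theorem kk_log_ff (hL : XL L) (i : Fin 30) : ∀ z, z ∉ Cs L →
    Real.log ‖ff L i z‖ = lin (lu L z) (eT i) := fun _ hz => log_ff hL hz i

theorem kk_log_gg (hL : XL L) (i : Fin 30) : ∀ z, z ∉ Cs L →
    Real.log ‖gg L i z‖ = lin (lu L z) (cT i) := fun _ hz => log_gg hL hz i

theorem kk_hh_eq (hL : XL L) {z : ℂ} (hz : z ∉ Cs L) (i : Fin 30) : hh L i z = 1 - ff L i z :=
  eq_sub_of_add_eq' (table_fun hL hz i)

theorem kk_log_hh (hL : XL L) (i : Fin 30) : ∀ z, z ∉ Cs L →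
    Real.log ‖hh L i z‖ = lin (lu L z) (wT i) := fun z hz => by
  rw [kk_hh_eq hL hz i]
  exact log_one_sub_ff hL hz i

theorem kk_qq_ff (hL : XL L) {z : ℂ} (hz : z ∉ Cs L) (i : Fin 30) :
    qq (ff L i) 0 z = cl (du L z) (eT i) := by
  rw [qq, (ff_deriv hL hz i).deriv, sub_zero, mul_div_cancel_left₀ _ (ff_ne hL hz i)]

theorem kk_qq_hh (hL : XL L) {z : ℂ} (hz : z ∉ Cs L) (i : Fin 30) :
    qq (hh L i) 0 z = cl (du L z) (wT i) := by
  have h1 : hh L i =ᶠ[𝓝 z] fun w => 1 - ff L i w := by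
    filter_upwards [(Cs_closed hL).isOpen_compl.mem_nhds hz] with w hw
    exact kk_hh_eq hL hw i
  have h2 : deriv (hh L i) z = -(ff L i z * cl (du L z) (eT i)) := by
    rw [h1.deriv_eq]
    exact ((ff_deriv hL hz i).const_sub 1).deriv
  have h3 : deriv (hh L i) z = hh L i z * cl (du L z) (wT i) := by
    rw [h2, ff_deriv' hL hz i, kk_hh_eq hL hz i]
    ring
  rw [qq, h3, sub_zero, mul_div_cancel_left₀ _ (hh_ne hL hz i)]

/-! ### integrability -/

theorem kk_lin_le (e : Fin 4 → ℤ) : ∃ K : ℝ, 0 ≤ K ∧ ∀ z,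
    |lin (lu L z) e| ≤ K * MM L z ∧ ‖cl (du L z) e‖ ≤ K * DD L z := by
  refine ⟨∑ k, |(e k : ℝ)|, Finset.sum_nonneg fun _ _ => abs_nonneg _, fun z => ⟨?_, ?_⟩⟩
  · unfold lin
    refine (Finset.abs_sum_le_sum_abs _ _).trans ?_
    rw [Finset.sum_mul]
    refine Finset.sum_le_sum fun k _ => ?_
    rw [abs_mul]
    refine mul_le_mul_of_nonneg_left ?_ (abs_nonneg _)
    have h1 : |lu L z k| ≤ ∑ k, |lu L z k| :=
      Finset.single_le_sum (f := fun k => |lu L z k|) (fun _ _ => abs_nonneg _) (Finset.mem_univ k)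
    unfold MM
    linarith
  · unfold cl
    refine (norm_sum_le _ _).trans ?_
    rw [Finset.sum_mul]
    refine Finset.sum_le_sum fun k _ => ?_
    rw [norm_mul, Complex.norm_intCast]
    refine mul_le_mul_of_nonneg_left ?_ (abs_nonneg _)
    have h1 : ‖du L z k‖ ≤ ∑ k, ‖du L z k‖ :=
      Finset.single_le_sum (f := fun k => ‖du L z k‖) (fun _ _ => norm_nonneg _) (Finset.mem_univ k)
    unfold DD
    linarith

theorem kk_lu_meas (k : Fin 4) : Measurable fun z => lu L z k := by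
  have h := (U_mero (L := L) k).measurable
  unfold lu
  fun_prop

theorem kk_du_meas (k : Fin 4) : Measurable fun z => du L z k := by
  have h := (U_mero (L := L) k).measurable
  have h2 : Measurable (deriv (U L k)) := measurable_deriv _
  unfold du
  fun_prop

theorem kk_lin_meas (e : Fin 4 → ℤ) : Measurable fun z => lin (lu L z) e := by
  unfold lin
  exact Finset.measurable_sum _ fun k _ => (kk_lu_meas k).const_mul _

theorem kk_cl_meas (e : Fin 4 → ℤ) : Measurable fun z => cl (du L z) e := by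
  unfold cl
  exact Finset.measurable_sum _ fun k _ => (kk_du_meas k).const_mul _

/-- the `i`-th term of `IC` -/
def kkT (L : PeriodPair) (i : Fin 30) (z : ℂ) : ℂ := (bb L i z : ℂ) * (aa L i z : ℂ) ^ 2 *
    ((aa L i z : ℂ) * cl (du L z) (wT i) - (ww L i z : ℂ) * cl (du L z) (eT i))

theorem kkT_int (hL : XL L) (i : Fin 30) : Integrable (fun x => kkT L i (E L x))
    (volume.restrict box) := by
  obtain ⟨K₁, h1, hK₁⟩ := kk_lin_le (L := L) (cT i)
  obtain ⟨K₂, h2, hK₂⟩ := kk_lin_le (L := L) (eT i)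
  obtain ⟨K₃, h3, hK₃⟩ := kk_lin_le (L := L) (wT i)
  refine Integrable.mono' ((int_MD hL 4).const_mul (K₁ * K₂ ^ 2 * (2 * (K₂ * K₃)))) ?_ ?_
  · have hb : Measurable fun z => (bb L i z : ℂ) :=
      Complex.measurable_ofReal.comp (kk_lin_meas (cT i))
    have ha : Measurable fun z => (aa L i z : ℂ) :=
      Complex.measurable_ofReal.comp (kk_lin_meas (eT i))
    have hw : Measurable fun z => (ww L i z : ℂ) :=
      Complex.measurable_ofReal.comp (kk_lin_meas (wT i))
    have hm : Measurable (kkT L i) := by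
      have h4 := kk_cl_meas (L := L) (wT i)
      have h5 := kk_cl_meas (L := L) (eT i)
      unfold kkT
      fun_prop
    exact (hm.comp (continuous_E L).measurable).aestronglyMeasurable
  · refine Eventually.of_forall fun x => ?_
    set z := E L x
    have hM := one_le_MM L z
    have hD := one_le_DD L z
    have hb : ‖(bb L i z : ℂ)‖ ≤ K₁ * MM L z := by
      rw [Complex.norm_real, Real.norm_eq_abs]
      exact (hK₁ z).1
    have ha : ‖(aa L i z : ℂ)‖ ≤ K₂ * MM L z := by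
      rw [Complex.norm_real, Real.norm_eq_abs]
      exact (hK₂ z).1
    have hw : ‖(ww L i z : ℂ)‖ ≤ K₃ * MM L z := by
      rw [Complex.norm_real, Real.norm_eq_abs]
      exact (hK₃ z).1
    have h4 : ‖(aa L i z : ℂ) * cl (du L z) (wT i) - (ww L i z : ℂ) * cl (du L z) (eT i)‖ ≤
        2 * (K₂ * K₃) * (MM L z * DD L z) := by
      refine (norm_sub_le _ _).trans ?_
      rw [norm_mul, norm_mul]
      have h5 := mul_le_mul ha (hK₃ z).2 (norm_nonneg _) (by positivity)
      have h6 := mul_le_mul hw (hK₂ z).2 (norm_nonneg _) (by positivity)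
      nlinarith
    rw [kkT, norm_mul, norm_mul, norm_pow]
    calc ‖(bb L i z : ℂ)‖ * ‖(aa L i z : ℂ)‖ ^ 2 *
          ‖(aa L i z : ℂ) * cl (du L z) (wT i) - (ww L i z : ℂ) * cl (du L z) (eT i)‖
        ≤ (K₁ * MM L z) * (K₂ * MM L z) ^ 2 * (2 * (K₂ * K₃) * (MM L z * DD L z)) := by gcongr
      _ = K₁ * K₂ ^ 2 * (2 * (K₂ * K₃)) * (MM L z ^ 4 * DD L z) := by ring

theorem IC_eq (z : ℂ) : IC L z = ∑ i, kkT L i z := rfl

theorem IC_int (hL : XL L) : Integrable (fun x => IC L (E L x)) (volume.restrict box) := by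
  simp only [IC_eq]
  exact integrable_finsetSum _ fun i _ => kkT_int hL i

/-- `kmul` with `mean_lg_U` -/
theorem ksum_eq (hL : XL L) :
    ∑ i, Ksum L 2 (pr L (dv (gg L i))) (pr L (dv (ff L i))) (pr L (dv (hh L i))) =
      (kap L ^ 4 * kap' L)⁻¹ * mean L (IC L) := by
  have h1 : mean L (IC L) = ∑ i, mean L (kkT L i) := by
    unfold mean
    simp only [IC_eq]
    exact integral_finsetSum _ fun i _ => kkT_int hL i
  rw [h1, Finset.mul_sum]
  refine Finset.sum_congr rfl fun i _ => ?_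
  rw [kmul L 2 (kk_gg_ell hL i) (kk_ff_ell hL i) (kk_hh_ell hL i)]
  congr 1
  unfold mean
  refine integral_congr_ae ?_
  filter_upwards [ae_not_Cs hL] with x hx
  rw [kk_tl hL (kk_log_gg hL i) hx, kk_tl hL (kk_log_ff hL i) hx, kk_tl hL (kk_log_hh hL i) hx,
    kk_qq_ff hL hx, kk_qq_hh hL hx]
  rfl

theorem mean_IC_re (hL : XL L) : (mean L (IC L)).re = ∫ x in box, I0 L (E L x) := by
  have h := integral_re (IC_int hL)
  simp only [RCLike.re_eq_complex_re, IC_re] at h
  exact h.symm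

end Pool.Agent.F194.X

end
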