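import Pool.Agent.Work.MP_f194bb_nt.X.Int

/-!
# MP_f194bb_nt, `X_1(11)`: means and linear maps
-/

set_option autoImplicit false

open scoped ComplexConjugate PeriodPair
open MeasureTheory Filter Topology

noncomputable section

namespace Pool.Agent.F194.X

private theorem Tr_meas {L : PeriodPair} {F : ℂ → ℂ}
    (hm : AEStronglyMeasurable (fun x => F (E L x)) (volume.restrict box)) :
    AEStronglyMeasurable (tor L F) (volume : Measure TT) := by
  have hb : box = {x : Fin 2 → ℝ | ∀ i, x i ∈ Set.Ioc (0 : ℝ) (0 + 1)} := by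
    ext x
    simp [box]
  have hms : MeasurableSet {x : Fin 2 → ℝ | ∀ i, x i ∈ Set.Ioc (0 : ℝ) (0 + 1)} := by
    rw [← hb]; exact measurableSet_box_tor
  have h2 : AEStronglyMeasurable ((fun x : Fin 2 → ℝ => F (E L x)) ∘ (Subtype.val :
      {x : Fin 2 → ℝ // ∀ i, x i ∈ Set.Ioc (0 : ℝ) (0 + 1)} → (Fin 2 → ℝ)))
      (Measure.comap Subtype.val volume) := by
    have h4 := map_comap_subtype_coe hms (volume : Measure (Fin 2 → ℝ))
    have h5 : Measure.map (Subtype.val : {x : Fin 2 → ℝ // ∀ i, x i ∈ Set.Ioc (0 : ℝ) (0 + 1)} → _)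
        (Measure.comap Subtype.val volume) = volume.restrict box := by
      rw [hb]
      exact h4
    rw [← h5] at hm
    exact ((MeasurableEmbedding.subtype_coe hms).aestronglyMeasurable_map_iff).1 hm
  have hv : (volume : Measure (UnitAddTorus (Fin 2))) =
      Measure.pi fun _ => AddCircle.haarAddCircle := by
    have h1 : (volume : Measure (AddCircle (1 : ℝ))) = AddCircle.haarAddCircle := by
      rw [AddCircle.volume_eq_smul_haarAddCircle, ENNReal.ofReal_one, one_smul]
    rw [← h1]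
    rfl
  rw [hv]
  exact h2.comp_measurePreserving (UnitAddTorus.measurePreserving_equivPiIoc fun _ => (0 : ℝ))

private theorem Tr_rep (t : TT) : ∃ x ∈ box, (fun i => (x i : UnitAddCircle)) = t ∧
    ∀ (L : PeriodPair) (F : ℂ → ℂ), tor L F t = F (E L x) := by
  refine ⟨(UnitAddTorus.measurableEquivPiIoc (fun _ => (0 : ℝ)) t : Fin 2 → ℝ), ?_, ?_, ?_⟩
  · rw [box_eq_tor]
    exact (UnitAddTorus.measurableEquivPiIoc (fun _ => (0 : ℝ)) t).2
  · have h := (UnitAddTorus.measurableEquivPiIoc (fun _ : Fin 2 => (0 : ℝ))).symm_apply_apply t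
    exact h
  · intro L F
    rfl

private theorem Tr_tor {L : PeriodPair} {F : ℂ → ℂ} (hF : Per L F) (x : Fin 2 → ℝ) :
    tor L F (fun i => (x i : UnitAddCircle)) = F (E L x) := by
  obtain ⟨y, _, hy, h⟩ := Tr_rep (fun i => (x i : UnitAddCircle))
  rw [h L F]
  have h1 : ∀ i, ∃ n : ℤ, y i + n = x i := fun i => by
    have h2 : ((y i : ℝ) : UnitAddCircle) = (x i : UnitAddCircle) := congrFun hy i
    have h3 := (QuotientAddGroup.eq.1 h2)
    obtain ⟨n, hn⟩ := AddSubgroup.mem_zmultiples_iff.1 h3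
    refine ⟨n, ?_⟩
    have h4 : n • (1 : ℝ) = n := by simp
    rw [← h4, hn]
    ring
  obtain ⟨n, hn⟩ := h1 0
  obtain ⟨m, hm⟩ := h1 1
  have h5 : E L x = E L y + (((n : ℂ) * L.ω₁ + m * L.ω₂ : ℂ)) := by
    rw [E, E, ← hn, ← hm]
    push_cast
    ring
  have h6 : ((n : ℂ) * L.ω₁ + m * L.ω₂ : ℂ) ∈ L.lattice :=
    PeriodPair.mem_lattice.2 ⟨n, m, rfl⟩
  rw [h5]
  exact (hF ⟨_, h6⟩ (E L y)).symm

/-- the endomorphism of the torus with the integral matrix `M` -/
private def Tr_f (M : Fin 2 → Fin 2 → ℤ) : TT →+ TT where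
  toFun t i := M i 0 • t 0 + M i 1 • t 1
  map_zero' := by
    funext i
    simp
  map_add' s t := by
    funext i
    simp only [Pi.add_apply, smul_add]
    abel

private theorem Tr_cont (M : Fin 2 → Fin 2 → ℤ) : Continuous (Tr_f M) :=
  continuous_pi fun i => ((continuous_apply 0).zsmul (M i 0)).add
    ((continuous_apply 1).zsmul (M i 1))

private theorem Tr_f_coe (M : Fin 2 → Fin 2 → ℤ) (x : Fin 2 → ℝ) :
    Tr_f M (fun i => (x i : UnitAddCircle)) =
      fun i => ((M i 0 * x 0 + M i 1 * x 1 : ℝ) : UnitAddCircle) := by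
  funext i
  show M i 0 • (x 0 : UnitAddCircle) + M i 1 • (x 1 : UnitAddCircle) = _
  rw [AddCircle.coe_add, ← zsmul_eq_mul, ← zsmul_eq_mul, AddCircle.coe_zsmul, AddCircle.coe_zsmul]

/-- surjective endomorphisms of the torus preserve the mean (`MonoidHom.measurePreserving`) -/
theorem mean_comp {L L' : PeriodPair} (T : ℂ ≃L[ℝ] ℂ) (hT : ∀ l ∈ L'.lattice, T l ∈ L.lattice)
    {F : ℂ → ℂ} (hF : Per L F)
    (hm : AEStronglyMeasurable (fun x => F (E L x)) (volume.restrict box)) :
    mean L' (fun z => F (T z)) = mean L F := by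
  obtain ⟨a, c, h1⟩ := PeriodPair.mem_lattice.1 (hT _ L'.ω₁_mem_lattice)
  obtain ⟨b, d, h2⟩ := PeriodPair.mem_lattice.1 (hT _ L'.ω₂_mem_lattice)
  set M : Fin 2 → Fin 2 → ℤ := ![![a, b], ![c, d]] with hM
  have hE : ∀ x, T (E L' x) = E L (fun i => M i 0 * x 0 + M i 1 * x 1) := by
    intro x
    have e : E L' x = x 0 • L'.ω₁ + x 1 • L'.ω₂ := by
      rw [E, Complex.real_smul, Complex.real_smul]
    rw [e, map_add, map_smul, map_smul, ← h1, ← h2, E, Complex.real_smul, Complex.real_smul]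
    simp only [hM, Matrix.cons_val_zero, Matrix.cons_val_one]
    push_cast
    ring
  have hsurj : Function.Surjective (Tr_f M) := by
    intro t
    obtain ⟨x, _, hx, _⟩ := Tr_rep t
    obtain ⟨y, hy⟩ := exists_coord L' (T.symm (E L x))
    refine ⟨fun i => (y i : UnitAddCircle), ?_⟩
    rw [Tr_f_coe, ← hx]
    have h3 : (fun i => (M i 0 * y 0 + M i 1 * y 1 : ℝ)) = x := by
      apply E_injective L
      rw [← hE, hy, T.apply_symm_apply]
    funext i
    exact congrArg _ (congrFun h3 i)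
  have hpres : MeasurePreserving (Tr_f M) (volume : Measure TT) volume :=
    AddMonoidHom.measurePreserving (Tr_cont M) hsurj rfl
  rw [← integral_tor, ← integral_tor]
  have h4 : ∀ t : TT, tor L' (fun z => F (T z)) t = tor L F (Tr_f M t) := by
    intro t
    obtain ⟨x, _, hx, h⟩ := Tr_rep t
    rw [h L', ← hx, Tr_f_coe, Tr_tor hF, hE]
  calc ∫ t : TT, tor L' (fun z => F (T z)) t = ∫ t : TT, tor L F (Tr_f M t) :=
        integral_congr_ae (ae_of_all _ h4)
    _ = ∫ t : TT, tor L F t := by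
        rw [← integral_map (f := tor L F) hpres.measurable.aemeasurable
          (by rw [hpres.map_eq]; exact Tr_meas hm), hpres.map_eq]

theorem mean_sub {L L' : PeriodPair} (h : L'.lattice ≤ L.lattice) {F : ℂ → ℂ} (hF : Per L F)
    (hm : AEStronglyMeasurable (fun x => F (E L x)) (volume.restrict box)) :
    mean L' F = mean L F :=
  mean_comp (L := L) (L' := L') (ContinuousLinearEquiv.refl ℝ ℂ) (fun _ hl => h hl) hF hm

theorem mean_conj {L : PeriodPair} (hL : XL L) {F : ℂ → ℂ} (hF : Per L F)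
    (hm : AEStronglyMeasurable (fun x => F (E L x)) (volume.restrict box)) :
    mean L (fun z => F (conj z)) = mean L F :=
  mean_comp (L := L) (L' := L) Complex.conjCLE (fun l hl => (lattice_conj hL l).2 hl) hF hm

end Pool.Agent.F194.X

end
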