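import Pool.Agent.Work.MP_f194bb_nt.X.KK
import Pool.Agent.Work.MP_f194bb_nt.X.Tr

/-!
# MP_f194bb_nt, `X_1(11)`: the lattice sums for a curve with an isogeny to `X_1(11)`
-/

set_option autoImplicit false

open scoped ComplexConjugate PeriodPair
open MeasureTheory Filter Topology

noncomputable section

namespace Pool.Agent.F194.X

theorem ell_sub {L L' : PeriodPair} (h : L'.lattice ≤ L.lattice) {f : ℂ → ℂ}
    (hf : Pool.Agent.F194.Ell L f) : Pool.Agent.F194.Ell L' f :=
  ⟨hf.mero, hf.nz, fun l z => hf.per ⟨l, h l.2⟩ z⟩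

/-! ### periodicity -/

theorem kks_lu_per {L : PeriodPair} (l : L.lattice) (z : ℂ) : lu L (z + l) = lu L z := by
  funext k
  unfold lu
  rw [U_per k l z]

theorem kks_du_per {L : PeriodPair} (l : L.lattice) (z : ℂ) : du L (z + l) = du L z := by
  funext k
  have h : ∀ w, U L k (w + l) = U L k w := U_per k l
  unfold du
  rw [h z]
  congr 1
  have h2 := deriv_comp_add_const (U L k) (l : ℂ) z
  rw [← h2]
  congr 1
  funext w
  exact h w

theorem kkT_per {L : PeriodPair} (i : Fin 30) : Per L (kkT L i) := by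
  intro l z
  unfold kkT aa ww bb
  rw [kks_lu_per, kks_du_per]

theorem IC_per {L : PeriodPair} : Per L (IC L) := by
  intro l z
  rw [IC_eq, IC_eq]
  exact Finset.sum_congr rfl fun i _ => kkT_per i l z

/-! ### the sublattice -/

theorem kks_lg_meas {f : ℂ → ℂ} (hf : Meromorphic f) : Measurable (lg f) := by
  have h := hf.measurable
  unfold lg
  fun_prop

theorem kks_mean_lin {L L' : PeriodPair} (hL : XL L) (h : L'.lattice ≤ L.lattice) {f : ℂ → ℂ}
    (hf : Pool.Agent.F194.Ell L f) {e : Fin 4 → ℤ}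
    (he : ∀ z, z ∉ Cs L → Real.log ‖f z‖ = lin (lu L z) e) : mean L' (lg f) = 0 := by
  have hp : Per L (lg f) := fun l z => by
    unfold lg
    rw [hf.per l z]
  rw [mean_sub h hp ((kks_lg_meas hf.mero).comp (continuous_E L).measurable).aestronglyMeasurable,
    kk_mean_lin hL he]

theorem kks_tl {L L' : PeriodPair} (hL : XL L) (h : L'.lattice ≤ L.lattice) {f : ℂ → ℂ}
    (hf : Pool.Agent.F194.Ell L f) {e : Fin 4 → ℤ}
    (he : ∀ z, z ∉ Cs L → Real.log ‖f z‖ = lin (lu L z) e) {z : ℂ} (hz : z ∉ Cs L) :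
    tl L' f z = ((lin (lu L z) e : ℝ) : ℂ) := by
  rw [tl, kks_mean_lin hL h hf he, sub_zero, lg, he z hz]

theorem ksum_eq' {L L' : PeriodPair} (hL : XL L) (h : L'.lattice ≤ L.lattice) :
    ∑ i, Ksum L' 2 (pr L' (dv (gg L i))) (pr L' (dv (ff L i))) (pr L' (dv (hh L i))) =
      (kap L' ^ 4 * kap' L')⁻¹ * mean L (IC L) := by
  have h1 : mean L (IC L) = ∑ i, mean L (kkT L i) := by
    unfold mean
    simp only [IC_eq]
    exact integral_finsetSum _ fun i _ => kkT_int hL i
  rw [h1, Finset.mul_sum]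
  refine Finset.sum_congr rfl fun i _ => ?_
  rw [kmul L' 2 (ell_sub h (kk_gg_ell hL i)) (ell_sub h (kk_ff_ell hL i))
    (ell_sub h (kk_hh_ell hL i))]
  congr 1
  rw [← mean_sub h (kkT_per i) (kkT_int hL i).aestronglyMeasurable]
  unfold mean
  refine integral_congr_ae ?_
  filter_upwards [E_ae L' (Cs_countable hL)] with x hx
  rw [kks_tl hL h (kk_gg_ell hL i) (kk_log_gg hL i) hx,
    kks_tl hL h (kk_ff_ell hL i) (kk_log_ff hL i) hx,
    kks_tl hL h (kk_hh_ell hL i) (kk_log_hh hL i) hx, kk_qq_ff hL hx, kk_qq_hh hL hx]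
  rfl

/-! ### complex conjugation -/

theorem kks_lu_conj {L : PeriodPair} (hL : XL L) (z : ℂ) : lu L (conj z) = lu L z := by
  funext k
  unfold lu
  rw [U_conj hL, Complex.norm_conj]

theorem kks_deriv_conj {L : PeriodPair} (hL : XL L) (k : Fin 4) (z : ℂ) :
    deriv (U L k) (conj z) = conj (deriv (U L k) z) := by
  have h : (conj ∘ U L k ∘ conj) = U L k := by
    funext w
    simp only [Function.comp_apply]
    rw [U_conj hL, Complex.conj_conj]
  have h2 := congrFun (deriv_conj_conj (f := U L k)) (conj z)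
  rw [h] at h2
  simpa only [Function.comp_apply, Complex.conj_conj] using h2

theorem kks_du_conj {L : PeriodPair} (hL : XL L) (z : ℂ) (k : Fin 4) :
    du L (conj z) k = conj (du L z k) := by
  unfold du
  rw [U_conj hL, kks_deriv_conj hL, map_div₀]

theorem kks_cl_conj {L : PeriodPair} (hL : XL L) (z : ℂ) (e : Fin 4 → ℤ) :
    cl (du L (conj z)) e = conj (cl (du L z) e) := by
  unfold cl
  rw [map_sum]
  refine Finset.sum_congr rfl fun k _ => ?_
  rw [kks_du_conj hL, map_mul, map_intCast]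

theorem kks_IC_conj {L : PeriodPair} (hL : XL L) (z : ℂ) : IC L (conj z) = conj (IC L z) := by
  unfold IC aa ww bb
  rw [map_sum, kks_lu_conj hL]
  refine Finset.sum_congr rfl fun i _ => ?_
  rw [kks_cl_conj hL, kks_cl_conj hL, map_mul, map_mul, map_pow, map_sub, map_mul, map_mul,
    Complex.conj_ofReal, Complex.conj_ofReal, Complex.conj_ofReal]

/-- complex conjugation -/
theorem mean_IC_im {L : PeriodPair} (hL : XL L) : (mean L (IC L)).im = 0 := by
  rw [← Complex.conj_eq_iff_im]
  have h1 := mean_conj hL IC_per (IC_int hL).aestronglyMeasurable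
  have h2 : mean L (fun z => IC L (conj z)) = conj (mean L (IC L)) := by
    unfold mean
    rw [← integral_conj]
    simp only [kks_IC_conj hL]
  rw [← h2, h1]

theorem kap_neg {L' : PeriodPair} (ho : 0 < (L'.ω₁ / L'.ω₂).im) :
    kap L' ^ 4 * kap' L' = -(areaA L' ^ 4 / 16) := by
  set t : ℝ := (conj L'.ω₁ * L'.ω₂).im with ht
  have h2 : L'.ω₂ ≠ 0 := by
    intro h
    rw [h] at ho
    simp at ho
  have htneg : t < 0 := by
    have e : (L'.ω₁ / L'.ω₂).im = -t / Complex.normSq L'.ω₂ := by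
      rw [ht, Complex.div_im, Complex.mul_im, Complex.conj_re, Complex.conj_im]
      ring
    rw [e] at ho
    have hp : 0 < Complex.normSq L'.ω₂ := Complex.normSq_pos.2 h2
    have := (div_pos_iff_of_pos_right hp).1 ho
    linarith
  have hv : vol L' = -t := by
    rw [vol, abs_of_neg htneg]
  have hpi : (Real.pi : ℂ) ≠ 0 := by exact_mod_cast Real.pi_ne_zero
  have ht0 : (t : ℂ) ≠ 0 := by exact_mod_cast htneg.ne
  have hA : areaA L' = (t : ℂ) / Real.pi := by
    rw [areaA_eq, ← ht]
    push_cast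
    rfl
  unfold kap kap'
  rw [hv, hA]
  push_cast
  field_simp
  norm_num

end Pool.Agent.F194.X

end
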