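import Pool.Agent.Work.MP_f194bb_nt.X.Fun

/-!
# MP_f194bb_nt, `X_1(11)`: linear algebra of the symbol
-/

set_option autoImplicit false

open scoped ComplexConjugate PeriodPair
open MeasureTheory Filter Topology

noncomputable section

namespace Pool.Agent.F194.X

/-- expansion of a symbol identity in linear functionals -/
theorem lin_three (c : Fin 30 → ℝ)
    (h : ∀ m r t : Fin 4, ∑ i, c i * (eT i m : ℝ) *
      ((eT i r : ℝ) * (cT i t : ℝ) - (eT i t : ℝ) * (cT i r : ℝ)) = 0)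
    (φ μ ν : Fin 4 → ℝ) :
    ∑ i, c i * lin φ (eT i) * (lin μ (eT i) * lin ν (cT i) - lin ν (eT i) * lin μ (cT i)) = 0 := by
  have h1 : ∀ i, c i * lin φ (eT i) *
      (lin μ (eT i) * lin ν (cT i) - lin ν (eT i) * lin μ (cT i)) =
      ∑ m, ∑ r, ∑ t, φ m * μ r * ν t * (c i * (eT i m : ℝ) *
        ((eT i r : ℝ) * (cT i t : ℝ) - (eT i t : ℝ) * (cT i r : ℝ))) := by
    intro i
    simp only [lin, Fin.sum_univ_four]
    ring
  rw [Finset.sum_congr rfl fun i _ => h1 i, Finset.sum_comm]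
  refine Finset.sum_eq_zero fun m _ => ?_
  rw [Finset.sum_comm]
  refine Finset.sum_eq_zero fun r _ => ?_
  rw [Finset.sum_comm]
  refine Finset.sum_eq_zero fun t _ => ?_
  rw [← Finset.mul_sum, h, mul_zero]

theorem lin_two (c : Fin 30 → ℝ)
    (h : ∀ r t : Fin 4, ∑ i, c i *
      ((eT i r : ℝ) * (cT i t : ℝ) - (eT i t : ℝ) * (cT i r : ℝ)) = 0)
    (μ ν : Fin 4 → ℝ) :
    ∑ i, c i * (lin μ (eT i) * lin ν (cT i) - lin ν (eT i) * lin μ (cT i)) = 0 := by
  have h1 : ∀ i, c i * (lin μ (eT i) * lin ν (cT i) - lin ν (eT i) * lin μ (cT i)) =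
      ∑ r, ∑ t, μ r * ν t * (c i *
        ((eT i r : ℝ) * (cT i t : ℝ) - (eT i t : ℝ) * (cT i r : ℝ))) := by
    intro i
    simp only [lin, Fin.sum_univ_four]
    ring
  rw [Finset.sum_congr rfl fun i _ => h1 i, Finset.sum_comm]
  refine Finset.sum_eq_zero fun r _ => ?_
  rw [Finset.sum_comm]
  refine Finset.sum_eq_zero fun t _ => ?_
  rw [← Finset.mul_sum, h, mul_zero]

/-- partial form of `lin_five` -/
theorem lin_five' (π ρ : Fin 4 → ℝ) (m r t : Fin 4) :
    ∑ i, (lin π (wT i) * lin ρ (eT i) - lin ρ (wT i) * lin π (eT i)) * (eT i m : ℝ) *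
      ((eT i r : ℝ) * (cT i t : ℝ) - (eT i t : ℝ) * (cT i r : ℝ)) = 0 := by
  have h1 : ∀ i, (lin π (wT i) * lin ρ (eT i) - lin ρ (wT i) * lin π (eT i)) * (eT i m : ℝ) *
      ((eT i r : ℝ) * (cT i t : ℝ) - (eT i t : ℝ) * (cT i r : ℝ)) =
      ∑ p, ∑ q, π p * ρ q * ((((wT i p * eT i q - wT i q * eT i p) * eT i m *
        (eT i r * cT i t - eT i t * cT i r) : ℤ) : ℝ)) := by
    intro i
    push_cast
    simp only [lin, Fin.sum_univ_four]
    ring
  rw [Finset.sum_congr rfl fun i _ => h1 i, Finset.sum_comm]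
  refine Finset.sum_eq_zero fun p _ => ?_
  rw [Finset.sum_comm]
  refine Finset.sum_eq_zero fun q _ => ?_
  rw [← Finset.mul_sum, ← Int.cast_sum, T5, Int.cast_zero, mul_zero]

/-- the symbol identity `T5` in linear functionals -/
theorem lin_five (π ρ φ μ ν : Fin 4 → ℝ) :
    ∑ i, (lin π (wT i) * lin ρ (eT i) - lin ρ (wT i) * lin π (eT i)) * lin φ (eT i) *
      (lin μ (eT i) * lin ν (cT i) - lin ν (eT i) * lin μ (cT i)) = 0 :=
  lin_three _ (lin_five' π ρ) φ μ ν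

end Pool.Agent.F194.X

end
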