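import Pool.Agent.Work.MP_f194bb_nt.X.Trans
import Pool.Agent.Work.MP_f194bb_nt.X.Inv

/-!
# MP_f194bb_nt, `X_1(11)`: the logarithms of the units have mean zero
-/

set_option autoImplicit false

open scoped ComplexConjugate PeriodPair
open MeasureTheory Filter Topology UnitAddTorus

noncomputable section

namespace Pool.Agent.F194.X

variable {L : PeriodPair}

/-- the function on the torus defined by a periodic function, at an arbitrary representative -/
private theorem mz_tor_coe {F : ℂ → ℂ} (hF : Per L F) (x : Fin 2 → ℝ) :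
    tor L F (fun i => (x i : UnitAddCircle)) = F (E L x) := by
  set t : UnitAddTorus (Fin 2) := fun i => (x i : UnitAddCircle) with ht
  set y : Fin 2 → ℝ := (measurableEquivPiIoc (fun _ : Fin 2 => (0 : ℝ)) t : Fin 2 → ℝ) with hy
  have h1 : ∀ i, (y i : UnitAddCircle) = (x i : UnitAddCircle) := by
    intro i
    have h := (measurableEquivPiIoc (fun _ : Fin 2 => (0 : ℝ))).symm_apply_apply t
    rw [coe_symm_measurableEquivPiIoc_apply] at h
    exact congrFun h i
  have h2 : ∀ i, ∃ n : ℤ, (n : ℝ) = x i - y i := by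
    intro i
    have h : ((x i - y i : ℝ) : UnitAddCircle) = 0 := by
      rw [AddCircle.coe_sub, h1, sub_self]
    obtain ⟨n, hn⟩ := (AddCircle.coe_eq_zero_iff (1 : ℝ)).1 h
    exact ⟨n, by simpa using hn⟩
  obtain ⟨a, ha⟩ := h2 0
  obtain ⟨b, hb⟩ := h2 1
  have h3 : E L x = E L y + ((a : ℂ) * L.ω₁ + (b : ℂ) * L.ω₂) := by
    have ha' : (a : ℂ) = (x 0 : ℂ) - y 0 := by
      rw [← Complex.ofReal_sub, ← ha]
      simp
    have hb' : (b : ℂ) = (x 1 : ℂ) - y 1 := by
      rw [← Complex.ofReal_sub, ← hb]
      simp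
    rw [E, E, ha', hb']
    ring
  have h4 : (a : ℂ) * L.ω₁ + (b : ℂ) * L.ω₂ ∈ L.lattice := PeriodPair.mem_lattice.2 ⟨a, b, rfl⟩
  show F (E L y) = F (E L x)
  rw [h3]
  exact (hF ⟨_, h4⟩ _).symm

theorem mean_shift {F : ℂ → ℂ} (hF : Per L F) (s : ℂ) : mean L (fun z => F (z + s)) = mean L F := by
  set S : TT := fun i => ((co L i s : ℝ) : UnitAddCircle) with hS
  have h1 : mean L (fun z => F (z + s)) = ∫ t : TT, tor L F (t + S) := by
    rw [integral_TT, mean]
    refine setIntegral_congr_fun measurableSet_box_tor fun x _ => ?_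
    show F (E L x + s) = tor L F ((fun i => (x i : UnitAddCircle)) + S)
    have h2 : ((fun i => (x i : UnitAddCircle)) + S : TT) =
        fun i => ((x i + co L i s : ℝ) : UnitAddCircle) := by
      funext i
      rw [Pi.add_apply, hS, AddCircle.coe_add]
    have h3 : E L x + s = E L (fun i => x i + co L i s) := by
      conv_lhs => rw [← E_co L s]
      simp only [E]
      push_cast
      ring
    rw [h2, mz_tor_coe hF, h3]
  rw [h1, integral_add_right_eq_self (fun t : TT => tor L F t) S, integral_tor]

private theorem mz_tauS_sq : ∀ k, tauS k = 1 ∨ tauS k = -1 := by decide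

theorem mean_lg_U (hL : XL L) (k : Fin 4) : mean L (lg (U L k)) = 0 := by
  obtain ⟨s, hC, hU, -, -⟩ := exists_shift hL
  have hper : ∀ k, Per L (lg (U L k)) := fun k l z => by
    unfold lg
    rw [U_per k l z]
  have hint : ∀ k, Integrable (tor L (lg (U L k))) := fun k => by
    have := memLp_lg L (U L k) (U_mero k) (U_nz hL k) 1
    rw [Nat.cast_one] at this
    exact memLp_one_iff_integrable.1 this
  have key : ∀ k, mean L (lg (U L k)) = ∑ j, (tauM k j : ℂ) * mean L (lg (U L j)) := by
    intro k
    rw [← mean_shift (hper k) s]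
    have h1 : mean L (fun z => lg (U L k) (z + s)) =
        mean L (fun z => ∑ j, (tauM k j : ℂ) * lg (U L j) z) := by
      unfold mean
      refine integral_congr_ae ?_
      filter_upwards [E_ae L (Cs_countable hL)] with x hx
      have h2 := lu_shift hL hU hx k
      show ((lu L (E L x + s) k : ℝ) : ℂ) = ∑ j, (tauM k j : ℂ) * ((lu L (E L x) j : ℝ) : ℂ)
      rw [h2, lin]
      push_cast
      rfl
    rw [h1, ← integral_tor]
    have h3 : (tor L fun z => ∑ j, (tauM k j : ℂ) * lg (U L j) z) =
        fun t => ∑ j, (tauM k j : ℂ) * tor L (lg (U L j)) t := rfl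
    rw [h3, integral_finsetSum _ fun j _ => (hint j).const_mul _]
    refine Finset.sum_congr rfl fun j _ => ?_
    rw [integral_const_mul, integral_tor]
  have k0 := key 0
  have k1 := key 1
  have k2 := key 2
  have k3 := key 3
  simp only [Fin.sum_univ_four, tauM] at k0 k1 k2 k3
  simp at k0 k1 k2 k3
  set g0 := mean L (lg (U L 0)) with hg0
  set g1 := mean L (lg (U L 1)) with hg1
  set g2 := mean L (lg (U L 2)) with hg2
  set g3 := mean L (lg (U L 3)) with hg3
  have e2 : g2 = 3 * g0 := by linear_combination -k0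
  have e1 : g1 = 4 * g0 := by linear_combination k1 - k2 + e2
  have e0 : g0 = 0 := by
    have : 5 * g0 = 0 := by linear_combination -k3 - 2 * e1 + 2 * e2
    simpa using this
  have e3 : g3 = 0 := by linear_combination -k2 + e1 + 7 * e0
  fin_cases k
  · exact e0
  · exact e1.trans (by rw [e0, mul_zero])
  · exact e2.trans (by rw [e0, mul_zero])
  · exact e3

end Pool.Agent.F194.X

end
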