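import Pool.Agent.Work.MP_f194bb_nt.X.KK
import Pool.Agent.Work.MP_f194bb_nt.X.AN
import Pool.Agent.Work.MP_f194bb_nt.X.Pos

/-!
# MP_f194bb_nt, `X_1(11)`: non-vanishing
-/

set_option autoImplicit false

open scoped ComplexConjugate PeriodPair
open MeasureTheory Filter Topology

noncomputable section

namespace Pool.Agent.F194.X

variable {L : PeriodPair}

theorem ksum_ne (hL : XL L) :
    ∑ i, Ksum L 2 (pr L (dv (gg L i))) (pr L (dv (ff L i))) (pr L (dv (hh L i))) ≠ 0 := by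
  rw [ksum_eq hL]
  refine mul_ne_zero (inv_ne_zero (mul_ne_zero (pow_ne_zero _ (kap_ne L)) (kap'_ne L))) ?_
  intro h
  have h1 := mean_IC_re hL
  rw [h, Complex.zero_re, mean_I0 hL] at h1
  have h2 := line_pos hL
  have h3 := hL.pos1
  have : 0 < 1 / 16 * ((L.ω₁.re)⁻¹ * ∫ t in (0 : ℝ)..L.ω₁.re, I0 L t) := by positivity
  exact absurd h1.symm this.ne'

end Pool.Agent.F194.X

end
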