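import Pool.Agent.Work.NumI.Expr

/-!
# MP_f194bb_nt, `X_1(11)`: the interval check
-/

set_option autoImplicit false

noncomputable section

namespace Pool.Agent.F194.X

open Pool.Agent.Work.NumI

/-! ### the four quartic forms -/

/-- coefficient of the derivative of `log x` -/
def nA1 (X p H K : ℝ) : ℝ :=
  17 * X ^ 3 * H + 1255 * X ^ 3 * K + 714 * X ^ 2 * p * H + 1203 * X ^ 2 * p * K + 1974 * X * p ^
  2 * H - 1710 * X * p ^ 2 * K - 648 * X * H ^ 3 - 3480 * X * H ^ 2 * K + 1620 * X * H * K ^ 2 +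
  2604 * X * K ^ 3 + 2300 * p ^ 3 * H - 1402 * p ^ 3 * K + 1168 * p * H ^ 3 + 696 * p * H ^ 2 * K
  + 5640 * p * H * K ^ 2 - 4628 * p * K ^ 3

/-- coefficient of the derivative of `log (1 + 1/x)` -/
def nA2 (X p H K : ℝ) : ℝ :=
  -752 * X ^ 3 * H + 1156 * X ^ 3 * K - 2856 * X ^ 2 * p * H + 1620 * X ^ 2 * p * K - 3135 * X *
  p ^ 2 * H - 291 * X * p ^ 2 * K - 5812 * X * H ^ 3 - 7884 * X * H ^ 2 * K - 1020 * X * H * K ^
  2 + 2732 * X * K ^ 3 + 1380 * p ^ 3 * H + 19 * p ^ 3 * K - 336 * p * H ^ 3 + 4644 * p * H ^ 2 *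
  K + 4440 * p * H * K ^ 2 - 3468 * p * K ^ 3

/-- coefficient of the derivative of `artanh ((2x+1)/s)` -/
def nA3 (X p H K : ℝ) : ℝ :=
  -17 * X ^ 4 + 38 * X ^ 3 * p + 882 * X ^ 2 * p ^ 2 + 648 * X ^ 2 * H ^ 2 - 840 * X ^ 2 * H * K
  + 840 * X ^ 2 * K ^ 2 + 835 * X * p ^ 3 + 4644 * X * p * H ^ 2 - 2328 * X * p * H * K + 2700 *
  X * p * K ^ 2 - 1380 * p ^ 4 + 336 * p ^ 2 * H ^ 2 - 9516 * p ^ 2 * H * K + 3660 * p ^ 2 * K ^
  2 - 1552 * H ^ 3 * K - 2064 * H ^ 2 * K ^ 2 - 1296 * H * K ^ 3 + 2592 * K ^ 4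

/-- coefficient of the derivative of `artanh (1/s)` -/
def nA4 (X p H K : ℝ) : ℝ :=
  -1255 * X ^ 4 - 2359 * X ^ 3 * p + 90 * X ^ 2 * p ^ 2 + 4320 * X ^ 2 * H ^ 2 - 2460 * X ^ 2 * H
  * K - 2604 * X ^ 2 * K ^ 2 + 1693 * X * p ^ 3 + 9516 * X * p * H ^ 2 - 7320 * X * p * H * K +
  1896 * X * p * K ^ 2 - 19 * p ^ 4 + 4872 * p ^ 2 * H ^ 2 - 8100 * p ^ 2 * H * K + 3468 * p ^ 2
  * K ^ 2 + 1552 * H ^ 4 + 2064 * H ^ 3 * K + 1296 * H ^ 2 * K ^ 2 - 2592 * H * K ^ 3

/-! ### the expressions for the checker -/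

section

open E

/-- expression -/
def nE1 : E :=
  (add (mul (var 4) (add (add (mul (var 6) (mul (var 6) (mul (var 6) (q (-4628) 1)))) (mul (var
  5) (add (mul (var 6) (mul (var 6) (q 5640 1))) (mul (var 5) (add (mul (var 6) (q 696 1)) (mul
  (var 5) (q 1168 1))))))) (mul (var 4) (mul (var 4) (add (mul (var 6) (q (-1402) 1)) (mul (var
  5) (q 2300 1))))))) (mul (var 0) (add (add (add (mul (var 6) (mul (var 6) (mul (var 6) (q 2604
  1)))) (mul (var 5) (add (mul (var 6) (mul (var 6) (q 1620 1))) (mul (var 5) (add (mul (var 6)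
  (q (-3480) 1)) (mul (var 5) (q (-648) 1))))))) (mul (var 4) (mul (var 4) (add (mul (var 6) (q
  (-1710) 1)) (mul (var 5) (q 1974 1)))))) (mul (var 0) (add (mul (var 4) (add (mul (var 6) (q
  1203 1)) (mul (var 5) (q 714 1)))) (mul (var 0) (add (mul (var 6) (q 1255 1)) (mul (var 5) (q
  17 1)))))))))

/-- expression -/
def nE2 : E :=
  (add (mul (var 4) (add (add (mul (var 6) (mul (var 6) (mul (var 6) (q (-3468) 1)))) (mul (var
  5) (add (mul (var 6) (mul (var 6) (q 4440 1))) (mul (var 5) (add (mul (var 6) (q 4644 1)) (mul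
  (var 5) (q (-336) 1))))))) (mul (var 4) (mul (var 4) (add (mul (var 6) (q 19 1)) (mul (var 5)
  (q 1380 1))))))) (mul (var 0) (add (add (add (mul (var 6) (mul (var 6) (mul (var 6) (q 2732
  1)))) (mul (var 5) (add (mul (var 6) (mul (var 6) (q (-1020) 1))) (mul (var 5) (add (mul (var
  6) (q (-7884) 1)) (mul (var 5) (q (-5812) 1))))))) (mul (var 4) (mul (var 4) (add (mul (var 6)
  (q (-291) 1)) (mul (var 5) (q (-3135) 1)))))) (mul (var 0) (add (mul (var 4) (add (mul (var 6)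
  (q 1620 1)) (mul (var 5) (q (-2856) 1)))) (mul (var 0) (add (mul (var 6) (q 1156 1)) (mul (var
  5) (q (-752) 1)))))))))

/-- expression -/
def nE3 : E :=
  (add (add (add (mul (var 6) (mul (var 6) (mul (var 6) (mul (var 6) (q 2592 1))))) (mul (var 5)
  (add (mul (var 6) (mul (var 6) (mul (var 6) (q (-1296) 1)))) (mul (var 5) (add (mul (var 6)
  (mul (var 6) (q (-2064) 1))) (mul (var 5) (mul (var 6) (q (-1552) 1)))))))) (mul (var 4) (mul
  (var 4) (add (add (mul (var 6) (mul (var 6) (q 3660 1))) (mul (var 5) (add (mul (var 6) (q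
  (-9516) 1)) (mul (var 5) (q 336 1))))) (mul (var 4) (mul (var 4) (q (-1380) 1))))))) (mul (var
  0) (add (mul (var 4) (add (add (mul (var 6) (mul (var 6) (q 2700 1))) (mul (var 5) (add (mul
  (var 6) (q (-2328) 1)) (mul (var 5) (q 4644 1))))) (mul (var 4) (mul (var 4) (q 835 1))))) (mul
  (var 0) (add (add (add (mul (var 6) (mul (var 6) (q 840 1))) (mul (var 5) (add (mul (var 6) (q
  (-840) 1)) (mul (var 5) (q 648 1))))) (mul (var 4) (mul (var 4) (q 882 1)))) (mul (var 0) (add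
  (mul (var 4) (q 38 1)) (mul (var 0) (q (-17) 1)))))))))

/-- expression -/
def nE4 : E :=
  (add (add (mul (var 5) (add (mul (var 6) (mul (var 6) (mul (var 6) (q (-2592) 1)))) (mul (var
  5) (add (mul (var 6) (mul (var 6) (q 1296 1))) (mul (var 5) (add (mul (var 6) (q 2064 1)) (mul
  (var 5) (q 1552 1)))))))) (mul (var 4) (mul (var 4) (add (add (mul (var 6) (mul (var 6) (q 3468
  1))) (mul (var 5) (add (mul (var 6) (q (-8100) 1)) (mul (var 5) (q 4872 1))))) (mul (var 4)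
  (mul (var 4) (q (-19) 1))))))) (mul (var 0) (add (mul (var 4) (add (add (mul (var 6) (mul (var
  6) (q 1896 1))) (mul (var 5) (add (mul (var 6) (q (-7320) 1)) (mul (var 5) (q 9516 1))))) (mul
  (var 4) (mul (var 4) (q 1693 1))))) (mul (var 0) (add (add (add (mul (var 6) (mul (var 6) (q
  (-2604) 1))) (mul (var 5) (add (mul (var 6) (q (-2460) 1)) (mul (var 5) (q 4320 1))))) (mul
  (var 4) (mul (var 4) (q 90 1)))) (mul (var 0) (add (mul (var 4) (q (-2359) 1)) (mul (var 0) (q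
  (-1255) 1)))))))))

/-- the expression, the variable is `log x` -/
def nE : E :=
  lt (exp (neg (var 0)))
  (lt (mul (var 1) (inv (add (q 1 1) (var 1))))
  (lt (exp (mul (q 1 2) (add (var 0) (log (add (q 4 1) (mul (var 1) (add (q 8 1)
    (mul (var 1) (add (q 4 1) (var 1))))))))))
  (lt (log (add (q 1 1) (var 1)))
  (lt (mul (q 1 2) (sub (log (add (var 3) (add (q 2 1) (var 1))))
    (log (sub (var 3) (add (q 2 1) (var 1))))))
  (lt (mul (q 1 2) (sub (log (add (var 3) (var 1))) (log (sub (var 3) (var 1)))))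
  (sub (mul (var 3) (sub nE1 (mul (var 2) nE2)))
    (add (mul (sub (add (q 1 1) (var 1)) (mul (q 1 2) (var 2))) nE3)
      (mul (add (mul (q 1 2) (var 1)) (var 2)) nE4))))))))

end

theorem num_chk : chk [nE] 12 [V.of 100 (-29) 600] = true := by decide +kernel

theorem num_E1 (a b c p H K : ℝ) (X : ℝ) :
    nE1.val [X, a, b, c, p, H, K] = nA1 X p H K := by
  simp only [nE1, nA1, E.val, lkR_zero, lkR_succ]
  push_cast
  ring

theorem num_E2 (a b c p H K : ℝ) (X : ℝ) :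
    nE2.val [X, a, b, c, p, H, K] = nA2 X p H K := by
  simp only [nE2, nA2, E.val, lkR_zero, lkR_succ]
  push_cast
  ring

theorem num_E3 (a b c p H K : ℝ) (X : ℝ) :
    nE3.val [X, a, b, c, p, H, K] = nA3 X p H K := by
  simp only [nE3, nA3, E.val, lkR_zero, lkR_succ]
  push_cast
  ring

theorem num_E4 (a b c p H K : ℝ) (X : ℝ) :
    nE4.val [X, a, b, c, p, H, K] = nA4 X p H K := by
  simp only [nE4, nA4, E.val, lkR_zero, lkR_succ]
  push_cast
  ring

/-- positivity for `-0.29 ≤ log x ≤ 6` -/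
theorem num_box {X r u w p H K : ℝ} (h1 : -(29 / 100) ≤ X) (h2 : X ≤ 6)
    (hr : r = Real.exp (-X)) (hu : u = r * (1 + r)⁻¹)
    (hw : w = Real.exp (1 / 2 * (X + Real.log (4 + r * (8 + r * (4 + r))))))
    (hp : p = Real.log (1 + r))
    (hH : H = 1 / 2 * (Real.log (w + (2 + r)) - Real.log (w - (2 + r))))
    (hK : K = 1 / 2 * (Real.log (w + r) - Real.log (w - r))) :
    0 < w * nA1 X p H K + -(w * u) * nA2 X p H K + -(1 + r - 1 / 2 * u) * nA3 X p H K +
      -(1 / 2 * r + u) * nA4 X p H K := by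
  have hc := pos_of_chk (chk1 num_chk (by norm_num) (x := X)
    (by push_cast; linarith only [h1]) (by push_cast; linarith only [h2]))
  have e : nE.val [X] = w * nA1 X p H K + -(w * u) * nA2 X p H K +
      -(1 + r - 1 / 2 * u) * nA3 X p H K + -(1 / 2 * r + u) * nA4 X p H K := by
    subst hK hH hp hw hu hr
    simp only [nE, E.val, lkR_zero, lkR_succ, List.cons_append, List.nil_append, num_E1, num_E2,
      num_E3, num_E4, Int.cast_one, Nat.cast_one, div_one, Int.cast_ofNat, Nat.cast_ofNat]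
    ring
  rw [← e]
  exact hc

end Pool.Agent.F194.X

end
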