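import Pool.Agent.Work.MP_f194bb_nt.X.PLc

/-!
# MP_f194bb_nt, `X_1(11)`: single valued polylogarithms
-/

set_option autoImplicit false

open scoped ComplexConjugate PeriodPair
open MeasureTheory Filter Topology

noncomputable section

namespace Pool.Agent.F194.X

theorem exists_polylog : Nonempty PolyLog := by
  obtain ⟨H⟩ := exists_holLi
  obtain ⟨H'⟩ := exists_polyLogD H
  exact exists_polylog_of H'

end Pool.Agent.F194.X

end
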