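import Pool.Agent.Work.MP_f194bb_nt.X.PLa

/-!
# MP_f194bb_nt, `X_1(11)`: single valued polylogarithms, derivatives
-/

set_option autoImplicit false

open scoped ComplexConjugate PeriodPair
open MeasureTheory Filter Topology

noncomputable section

namespace Pool.Agent.F194.X

/-- The single valued polylogarithms without the estimates. -/
structure PolyLogD where
  L2 : ℂ → ℝ
  L3 : ℂ → ℝ
  L4 : ℂ → ℝ
  C : ℝ
  d2 : ∀ z, z ≠ 0 → z ≠ 1 → HasFDerivAt L2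
    (Real.log ‖z‖ • il (z - 1)⁻¹ - Real.log ‖1 - z‖ • il z⁻¹) z
  d3 : ∀ z, z ≠ 0 → z ≠ 1 → HasFDerivAt L3
    (-(L2 z) • il z⁻¹ - (1 / 3 * Real.log ‖z‖) •
      (Real.log ‖z‖ • rl (z - 1)⁻¹ - Real.log ‖1 - z‖ • rl z⁻¹)) z
  d4 : ∀ z, z ≠ 0 → z ≠ 1 → HasFDerivAt L4
    (L3 z • il z⁻¹ - (1 / 3 * Real.log ‖z‖ * L2 z) • rl z⁻¹) z
  r2 : ∀ z, z.im = 0 → L2 z = 0
  r4 : ∀ z, z.im = 0 → L4 z = 0
  n2 : ∀ z, z ≠ 0 → L2 z⁻¹ = -L2 z
  n3 : ∀ z, z ≠ 0 → L3 z⁻¹ = L3 z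
  n4 : ∀ z, z ≠ 0 → L4 z⁻¹ = -L4 z
  s2 : ∀ z, z ≠ 0 → ‖z‖ ≤ 1 / 2 → |L2 z| ≤ C * ‖z‖ * (1 + |Real.log ‖z‖|)
  s3 : ∀ z, z ≠ 0 → ‖z‖ ≤ 1 / 2 → |L3 z| ≤ C * ‖z‖ * (1 + |Real.log ‖z‖| ^ 2)
  s4 : ∀ z, z ≠ 0 → ‖z‖ ≤ 1 / 2 → |L4 z| ≤ C * ‖z‖ * (1 + |Real.log ‖z‖| ^ 2)
  v0 : L2 0 = 0 ∧ L3 0 = 0 ∧ L4 0 = 0

/-! ### real derivatives -/

theorem plb_re {f : ℂ → ℂ} {d z : ℂ} (h : HasDerivAt f d z) :
    HasFDerivAt (fun z => (f z).re) (rl d) z := by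
  have h1 := Complex.reCLM.hasFDerivAt.comp z (h.hasFDerivAt.restrictScalars ℝ)
  refine h1.congr_fderiv ?_
  ext v
  simp [mul_comm]

theorem plb_im {f : ℂ → ℂ} {d z : ℂ} (h : HasDerivAt f d z) :
    HasFDerivAt (fun z => (f z).im) (il d) z := by
  have h1 := Complex.imCLM.hasFDerivAt.comp z (h.hasFDerivAt.restrictScalars ℝ)
  refine h1.congr_fderiv ?_
  ext v
  simp [mul_comm]

theorem plb_log {z : ℂ} (hz : z ≠ 0) :
    HasFDerivAt (fun z : ℂ => Real.log ‖z‖) (rl z⁻¹) z := by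
  have h1 : HasDerivAt (fun w : ℂ => Complex.log (w / z)) z⁻¹ z := by
    have h2 : HasDerivAt (fun w : ℂ => w / z) (1 / z) z := (hasDerivAt_id' z).div_const z
    have h3 : HasDerivAt Complex.log (1 : ℂ)⁻¹ ((fun w : ℂ => w / z) z) := by
      show HasDerivAt Complex.log (1 : ℂ)⁻¹ (z / z)
      rw [div_self hz]
      exact Complex.hasDerivAt_log Complex.one_mem_slitPlane
    have h4 := HasDerivAt.comp (h₂ := Complex.log) (h := fun w : ℂ => w / z) z h3 h2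
    refine h4.congr_deriv ?_
    simp
  have h5 := (plb_re h1).add_const (Real.log ‖z‖)
  refine h5.congr_of_eventuallyEq ?_
  filter_upwards [isOpen_ne.mem_nhds hz] with w hw
  rw [Complex.log_re, norm_div, Real.log_div (norm_ne_zero_iff.2 hw) (norm_ne_zero_iff.2 hz)]
  ring

theorem plb_log1 {z : ℂ} (hz : z ≠ 1) :
    HasFDerivAt (fun z : ℂ => Real.log ‖1 - z‖) (rl (z - 1)⁻¹) z := by
  have h0 : 1 - z ≠ 0 := sub_ne_zero.2 hz.symm
  have h1 := plb_log h0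
  have h2 : HasFDerivAt (fun z : ℂ => 1 - z) (-(ContinuousLinearMap.id ℝ ℂ)) z :=
    (hasFDerivAt_id z).const_sub 1
  have h3 := h1.comp z h2
  refine h3.congr_fderiv ?_
  ext v
  simp only [ContinuousLinearMap.comp_apply, rl_apply, ContinuousLinearMap.neg_apply,
    ContinuousLinearMap.id_apply]
  have e : (1 - z)⁻¹ * -v = (z - 1)⁻¹ * v := by
    rw [← neg_sub z 1, inv_neg]
    ring
  rw [e]

theorem plb_arg {z : ℂ} (hz : z ∈ Om) :
    HasFDerivAt (fun z : ℂ => Complex.arg (1 - z)) (il (z - 1)⁻¹) z := by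
  have h1 : HasDerivAt (fun z : ℂ => Complex.log (1 - z)) (z - 1)⁻¹ z := by
    have h2 : HasDerivAt (fun z : ℂ => 1 - z) (-1) z := (hasDerivAt_id' z).const_sub 1
    have h3 := (Complex.hasDerivAt_log hz).comp z h2
    refine h3.congr_deriv ?_
    rw [← neg_sub z 1, inv_neg]
    ring
  have h4 := plb_im h1
  simpa only [Complex.log_im] using h4

/-! ### the formulas -/

/-- weight 2 -/
def plQ2 (H : HolLi) (z : ℂ) : ℝ := (H.l2 z).im + Real.log ‖z‖ * Complex.arg (1 - z)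

/-- weight 3 -/
def plQ3 (H : HolLi) (z : ℂ) : ℝ :=
  (H.l3 z).re - Real.log ‖z‖ * (H.l2 z).re - 1 / 3 * Real.log ‖z‖ ^ 2 * Real.log ‖1 - z‖

/-- weight 4 -/
def plQ4 (H : HolLi) (z : ℂ) : ℝ :=
  (H.l4 z).im - Real.log ‖z‖ * (H.l3 z).im + 1 / 3 * Real.log ‖z‖ ^ 2 * (H.l2 z).im

/-- the derivative in weight 2 -/
def plE2 (z : ℂ) : ℂ →L[ℝ] ℝ := Real.log ‖z‖ • il (z - 1)⁻¹ - Real.log ‖1 - z‖ • il z⁻¹

/-- the derivative in weight 3 -/
def plE3 (p : ℝ) (z : ℂ) : ℂ →L[ℝ] ℝ := -p • il z⁻¹ - (1 / 3 * Real.log ‖z‖) •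
  (Real.log ‖z‖ • rl (z - 1)⁻¹ - Real.log ‖1 - z‖ • rl z⁻¹)

/-- the derivative in weight 4 -/
def plE4 (p q : ℝ) (z : ℂ) : ℂ →L[ℝ] ℝ := q • il z⁻¹ - (1 / 3 * Real.log ‖z‖ * p) • rl z⁻¹

variable (H : HolLi)

theorem plQ2_deriv {z : ℂ} (hz : z ∈ Om) (h0 : z ≠ 0) : HasFDerivAt (plQ2 H) (plE2 z) z := by
  have h1 := plb_im (H.h2 z hz h0)
  have h2 := (plb_log h0).fun_mul (plb_arg hz)
  refine (h1.fun_add h2).congr_fderiv ?_
  ext v
  have e : -Complex.log (1 - z) / z * v = -(Complex.log (1 - z) * (z⁻¹ * v)) := by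
    ring
  simp only [plE2, ContinuousLinearMap.add_apply, ContinuousLinearMap.smul_apply,
    ContinuousLinearMap.sub_apply, il_apply, rl_apply, e, Complex.neg_im, Complex.mul_im
    (Complex.log (1 - z)), Complex.log_re, Complex.log_im, smul_eq_mul]
  ring

theorem plQ3_deriv {z : ℂ} (hz : z ∈ Om) (h0 : z ≠ 0) (h1 : z ≠ 1) :
    HasFDerivAt (plQ3 H) (plE3 (plQ2 H z) z) z := by
  have a1 := plb_re (H.h3 z hz h0)
  have a2 := (plb_log h0).fun_mul (plb_re (H.h2 z hz h0))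
  have a3 := (((plb_log h0).pow 2).const_mul (1 / 3)).fun_mul (plb_log1 h1)
  refine ((a1.fun_sub a2).fun_sub a3).congr_fderiv ?_
  ext v
  have e1 : -Complex.log (1 - z) / z * v = -(Complex.log (1 - z) * (z⁻¹ * v)) := by
    ring
  have e2 : H.l2 z / z * v = H.l2 z * (z⁻¹ * v) := by ring
  simp only [plE3, plQ2, ContinuousLinearMap.add_apply, ContinuousLinearMap.smul_apply,
    ContinuousLinearMap.sub_apply, il_apply, rl_apply, e1, e2, Complex.neg_re, Complex.mul_re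
    (Complex.log (1 - z)), Complex.mul_re (H.l2 z), Complex.log_re, Complex.log_im, smul_eq_mul]
  simp only [ContinuousLinearMap.smul_apply, smul_eq_mul, nsmul_eq_mul]
  norm_num
  ring

theorem plQ4_deriv {z : ℂ} (hz : z ∈ Om) (h0 : z ≠ 0) :
    HasFDerivAt (plQ4 H) (plE4 (plQ2 H z) (plQ3 H z) z) z := by
  have a1 := plb_im (H.h4 z hz h0)
  have a2 := (plb_log h0).fun_mul (plb_im (H.h3 z hz h0))
  have a3 := (((plb_log h0).pow 2).const_mul (1 / 3)).fun_mul (plb_im (H.h2 z hz h0))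
  refine ((a1.fun_sub a2).fun_add a3).congr_fderiv ?_
  ext v
  have e1 : -Complex.log (1 - z) / z * v = -(Complex.log (1 - z) * (z⁻¹ * v)) := by
    ring
  have e2 : H.l2 z / z * v = H.l2 z * (z⁻¹ * v) := by ring
  have e3 : H.l3 z / z * v = H.l3 z * (z⁻¹ * v) := by ring
  simp only [plE4, plQ2, plQ3, ContinuousLinearMap.add_apply, ContinuousLinearMap.smul_apply,
    ContinuousLinearMap.sub_apply, il_apply, rl_apply, e1, e2, e3, Complex.neg_im, Complex.mul_im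
    (Complex.log (1 - z)), Complex.mul_im (H.l2 z), Complex.mul_im (H.l3 z), Complex.log_re,
    Complex.log_im, smul_eq_mul]
  simp only [ContinuousLinearMap.smul_apply, smul_eq_mul, nsmul_eq_mul]
  norm_num
  ring

/-! ### inversion -/

/-- the derivative of the inversion -/
def plI (z : ℂ) : ℂ →L[ℝ] ℂ := ContinuousLinearMap.mul ℝ ℂ (-(z ^ 2)⁻¹)

theorem plI_deriv {z : ℂ} (h0 : z ≠ 0) : HasFDerivAt (fun z : ℂ => z⁻¹) (plI z) z := by
  refine ((hasDerivAt_inv h0).hasFDerivAt.restrictScalars ℝ).congr_fderiv ?_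
  ext v
  simp [plI, mul_comm]

theorem plI_a {z : ℂ} (h0 : z ≠ 0) (v : ℂ) : (z⁻¹)⁻¹ * plI z v = -(z⁻¹ * v) := by
  show (z⁻¹)⁻¹ * (-(z ^ 2)⁻¹ * v) = _
  field_simp

theorem plI_b {z : ℂ} (h0 : z ≠ 0) (h1 : z ≠ 1) (v : ℂ) :
    (z⁻¹ - 1)⁻¹ * plI z v = (z - 1)⁻¹ * v - z⁻¹ * v := by
  show (z⁻¹ - 1)⁻¹ * (-(z ^ 2)⁻¹ * v) = _
  have h2 : z - 1 ≠ 0 := sub_ne_zero.2 h1
  have h3 : 1 - z ≠ 0 := sub_ne_zero.2 h1.symm
  have e : z⁻¹ - 1 = (1 - z) / z := by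
    field_simp
  rw [e, inv_div]
  have e2 : (z - 1)⁻¹ = -(1 - z)⁻¹ := by rw [← neg_sub z 1, inv_neg, neg_neg]
  rw [e2]
  field_simp
  ring

theorem plI_log (z : ℂ) : Real.log ‖z⁻¹‖ = -Real.log ‖z‖ := by
  rw [norm_inv, Real.log_inv]

theorem plI_log1 {z : ℂ} (h0 : z ≠ 0) (h1 : z ≠ 1) :
    Real.log ‖1 - z⁻¹‖ = Real.log ‖1 - z‖ - Real.log ‖z‖ := by
  have e : 1 - z⁻¹ = -(1 - z) / z := by
    field_simp
    ring
  rw [e, norm_div, norm_neg, Real.log_div (norm_ne_zero_iff.2 (sub_ne_zero.2 h1.symm))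
    (norm_ne_zero_iff.2 h0)]

theorem plE2_inv {z : ℂ} (h0 : z ≠ 0) (h1 : z ≠ 1) : (plE2 z⁻¹).comp (plI z) = -plE2 z := by
  ext v
  simp only [plE2, ContinuousLinearMap.comp_apply, ContinuousLinearMap.smul_apply,
    ContinuousLinearMap.sub_apply, ContinuousLinearMap.neg_apply, il_apply, plI_a h0,
    plI_b h0 h1, plI_log, plI_log1 h0 h1, smul_eq_mul, Complex.sub_im, Complex.neg_im]
  ring

theorem plE3_inv (p : ℝ) {z : ℂ} (h0 : z ≠ 0) (h1 : z ≠ 1) :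
    (plE3 p z⁻¹).comp (plI z) = plE3 (-p) z := by
  ext v
  simp only [plE3, ContinuousLinearMap.comp_apply, ContinuousLinearMap.smul_apply,
    ContinuousLinearMap.sub_apply, il_apply, rl_apply, plI_a h0,
    plI_b h0 h1, plI_log, plI_log1 h0 h1, smul_eq_mul, Complex.sub_re, Complex.neg_im,
    Complex.neg_re]
  ring

theorem plE4_inv (p q : ℝ) {z : ℂ} (h0 : z ≠ 0) :
    (plE4 p q z⁻¹).comp (plI z) = -plE4 (-p) q z := by
  ext v
  simp only [plE4, ContinuousLinearMap.comp_apply, ContinuousLinearMap.smul_apply,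
    ContinuousLinearMap.sub_apply, ContinuousLinearMap.neg_apply, il_apply, rl_apply, plI_a h0,
    plI_log, smul_eq_mul, Complex.neg_im, Complex.neg_re]
  ring

/-! ### complex conjugation -/

theorem plQ2_conj {z : ℂ} (hz : z ∈ Om) : plQ2 H (conj z) = -plQ2 H z := by
  have h : Complex.arg (1 - conj z) = -Complex.arg (1 - z) := by
    have e : 1 - conj z = conj (1 - z) := by rw [map_sub, map_one]
    rw [e, Complex.arg_conj, if_neg (Complex.slitPlane_arg_ne_pi hz)]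
  rw [plQ2, plQ2, H.c2 z hz, h, Complex.conj_im, Complex.norm_conj]
  ring

theorem plQ3_conj {z : ℂ} (hz : z ∈ Om) : plQ3 H (conj z) = plQ3 H z := by
  have e : ‖1 - conj z‖ = ‖1 - z‖ := by
    rw [← Complex.norm_conj (1 - z), map_sub, map_one]
  rw [plQ3, plQ3, H.c2 z hz, H.c3 z hz, Complex.conj_re, Complex.conj_re, Complex.norm_conj, e]

theorem plQ4_conj {z : ℂ} (hz : z ∈ Om) : plQ4 H (conj z) = -plQ4 H z := by
  rw [plQ4, plQ4, H.c2 z hz, H.c3 z hz, H.c4 z hz, Complex.conj_im, Complex.conj_im,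
    Complex.conj_im, Complex.norm_conj]
  ring

theorem plQ2_real {z : ℂ} (hz : z ∈ Om) (h : z.im = 0) : plQ2 H z = 0 := by
  have e : conj z = z := Complex.conj_eq_iff_im.2 h
  have := plQ2_conj H hz
  rw [e] at this
  linarith

theorem plQ4_real {z : ℂ} (hz : z ∈ Om) (h : z.im = 0) : plQ4 H z = 0 := by
  have e : conj z = z := Complex.conj_eq_iff_im.2 h
  have := plQ4_conj H hz
  rw [e] at this
  linarith

/-! ### the domain `ℂ ∖ [0, ∞)` -/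

/-- `ℂ ∖ [0, ∞)` -/
def OmN : Set ℂ := {z | -z ∈ Complex.slitPlane}

theorem plN_isOpen : IsOpen OmN := Complex.isOpen_slitPlane.preimage continuous_neg

theorem plN_preconnected : IsPreconnected OmN := by
  have h : OmN = (fun z : ℂ => -z) '' Complex.slitPlane := by
    ext z
    constructor
    · intro hz
      exact ⟨-z, hz, neg_neg z⟩
    · rintro ⟨w, hw, rfl⟩
      show - -w ∈ Complex.slitPlane
      rwa [neg_neg]
  rw [h]
  have h1 : IsPreconnected Complex.slitPlane :=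
    (Complex.starConvex_one_slitPlane.isPathConnected
      Complex.one_mem_slitPlane).isConnected.isPreconnected
  exact h1.image _ continuous_neg.continuousOn

theorem plN_ne {z : ℂ} (hz : z ∈ OmN) : z ≠ 0 ∧ z ≠ 1 ∧ z ∈ Om := by
  have h : 0 < (-z).re ∨ (-z).im ≠ 0 := Complex.mem_slitPlane_iff.1 hz
  simp only [Complex.neg_re, Complex.neg_im, neg_ne_zero] at h
  refine ⟨?_, ?_, ?_⟩
  · rintro rfl
    simp at h
  · rintro rfl
    simp at h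
    linarith
  · show 1 - z ∈ Complex.slitPlane
    rw [Complex.mem_slitPlane_iff]
    simp only [Complex.sub_re, Complex.one_re, Complex.sub_im, Complex.one_im]
    rcases h with h | h
    · left
      linarith
    · right
      intro h'
      apply h
      linarith

theorem plN_inv {z : ℂ} (hz : z ∈ OmN) : z⁻¹ ∈ OmN := by
  have h : 0 < (-z).re ∨ (-z).im ≠ 0 := Complex.mem_slitPlane_iff.1 hz
  have h0 := (plN_ne hz).1
  show -z⁻¹ ∈ Complex.slitPlane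
  have hp : 0 < Complex.normSq z := Complex.normSq_pos.2 h0
  rw [Complex.mem_slitPlane_iff]
  simp only [Complex.neg_re, Complex.neg_im, neg_ne_zero, Complex.inv_re, Complex.inv_im] at h ⊢
  rcases h with h | h
  · left
    rw [← neg_div]
    exact div_pos h hp
  · right
    exact div_ne_zero (neg_ne_zero.2 h) hp.ne'

theorem plN_one : (-1 : ℂ) ∈ OmN := by
  show -(-1 : ℂ) ∈ Complex.slitPlane
  rw [neg_neg]
  exact Complex.one_mem_slitPlane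

theorem plN_const {f : ℂ → ℝ} (hf : ∀ z ∈ OmN, HasFDerivAt f (0 : ℂ →L[ℝ] ℝ) z)
    (h1 : f (-1) = 0) {z : ℂ} (hz : z ∈ OmN) : f z = 0 := by
  rw [← h1]
  refine plN_isOpen.is_const_of_fderiv_eq_zero (𝕜 := ℝ) plN_preconnected
    (fun z hz => (hf z hz).differentiableAt.differentiableWithinAt) ?_ hz plN_one
  intro z hz
  exact (hf z hz).fderiv

theorem plQ2_inv {z : ℂ} (hz : z ∈ OmN) : plQ2 H z⁻¹ = -plQ2 H z := by
  have h : plQ2 H z + plQ2 H z⁻¹ = 0 := by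
    refine plN_const (f := fun z => plQ2 H z + plQ2 H z⁻¹) ?_ ?_ hz
    · intro w hw
      obtain ⟨h0, h1, h2⟩ := plN_ne hw
      obtain ⟨k0, k1, k2⟩ := plN_ne (plN_inv hw)
      have e1 := plQ2_deriv H h2 h0
      have e2 := (plQ2_deriv H k2 k0).comp w (plI_deriv h0)
      rw [plE2_inv h0 h1] at e2
      exact (e1.fun_add e2).congr_fderiv (by abel)
    · have e := plQ2_real H (plN_ne plN_one).2.2 (by simp)
      simp [e]
  linarith

theorem plQ3_inv {z : ℂ} (hz : z ∈ OmN) : plQ3 H z⁻¹ = plQ3 H z := by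
  have h : plQ3 H z - plQ3 H z⁻¹ = 0 := by
    refine plN_const (f := fun z => plQ3 H z - plQ3 H z⁻¹) ?_ ?_ hz
    · intro w hw
      obtain ⟨h0, h1, h2⟩ := plN_ne hw
      obtain ⟨k0, k1, k2⟩ := plN_ne (plN_inv hw)
      have e1 := plQ3_deriv H h2 h0 h1
      have e2 := (plQ3_deriv H k2 k0 k1).comp w (plI_deriv h0)
      rw [plE3_inv _ h0 h1, plQ2_inv H hw, neg_neg] at e2
      exact (e1.fun_sub e2).congr_fderiv (by abel)
    · simp
  linarith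

theorem plQ4_inv {z : ℂ} (hz : z ∈ OmN) : plQ4 H z⁻¹ = -plQ4 H z := by
  have h : plQ4 H z + plQ4 H z⁻¹ = 0 := by
    refine plN_const (f := fun z => plQ4 H z + plQ4 H z⁻¹) ?_ ?_ hz
    · intro w hw
      obtain ⟨h0, h1, h2⟩ := plN_ne hw
      obtain ⟨k0, k1, k2⟩ := plN_ne (plN_inv hw)
      have e1 := plQ4_deriv H h2 h0
      have e2 := (plQ4_deriv H k2 k0).comp w (plI_deriv h0)
      rw [plE4_inv _ _ h0, plQ2_inv H hw, plQ3_inv H hw, neg_neg] at e2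
      exact (e1.fun_add e2).congr_fderiv (by abel)
    · have e := plQ4_real H (plN_ne plN_one).2.2 (by simp)
      simp [e]
  linarith

/-! ### patching -/

theorem plb_mem {z : ℂ} (h : ‖z‖ ≤ 1) (h1 : z ≠ 1) : z ∈ Om := by
  show 1 - z ∈ Complex.slitPlane
  rw [Complex.mem_slitPlane_iff]
  by_contra hcon
  push Not at hcon
  obtain ⟨h2, h3⟩ := hcon
  simp only [Complex.sub_re, Complex.one_re, Complex.sub_im, Complex.one_im, zero_sub,
    neg_eq_zero] at h2 h3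
  have h4 : z.re ≤ 1 := (le_abs_self _).trans ((Complex.abs_re_le_norm z).trans h)
  apply h1
  apply Complex.ext
  · simp
    linarith
  · simp [h3]

theorem plb_memN {z : ℂ} (h : ‖z‖ = 1) (h1 : z ≠ 1) : z ∈ OmN := by
  show -z ∈ Complex.slitPlane
  rw [Complex.mem_slitPlane_iff]
  by_contra hcon
  push Not at hcon
  obtain ⟨h2, h3⟩ := hcon
  simp only [Complex.neg_re, Complex.neg_im, neg_eq_zero] at h2 h3
  have h4 : ‖z‖ = |z.re| := by
    have e : z = (z.re : ℂ) := by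
      apply Complex.ext
      · simp
      · simp [h3]
    rw [e, Complex.norm_real, Real.norm_eq_abs]
    simp
  rw [h, abs_of_nonneg (by linarith)] at h4
  apply h1
  apply Complex.ext
  · simp [← h4]
  · simp [h3]

/-- weight 2 -/
def plL2 (z : ℂ) : ℝ :=
  open Classical in if z = 1 then 0 else if ‖z‖ ≤ 1 then plQ2 H z else -plQ2 H z⁻¹

/-- weight 3 -/
def plL3 (z : ℂ) : ℝ :=
  open Classical in if z = 1 then 0 else if ‖z‖ ≤ 1 then plQ3 H z else plQ3 H z⁻¹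

/-- weight 4 -/
def plL4 (z : ℂ) : ℝ :=
  open Classical in if z = 1 then 0 else if ‖z‖ ≤ 1 then plQ4 H z else -plQ4 H z⁻¹

theorem plL2_in {z : ℂ} (h : ‖z‖ ≤ 1) (h1 : z ≠ 1) : plL2 H z = plQ2 H z := by
  rw [plL2, if_neg h1, if_pos h]

theorem plL3_in {z : ℂ} (h : ‖z‖ ≤ 1) (h1 : z ≠ 1) : plL3 H z = plQ3 H z := by
  rw [plL3, if_neg h1, if_pos h]

theorem plL4_in {z : ℂ} (h : ‖z‖ ≤ 1) (h1 : z ≠ 1) : plL4 H z = plQ4 H z := by
  rw [plL4, if_neg h1, if_pos h]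

theorem plb_ne_one {z : ℂ} (h : 1 < ‖z‖) : z ≠ 1 := by
  rintro rfl
  simp at h

theorem plL2_out {z : ℂ} (h : 1 < ‖z‖) : plL2 H z = -plQ2 H z⁻¹ := by
  rw [plL2, if_neg (plb_ne_one h), if_neg h.not_ge]

theorem plL3_out {z : ℂ} (h : 1 < ‖z‖) : plL3 H z = plQ3 H z⁻¹ := by
  rw [plL3, if_neg (plb_ne_one h), if_neg h.not_ge]

theorem plL4_out {z : ℂ} (h : 1 < ‖z‖) : plL4 H z = -plQ4 H z⁻¹ := by
  rw [plL4, if_neg (plb_ne_one h), if_neg h.not_ge]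

theorem plL2_N {z : ℂ} (h : z ∈ OmN) : plL2 H z = plQ2 H z := by
  rcases le_or_gt ‖z‖ 1 with h1 | h1
  · exact plL2_in H h1 (plN_ne h).2.1
  · rw [plL2_out H h1, plQ2_inv H h, neg_neg]

theorem plL3_N {z : ℂ} (h : z ∈ OmN) : plL3 H z = plQ3 H z := by
  rcases le_or_gt ‖z‖ 1 with h1 | h1
  · exact plL3_in H h1 (plN_ne h).2.1
  · rw [plL3_out H h1, plQ3_inv H h]

theorem plL4_N {z : ℂ} (h : z ∈ OmN) : plL4 H z = plQ4 H z := by
  rcases le_or_gt ‖z‖ 1 with h1 | h1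
  · exact plL4_in H h1 (plN_ne h).2.1
  · rw [plL4_out H h1, plQ4_inv H h, neg_neg]

/-- points of the closed disk other than `0, 1` have a neighbourhood where the formulas hold -/
theorem plb_nhds {L Q : ℂ → ℝ} (hin : ∀ z, ‖z‖ ≤ 1 → z ≠ 1 → L z = Q z)
    (hN : ∀ z, z ∈ OmN → L z = Q z) {z : ℂ} (h : ‖z‖ ≤ 1) (h1 : z ≠ 1) : L =ᶠ[𝓝 z] Q := by
  rcases h.lt_or_eq with h2 | h2
  · have ho : IsOpen {w : ℂ | ‖w‖ < 1} := isOpen_lt continuous_norm continuous_const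
    filter_upwards [ho.mem_nhds h2] with w hw
    refine hin w (le_of_lt hw) ?_
    rintro rfl
    simp at hw
  · filter_upwards [plN_isOpen.mem_nhds (plb_memN h2 h1)] with w hw
    exact hN w hw

theorem plb_inv_lt {z : ℂ} (h : 1 < ‖z‖) : ‖z⁻¹‖ < 1 := by
  rw [norm_inv]
  exact inv_lt_one_of_one_lt₀ h

theorem plb_inv_mem {z : ℂ} (h : 1 < ‖z‖) : z⁻¹ ∈ Om ∧ z⁻¹ ≠ 0 ∧ z⁻¹ ≠ 1 ∧ z ≠ 0 ∧ z ≠ 1 := by
  have h0 : z ≠ 0 := by
    rintro rfl
    simp at h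
    linarith
  have h1 := plb_ne_one h
  have h2 : z⁻¹ ≠ 1 := by
    intro h'
    exact h1 (inv_eq_one.1 h')
  exact ⟨plb_mem (plb_inv_lt h).le h2, inv_ne_zero h0, h2, h0, h1⟩

theorem plL2_deriv {z : ℂ} (h0 : z ≠ 0) (h1 : z ≠ 1) : HasFDerivAt (plL2 H) (plE2 z) z := by
  rcases le_or_gt ‖z‖ 1 with h | h
  · exact (plQ2_deriv H (plb_mem h h1) h0).congr_of_eventuallyEq
      (plb_nhds (fun z => plL2_in H) (fun z => plL2_N H) h h1)
  · obtain ⟨k1, k2, k3, k4, k5⟩ := plb_inv_mem h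
    have e2 := ((plQ2_deriv H k1 k2).comp z (plI_deriv h0)).fun_neg
    rw [plE2_inv h0 h1, neg_neg] at e2
    have ho : IsOpen {w : ℂ | 1 < ‖w‖} := isOpen_lt continuous_const continuous_norm
    refine e2.congr_of_eventuallyEq ?_
    filter_upwards [ho.mem_nhds h] with w hw
    exact plL2_out H hw

theorem plL3_deriv {z : ℂ} (h0 : z ≠ 0) (h1 : z ≠ 1) :
    HasFDerivAt (plL3 H) (plE3 (plL2 H z) z) z := by
  rcases le_or_gt ‖z‖ 1 with h | h
  · rw [plL2_in H h h1]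
    exact (plQ3_deriv H (plb_mem h h1) h0 h1).congr_of_eventuallyEq
      (plb_nhds (fun z => plL3_in H) (fun z => plL3_N H) h h1)
  · obtain ⟨k1, k2, k3, k4, k5⟩ := plb_inv_mem h
    have e2 := (plQ3_deriv H k1 k2 k3).comp z (plI_deriv h0)
    rw [plE3_inv _ h0 h1, ← plL2_out H h] at e2
    have ho : IsOpen {w : ℂ | 1 < ‖w‖} := isOpen_lt continuous_const continuous_norm
    refine e2.congr_of_eventuallyEq ?_
    filter_upwards [ho.mem_nhds h] with w hw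
    exact plL3_out H hw

theorem plL4_deriv {z : ℂ} (h0 : z ≠ 0) (h1 : z ≠ 1) :
    HasFDerivAt (plL4 H) (plE4 (plL2 H z) (plL3 H z) z) z := by
  rcases le_or_gt ‖z‖ 1 with h | h
  · rw [plL2_in H h h1, plL3_in H h h1]
    exact (plQ4_deriv H (plb_mem h h1) h0).congr_of_eventuallyEq
      (plb_nhds (fun z => plL4_in H) (fun z => plL4_N H) h h1)
  · obtain ⟨k1, k2, k3, k4, k5⟩ := plb_inv_mem h
    have e2 := ((plQ4_deriv H k1 k2).comp z (plI_deriv h0)).fun_neg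
    rw [plE4_inv _ _ h0, ← plL2_out H h, ← plL3_out H h, neg_neg] at e2
    have ho : IsOpen {w : ℂ | 1 < ‖w‖} := isOpen_lt continuous_const continuous_norm
    refine e2.congr_of_eventuallyEq ?_
    filter_upwards [ho.mem_nhds h] with w hw
    exact plL4_out H hw

/-! ### the symmetries -/

theorem plb_inv_conj {z : ℂ} (h : ‖z‖ = 1) : z⁻¹ = conj z := by
  rw [Complex.inv_def, Complex.normSq_eq_norm_sq, h]
  simp

/-- the inversion rule from the formulas in the three regions -/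
theorem plb_inv_rule {L Q : ℂ → ℝ} (s : ℝ) (hs : s * s = 1) (hin : ∀ z, ‖z‖ ≤ 1 → z ≠ 1 → L z = Q z)
    (hout : ∀ z, 1 < ‖z‖ → L z = s * Q z⁻¹) (hL : L 1 = 0)
    (hc : ∀ z ∈ Om, Q (conj z) = s * Q z) {z : ℂ} (h0 : z ≠ 0) : L z⁻¹ = s * L z := by
  by_cases h1 : z = 1
  · subst h1
    rw [inv_one, hL, mul_zero]
  have h1' : z⁻¹ ≠ 1 := fun h' => h1 (inv_eq_one.1 h')
  rcases lt_trichotomy ‖z‖ 1 with h | h | h
  · have h2 : 1 < ‖z⁻¹‖ := by
      rw [norm_inv]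
      exact (one_lt_inv₀ (norm_pos_iff.2 h0)).2 h
    rw [hout _ h2, inv_inv, hin z h.le h1]
  · have h2 : ‖z⁻¹‖ ≤ 1 := by
      rw [norm_inv, h, inv_one]
    rw [hin _ h2 h1', hin z h.le h1, plb_inv_conj h, hc z (plb_mem h.le h1)]
  · have h2 : ‖z⁻¹‖ ≤ 1 := (plb_inv_lt h).le
    rw [hin _ h2 h1', hout z h, ← mul_assoc, hs, one_mul]

theorem plL2_one : plL2 H 1 = 0 := by
  rw [plL2, if_pos rfl]

theorem plL3_one : plL3 H 1 = 0 := by
  rw [plL3, if_pos rfl]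

theorem plL4_one : plL4 H 1 = 0 := by
  rw [plL4, if_pos rfl]

theorem plL2_n {z : ℂ} (h0 : z ≠ 0) : plL2 H z⁻¹ = -plL2 H z := by
  rw [plb_inv_rule (L := plL2 H) (Q := plQ2 H) (-1) (by norm_num) (fun z => plL2_in H)
    (fun z hz => by rw [plL2_out H hz, neg_one_mul]) (plL2_one H)
    (fun z hz => by rw [plQ2_conj H hz, neg_one_mul]) h0, neg_one_mul]

theorem plL3_n {z : ℂ} (h0 : z ≠ 0) : plL3 H z⁻¹ = plL3 H z := by
  rw [plb_inv_rule (L := plL3 H) (Q := plQ3 H) 1 (by norm_num) (fun z => plL3_in H)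
    (fun z hz => by rw [plL3_out H hz, one_mul]) (plL3_one H)
    (fun z hz => by rw [plQ3_conj H hz, one_mul]) h0, one_mul]

theorem plL4_n {z : ℂ} (h0 : z ≠ 0) : plL4 H z⁻¹ = -plL4 H z := by
  rw [plb_inv_rule (L := plL4 H) (Q := plQ4 H) (-1) (by norm_num) (fun z => plL4_in H)
    (fun z hz => by rw [plL4_out H hz, neg_one_mul]) (plL4_one H)
    (fun z hz => by rw [plQ4_conj H hz, neg_one_mul]) h0, neg_one_mul]

theorem plL2_real {z : ℂ} (hz : z.im = 0) : plL2 H z = 0 := by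
  by_cases h1 : z = 1
  · rw [h1, plL2_one]
  rcases le_or_gt ‖z‖ 1 with h | h
  · rw [plL2_in H h h1, plQ2_real H (plb_mem h h1) hz]
  · rw [plL2_out H h, plQ2_real H (plb_inv_mem h).1 (by rw [Complex.inv_im, hz]; simp), neg_zero]

theorem plL4_real {z : ℂ} (hz : z.im = 0) : plL4 H z = 0 := by
  by_cases h1 : z = 1
  · rw [h1, plL4_one]
  rcases le_or_gt ‖z‖ 1 with h | h
  · rw [plL4_in H h h1, plQ4_real H (plb_mem h h1) hz]
  · rw [plL4_out H h, plQ4_real H (plb_inv_mem h).1 (by rw [Complex.inv_im, hz]; simp), neg_zero]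

/-! ### the estimates -/

theorem plb_logn {z : ℂ} (h : ‖z‖ ≤ 1 / 2) : ‖Complex.log (1 - z)‖ ≤ 3 / 2 * ‖z‖ := by
  have := Complex.norm_log_one_add_half_le_self (z := -z) (by rwa [norm_neg])
  rwa [norm_neg, ← sub_eq_add_neg] at this

theorem plb_est1 {z : ℂ} (h : ‖z‖ ≤ 1 / 2) : |Complex.arg (1 - z)| ≤ 3 / 2 * ‖z‖ := by
  rw [← Complex.log_im]
  exact (Complex.abs_im_le_norm _).trans (plb_logn h)

theorem plb_est2 {z : ℂ} (h : ‖z‖ ≤ 1 / 2) : |Real.log ‖1 - z‖| ≤ 3 / 2 * ‖z‖ := by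
  rw [← Complex.log_re]
  exact (Complex.abs_re_le_norm _).trans (plb_logn h)

theorem plb_half {z : ℂ} (h : ‖z‖ ≤ 1 / 2) : ‖z‖ ≤ 1 ∧ z ≠ 1 := by
  refine ⟨by linarith, ?_⟩
  rintro rfl
  simp at h
  linarith

theorem plb_C : 0 ≤ H.C := by
  have h := H.s2 (1 / 2) (by simp)
  have h1 : ‖(1 / 2 : ℂ)‖ = 1 / 2 := by simp
  rw [h1] at h
  have := norm_nonneg (H.l2 (1 / 2))
  linarith

theorem plL2_s {z : ℂ} (h : ‖z‖ ≤ 1 / 2) :
    |plL2 H z| ≤ (2 * H.C + 2) * ‖z‖ * (1 + |Real.log ‖z‖|) := by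
  rw [plL2_in H (plb_half h).1 (plb_half h).2, plQ2]
  have h1 : |(H.l2 z).im| ≤ H.C * ‖z‖ := (Complex.abs_im_le_norm _).trans (H.s2 z h)
  have h2 := plb_est1 h
  have h3 := plb_C H
  have h4 := norm_nonneg z
  have h5 := abs_nonneg (Real.log ‖z‖)
  have h6 : |Real.log ‖z‖ * Complex.arg (1 - z)| ≤ |Real.log ‖z‖| * (3 / 2 * ‖z‖) := by
    rw [abs_mul]
    exact mul_le_mul_of_nonneg_left h2 h5
  have h7 := abs_add_le (H.l2 z).im (Real.log ‖z‖ * Complex.arg (1 - z))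
  have h8 : 0 ≤ ‖z‖ * |Real.log ‖z‖| := mul_nonneg h4 h5
  have h9 : 0 ≤ H.C * ‖z‖ := mul_nonneg h3 h4
  have h10 : 0 ≤ H.C * (‖z‖ * |Real.log ‖z‖|) := mul_nonneg h3 h8
  nlinarith

theorem plL3_s {z : ℂ} (h : ‖z‖ ≤ 1 / 2) :
    |plL3 H z| ≤ (2 * H.C + 2) * ‖z‖ * (1 + |Real.log ‖z‖| ^ 2) := by
  rw [plL3_in H (plb_half h).1 (plb_half h).2, plQ3]
  have h1 : |(H.l3 z).re| ≤ H.C * ‖z‖ := (Complex.abs_re_le_norm _).trans (H.s3 z h)
  have h1' : |(H.l2 z).re| ≤ H.C * ‖z‖ := (Complex.abs_re_le_norm _).trans (H.s2 z h)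
  have h2 := plb_est2 h
  have h3 := plb_C H
  have h4 := norm_nonneg z
  have h5 := abs_nonneg (Real.log ‖z‖)
  have h6 : |Real.log ‖z‖ * (H.l2 z).re| ≤ |Real.log ‖z‖| * (H.C * ‖z‖) := by
    rw [abs_mul]
    exact mul_le_mul_of_nonneg_left h1' h5
  have h6' : |1 / 3 * Real.log ‖z‖ ^ 2 * Real.log ‖1 - z‖| ≤
      1 / 3 * |Real.log ‖z‖| ^ 2 * (3 / 2 * ‖z‖) := by
    rw [abs_mul, abs_mul, abs_pow, abs_of_pos (by norm_num : (0 : ℝ) < 1 / 3)]
    exact mul_le_mul_of_nonneg_left h2 (by positivity)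
  have h7 := abs_sub ((H.l3 z).re - Real.log ‖z‖ * (H.l2 z).re)
    (1 / 3 * Real.log ‖z‖ ^ 2 * Real.log ‖1 - z‖)
  have h7' := abs_sub (H.l3 z).re (Real.log ‖z‖ * (H.l2 z).re)
  have h8 : 0 ≤ ‖z‖ * |Real.log ‖z‖| ^ 2 := mul_nonneg h4 (by positivity)
  have h9 : 0 ≤ H.C * ‖z‖ := mul_nonneg h3 h4
  have h10 : 0 ≤ H.C * (‖z‖ * |Real.log ‖z‖| ^ 2) := mul_nonneg h3 h8
  have h11 : |Real.log ‖z‖| * (H.C * ‖z‖) ≤ (1 + |Real.log ‖z‖| ^ 2) * (H.C * ‖z‖) := by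
    refine mul_le_mul_of_nonneg_right ?_ h9
    nlinarith [sq_nonneg (|Real.log ‖z‖| - 1)]
  nlinarith

theorem plL4_s {z : ℂ} (h : ‖z‖ ≤ 1 / 2) :
    |plL4 H z| ≤ (2 * H.C + 2) * ‖z‖ * (1 + |Real.log ‖z‖| ^ 2) := by
  rw [plL4_in H (plb_half h).1 (plb_half h).2, plQ4]
  have h1 : |(H.l4 z).im| ≤ H.C * ‖z‖ := (Complex.abs_im_le_norm _).trans (H.s4 z h)
  have h1' : |(H.l3 z).im| ≤ H.C * ‖z‖ := (Complex.abs_im_le_norm _).trans (H.s3 z h)
  have h2 : |(H.l2 z).im| ≤ H.C * ‖z‖ := (Complex.abs_im_le_norm _).trans (H.s2 z h)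
  have h3 := plb_C H
  have h4 := norm_nonneg z
  have h5 := abs_nonneg (Real.log ‖z‖)
  have h6 : |Real.log ‖z‖ * (H.l3 z).im| ≤ |Real.log ‖z‖| * (H.C * ‖z‖) := by
    rw [abs_mul]
    exact mul_le_mul_of_nonneg_left h1' h5
  have h6' : |1 / 3 * Real.log ‖z‖ ^ 2 * (H.l2 z).im| ≤
      1 / 3 * |Real.log ‖z‖| ^ 2 * (H.C * ‖z‖) := by
    rw [abs_mul, abs_mul, abs_pow, abs_of_pos (by norm_num : (0 : ℝ) < 1 / 3)]
    exact mul_le_mul_of_nonneg_left h2 (by positivity)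
  have h7 := abs_add_le ((H.l4 z).im - Real.log ‖z‖ * (H.l3 z).im)
    (1 / 3 * Real.log ‖z‖ ^ 2 * (H.l2 z).im)
  have h7' := abs_sub (H.l4 z).im (Real.log ‖z‖ * (H.l3 z).im)
  have h8 : 0 ≤ ‖z‖ * |Real.log ‖z‖| ^ 2 := mul_nonneg h4 (by positivity)
  have h9 : 0 ≤ H.C * ‖z‖ := mul_nonneg h3 h4
  have h10 : 0 ≤ H.C * (‖z‖ * |Real.log ‖z‖| ^ 2) := mul_nonneg h3 h8
  have h11 : |Real.log ‖z‖| * (H.C * ‖z‖) ≤ (1 / 2 + 1 / 2 * |Real.log ‖z‖| ^ 2) * (H.C * ‖z‖) := by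
    refine mul_le_mul_of_nonneg_right ?_ h9
    nlinarith [sq_nonneg (|Real.log ‖z‖| - 1)]
  nlinarith

theorem plb_l0 {l : ℂ → ℂ} (h : ∀ z, ‖z‖ ≤ 1 / 2 → ‖l z‖ ≤ H.C * ‖z‖) : l 0 = 0 := by
  have h1 := h 0 (by simp)
  rw [norm_zero, mul_zero] at h1
  exact norm_le_zero_iff.1 h1

/-- On `Om`: `L2 = Im l2 + log ‖z‖ arg (1 - z)`,
`L3 = Re l3 - log ‖z‖ Re l2 - (1/3) log² ‖z‖ log ‖1 - z‖`,
`L4 = Im l4 - log ‖z‖ Im l3 + (1/3) log² ‖z‖ Im l2`, and for `‖z‖ > 1` the inversion formulas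
(both descriptions agree on `ℂ ∖ [0, ∞)`: same derivative, same value at `-1`). -/
theorem exists_polyLogD (H : HolLi) : Nonempty PolyLogD := by
  have h0 : ‖(0 : ℂ)‖ ≤ 1 := by simp
  have h1 : (0 : ℂ) ≠ 1 := zero_ne_one
  exact ⟨{
    L2 := plL2 H
    L3 := plL3 H
    L4 := plL4 H
    C := 2 * H.C + 2
    d2 := fun z h0 h1 => plL2_deriv H h0 h1
    d3 := fun z h0 h1 => plL3_deriv H h0 h1
    d4 := fun z h0 h1 => plL4_deriv H h0 h1
    r2 := fun z h => plL2_real H h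
    r4 := fun z h => plL4_real H h
    n2 := fun z h => plL2_n H h
    n3 := fun z h => plL3_n H h
    n4 := fun z h => plL4_n H h
    s2 := fun z _ h => plL2_s H h
    s3 := fun z _ h => plL3_s H h
    s4 := fun z _ h => plL4_s H h
    v0 := by
      refine ⟨?_, ?_, ?_⟩
      · rw [plL2_in H h0 h1, plQ2, plb_l0 H H.s2]
        simp
      · rw [plL3_in H h0 h1, plQ3, plb_l0 H H.s2, plb_l0 H H.s3]
        simp
      · rw [plL4_in H h0 h1, plQ4, plb_l0 H H.s2, plb_l0 H H.s3, plb_l0 H H.s4]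
        simp }⟩

end Pool.Agent.F194.X

end
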