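import Pool.Agent.Work.MP_f194bb_nt.X.PLb

/-!
# MP_f194bb_nt, `X_1(11)`: single valued polylogarithms, estimates
-/

set_option autoImplicit false

open scoped ComplexConjugate PeriodPair
open MeasureTheory Filter Topology

noncomputable section

namespace Pool.Agent.F194.X

private theorem plc_open : IsOpen (({0, 1} : Set ℂ)ᶜ) :=
  (Set.toFinite ({0, 1} : Set ℂ)).isClosed.isOpen_compl

private theorem plc_conn : IsPreconnected (({0, 1} : Set ℂ)ᶜ) :=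
  (Set.Countable.isConnected_compl_of_one_lt_rank
    (by rw [Complex.rank_real_complex]; norm_num) (Set.toFinite ({0, 1} : Set ℂ)).countable).isPreconnected

private theorem plc_mem {z : ℂ} (h0 : z ≠ 0) (h1 : z ≠ 1) : z ∈ (({0, 1} : Set ℂ)ᶜ) := by
  simp [h0, h1]

private theorem plc_ne {z : ℂ} (h : z ∈ (({0, 1} : Set ℂ)ᶜ)) : z ≠ 0 ∧ z ≠ 1 := by
  simpa using h

private theorem plc_comp2 (H : PolyLogD) {u : ℂ → ℂ} {u' z : ℂ} (hu : HasDerivAt u u' z)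
    (h0 : u z ≠ 0) (h1 : u z ≠ 1) : HasFDerivAt (fun z => H.L2 (u z))
      (Real.log ‖u z‖ • il ((u z - 1)⁻¹ * u') - Real.log ‖1 - u z‖ • il ((u z)⁻¹ * u')) z := by
  have h := (H.d2 (u z) h0 h1).comp z (hu.hasFDerivAt.restrictScalars ℝ)
  refine h.congr_fderiv ?_
  ext w
  simp only [ContinuousLinearMap.comp_apply, sub_apply,
    smul_apply, il_apply, ContinuousLinearMap.coe_restrictScalars',
    smul_eq_mul, ContinuousLinearMap.toSpanSingleton_apply]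
  ring_nf

private theorem plc_comp3 (H : PolyLogD) {u : ℂ → ℂ} {u' z : ℂ} (hu : HasDerivAt u u' z)
    (h0 : u z ≠ 0) (h1 : u z ≠ 1) : HasFDerivAt (fun z => H.L3 (u z))
      (-(H.L2 (u z)) • il ((u z)⁻¹ * u') - (1 / 3 * Real.log ‖u z‖) •
      (Real.log ‖u z‖ • rl ((u z - 1)⁻¹ * u') - Real.log ‖1 - u z‖ • rl ((u z)⁻¹ * u'))) z := by
  have h := (H.d3 (u z) h0 h1).comp z (hu.hasFDerivAt.restrictScalars ℝ)
  refine h.congr_fderiv ?_
  ext w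
  simp only [ContinuousLinearMap.comp_apply, sub_apply,
    smul_apply, il_apply, rl_apply, ContinuousLinearMap.coe_restrictScalars',
    smul_eq_mul, ContinuousLinearMap.toSpanSingleton_apply]
  ring_nf

private theorem plc_const {F : ℂ → ℝ} (hF : ∀ z, z ≠ 0 → z ≠ 1 → HasFDerivAt F (0 : ℂ →L[ℝ] ℝ) z) {z z' : ℂ}
    (h0 : z ≠ 0) (h1 : z ≠ 1) (h0' : z' ≠ 0) (h1' : z' ≠ 1) : F z = F z' := by
  refine plc_open.is_const_of_fderiv_eq_zero (𝕜 := ℝ) plc_conn ?_ ?_ (plc_mem h0 h1)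
    (plc_mem h0' h1')
  · intro w hw
    exact (hF w (plc_ne hw).1 (plc_ne hw).2).differentiableAt.differentiableWithinAt
  · intro w hw
    exact (hF w (plc_ne hw).1 (plc_ne hw).2).fderiv

private theorem plc_refl2 (H : PolyLogD) (z : ℂ) (h0 : z ≠ 0) (h1 : z ≠ 1) :
    H.L2 (1 - z) = -H.L2 z := by
  have key : ∀ w : ℂ, w ≠ 0 → w ≠ 1 → HasFDerivAt (fun w => H.L2 w + H.L2 (1 - w)) (0 : ℂ →L[ℝ] ℝ) w := by
    intro w hw0 hw1
    have hu : HasDerivAt (fun w : ℂ => 1 - w) (-1) w := by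
      simpa using (hasDerivAt_id w).const_sub 1
    have h10 : (1 : ℂ) - w ≠ 0 := sub_ne_zero.2 (Ne.symm hw1)
    have h11 : (1 : ℂ) - w ≠ 1 := by
      intro h
      exact hw0 (by linear_combination -h)
    refine ((H.d2 w hw0 hw1).add (plc_comp2 H hu h10 h11)).congr_fderiv ?_
    have e1 : (1 - w - 1 : ℂ)⁻¹ * -1 = w⁻¹ := by
      rw [show (1 - w - 1 : ℂ) = -w by ring, inv_neg]; ring
    have e2 : (1 - w : ℂ)⁻¹ * -1 = (w - 1)⁻¹ := by
      rw [show (1 - w : ℂ) = -(w - 1) by ring, inv_neg]; ring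
    have e3 : (1 - (1 - w) : ℂ) = w := by ring
    rw [e1, e2, e3]
    ext v
    simp only [add_apply, sub_apply,
      smul_apply, il_apply, smul_eq_mul, zero_apply]
    ring
  have h2 : (1 / 2 : ℂ) ≠ 0 := by norm_num
  have h3 : (1 / 2 : ℂ) ≠ 1 := by norm_num
  have h := plc_const key h0 h1 h2 h3
  have e : (1 - 1 / 2 : ℂ) = 1 / 2 := by norm_num
  have hr : H.L2 (1 / 2 : ℂ) = 0 := H.r2 _ (by simp)
  simp only [e, hr] at h
  linarith

private theorem plc_refl3 (H : PolyLogD) : ∃ c : ℝ, ∀ z : ℂ, z ≠ 0 → z ≠ 1 →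
    H.L3 z + H.L3 (1 - z) + H.L3 (1 - z⁻¹) = c := by
  have key : ∀ w : ℂ, w ≠ 0 → w ≠ 1 →
      HasFDerivAt (fun w => H.L3 w + H.L3 (1 - w) + H.L3 (1 - w⁻¹)) (0 : ℂ →L[ℝ] ℝ) w := by
    intro w hw0 hw1
    have hu : HasDerivAt (fun w : ℂ => 1 - w) (-1) w := by
      simpa using (hasDerivAt_id w).const_sub 1
    have hv : HasDerivAt (fun w : ℂ => 1 - w⁻¹) ((w ^ 2)⁻¹) w := by
      simpa using (hasDerivAt_inv hw0).const_sub 1
    have h10 : (1 : ℂ) - w ≠ 0 := sub_ne_zero.2 (Ne.symm hw1)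
    have hw1' : w - 1 ≠ 0 := sub_ne_zero.2 hw1
    have h11 : (1 : ℂ) - w ≠ 1 := by
      intro h
      exact hw0 (by linear_combination -h)
    have hi0 : (1 : ℂ) - w⁻¹ ≠ 0 := by
      intro h
      apply hw1
      have : w⁻¹ = 1 := by linear_combination -h
      exact inv_eq_one.1 this
    have hi1 : (1 : ℂ) - w⁻¹ ≠ 1 := by
      intro h
      have : w⁻¹ = 0 := by linear_combination -h
      exact hw0 (inv_eq_zero.1 this)
    refine (((H.d3 w hw0 hw1).add (plc_comp3 H hu h10 h11)).add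
      (plc_comp3 H hv hi0 hi1)).congr_fderiv ?_
    have e1 : (1 - w - 1 : ℂ)⁻¹ * -1 = w⁻¹ := by
      rw [show (1 - w - 1 : ℂ) = -w by ring, inv_neg]; ring
    have e2 : (1 - w : ℂ)⁻¹ * -1 = (w - 1)⁻¹ := by
      rw [show (1 - w : ℂ) = -(w - 1) by ring, inv_neg]; ring
    have e3 : (1 - (1 - w) : ℂ) = w := by ring
    have e4 : (1 - w⁻¹ - 1 : ℂ)⁻¹ * (w ^ 2)⁻¹ = -w⁻¹ := by
      field_simp
      ring
    have e5 : (1 - w⁻¹ : ℂ)⁻¹ * (w ^ 2)⁻¹ = (w - 1)⁻¹ - w⁻¹ := by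
      have : (1 - w⁻¹ : ℂ) = (w - 1) / w := by field_simp
      rw [this]
      field_simp
      ring
    have e6 : (1 - (1 - w⁻¹) : ℂ) = w⁻¹ := by ring
    have e7 : Real.log ‖1 - w⁻¹‖ = Real.log ‖1 - w‖ - Real.log ‖w‖ := by
      have : (1 - w⁻¹ : ℂ) = (w - 1) / w := by field_simp
      rw [this, norm_div, Real.log_div (norm_ne_zero_iff.2 hw1') (norm_ne_zero_iff.2 hw0),
        norm_sub_rev]
    have e8 : Real.log ‖w⁻¹‖ = -Real.log ‖w‖ := by rw [norm_inv, Real.log_inv]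
    have e9 : H.L2 (1 - w) = -H.L2 w := plc_refl2 H w hw0 hw1
    have e10 : H.L2 (1 - w⁻¹) = H.L2 w := by
      rw [plc_refl2 H w⁻¹ (inv_ne_zero hw0) (by simpa using hw1), H.n2 w hw0, neg_neg]
    rw [e1, e2, e3, e4, e5, e6, e7, e8, e9, e10]
    ext v
    simp only [add_apply, sub_apply,
      smul_apply, il_apply, rl_apply, smul_eq_mul,
      zero_apply, sub_mul, neg_mul, Complex.sub_im, Complex.sub_re,
      Complex.neg_re]
    ring
  refine ⟨H.L3 (1 / 2) + H.L3 (1 - 1 / 2) + H.L3 (1 - (1 / 2)⁻¹), fun z h0 h1 => ?_⟩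
  exact plc_const key h0 h1 (by norm_num) (by norm_num)

private theorem plc_sqrt {x : ℝ} (h0 : 0 < x) (h1 : x ≤ 1) :
    x * (1 + |Real.log x| ^ 2) ≤ 17 * √x := by
  have h := Real.abs_log_mul_self_rpow_lt x (1 / 4) h0 h1 (by norm_num)
  have h2 : (|Real.log x * x ^ (1 / 4 : ℝ)|) ^ 2 ≤ 4 ^ 2 := by
    refine pow_le_pow_left₀ (abs_nonneg _) ?_ 2
    have : (1 / (1 / 4) : ℝ) = 4 := by norm_num
    linarith
  have h3 : (x ^ (1 / 4 : ℝ)) ^ 2 = √x := by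
    rw [← Real.rpow_natCast, ← Real.rpow_mul h0.le, Real.sqrt_eq_rpow]
    norm_num
  rw [sq_abs, mul_pow, h3] at h2
  have h4 : √x ≤ 1 := by
    rw [show (1 : ℝ) = √1 by simp]
    exact Real.sqrt_le_sqrt h1
  have h5 : 0 ≤ √x := Real.sqrt_nonneg x
  have h6 : x = √x * √x := (Real.mul_self_sqrt h0.le).symm
  rw [sq_abs]
  have h7 : √x * (1 + Real.log x ^ 2) ≤ 17 := by nlinarith
  calc x * (1 + Real.log x ^ 2) = √x * (√x * (1 + Real.log x ^ 2)) := by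
        rw [← mul_assoc, ← h6]
    _ ≤ √x * 17 := mul_le_mul_of_nonneg_left h7 h5
    _ = 17 * √x := by ring

private theorem plc_one_add (t : ℝ) : 1 + t ≤ 2 * (1 + t ^ 2) := by
  nlinarith [sq_nonneg (t - 1)]

/-- the common constant -/
private def plcA (H : PolyLogD) : ℝ := 34 * |H.C|

private theorem plcA_nonneg (H : PolyLogD) : 0 ≤ plcA H := by unfold plcA; positivity

private theorem plc_n2 (H : PolyLogD) {z : ℂ} (h0 : z ≠ 0) (h : ‖z‖ ≤ 1 / 2) :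
    |H.L2 z| ≤ plcA H * √‖z‖ := by
  have hp : 0 < ‖z‖ := norm_pos_iff.2 h0
  have h1 := plc_sqrt hp (by linarith)
  have h2 := plc_one_add |Real.log ‖z‖|
  have h3 : H.C * ‖z‖ * (1 + |Real.log ‖z‖|) ≤ |H.C| * (‖z‖ * (1 + |Real.log ‖z‖|)) := by
    rw [mul_assoc]
    exact mul_le_mul_of_nonneg_right (le_abs_self _) (by positivity)
  refine (H.s2 z h0 h).trans (h3.trans ?_)
  have h4 : ‖z‖ * (1 + |Real.log ‖z‖|) ≤ 34 * √‖z‖ := by nlinarith
  calc |H.C| * (‖z‖ * (1 + |Real.log ‖z‖|)) ≤ |H.C| * (34 * √‖z‖) :=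
        mul_le_mul_of_nonneg_left h4 (abs_nonneg _)
    _ = plcA H * √‖z‖ := by unfold plcA; ring

private theorem plc_n34 (H : PolyLogD) {z : ℂ} (h0 : z ≠ 0) (h : ‖z‖ ≤ 1 / 2) :
    |H.L3 z| ≤ plcA H * √‖z‖ ∧ |H.L4 z| ≤ plcA H * √‖z‖ := by
  have hp : 0 < ‖z‖ := norm_pos_iff.2 h0
  have h1 := plc_sqrt hp (by linarith)
  have h3 : H.C * ‖z‖ * (1 + |Real.log ‖z‖| ^ 2) ≤ plcA H * √‖z‖ := by
    calc H.C * ‖z‖ * (1 + |Real.log ‖z‖| ^ 2) = H.C * (‖z‖ * (1 + |Real.log ‖z‖| ^ 2)) := by ring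
      _ ≤ |H.C| * (‖z‖ * (1 + |Real.log ‖z‖| ^ 2)) :=
        mul_le_mul_of_nonneg_right (le_abs_self _) (by positivity)
      _ ≤ |H.C| * (17 * √‖z‖) := mul_le_mul_of_nonneg_left h1 (abs_nonneg _)
      _ ≤ plcA H * √‖z‖ := by
        unfold plcA
        nlinarith [mul_nonneg (abs_nonneg H.C) (Real.sqrt_nonneg ‖z‖)]
  exact ⟨(H.s3 z h0 h).trans h3, (H.s4 z h0 h).trans h3⟩

/-- one function: all three estimates at once -/
private theorem plc_inv {F : ℂ → ℝ} {A : ℝ} (hF : ∀ z : ℂ, z ≠ 0 → ‖z‖ ≤ 1 / 2 → |F z| ≤ A * √‖z‖)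
    (hi : ∀ z : ℂ, z ≠ 0 → |F z⁻¹| = |F z|) {z : ℂ} (h : 2 ≤ ‖z‖) :
    |F z| ≤ A * √(‖z‖⁻¹) := by
  have h0 : z ≠ 0 := by
    intro h0
    rw [h0, norm_zero] at h
    linarith
  have h1 : ‖z⁻¹‖ ≤ 1 / 2 := by
    rw [norm_inv]
    have := inv_anti₀ (by norm_num : (0 : ℝ) < 2) h
    linarith
  have h2 := hF z⁻¹ (inv_ne_zero h0) h1
  rwa [hi z h0, norm_inv] at h2

private theorem plc_log_le {x : ℝ} (h0 : 2 / 3 ≤ x) (h1 : x ≤ 4 / 3) : |Real.log x| ≤ 1 := by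
  have hp : 0 < x := by linarith
  rw [abs_le]
  constructor
  · have h := Real.one_sub_inv_le_log_of_pos hp
    have h2 : x⁻¹ ≤ (2 / 3)⁻¹ := inv_anti₀ (by norm_num) h0
    have h3 : ((2 : ℝ) / 3)⁻¹ = 3 / 2 := by norm_num
    linarith
  · have h := Real.log_le_sub_one_of_pos hp
    linarith

private theorem plc_near {z : ℂ} (h : ‖1 - z‖ ≤ 1 / 3) :
    z ≠ 0 ∧ 2 / 3 ≤ ‖z‖ ∧ ‖z‖ ≤ 4 / 3 ∧ ‖z⁻¹‖ ≤ 3 / 2 := by
  have h1 : 2 / 3 ≤ ‖z‖ := by
    have h2 := norm_add_le (1 - z) z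
    rw [sub_add_cancel, norm_one] at h2
    linarith
  have h2 : ‖z‖ ≤ 4 / 3 := by
    have h3 := norm_sub_le (1 : ℂ) (1 - z)
    rw [sub_sub_cancel, norm_one] at h3
    linarith
  have h0 : z ≠ 0 := by
    intro h0
    rw [h0, norm_zero] at h1
    linarith
  refine ⟨h0, h1, h2, ?_⟩
  rw [norm_inv]
  have h3 : ‖z‖⁻¹ ≤ (2 / 3)⁻¹ := inv_anti₀ (by norm_num) h1
  have h4 : ((2 : ℝ) / 3)⁻¹ = 3 / 2 := by norm_num
  linarith

private theorem plc_il (c : ℂ) : ‖il c‖ ≤ ‖c‖ := by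
  refine ContinuousLinearMap.opNorm_le_bound _ (norm_nonneg _) fun v => ?_
  rw [il_apply, Real.norm_eq_abs]
  exact (Complex.abs_im_le_norm _).trans (norm_mul _ _).le

private theorem plc_rl (c : ℂ) : ‖rl c‖ ≤ ‖c‖ := by
  refine ContinuousLinearMap.opNorm_le_bound _ (norm_nonneg _) fun v => ?_
  rw [rl_apply, Real.norm_eq_abs]
  exact (Complex.abs_re_le_norm _).trans (norm_mul _ _).le

private theorem plc_fourA (H : PolyLogD) {B : ℝ} (hB : 0 ≤ B)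
    (h3 : ∀ z : ℂ, z ≠ 1 → ‖1 - z‖ ≤ 1 / 3 → |H.L3 z| ≤ B)
    (h2 : ∀ z : ℂ, z ≠ 1 → ‖1 - z‖ ≤ 1 / 3 → |H.L2 z| ≤ B)
    (z : ℂ) (hz : z.re ≠ 1) (h : ‖1 - z‖ ≤ 1 / 3) : |H.L4 z| ≤ 2 * B * |z.im| := by
  set S : Set ℂ := Complex.reLm ⁻¹' {z.re} ∩ Metric.closedBall 1 (1 / 3) with hS
  have hconv : Convex ℝ S :=
    ((convex_singleton (𝕜 := ℝ) z.re).linear_preimage Complex.reLm).inter
      (convex_closedBall (1 : ℂ) (1 / 3))
  have hmem : ∀ w ∈ S, w.re = z.re ∧ ‖1 - w‖ ≤ 1 / 3 := by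
    intro w hw
    refine ⟨hw.1, ?_⟩
    have := hw.2
    rwa [Metric.mem_closedBall, dist_comm, dist_eq_norm] at this
  have hne : ∀ w ∈ S, w ≠ 1 := by
    intro w hw h1
    apply hz
    rw [← (hmem w hw).1, h1, Complex.one_re]
  have hzS : z ∈ S := ⟨rfl, by rwa [Metric.mem_closedBall, dist_comm, dist_eq_norm]⟩
  have hxS : ((z.re : ℝ) : ℂ) ∈ S := by
    refine ⟨by simp, ?_⟩
    rw [Metric.mem_closedBall, dist_comm, dist_eq_norm]
    refine le_trans ?_ h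
    have h5 := Complex.abs_re_le_norm (1 - z)
    have h6 : (1 - ((z.re : ℝ) : ℂ)) = (((1 - z).re : ℝ) : ℂ) := by simp
    rw [h6, Complex.norm_real, Real.norm_eq_abs]
    exact h5
  have hmv := hconv.norm_image_sub_le_of_norm_hasFDerivWithin_le (𝕜 := ℝ) (f := H.L4)
    (f' := fun w => H.L3 w • il w⁻¹ - (1 / 3 * Real.log ‖w‖ * H.L2 w) • rl w⁻¹) (C := 2 * B)
    (fun w hw => (H.d4 w (plc_near (hmem w hw).2).1 (hne w hw)).hasFDerivWithinAt)
    (fun w hw => ?_) hxS hzS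
  · have h0 : H.L4 ((z.re : ℝ) : ℂ) = 0 := H.r4 _ (by simp)
    have h7 : z - ((z.re : ℝ) : ℂ) = z.im * Complex.I := by
      apply Complex.ext <;> simp
    rw [h0, sub_zero, Real.norm_eq_abs, h7, norm_mul, Complex.norm_I, mul_one,
      Complex.norm_real, Real.norm_eq_abs] at hmv
    exact hmv
  · obtain ⟨h0, ha, hb, hc⟩ := plc_near (hmem w hw).2
    have hl := plc_log_le ha hb
    have e3 := h3 w (hne w hw) (hmem w hw).2
    have e2 := h2 w (hne w hw) (hmem w hw).2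
    refine (norm_sub_le _ _).trans ?_
    rw [norm_smul, norm_smul, Real.norm_eq_abs, Real.norm_eq_abs, abs_mul, abs_mul]
    have f1 : |H.L3 w| * ‖il w⁻¹‖ ≤ B * (3 / 2) :=
      mul_le_mul e3 ((plc_il _).trans hc) (norm_nonneg _) hB
    have f2 : |(1 / 3 : ℝ)| * |Real.log ‖w‖| * |H.L2 w| * ‖rl w⁻¹‖ ≤ 1 / 3 * 1 * B * (3 / 2) := by
      rw [abs_of_pos (by norm_num : (0 : ℝ) < 1 / 3)]
      exact mul_le_mul (mul_le_mul (mul_le_mul_of_nonneg_left hl (by norm_num)) e2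
        (abs_nonneg _) (by norm_num)) ((plc_rl _).trans hc) (norm_nonneg _) (by positivity)
    linarith

private theorem plc_four (H : PolyLogD) {B : ℝ} (hB : 0 ≤ B)
    (h3 : ∀ z : ℂ, z ≠ 1 → ‖1 - z‖ ≤ 1 / 3 → |H.L3 z| ≤ B)
    (h2 : ∀ z : ℂ, z ≠ 1 → ‖1 - z‖ ≤ 1 / 3 → |H.L2 z| ≤ B)
    (z : ℂ) (hz : z ≠ 1) (h : ‖1 - z‖ < 1 / 3) : |H.L4 z| ≤ 2 * B * ‖1 - z‖ := by
  have him : |z.im| ≤ ‖1 - z‖ := by
    have := Complex.abs_im_le_norm (1 - z)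
    simpa using this
  have key : |H.L4 z| ≤ 2 * B * |z.im| := by
    by_cases hre : z.re = 1
    · have hc : ContinuousAt H.L4 z := (H.d4 z (plc_near h.le).1 hz).continuousAt
      have ht : Tendsto (fun ε : ℝ => z + ε) (𝓝[≠] 0) (𝓝 z) := by
        have : Tendsto (fun ε : ℝ => z + (ε : ℂ)) (𝓝 0) (𝓝 (z + ((0 : ℝ) : ℂ))) :=
          (continuous_const.add Complex.continuous_ofReal).tendsto 0
        simp only [Complex.ofReal_zero, add_zero] at this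
        exact this.mono_left nhdsWithin_le_nhds
      have hf : Tendsto (fun ε : ℝ => |H.L4 (z + ε)|) (𝓝[≠] 0) (𝓝 |H.L4 z|) :=
        (hc.tendsto.comp ht).abs
      have hev : ∀ᶠ ε : ℝ in 𝓝[≠] 0, ‖1 - (z + ε)‖ < 1 / 3 := by
        have h1 : Tendsto (fun ε : ℝ => ‖1 - (z + ε)‖) (𝓝[≠] 0) (𝓝 ‖1 - z‖) :=
          (ht.const_sub 1).norm
        exact h1.eventually_lt_const h
      refine le_of_tendsto hf ?_
      filter_upwards [hev, self_mem_nhdsWithin] with ε h1 h2'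
      have h4 := plc_fourA H hB h3 h2 (z + ε) ?_ h1.le
      · simpa using h4
      · simp only [Complex.add_re, Complex.ofReal_re, hre]
        intro h5
        exact h2' (by simpa using h5)
    · exact plc_fourA H hB h3 h2 z hre h.le
  exact key.trans (mul_le_mul_of_nonneg_left him (by positivity))

private theorem plc_bdd {F : ℂ → ℝ} (hF : ∀ z, z ≠ 0 → z ≠ 1 → ContinuousAt F z) {A : ℝ}
    (h0 : ∀ z : ℂ, z ≠ 0 → ‖z‖ ≤ 1 / 2 → |F z| ≤ A) (hi : ∀ z : ℂ, 2 ≤ ‖z‖ → |F z| ≤ A)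
    (h1 : ∀ z : ℂ, z ≠ 1 → ‖1 - z‖ < 1 / 3 → |F z| ≤ A) : ∃ M : ℝ, 0 ≤ M ∧ ∀ z, |F z| ≤ M := by
  set K : Set ℂ := {z | ‖z‖ ≤ 2 ∧ 1 / 2 ≤ ‖z‖ ∧ 1 / 3 ≤ ‖1 - z‖} with hK
  have hKc : IsCompact K := by
    refine (isCompact_closedBall (0 : ℂ) 2).of_isClosed_subset ?_ ?_
    · exact (isClosed_le continuous_norm continuous_const).inter
        ((isClosed_le continuous_const continuous_norm).inter
          (isClosed_le continuous_const (continuous_const.sub continuous_id).norm))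
    · intro z hz
      simpa using hz.1
  have hKF : ContinuousOn F K := by
    intro z hz
    refine (hF z ?_ ?_).continuousWithinAt
    · intro h
      have := hz.2.1
      rw [h, norm_zero] at this
      linarith
    · intro h
      have := hz.2.2
      rw [h, sub_self, norm_zero] at this
      linarith
  obtain ⟨M, hM⟩ := hKc.exists_bound_of_continuousOn hKF
  refine ⟨|F 0| + |F 1| + |A| + |M|, by positivity, fun z => ?_⟩
  have a0 := abs_nonneg (F 0)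
  have a1 := abs_nonneg (F 1)
  have a2 := abs_nonneg A
  have a3 := abs_nonneg M
  have a4 := le_abs_self A
  have a5 := le_abs_self M
  rcases eq_or_ne z 0 with rfl | hz0
  · linarith
  rcases eq_or_ne z 1 with rfl | hz1
  · linarith
  by_cases c0 : ‖z‖ ≤ 1 / 2
  · linarith [h0 z hz0 c0]
  by_cases ci : 2 ≤ ‖z‖
  · linarith [hi z ci]
  by_cases c1 : ‖1 - z‖ < 1 / 3
  · linarith [h1 z hz1 c1]
  have := hM z ⟨(not_le.1 ci).le, (not_le.1 c0).le, not_lt.1 c1⟩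
  rw [Real.norm_eq_abs] at this
  linarith

private theorem plc_sq {F φ : ℂ → ℝ} {M A r : ℝ} (hr : 0 < r) (hφ : ∀ z, 0 ≤ φ z)
    (hM : ∀ z, |F z| ≤ M) (h : ∀ z, φ z < r → |F z| ≤ A * √(φ z)) (z : ℂ) :
    F z ^ 2 ≤ (A ^ 2 + M ^ 2 / r) * φ z := by
  have hp := hφ z
  by_cases hc : φ z < r
  · have h1 := pow_le_pow_left₀ (abs_nonneg _) (h z hc) 2
    rw [sq_abs, mul_pow, Real.sq_sqrt hp] at h1
    have : 0 ≤ M ^ 2 / r * φ z := by positivity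
    linarith
  · have h1 := pow_le_pow_left₀ (abs_nonneg _) (hM z) 2
    rw [sq_abs] at h1
    have h2 : M ^ 2 ≤ M ^ 2 / r * φ z := by
      calc M ^ 2 = M ^ 2 / r * r := by field_simp
        _ ≤ M ^ 2 / r * φ z := mul_le_mul_of_nonneg_left (not_lt.1 hc) (by positivity)
    have : 0 ≤ A ^ 2 * φ z := by positivity
    linarith

private theorem plc_sqi {F : ℂ → ℝ} {M A : ℝ} (hM : ∀ z, |F z| ≤ M)
    (h : ∀ z : ℂ, 2 ≤ ‖z‖ → |F z| ≤ A * √(‖z‖⁻¹)) (z : ℂ) :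
    F z ^ 2 * ‖z‖ ≤ A ^ 2 + 2 * M ^ 2 := by
  by_cases hc : 2 ≤ ‖z‖
  · have h1 := pow_le_pow_left₀ (abs_nonneg _) (h z hc) 2
    have hp : 0 < ‖z‖ := by linarith
    rw [sq_abs, mul_pow, Real.sq_sqrt (by positivity)] at h1
    have h2 := mul_le_mul_of_nonneg_right h1 hp.le
    rw [mul_assoc, inv_mul_cancel₀ hp.ne', mul_one] at h2
    nlinarith [sq_nonneg M]
  · have h1 := pow_le_pow_left₀ (abs_nonneg _) (hM z) 2
    rw [sq_abs] at h1
    have h2 := mul_le_mul h1 (not_le.1 hc).le (norm_nonneg _) (sq_nonneg M)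
    nlinarith [sq_nonneg A]

private theorem plc_tend {F : ℂ → ℝ} {A : ℝ} {l : Filter ℂ} {φ : ℂ → ℝ}
    (hφ : Tendsto φ l (𝓝 0)) {c : ℝ} (h : ∀ᶠ z in l, |F z - c| ≤ A * √(φ z)) :
    Tendsto F l (𝓝 c) := by
  rw [tendsto_iff_norm_sub_tendsto_zero]
  have h1 : Tendsto (fun z => A * √(φ z)) l (𝓝 0) := by
    have := (Real.continuous_sqrt.tendsto 0).comp hφ
    have h2 := this.const_mul A
    simpa using h2
  exact squeeze_zero' (Eventually.of_forall fun _ => norm_nonneg _) h h1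

/-- `L2 (1 - z) = -L2 z` and `L3 z + L3 (1 - z) + L3 (1 - z⁻¹) = c3` by differentiation
(`ℂ ∖ {0, 1}` is connected); they give the behaviour near `1`. `L4` is Lipschitz near `1` and
vanishes on the real axis. -/
theorem exists_polylog_of (H : PolyLogD) : Nonempty PolyLog := by
  obtain ⟨c, hc⟩ := plc_refl3 H
  obtain ⟨A, hA⟩ : ∃ A, A = plcA H := ⟨_, rfl⟩
  have hA0 : 0 ≤ A := hA ▸ plcA_nonneg H
  have hs1 : ∀ x : ℝ, x ≤ 1 → √x ≤ 1 := fun x hx => by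
    rw [show (1 : ℝ) = √1 by simp]
    exact Real.sqrt_le_sqrt hx
  -- near `0`
  have z2 : ∀ z : ℂ, z ≠ 0 → ‖z‖ ≤ 1 / 2 → |H.L2 z| ≤ A * √‖z‖ := fun z h0 h =>
    hA ▸ plc_n2 H h0 h
  have z3 : ∀ z : ℂ, z ≠ 0 → ‖z‖ ≤ 1 / 2 → |H.L3 z| ≤ A * √‖z‖ := fun z h0 h =>
    hA ▸ (plc_n34 H h0 h).1
  have z4 : ∀ z : ℂ, z ≠ 0 → ‖z‖ ≤ 1 / 2 → |H.L4 z| ≤ A * √‖z‖ := fun z h0 h =>
    hA ▸ (plc_n34 H h0 h).2
  -- near `∞`
  have i2 : ∀ z : ℂ, 2 ≤ ‖z‖ → |H.L2 z| ≤ A * √(‖z‖⁻¹) := fun z h =>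
    plc_inv z2 (fun z hz => by rw [H.n2 z hz, abs_neg]) h
  have i3 : ∀ z : ℂ, 2 ≤ ‖z‖ → |H.L3 z| ≤ A * √(‖z‖⁻¹) := fun z h =>
    plc_inv z3 (fun z hz => by rw [H.n3 z hz]) h
  have i4 : ∀ z : ℂ, 2 ≤ ‖z‖ → |H.L4 z| ≤ A * √(‖z‖⁻¹) := fun z h =>
    plc_inv z4 (fun z hz => by rw [H.n4 z hz, abs_neg]) h
  -- near `1`
  have o2 : ∀ z : ℂ, z ≠ 1 → ‖1 - z‖ ≤ 1 / 2 → |H.L2 z| ≤ A * √‖1 - z‖ := by
    intro z h1 h
    have h0 : z ≠ 0 := by
      intro h0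
      rw [h0, sub_zero, norm_one] at h
      linarith
    have := z2 (1 - z) (sub_ne_zero.2 (Ne.symm h1)) h
    rwa [plc_refl2 H z h0 h1, abs_neg] at this
  have o3 : ∀ z : ℂ, z ≠ 1 → ‖1 - z‖ ≤ 1 / 3 → |H.L3 z - c| ≤ 3 * A * √‖1 - z‖ := by
    intro z h1 h
    obtain ⟨h0, ha, hb, hi⟩ := plc_near h
    have e1 := z3 (1 - z) (sub_ne_zero.2 (Ne.symm h1)) (by linarith)
    have e2 : ‖1 - z⁻¹‖ ≤ 3 / 2 * ‖1 - z‖ := by
      have : (1 - z⁻¹ : ℂ) = -((1 - z) * z⁻¹) := by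
        field_simp
        ring
      rw [this, norm_neg, norm_mul, mul_comm]
      exact mul_le_mul_of_nonneg_right hi (norm_nonneg _)
    have e3 := z3 (1 - z⁻¹) (by
      intro h2
      apply h1
      have : z⁻¹ = 1 := by linear_combination -h2
      exact inv_eq_one.1 this) (by linarith)
    have e4 : √‖1 - z⁻¹‖ ≤ 2 * √‖1 - z‖ := by
      have h4 : √(4 * ‖1 - z‖) = 2 * √‖1 - z‖ := by
        rw [Real.sqrt_mul (by norm_num), show (4 : ℝ) = 2 ^ 2 by norm_num,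
          Real.sqrt_sq (by norm_num)]
      rw [← h4]
      exact Real.sqrt_le_sqrt (by linarith [norm_nonneg (1 - z)])
    have e5 : H.L3 z - c = -(H.L3 (1 - z) + H.L3 (1 - z⁻¹)) := by
      linarith [hc z h0 h1]
    rw [e5, abs_neg]
    refine (abs_add_le _ _).trans ?_
    have e6 : A * √‖1 - z⁻¹‖ ≤ A * (2 * √‖1 - z‖) := mul_le_mul_of_nonneg_left e4 hA0
    linarith
  obtain ⟨B, hB⟩ : ∃ B, B = |c| + 3 * A := ⟨_, rfl⟩
  have hB0 : 0 ≤ B := by rw [hB]; positivity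
  have o3b : ∀ z : ℂ, z ≠ 1 → ‖1 - z‖ ≤ 1 / 3 → |H.L3 z| ≤ B := by
    intro z h1 h
    have h2 := o3 z h1 h
    have h3 := hs1 ‖1 - z‖ (by linarith)
    have h4 : |H.L3 z| ≤ |H.L3 z - c| + |c| := by
      have := abs_add_le (H.L3 z - c) c
      rwa [sub_add_cancel] at this
    have h5 : 3 * A * √‖1 - z‖ ≤ 3 * A * 1 := mul_le_mul_of_nonneg_left h3 (by positivity)
    rw [hB]
    linarith
  have o2b : ∀ z : ℂ, z ≠ 1 → ‖1 - z‖ ≤ 1 / 3 → |H.L2 z| ≤ B := by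
    intro z h1 h
    have h2 := o2 z h1 (by linarith)
    have h3 := hs1 ‖1 - z‖ (by linarith)
    have h5 : A * √‖1 - z‖ ≤ A * 1 := mul_le_mul_of_nonneg_left h3 hA0
    rw [hB]
    linarith [abs_nonneg c]
  have o4 : ∀ z : ℂ, z ≠ 1 → ‖1 - z‖ < 1 / 3 → |H.L4 z| ≤ 2 * B * ‖1 - z‖ :=
    plc_four H hB0 o3b o2b
  have hsq : ∀ x : ℝ, 0 ≤ x → x ≤ 1 → x ≤ √x := fun x h0 h1 => by
    have h2 := hs1 x h1
    have h3 := Real.mul_self_sqrt h0
    nlinarith [Real.sqrt_nonneg x]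
  have o4s : ∀ z : ℂ, z ≠ 1 → ‖1 - z‖ < 1 / 3 → |H.L4 z| ≤ 2 * B * √‖1 - z‖ := fun z h1 h =>
    (o4 z h1 h).trans (mul_le_mul_of_nonneg_left (hsq _ (norm_nonneg _) (by linarith))
      (by positivity))
  -- bounds
  have hAx : ∀ x : ℝ, x ≤ 1 → A * √x ≤ A := fun x hx => by
    have := mul_le_mul_of_nonneg_left (hs1 x hx) hA0
    linarith
  have hinv : ∀ z : ℂ, 2 ≤ ‖z‖ → ‖z‖⁻¹ ≤ 1 := fun z h => inv_le_one_of_one_le₀ (by linarith)
  have hAB : A ≤ 2 * B := by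
    rw [hB]
    linarith [abs_nonneg c]
  obtain ⟨M2, hM20, hM2⟩ := plc_bdd (F := H.L2) (A := 2 * B)
    (fun z h0 h1 => (H.d2 z h0 h1).continuousAt)
    (fun z h0 h => ((z2 z h0 h).trans (hAx _ (by linarith))).trans hAB)
    (fun z h => ((i2 z h).trans (hAx _ (hinv z h))).trans hAB)
    (fun z h1 h => (o2b z h1 h.le).trans (by linarith))
  obtain ⟨M3, hM30, hM3⟩ := plc_bdd (F := H.L3) (A := 2 * B)
    (fun z h0 h1 => (H.d3 z h0 h1).continuousAt)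
    (fun z h0 h => ((z3 z h0 h).trans (hAx _ (by linarith))).trans hAB)
    (fun z h => ((i3 z h).trans (hAx _ (hinv z h))).trans hAB)
    (fun z h1 h => (o3b z h1 h.le).trans (by linarith))
  obtain ⟨M4, hM40, hM4⟩ := plc_bdd (F := H.L4) (A := 2 * B)
    (fun z h0 h1 => (H.d4 z h0 h1).continuousAt)
    (fun z h0 h => ((z4 z h0 h).trans (hAx _ (by linarith))).trans hAB)
    (fun z h => ((i4 z h).trans (hAx _ (hinv z h))).trans hAB)
    (fun z h1 h => (o4 z h1 h).trans (by nlinarith [norm_nonneg (1 - z)]))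
  have q2 := plc_sq (F := H.L2) (φ := fun z => ‖z‖) (A := A) (r := 1 / 2) (by norm_num)
    (fun z => norm_nonneg z) hM2 (fun z h => by
      rcases eq_or_ne z 0 with rfl | h0
      · simp [H.v0.1]
      · exact z2 z h0 h.le)
  have q4 := plc_sq (F := H.L4) (φ := fun z => ‖z‖) (A := A) (r := 1 / 2) (by norm_num)
    (fun z => norm_nonneg z) hM4 (fun z h => by
      rcases eq_or_ne z 0 with rfl | h0
      · simp [H.v0.2.2]
      · exact z4 z h0 h.le)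
  have p2 := plc_sq (F := H.L2) (φ := fun z => ‖1 - z‖) (A := A) (r := 1 / 3) (by norm_num)
    (fun z => norm_nonneg _) hM2 (fun z h => by
      rcases eq_or_ne z 1 with rfl | h1
      · simp [H.r2 1 (by simp)]
      · exact o2 z h1 (by linarith))
  have p4 := plc_sq (F := H.L4) (φ := fun z => ‖1 - z‖) (A := 2 * B) (r := 1 / 3) (by norm_num)
    (fun z => norm_nonneg _) hM4 (fun z h => by
      rcases eq_or_ne z 1 with rfl | h1
      · simp [H.r4 1 (by simp)]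
      · exact o4s z h1 h)
  have s2 := plc_sqi hM2 i2
  have s4 := plc_sqi hM4 i4
  obtain ⟨C, hC⟩ : ∃ C, C = M2 + M3 + M4 + (A ^ 2 + M2 ^ 2 / (1 / 2)) + (A ^ 2 + M4 ^ 2 / (1 / 2)) +
    (A ^ 2 + M2 ^ 2 / (1 / 3)) + ((2 * B) ^ 2 + M4 ^ 2 / (1 / 3)) + (A ^ 2 + 2 * M2 ^ 2) +
    (A ^ 2 + 2 * M4 ^ 2) := ⟨_, rfl⟩
  have k1 : 0 ≤ A ^ 2 + M2 ^ 2 / (1 / 2) := by positivity
  have k2 : 0 ≤ A ^ 2 + M4 ^ 2 / (1 / 2) := by positivity
  have k3 : 0 ≤ A ^ 2 + M2 ^ 2 / (1 / 3) := by positivity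
  have k4 : 0 ≤ (2 * B) ^ 2 + M4 ^ 2 / (1 / 3) := by positivity
  have k5 : 0 ≤ A ^ 2 + 2 * M2 ^ 2 := by positivity
  have k6 : 0 ≤ A ^ 2 + 2 * M4 ^ 2 := by positivity
  have hmul : ∀ {x y t : ℝ}, 0 ≤ t → x ≤ y → x * t ≤ y * t := fun ht h =>
    mul_le_mul_of_nonneg_right h ht
  refine ⟨{
    L2 := H.L2, L3 := H.L3, L4 := H.L4, C := C, c3 := c, d2 := H.d2, d3 := H.d3, d4 := H.d4,
    r2 := H.r2, r4 := H.r4
    b2 := fun z => (hM2 z).trans (by rw [hC]; linarith)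
    b3 := fun z => (hM3 z).trans (by rw [hC]; linarith)
    b4 := fun z => (hM4 z).trans (by rw [hC]; linarith)
    z2 := fun z => (q2 z).trans (hmul (norm_nonneg _) (by rw [hC]; linarith))
    o2 := fun z => (p2 z).trans (hmul (norm_nonneg _) (by rw [hC]; linarith))
    i2 := fun z => (s2 z).trans (by rw [hC]; linarith)
    z4 := fun z => (q4 z).trans (hmul (norm_nonneg _) (by rw [hC]; linarith))
    o4 := fun z => (p4 z).trans (hmul (norm_nonneg _) (by rw [hC]; linarith))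
    i4 := fun z => (s4 z).trans (by rw [hC]; linarith)
    t0 := ?_, t1 := ?_, ti := ?_ }⟩
  · refine plc_tend (A := A) (φ := fun z => ‖z‖) ?_ ?_
    · have : Tendsto (fun z : ℂ => ‖z‖) (𝓝 0) (𝓝 ‖(0 : ℂ)‖) := continuous_norm.tendsto 0
      rw [norm_zero] at this
      exact this.mono_left nhdsWithin_le_nhds
    · have h1 : ∀ᶠ z : ℂ in 𝓝[≠] 0, ‖z‖ < 1 / 2 := by
        have : Tendsto (fun z : ℂ => ‖z‖) (𝓝[≠] 0) (𝓝 ‖(0 : ℂ)‖) :=
          (continuous_norm.tendsto 0).mono_left nhdsWithin_le_nhds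
        rw [norm_zero] at this
        exact this.eventually_lt_const (by norm_num)
      filter_upwards [h1, self_mem_nhdsWithin] with z hz h0
      rw [sub_zero]
      exact z3 z h0 hz.le
  · have h1 : Tendsto (fun z : ℂ => ‖1 - z‖) (𝓝[≠] 1) (𝓝 0) := by
      have : Tendsto (fun z : ℂ => ‖1 - z‖) (𝓝 1) (𝓝 ‖(1 : ℂ) - 1‖) :=
        (continuous_const.sub continuous_id).norm.tendsto 1
      rw [sub_self, norm_zero] at this
      exact this.mono_left nhdsWithin_le_nhds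
    refine plc_tend (A := 3 * A) (φ := fun z => ‖1 - z‖) h1 ?_
    filter_upwards [h1.eventually_lt_const (by norm_num : (0 : ℝ) < 1 / 3), self_mem_nhdsWithin]
      with z hz hz1
    exact o3 z hz1 hz.le
  · have h1 : Tendsto (fun z : ℂ => ‖z‖) (cocompact ℂ) atTop := tendsto_norm_cocompact_atTop
    refine plc_tend (A := A) (φ := fun z => ‖z‖⁻¹) h1.inv_tendsto_atTop ?_
    filter_upwards [h1.eventually_ge_atTop 2] with z hz
    rw [sub_zero]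
    exact i3 z hz

end Pool.Agent.F194.X

end
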