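import Pool.Agent.Work.MP_f194bb_nt.X.Comp
import Pool.Agent.Work.MP_f194bb_nt.X.Lin

/-!
# MP_f194bb_nt, `X_1(11)`: the relations for `L2` and `L3`
-/

set_option autoImplicit false

open scoped ComplexConjugate PeriodPair
open MeasureTheory Filter Topology

noncomputable section

namespace Pool.Agent.F194.X

variable {L : PeriodPair} (P : PolyLog)

private theorem conn (hL : XL L) : IsPreconnected (Cs L)ᶜ :=
  ((Cs_countable hL).isConnected_compl_of_one_lt_rank (by simp)).isPreconnected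

private theorem exists_real (hL : XL L) : ∃ t : ℝ, (t : ℂ) ∉ Cs L := by
  by_contra hcon
  push Not at hcon
  have h1 : (Set.univ : Set ℝ) ⊆ (fun t : ℝ => (t : ℂ)) ⁻¹' Cs L := fun t _ => hcon t
  have h2 : (Set.univ : Set ℝ).Countable :=
    ((Cs_countable hL).preimage Complex.ofReal_injective).mono h1
  exact not_countable_iff.2 (by infer_instance : Uncountable ℝ) (Set.countable_univ_iff.1 h2)

private theorem ff_real (hL : XL L) (t : ℝ) (i : Fin 30) : (ff L i t).im = 0 := by
  rw [← Complex.conj_eq_iff_im]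
  unfold ff mon
  rw [map_mul, map_prod, map_intCast]
  congr 1
  refine Finset.prod_congr rfl fun k _ => ?_
  rw [map_zpow₀, ← U_conj hL, Complex.conj_ofReal]

/-- the derivative of the first sum vanishes -/
private theorem key2 (l p : Fin 4 → ℝ) (m r t : Fin 4) :
    ∑ i, (lin l (eT i) * lin p (wT i) - lin l (wT i) * lin p (eT i)) *
      ((eT i m : ℝ) * ((eT i r : ℝ) * (cT i t : ℝ) - (eT i t : ℝ) * (cT i r : ℝ))) = 0 := by
  have h := lin_five' l p m r t
  rw [← neg_eq_zero, ← h, ← Finset.sum_neg_distrib]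
  exact Finset.sum_congr rfl fun i _ => by ring

private theorem il_cl (φ : Fin 4 → ℂ) (e : Fin 4 → ℤ) (h : ℂ) :
    il (cl φ e) h = lin (fun k => (φ k * h).im) e := by
  simp [cl, lin, Finset.sum_mul, Complex.im_sum, mul_assoc]

private theorem rl_cl (φ : Fin 4 → ℂ) (e : Fin 4 → ℤ) (h : ℂ) :
    rl (cl φ e) h = lin (fun k => (φ k * h).re) e := by
  simp [cl, lin, Finset.sum_mul, Complex.re_sum, mul_assoc]

/-- The derivative vanishes by `lin_five'`; the complement of `Cs` is connected; real points. -/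
theorem psi_zero (hL : XL L) {z : ℂ} (hz : z ∉ Cs L) (m r t : Fin 4) :
    ∑ i, P.L2 (ff L i z) * (eT i m : ℝ) *
      ((eT i r : ℝ) * (cT i t : ℝ) - (eT i t : ℝ) * (cT i r : ℝ)) = 0 := by
  set S : ℂ → ℝ := fun z => ∑ i, P.L2 (ff L i z) * (eT i m : ℝ) *
      ((eT i r : ℝ) * (cT i t : ℝ) - (eT i t : ℝ) * (cT i r : ℝ)) with hS
  have hd : ∀ w, w ∉ Cs L → HasFDerivAt S (0 : ℂ →L[ℝ] ℝ) w := by
    intro w hw
    have h1 : HasFDerivAt S (∑ i, ((eT i m : ℝ) *
        ((eT i r : ℝ) * (cT i t : ℝ) - (eT i t : ℝ) * (cT i r : ℝ))) •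
          (aa L i w • il (cl (du L w) (wT i)) - ww L i w • il (cl (du L w) (eT i)))) w := by
      rw [hS]
      refine HasFDerivAt.fun_sum fun i _ => ?_
      have h2 := (L2_fd P hL hw i).mul_const ((eT i m : ℝ) *
        ((eT i r : ℝ) * (cT i t : ℝ) - (eT i t : ℝ) * (cT i r : ℝ)))
      simpa only [mul_assoc] using h2
    refine h1.congr_fderiv (ContinuousLinearMap.ext fun h => ?_)
    simp only [ContinuousLinearMap.sum_apply, ContinuousLinearMap.smul_apply,
      ContinuousLinearMap.sub_apply, il_cl, smul_eq_mul, ContinuousLinearMap.zero_apply]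
    rw [← key2 (lu L w) (fun k => (du L w k * h).im) m r t]
    exact Finset.sum_congr rfl fun i _ => by rw [aa, ww]; ring
  obtain ⟨x, hx⟩ := exists_real hL
  have h0 : S x = 0 := by
    rw [hS]
    refine Finset.sum_eq_zero fun i _ => ?_
    rw [P.r2 _ (ff_real hL x i), zero_mul, zero_mul]
  have h3 : S z = S x := (Cs_closed hL).isOpen_compl.is_const_of_fderiv_eq_zero (conn hL)
    (fun w hw => (hd w hw).differentiableAt.differentiableWithinAt)
    (fun w hw => (hd w hw).fderiv) hz hx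
  rw [h0] at h3
  exact h3

/-! ### the value at the cusp `0` -/

private def nv : Fin 4 → ℕ := ![2, 2, 3, 3]

private theorem lead (k : Fin 4) : Tendsto (fun z => z ^ nv k * U L k z) (𝓝[≠] 0)
    (𝓝 ((![1, 1, -1, -1] : Fin 4 → ℂ) k)) := by
  obtain ⟨h0, h1, h2, h3⟩ := lead_zero (L := L)
  fin_cases k
  · exact h0
  · exact h1
  · exact h2
  · exact h3

private theorem lead_mon (e : Fin 4 → ℤ) :
    Tendsto (fun z => mon (fun k => z ^ nv k * U L k z) e) (𝓝[≠] 0) (𝓝 ((-1) ^ (e 2 + e 3))) := by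
  have h1 : ∀ k ∈ (Finset.univ : Finset (Fin 4)),
      Tendsto (fun z => (z ^ nv k * U L k z) ^ e k) (𝓝[≠] 0)
        (𝓝 ((![1, 1, -1, -1] : Fin 4 → ℂ) k ^ e k)) := by
    intro k _
    refine (lead k).zpow₀ (e k) (Or.inl ?_)
    fin_cases k <;> simp
  have h2 := tendsto_finsetProd _ h1
  have h3 : ∏ k, (![1, 1, -1, -1] : Fin 4 → ℂ) k ^ e k = (-1) ^ (e 2 + e 3) := by
    rw [Fin.prod_univ_four, zpow_add₀ (by norm_num)]
    simp
  rw [h3] at h2
  exact h2

private theorem mon_lead {z : ℂ} (hz : z ≠ 0) (e : Fin 4 → ℤ) :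
    mon (fun k => U L k z) e = mon (fun k => z ^ nv k * U L k z) e * z ^ ord0 e := by
  have h : z ^ ord0 e = ∏ k, ((z ^ nv k)⁻¹) ^ e k := by
    rw [Fin.prod_univ_four, ord0]
    simp only [nv, Matrix.cons_val_zero, Matrix.cons_val_one, Matrix.cons_val]
    simp only [← zpow_natCast, ← zpow_neg, ← zpow_mul, ← zpow_add₀ hz]
    congr 1
    push_cast
    ring
  rw [h, mon, mon, ← Finset.prod_mul_distrib]
  refine Finset.prod_congr rfl fun k _ => ?_
  rw [← mul_zpow]
  congr 1
  field_simp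

private theorem ev_ne (hL : XL L) : ∀ᶠ z in 𝓝[≠] (0 : ℂ), z ∉ Cs L := Cs_isolated hL 0

private theorem L3_lim (hL : XL L) (i : Fin 30) : Tendsto (fun z => P.L3 (ff L i z)) (𝓝[≠] 0)
    (𝓝 (if ord0 (eT i) = 0 then P.c3 else 0)) := by
  have h1 := lead_mon (L := L) (eT i)
  have hne : ((-1 : ℂ) ^ (eT i 2 + eT i 3)) ≠ 0 := zpow_ne_zero _ (by norm_num)
  have hff : (fun z => (sT i : ℂ) * (mon (fun k => z ^ nv k * U L k z) (eT i) *
      z ^ ord0 (eT i))) =ᶠ[𝓝[≠] 0] ff L i := by
    filter_upwards [self_mem_nhdsWithin] with z hz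
    rw [ff, mon_lead hz]
  have hs : (sT i : ℂ) ≠ 0 := by rcases sT_sq i with h | h <;> rw [h] <;> norm_num
  rcases lt_trichotomy (ord0 (eT i)) 0 with ho | ho | ho
  · -- pole
    rw [if_neg ho.ne]
    refine P.ti.comp ?_
    rw [← Metric.cobounded_eq_cocompact, ← tendsto_norm_atTop_iff_cobounded]
    have h2 : Tendsto (fun z : ℂ => ‖z ^ ord0 (eT i)‖) (𝓝[≠] 0) atTop := by
      have h3 : Tendsto (fun z : ℂ => z ^ (-ord0 (eT i)).toNat) (𝓝[≠] 0) (𝓝[≠] 0) := by
        rw [tendsto_nhdsWithin_iff]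
        constructor
        · have h4 : ((0 : ℂ) ^ (-ord0 (eT i)).toNat) = 0 := zero_pow (by omega)
          have h5 : Tendsto (fun z : ℂ => z ^ (-ord0 (eT i)).toNat) (𝓝 0) (𝓝 0) := by
            have := (continuous_pow (M := ℂ) (-ord0 (eT i)).toNat).tendsto 0
            rwa [h4] at this
          exact h5.mono_left nhdsWithin_le_nhds
        · filter_upwards [self_mem_nhdsWithin] with z hz using pow_ne_zero _ hz
      have h4 := tendsto_norm_inv_nhdsNE_zero_atTop.comp h3
      refine h4.congr fun z => ?_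
      simp only [Function.comp]
      rw [← zpow_natCast, Int.toNat_of_nonneg (by omega), ← zpow_neg, neg_neg]
    have h5 : Tendsto (fun z => ‖(sT i : ℂ) * mon (fun k => z ^ nv k * U L k z) (eT i)‖)
        (𝓝[≠] 0) (𝓝 ‖(sT i : ℂ) * (-1) ^ (eT i 2 + eT i 3)‖) :=
      (h1.const_mul _).norm
    have h6 := h5.pos_mul_atTop (norm_pos_iff.2 (mul_ne_zero hs hne)) h2
    refine h6.congr' ?_
    filter_upwards [hff] with z hz
    rw [← hz, ← norm_mul, mul_assoc]
  · rw [if_pos ho]
    have h2 : Tendsto (ff L i) (𝓝[≠] 0) (𝓝[≠] 1) := by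
      rw [tendsto_nhdsWithin_iff]
      constructor
      · have h3 : Tendsto (fun z => (sT i : ℂ) * (mon (fun k => z ^ nv k * U L k z) (eT i) *
            z ^ ord0 (eT i))) (𝓝[≠] 0) (𝓝 1) := by
          have h4 : (sT i : ℂ) * (-1) ^ (eT i 2 + eT i 3) = 1 := by
            have h5 := sign0 i ho
            have h6 : ((-1 : ℂ) ^ (eT i 2 + eT i 3)) = (-1) ^ (eT i 2 + eT i 3).natAbs := by
              rcases Int.natAbs_eq (eT i 2 + eT i 3) with h | h
              · conv_lhs => rw [h, zpow_natCast]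
              · conv_lhs => rw [h, zpow_neg, zpow_natCast, ← inv_pow]
                norm_num
            rw [h6]
            exact_mod_cast h5
          have h7 := h1.const_mul (sT i : ℂ)
          rw [h4] at h7
          refine h7.congr fun z => ?_
          rw [ho, zpow_zero, mul_one]
        exact h3.congr' hff
      · filter_upwards [ev_ne hL] with z hz using ff_ne_one hL hz i
    exact P.t1.comp h2
  · rw [if_neg ho.ne']
    have h2 : Tendsto (ff L i) (𝓝[≠] 0) (𝓝[≠] 0) := by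
      rw [tendsto_nhdsWithin_iff]
      constructor
      · have h3 : Tendsto (fun z : ℂ => z ^ ord0 (eT i)) (𝓝[≠] 0) (𝓝 0) := by
          have h4 : ((0 : ℂ) ^ (ord0 (eT i)).toNat) = 0 := zero_pow (by omega)
          have h5 : Tendsto (fun z : ℂ => z ^ (ord0 (eT i)).toNat) (𝓝 0) (𝓝 0) := by
            have := (continuous_pow (M := ℂ) (ord0 (eT i)).toNat).tendsto 0
            rwa [h4] at this
          refine (h5.mono_left nhdsWithin_le_nhds).congr fun z => ?_
          rw [← zpow_natCast, Int.toNat_of_nonneg ho.le]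
        have h6 := (h1.mul h3).const_mul (sT i : ℂ)
        rw [mul_zero, mul_zero] at h6
        exact h6.congr' hff
      · filter_upwards [ev_ne hL] with z hz using ff_ne hL hz i
    exact P.t0.comp h2

private theorem lin_sum (c : Fin 30 → ℝ) (p : Fin 4 → ℝ) (d : Fin 30 → ℝ)
    (h : ∀ m, ∑ i, c i * (eT i m : ℝ) * d i = 0) : ∑ i, c i * lin p (eT i) * d i = 0 := by
  have h1 : ∀ i, c i * lin p (eT i) * d i = ∑ m, p m * (c i * (eT i m : ℝ) * d i) := by
    intro i
    simp only [lin, Fin.sum_univ_four]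
    ring
  rw [Finset.sum_congr rfl fun i _ => h1 i, Finset.sum_comm]
  refine Finset.sum_eq_zero fun m _ => ?_
  rw [← Finset.mul_sum, h, mul_zero]

/-- The derivative vanishes by `psi_zero` and `lin_five'`; the value at the cusp `0` is
`c3` times `kappa0`. -/
theorem phi_zero (hL : XL L) {z : ℂ} (hz : z ∉ Cs L) (r t : Fin 4) :
    ∑ i, P.L3 (ff L i z) *
      ((eT i r : ℝ) * (cT i t : ℝ) - (eT i t : ℝ) * (cT i r : ℝ)) = 0 := by
  set S : ℂ → ℝ := fun z => ∑ i, P.L3 (ff L i z) *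
      ((eT i r : ℝ) * (cT i t : ℝ) - (eT i t : ℝ) * (cT i r : ℝ)) with hS
  have hd : ∀ w, w ∉ Cs L → HasFDerivAt S (0 : ℂ →L[ℝ] ℝ) w := by
    intro w hw
    have h1 : HasFDerivAt S (∑ i, ((eT i r : ℝ) * (cT i t : ℝ) - (eT i t : ℝ) * (cT i r : ℝ)) •
          (-(P.L2 (ff L i w)) • il (cl (du L w) (eT i)) - (1 / 3 * aa L i w) •
        (aa L i w • rl (cl (du L w) (wT i)) - ww L i w • rl (cl (du L w) (eT i))))) w := by
      rw [hS]
      refine HasFDerivAt.fun_sum fun i _ => ?_
      exact (L3_fd P hL hw i).mul_const _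
    refine h1.congr_fderiv ?_
    ext h
    simp only [ContinuousLinearMap.sum_apply, ContinuousLinearMap.smul_apply,
      ContinuousLinearMap.sub_apply, ContinuousLinearMap.neg_apply, il_cl, rl_cl, smul_eq_mul,
      ContinuousLinearMap.zero_apply]
    have h2 : ∑ i, P.L2 (ff L i w) * lin (fun k => (du L w k * h).im) (eT i) *
        ((eT i r : ℝ) * (cT i t : ℝ) - (eT i t : ℝ) * (cT i r : ℝ)) = 0 :=
      lin_sum _ _ _ fun m => psi_zero P hL hw m r t
    have h3 : ∑ i, (lin (lu L w) (wT i) * lin (fun k => (du L w k * h).re) (eT i) -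
        lin (fun k => (du L w k * h).re) (wT i) * lin (lu L w) (eT i)) *
        lin (lu L w) (eT i) *
        ((eT i r : ℝ) * (cT i t : ℝ) - (eT i t : ℝ) * (cT i r : ℝ)) = 0 :=
      lin_sum _ _ _ fun m => lin_five' _ _ m r t
    have h4 : ∑ i, ((eT i r : ℝ) * (cT i t : ℝ) - (eT i t : ℝ) * (cT i r : ℝ)) *
        (-P.L2 (ff L i w) * lin (fun k => (du L w k * h).im) (eT i) -
          1 / 3 * aa L i w * (aa L i w * lin (fun k => (du L w k * h).re) (wT i) -
            ww L i w * lin (fun k => (du L w k * h).re) (eT i))) =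
        -(∑ i, P.L2 (ff L i w) * lin (fun k => (du L w k * h).im) (eT i) *
        ((eT i r : ℝ) * (cT i t : ℝ) - (eT i t : ℝ) * (cT i r : ℝ))) +
        1 / 3 * ∑ i, (lin (lu L w) (wT i) * lin (fun k => (du L w k * h).re) (eT i) -
        lin (fun k => (du L w k * h).re) (wT i) * lin (lu L w) (eT i)) *
        lin (lu L w) (eT i) *
        ((eT i r : ℝ) * (cT i t : ℝ) - (eT i t : ℝ) * (cT i r : ℝ)) := by
      rw [Finset.mul_sum, ← Finset.sum_neg_distrib, ← Finset.sum_add_distrib]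
      exact Finset.sum_congr rfl fun i _ => by rw [aa, ww]; ring
    rw [h4, h2, h3]
    ring
  have hconst : ∀ w, w ∉ Cs L → S z = S w := fun w hw =>
    (Cs_closed hL).isOpen_compl.is_const_of_fderiv_eq_zero (conn hL)
      (fun w hw => (hd w hw).differentiableAt.differentiableWithinAt)
      (fun w hw => (hd w hw).fderiv) hz hw
  have hlim : Tendsto S (𝓝[≠] 0) (𝓝 (∑ i, (if ord0 (eT i) = 0 then P.c3 else 0) *
      ((eT i r : ℝ) * (cT i t : ℝ) - (eT i t : ℝ) * (cT i r : ℝ)))) :=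
    tendsto_finsetSum _ fun i _ => (L3_lim P hL i).mul_const _
  have h0 : ∑ i, (if ord0 (eT i) = 0 then P.c3 else 0) *
      ((eT i r : ℝ) * (cT i t : ℝ) - (eT i t : ℝ) * (cT i r : ℝ)) = 0 := by
    have h1 := kappa0 r t
    have h2 : ∑ i, (if ord0 (eT i) = 0 then P.c3 else 0) *
        ((eT i r : ℝ) * (cT i t : ℝ) - (eT i t : ℝ) * (cT i r : ℝ)) =
        P.c3 * ((∑ i, (if ord0 (eT i) = 0 then
          (eT i r * cT i t - eT i t * cT i r) else 0) : ℤ) : ℝ) := by
      rw [Int.cast_sum, Finset.mul_sum]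
      refine Finset.sum_congr rfl fun i _ => ?_
      split_ifs <;> push_cast <;> ring
    rw [h2, h1, Int.cast_zero, mul_zero]
  rw [h0] at hlim
  have hc : Tendsto S (𝓝[≠] 0) (𝓝 (S z)) := by
    refine tendsto_const_nhds.congr' ?_
    filter_upwards [ev_ne hL] with w hw using hconst w hw
  exact tendsto_nhds_unique hc hlim

end Pool.Agent.F194.X

end
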