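import Pool.Agent.Work.MP_f194bb_nt.X.Coc
import Pool.Agent.Work.MP_f194bb_nt.X.Ell
import Pool.Agent.Work.MP_f194bb_nt.X.Comp
import Pool.Agent.Work.MP_f194bb_nt.X.Trans
import Pool.Agent.Work.MP_f194bb_nt.Groups

/-!
# MP_f194bb_nt, `X_1(11)`: the field of elliptic functions
-/

set_option autoImplicit false

open scoped ComplexConjugate PeriodPair
open MeasureTheory Filter Topology

noncomputable section

namespace Pool.Agent.F194.X

universe u

variable {L L' : PeriodPair} {K : Type u} [Field K] (ρ : EllRep L' K) {x v : K}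

theorem repE_zero : ρ.ev 0 =ᶠ[codiscrete ℂ] 0 := by
  have h1 := ρ.map_add 0 0
  rw [add_zero] at h1
  filter_upwards [h1] with z hz
  rw [Pi.add_apply] at hz
  rw [Pi.zero_apply]
  linear_combination -hz

theorem repE_neg (a : K) : ρ.ev (-a) =ᶠ[codiscrete ℂ] fun z => -ρ.ev a z := by
  have h1 := ρ.map_add (-a) a
  rw [neg_add_cancel] at h1
  filter_upwards [h1, repE_zero ρ] with z hz hz1
  rw [Pi.add_apply, hz1, Pi.zero_apply] at hz
  linear_combination -hz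

theorem repE_add (a b : K) : ρ.ev (a + b) =ᶠ[codiscrete ℂ] fun z => ρ.ev a z + ρ.ev b z :=
  ρ.map_add a b

theorem repE_mul (a b : K) : ρ.ev (a * b) =ᶠ[codiscrete ℂ] fun z => ρ.ev a z * ρ.ev b z :=
  ρ.map_mul a b

theorem repE_sub (a b : K) : ρ.ev (a - b) =ᶠ[codiscrete ℂ] fun z => ρ.ev a z - ρ.ev b z := by
  rw [sub_eq_add_neg]
  filter_upwards [repE_add ρ a (-b), repE_neg ρ b] with z h1 h2
  rw [h1, h2, sub_eq_add_neg]

theorem repE_pow (a : K) (n : ℕ) : ρ.ev (a ^ n) =ᶠ[codiscrete ℂ] fun z => ρ.ev a z ^ n := by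
  induction n with
  | zero =>
    filter_upwards [ρ.map_one] with z h
    rw [pow_zero, pow_zero, h, Pi.one_apply]
  | succ n ih =>
    filter_upwards [ih, repE_mul ρ (a ^ n) a] with z h1 h2
    rw [pow_succ, h2, h1, pow_succ]

theorem repE_inv (a : K) : ρ.ev a⁻¹ =ᶠ[codiscrete ℂ] fun z => (ρ.ev a z)⁻¹ := by
  by_cases ha : a = 0
  · subst ha
    filter_upwards [repE_zero ρ] with z h
    rw [inv_zero, h, Pi.zero_apply, inv_zero]
  · have h1 := repE_mul ρ a a⁻¹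
    rw [mul_inv_cancel₀ ha] at h1
    filter_upwards [h1, ρ.map_one] with z hz hz1
    rw [hz1, Pi.one_apply] at hz
    exact eq_inv_of_mul_eq_one_right hz.symm

theorem repE_zpow (a : K) (n : ℤ) : ρ.ev (a ^ n) =ᶠ[codiscrete ℂ] fun z => ρ.ev a z ^ n := by
  cases n with
  | ofNat n =>
    simp only [Int.ofNat_eq_natCast, zpow_natCast]
    exact repE_pow ρ a n
  | negSucc n =>
    filter_upwards [repE_inv ρ (a ^ (n + 1)), repE_pow ρ a (n + 1)] with z h1 h2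
    rw [zpow_negSucc, zpow_negSucc, h1, h2]

theorem repE_nat (n : ℕ) : ρ.ev (n : K) =ᶠ[codiscrete ℂ] fun _ => (n : ℂ) := by
  induction n with
  | zero =>
    filter_upwards [repE_zero ρ] with z h
    rw [Nat.cast_zero, Nat.cast_zero, h, Pi.zero_apply]
  | succ n ih =>
    filter_upwards [ih, repE_add ρ (n : K) 1, ρ.map_one] with z h1 h2 h3
    rw [Nat.cast_add, Nat.cast_one, h2, h1, h3, Pi.one_apply, Nat.cast_add, Nat.cast_one]

theorem repE_int (n : ℤ) : ρ.ev (n : K) =ᶠ[codiscrete ℂ] fun _ => (n : ℂ) := by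
  cases n with
  | ofNat n =>
    simp only [Int.ofNat_eq_natCast, Int.cast_natCast]
    exact repE_nat ρ n
  | negSucc n =>
    filter_upwards [repE_neg ρ ((n + 1 : ℕ) : K), repE_nat ρ (n + 1)] with z h1 h2
    rw [Int.cast_negSucc, Int.cast_negSucc, h1, h2]

theorem repE_ne {a : K} {f : ℂ → ℂ} (h : ρ.ev a =ᶠ[codiscrete ℂ] f) (hf : NZ f) : a ≠ 0 := by
  rintro rfl
  apply hf 0
  rw [← order_congr h, order_congr (repE_zero ρ), meromorphicOrderAt_eq_top_iff]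
  exact Filter.Eventually.of_forall fun _ => rfl

/-- off the cusps -/
theorem repE_notCs (hL : XL L) : ∀ᶠ z in codiscrete ℂ, z ∉ Cs L := by
  rw [Filter.Eventually, mem_codiscrete]
  intro x
  rw [Filter.disjoint_principal_right, compl_compl]
  exact Cs_isolated hL x

/-- the equation of the curve holds in `K` -/
theorem rep_curve (hL : XL L) (hx : ρ.ev x =ᶠ[codiscrete ℂ] px L)
    (hv : ρ.ev v =ᶠ[codiscrete ℂ] pv L) : v * (v + 1) = x * (x + 1) ^ 2 := by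
  by_contra hne
  have h0 : v * (v + 1) - x * (x + 1) ^ 2 ≠ 0 := sub_ne_zero.2 hne
  apply ρ.nz h0 0
  have h1 : ρ.ev (v * (v + 1) - x * (x + 1) ^ 2) =ᶠ[codiscrete ℂ] 0 := by
    filter_upwards [hx, hv, repE_sub ρ (v * (v + 1)) (x * (x + 1) ^ 2), repE_mul ρ v (v + 1),
      repE_add ρ v 1, repE_mul ρ x ((x + 1) ^ 2), repE_pow ρ (x + 1) 2, repE_add ρ x 1, ρ.map_one,
      repE_notCs hL] with z a1 a2 a3 a4 a5 a6 a7 a8 a9 a10
    rw [a3, a4, a5, a6, a7, a8, a9, a1, a2, Pi.zero_apply, Pi.one_apply,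
      curve hL fun h => a10 (Or.inl h), sub_self]
  rw [order_congr h1, meromorphicOrderAt_eq_top_iff]
  exact Filter.Eventually.of_forall fun _ => rfl

theorem rep_x (hL : XL L) (hx : ρ.ev x =ᶠ[codiscrete ℂ] px L) : x ≠ 0 :=
  repE_ne ρ hx (U_nz hL 0)

theorem rep_x1 (hL : XL L) (hx : ρ.ev x =ᶠ[codiscrete ℂ] px L) : x + 1 ≠ 0 := by
  refine repE_ne ρ (f := U L 1) ?_ (U_nz hL 1)
  filter_upwards [hx, repE_add ρ x 1, ρ.map_one] with z a1 a2 a3
  rw [a2, a1, a3, Pi.one_apply]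
  rfl

/-- the four units correspond -/
theorem rep_U (hx : ρ.ev x =ᶠ[codiscrete ℂ] px L)
    (hv : ρ.ev v =ᶠ[codiscrete ℂ] pv L) (k : Fin 4) :
    ρ.ev (uv x v k) =ᶠ[codiscrete ℂ] U L k := by
  fin_cases k
  · exact hx
  · show ρ.ev (x + 1) =ᶠ[codiscrete ℂ] U L 1
    filter_upwards [hx, repE_add ρ x 1, ρ.map_one] with z a1 a2 a3
    rw [a2, a1, a3, Pi.one_apply]
    rfl
  · show ρ.ev (v - x) =ᶠ[codiscrete ℂ] U L 2
    filter_upwards [hx, hv, repE_sub ρ v x] with z a1 a2 a3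
    rw [a3, a1, a2]
    rfl
  · exact hv

/-- monomials correspond -/
theorem rep_mon (hL : XL L) (hx : ρ.ev x =ᶠ[codiscrete ℂ] px L)
    (hv : ρ.ev v =ᶠ[codiscrete ℂ] pv L) (s : ℤ) (e : Fin 4 → ℤ) :
    ρ.ev ((s : K) * mon (uv x v) e) =ᶠ[codiscrete ℂ]
      fun z => (s : ℂ) * mon (fun k => U L k z) e := by
  have hz : ∀ k, ρ.ev (uv x v k ^ e k) =ᶠ[codiscrete ℂ] fun z => U L k z ^ e k := by
    intro k
    filter_upwards [repE_zpow ρ (uv x v k) (e k), rep_U ρ hx hv k] with z h1 h2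
    rw [h1, h2]
  have hm : ρ.ev (mon (uv x v) e) =ᶠ[codiscrete ℂ] fun z => mon (fun k => U L k z) e := by
    unfold mon
    simp only [Fin.prod_univ_four]
    filter_upwards [hz 0, hz 1, hz 2, hz 3,
      repE_mul ρ (uv x v 0 ^ e 0 * uv x v 1 ^ e 1 * uv x v 2 ^ e 2) (uv x v 3 ^ e 3),
      repE_mul ρ (uv x v 0 ^ e 0 * uv x v 1 ^ e 1) (uv x v 2 ^ e 2),
      repE_mul ρ (uv x v 0 ^ e 0) (uv x v 1 ^ e 1)] with z a0 a1 a2 a3 b1 b2 b3
    rw [b1, b2, b3, a0, a1, a2, a3]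
  filter_upwards [repE_mul ρ (s : K) (mon (uv x v) e), repE_int ρ s, hm] with z h1 h2 h3
  rw [h1, h2, h3]

/-- monomials of norm one -/
private theorem nrm_shift {s : ℝ} (h1 : ∀ z, z ∉ Cs L → z + s ∉ Cs L)
    (h2 : ∀ z, z ∉ Cs L → ∀ k, U L k (z + s) =
      (tauS k : ℂ) * mon (fun j => U L j z) (tauM k)) (hL : XL L) (e : Fin 4 → ℤ)
    (he : ∀ z, z ∉ Cs L → ‖mon (fun k => U L k z) e‖ = 1) :
    ∀ z, z ∉ Cs L → ‖mon (fun k => U L k z) (fun k => ∑ j, e j * tauM j k)‖ = 1 := by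
  intro z hz
  rw [← he _ (h1 z hz)]
  unfold mon
  rw [norm_prod, norm_prod]
  have hk : ∀ k, ‖U L k (z + s) ^ e k‖ = ∏ j, ‖U L j z‖ ^ (e k * tauM k j) := by
    intro k
    have hs : ‖(tauS k : ℂ)‖ = 1 := by
      fin_cases k <;> simp [tauS]
    rw [h2 z hz k, norm_zpow, norm_mul, hs, one_mul, mon, norm_prod, ← Finset.prod_zpow]
    refine Finset.prod_congr rfl fun j _ => ?_
    rw [norm_zpow, ← zpow_mul, mul_comm (tauM k j)]
  simp only [hk]
  rw [Finset.prod_comm]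
  refine Finset.prod_congr rfl fun j _ => ?_
  rw [norm_zpow]
  have h0 : ‖U L j z‖ ≠ 0 := norm_ne_zero_iff.2 (U_ne hL hz j)
  simp only [Fin.sum_univ_four, Fin.prod_univ_four, zpow_add₀ h0]

private theorem nrm_ord (hL : XL L) (e : Fin 4 → ℤ)
    (he : ∀ z, z ∉ Cs L → ‖mon (fun k => U L k z) e‖ = 1) : ord0 e = 0 := by
  obtain ⟨N, hN⟩ : ∃ N : ℤ, N = 2 * e 0 + 2 * e 1 + 3 * e 2 + 3 * e 3 := ⟨_, rfl⟩
  have hN' : ord0 e = -N := by rw [ord0, hN]
  obtain ⟨l0, l1, l2, l3⟩ := lead_zero (L := L)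
  have t0 := (l0.norm.zpow₀ (e 0) (Or.inl (by simp)))
  have t1 := (l1.norm.zpow₀ (e 1) (Or.inl (by simp)))
  have t2 := (l2.norm.zpow₀ (e 2) (Or.inl (by simp)))
  have t3 := (l3.norm.zpow₀ (e 3) (Or.inl (by simp)))
  have t := ((t0.mul t1).mul t2).mul t3
  simp only [norm_one, norm_neg, one_zpow, mul_one] at t
  have hlim : Tendsto (fun z : ℂ => ‖z‖ ^ N) (𝓝[≠] 0) (𝓝 1) := by
    refine t.congr' ?_
    filter_upwards [Cs_isolated hL 0, self_mem_nhdsWithin] with z hz hz0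
    have hz1 : ‖z‖ ≠ 0 := norm_ne_zero_iff.2 hz0
    have h1 := he z hz
    rw [mon, Fin.prod_univ_four, norm_mul, norm_mul, norm_mul, norm_zpow, norm_zpow, norm_zpow,
      norm_zpow] at h1
    rw [norm_mul, norm_mul, norm_mul, norm_mul, norm_pow, norm_pow, mul_zpow, mul_zpow, mul_zpow,
      mul_zpow, ← zpow_natCast ‖z‖ 2, ← zpow_natCast ‖z‖ 3, ← zpow_mul, ← zpow_mul, ← zpow_mul,
      ← zpow_mul, hN, zpow_add₀ hz1, zpow_add₀ hz1, zpow_add₀ hz1]
    push_cast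
    linear_combination (‖z‖ ^ (2 * e 0) * ‖z‖ ^ (2 * e 1) * ‖z‖ ^ (3 * e 2) *
      ‖z‖ ^ (3 * e 3)) * h1
  have hpos : ∀ M : ℤ, 0 < M → ¬ Tendsto (fun z : ℂ => ‖z‖ ^ M) (𝓝[≠] 0) (𝓝 1) := by
    intro M hM h
    obtain ⟨m, rfl⟩ := Int.eq_ofNat_of_zero_le hM.le
    have hm : m ≠ 0 := by
      rintro rfl
      simp at hM
    have h0 : Tendsto (fun z : ℂ => ‖z‖ ^ (m : ℤ)) (𝓝[≠] 0) (𝓝 0) := by
      have hc : Continuous fun z : ℂ => ‖z‖ ^ m := continuous_norm.pow m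
      have h1 := hc.tendsto 0
      rw [norm_zero, zero_pow hm] at h1
      simp only [zpow_natCast]
      exact h1.mono_left nhdsWithin_le_nhds
    exact one_ne_zero (tendsto_nhds_unique h h0)
  rcases lt_trichotomy N 0 with h | h | h
  · exfalso
    apply hpos (-N) (by omega)
    have h2 := hlim.inv₀ one_ne_zero
    rw [inv_one] at h2
    refine h2.congr fun z => ?_
    rw [zpow_neg]
  · rw [hN', h, neg_zero]
  · exact absurd hlim (hpos N h)

/-- The divisors of the four units are independent (`ord` at `0, s, 2s, 3s, 4s`), so monomials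
with `e ≠ 0` are not constant. -/
theorem rep_ne (hL : XL L) (hx : ρ.ev x =ᶠ[codiscrete ℂ] px L)
    (hv : ρ.ev v =ᶠ[codiscrete ℂ] pv L) (e : Fin 4 → ℤ) (he : e ≠ 0) :
    mon (uv x v) e ≠ 1 ∧ mon (uv x v) e ≠ -1 := by
  obtain ⟨s, h1, h2, -, -⟩ := exists_shift hL
  have key : ∀ c : ℤ, (c = 1 ∨ c = -1) → mon (uv x v) e ≠ (c : K) := by
    intro c hc h
    have hc1 : ‖(c : ℂ)‖ = 1 := by
      rcases hc with rfl | rfl <;> simp
    have a1 := rep_mon ρ hL hx hv 1 e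
    rw [h] at a1
    have a2 : (fun z => ‖mon (fun k => U L k z) e‖) =ᶠ[codiscrete ℂ] fun _ => (1 : ℝ) := by
      have a3 := repE_int ρ c
      have a4 : ρ.ev (((1 : ℤ) : K) * (c : K)) =ᶠ[codiscrete ℂ] fun _ => (c : ℂ) := by
        rw [Int.cast_one, one_mul]
        exact a3
      filter_upwards [a1, a4] with z b1 b2
      rw [b2, Int.cast_one, one_mul] at b1
      rw [← b1, hc1]
    have P0 : ∀ z, z ∉ Cs L → ‖mon (fun k => U L k z) e‖ = 1 := by
      intro z hz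
      have hcont : ContinuousAt (fun w => ‖mon (fun k => U L k w) e‖) z := by
        unfold mon
        refine ContinuousAt.norm ?_
        exact tendsto_finsetProd _ fun k _ =>
          (U_an hz k).continuousAt.zpow₀ (e k) (Or.inl (U_ne hL hz k))
      have b1 : Tendsto (fun w => ‖mon (fun k => U L k w) e‖) (𝓝[≠] z)
          (𝓝 ‖mon (fun k => U L k z) e‖) := hcont.tendsto.mono_left nhdsWithin_le_nhds
      have b2 : (fun w => ‖mon (fun k => U L k w) e‖) =ᶠ[𝓝[≠] z] fun _ => (1 : ℝ) := by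
        have h3 : {w | ‖mon (fun k => U L k w) e‖ = 1} ∈ codiscrete ℂ := a2
        rw [mem_codiscrete] at h3
        have h4 := h3 z
        rw [Filter.disjoint_principal_right, compl_compl] at h4
        exact h4
      exact tendsto_nhds_unique b1 (tendsto_const_nhds.congr' b2.symm)
    have P1 := nrm_shift h1 h2 hL e P0
    have P2 := nrm_shift h1 h2 hL _ P1
    have P3 := nrm_shift h1 h2 hL _ P2
    exact he (ord_indep e (nrm_ord hL _ P0) (nrm_ord hL _ P1) (nrm_ord hL _ P2)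
      (nrm_ord hL _ P3))
  constructor
  · have := key 1 (Or.inl rfl)
    rwa [Int.cast_one] at this
  · have := key (-1) (Or.inr rfl)
    rwa [Int.cast_neg, Int.cast_one] at this

theorem rep_dv_f (hL : XL L) (hx : ρ.ev x =ᶠ[codiscrete ℂ] px L)
    (hv : ρ.ev v =ᶠ[codiscrete ℂ] pv L) (i : Fin 30) :
    ρ.ev (fK (rep_curve ρ hL hx hv) (rep_x ρ hL hx) (rep_x1 ρ hL hx) i : K) =ᶠ[codiscrete ℂ]
      ff L i := by
  rw [fK_val]
  exact rep_mon ρ hL hx hv _ _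

theorem rep_dv_h (hL : XL L) (hx : ρ.ev x =ᶠ[codiscrete ℂ] px L)
    (hv : ρ.ev v =ᶠ[codiscrete ℂ] pv L) (i : Fin 30) :
    ρ.ev (1 - (fK (rep_curve ρ hL hx hv) (rep_x ρ hL hx) (rep_x1 ρ hL hx) i : K))
      =ᶠ[codiscrete ℂ] hh L i := by
  rw [one_sub_fK]
  exact rep_mon ρ hL hx hv _ _

theorem repE_dv_pow {a : K} (ha : a ≠ 0) (N : ℕ) :
    dv (ρ.ev (a ^ N)) = fun z => (N : ℤ) * dv (ρ.ev a) z := by
  induction N with
  | zero =>
    rw [pow_zero, ρ.dv_one]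
    funext z
    simp
  | succ N ih =>
    rw [pow_succ, ρ.dv_mul (pow_ne_zero N ha) ha, ih]
    funext z
    rw [Pi.add_apply]
    push_cast
    ring

theorem rep_dv_g (hL : XL L) (hx : ρ.ev x =ᶠ[codiscrete ℂ] px L)
    (hv : ρ.ev v =ᶠ[codiscrete ℂ] pv L) (N : ℕ) (i : Fin 30) :
    dv (ρ.ev (gK (rep_curve ρ hL hx hv) (rep_x ρ hL hx) (rep_x1 ρ hL hx) N i : K)) =
      fun z => (N : ℤ) * dv (gg L i) z := by
  have h0 : mon (uv x v) (cT i) ≠ 0 := Finset.prod_ne_zero_iff.2 fun k _ =>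
    zpow_ne_zero _ (uv_ne (rep_curve ρ hL hx hv) (rep_x ρ hL hx) (rep_x1 ρ hL hx) k)
  have h1 : ρ.ev (mon (uv x v) (cT i)) =ᶠ[codiscrete ℂ] gg L i := by
    have h2 := rep_mon ρ hL hx hv 1 (cT i)
    rw [Int.cast_one, one_mul] at h2
    filter_upwards [h2] with z hz
    rw [hz, Int.cast_one, one_mul]
    rfl
  rw [gK_val, repE_dv_pow ρ h0, dv_congr h1]

end Pool.Agent.F194.X

end
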